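import Pool.Agent.P.MP_9c97e9_nt.All.Main

/-! The converse theorem for the short Weierstrass model. -/

namespace Pool.Agent.P.MP_9c97e9_nt.All

open Pool.Agent.P.MP_8b7eba_nt Pool.Agent.P.MP_8b7eba_nt.BSD15 Classical

variable {n : ℕ}

theorem conv_L (hn : Squarefree n) (h4 : n % 4 = 3) :
    ∃ f, BSD15.IsL (-12987 * (n : ℤ) ^ 2) (263466 * (n : ℤ) ^ 3) f ∧ (lam n ≠ 0 → f 1 ≠ 0) := by
  have hodd : Odd n := Nat.odd_iff.2 (by omega)
  obtain ⟨τ, hτ, hG⟩ := BSD15.exists_gauss (n := n) (by omega) hodd hn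
  obtain ⟨L, h1, h2, h6⟩ := Mod.exists_L (χ := Mod.chi n) hτ (Mod.norm_chi _) hG
  have := Mod.isL_twist (D := -n) (by omega) h1 (by simpa using h2)
  rw [neg_sq, show -263466 * (-n : ℤ) ^ 3 = 263466 * n ^ 3 by ring] at this
  refine ⟨_, this, fun hl => mul_ne_zero (right_ne_zero_of_mul (a := τ) ?_) (Mod.bad_one_ne _)⟩
  rw [h6, l_euler_sum (by omega) (mLS n (by omega) hodd hn)]
  exact mul_ne_zero (by exact_mod_cast hl) (euler_unit_ne n)

theorem conv_loc {K : Type} [Field K] [CharZero K] {d₁ d₂ : K} :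
    Loc K (21 * n) (102 * n) (-123 * n) d₁ d₂ ↔ Loc K 0 (9 * n / 4) (-4 * n) d₁ d₂ := by
  refine or_congr_right ⟨fun ⟨x, a, b, c, h1, h2, h3⟩ => ⟨(x - 21 * n) / 36, a / 6, b / 6, c / 6,
    by linear_combination h1 / 36, by linear_combination h2 / 36, by linear_combination h3 / 36⟩,
    fun ⟨x, a, b, c, h1, h2, h3⟩ => ⟨36 * x + 21 * n, 6 * a, 6 * b, 6 * c,
    by linear_combination 36 * h1, by linear_combination 36 * h2, by linear_combination 36 * h3⟩⟩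

theorem conv_fin (h4 : n % 4 = 3) (h : {q : ℚ × ℚ | q.2 ^ 2 =
    q.1 ^ 3 + -12987 * (n : ℚ) ^ 2 * q.1 + 263466 * (n : ℚ) ^ 3}.Finite) :
    Finite (Pt (tw n) ℚ) := by
  have hs := split_tw h4 ℚ
  rw [← Set.finite_univ_iff]
  refine (((h.image fun q => ((q.1 - 21 * n) / 36 : ℚ)).biUnion fun x _ => g3_fib hs x).insert 0).subset
    fun P _ => ?_
  rcases zero_or_is P with rfl | ⟨x, η, hP⟩
  · exact .inl rfl
  refine .inr (Set.mem_biUnion (x := x) ⟨(36 * x + 21 * n, 108 * η), ?_, by ring⟩ ⟨η, hP⟩)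
  simp only [Set.mem_setOf_eq]
  linear_combination 11664 * hP.eq hs

theorem conv_lam (hn : Squarefree n) (h4 : n % 4 = 3) (h : {q : ℚ × ℚ | q.2 ^ 2 =
    q.1 ^ 3 + -12987 * (n : ℚ) ^ 2 * q.1 + 263466 * (n : ℚ) ^ 3}.Finite)
    (hs : ∀ x : Sha ⟨0, 0, 0, -12987 * (n : ℤ) ^ 2, 263466 * (n : ℤ) ^ 3⟩, x + x = 0 → x = 0) :
    lam n ≠ 0 := by
  have h0 : (n : ℚ) ≠ 0 := by exact_mod_cast hn.ne_zero
  have hf := conv_fin h4 h
  have hW : Split ⟨0, 0, 0, -12987 * (n : ℤ) ^ 2, 263466 * (n : ℤ) ^ 3⟩ (21 * n : ℚ) (102 * n)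
      (-123 * n) := ⟨two_ne_zero, fun e => h0 (by linear_combination -e / 81),
    fun e => h0 (by linear_combination e / 144), fun e => h0 (by linear_combination e / 225),
    by push_cast; ring, by push_cast; ring, by push_cast; ring⟩
  have hT : SelTriv n := fun d₂ d₃ h2 h3 H => g3_mp h4 h2 (conv_loc.1
    (aG2 _ _ _ _ hW hs _ _ (mul_ne_zero h2 h3) h2 (by simpa using conv_loc.2 H.1)
      fun p _ => by simpa using conv_loc.2 (H.2 p)))
  obtain ⟨v, hv, hv'⟩ := sV n hn h4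
  intro e
  rw [e, mul_zero, eq_comm, mul_eq_zero, Nat.cast_eq_zero, or_iff_left (TP_ne_zero n),
    pow_eq_zero_iff two_ne_zero] at hv
  exact absurd (hv ▸ hv'.2 ((sA n hn h4).2 hT)) (by decide)

end Pool.Agent.P.MP_9c97e9_nt.All
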