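import Pool.Agent.P.MP_9c97e9_nt.All.Defs

/-! Minimality, the Euler product and the central value for all `n ≡ 3 (mod 4)`. -/

namespace Pool.Agent.P.MP_9c97e9_nt.All

section
open Pool.Agent.P.MP_8b7eba_nt Complex WeierstrassCurve Finset

lemma l_not_dvd {n : ℕ} (hn : Squarefree n) {p : ℕ} (hp : p.Prime) :
    ¬ p ^ 12 ∣ 15 ^ 4 * n ^ 6 := by
  intro h
  have h15 : Squarefree 15 := by
    rw [show 15 = 3 * 5 by rfl]
    exact (Nat.squarefree_mul (by norm_num)).2 ⟨Nat.prime_three.squarefree, Nat.prime_five.squarefree⟩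
  have h0 := hn.ne_zero
  have h1 := (hp.pow_dvd_iff_le_factorization (by positivity)).1 h
  rw [Nat.factorization_mul (by positivity) (by positivity), Nat.factorization_pow,
    Nat.factorization_pow] at h1
  have h2 := h15.natFactorization_le_one p
  have h3 := hn.natFactorization_le_one p
  simp only [Finsupp.add_apply, Finsupp.smul_apply, smul_eq_mul] at h1
  omega

theorem l_minimal {n : ℕ} (hn : Squarefree n) (h4 : n % 4 = 3) (p : ℕ) [Fact p.Prime] :
    ((tw n).baseChange ℚ_[p]).IsMinimal ℤ_[p] := by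
  have hW : ((tw n).baseChange ℚ_[p]).IsIntegral ℤ_[p] :=
    ⟨(tw n).baseChange ℤ_[p], by ext <;> simp [baseChange]⟩
  have hΔ : ((tw n).baseChange ℚ_[p]).Δ = ((15 ^ 4 * n ^ 6 : ℤ) : ℚ_[p]) := by
    rw [baseChange, map_Δ, tw_Δ h4]
    simp
  refine ⟨⟨by simpa using hW, fun C hC _ => ?_⟩⟩
  have hC' : (C • (tw n).baseChange ℚ_[p]).IsIntegral ℤ_[p] := hC
  simp only [one_smul]
  rw [← Subtype.coe_le_coe, valuation_Δ_aux_eq_of_isIntegral, valuation_Δ_aux_eq_of_isIntegral,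
    variableChange_Δ, map_mul, map_pow]
  refine mul_le_of_le_one_left' (pow_le_one' ?_ _)
  by_cases hu : ‖((C.u⁻¹ : ℚ_[p]ˣ) : ℚ_[p])‖ ≤ 1
  · exact IsDedekindDomain.HeightOneSpectrum.valuation_le_one (K := ℚ_[p])
      (IsDiscreteValuationRing.maximalIdeal ℤ_[p]) (⟨_, hu⟩ : ℤ_[p])
  · exfalso
    have h1 : ‖(C.u : ℚ_[p])‖ < 1 := by
      rw [not_le, Units.val_inv_eq_inv_val, norm_inv] at hu
      exact (one_lt_inv₀ (norm_pos_iff.2 C.u.ne_zero)).1 hu
    obtain ⟨r, hr⟩ := Δ_integral_of_isIntegral ℤ_[p] (C • (tw n).baseChange ℚ_[p])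
    let u : ℤ_[p] := ⟨C.u, h1.le⟩
    have h2 : (p : ℤ_[p]) ∣ u := (PadicInt.norm_lt_one_iff_dvd u).1 h1
    have h6 : ((15 ^ 4 * n ^ 6 : ℤ) : ℤ_[p]) = u ^ 12 * r := by
      apply Subtype.ext
      rw [variableChange_Δ, hΔ] at hr
      change _ = (C.u : ℚ_[p]) ^ 12 * algebraMap ℤ_[p] ℚ_[p] r
      rw [hr, ← mul_assoc, ← mul_pow, Units.mul_inv, one_pow, one_mul]
      exact PadicInt.coe_intCast _
    have h7 : (p : ℤ_[p]) ^ 12 ∣ ((15 ^ 4 * n ^ 6 : ℤ) : ℤ_[p]) :=
      h6 ▸ (pow_dvd_pow_of_dvd h2 12).mul_right r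
    rw [PadicInt.pow_p_dvd_int_iff] at h7
    exact l_not_dvd hn Fact.out (by exact_mod_cast h7)

theorem l_ap {n : ℕ} (h4 : n % 4 = 3) {p : ℕ} (hp : p.Prime) : ap (tw n) p = jacobiSym p n * Mod.an p := by
  have := Fact.mk hp
  by_cases h2 : p = 2
  · subst h2
    have hn : (n : ZMod 2) = 1 := (ZMod.natCast_eq_one_iff_odd).2 (Nat.odd_iff.2 (by omega))
    rw [ap, Mod.an_small.2.2.1, Nat.cast_ofNat, jacobiSym.at_two (Nat.odd_iff.2 (by omega)),
      ZMod.χ₈_nat_eq_if_mod_eight]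
    simp only [ap_eqn, hn]
    have : n % 8 = 3 ∨ n % 8 = 7 := by omega
    rcases this with h8 | h8
    · have ha : (((7 * (n : ℤ) - 1) / 4 : ℤ) : ZMod 2) = 1 :=
        (ZMod.intCast_eq_one_iff_odd).2 (Int.odd_iff.2 (by omega))
      simp only [ha, h8, show n % 2 = 1 by omega, ap_two.1]
      decide
    · have ha : (((7 * (n : ℤ) - 1) / 4 : ℤ) : ZMod 2) = 0 :=
        (ZMod.intCast_eq_zero_iff_even).2 (Int.even_iff.2 (by omega))
      simp only [ha, h8, show n % 2 = 1 by omega, ap_two.2]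
      decide
  · have h := Mod.jac_recip (D := -(n : ℤ)) (by omega) (hp.odd_of_ne_two h2)
    rw [Int.natAbs_neg, Int.natAbs_natCast] at h
    rw [ap_odd h4 h2, ap_sum h2, ap_an h2, ← h, ← jacobiSym.legendreSym.to_jacobiSym, legendreSym]
    push_cast
    ring

theorem l_isL {n : ℕ} (h4 : n % 4 = 3)
    {L : ℂ → ℂ} (hL : Differentiable ℂ L)
    (hL' : ∀ s : ℂ, 3 / 2 < s.re → L s = LSeries (fun k => Mod.chi n k * Mod.an k) s) :
    IsL (tw n) L := by
  refine ⟨hL, fun s hs => ?_⟩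
  rw [hL' s hs]
  refine (Mod.euler_chi n hs).2.congr_fun fun ⟨p, hp⟩ => ?_
  have hp' := Nat.prime_iff_prime_int.1 hp
  have hd : (p : ℤ) ∣ (tw n).Δ ↔ p ∣ 15 ∨ p ∣ n := by
    rw [tw_Δ h4, hp'.dvd_mul, hp'.dvd_pow_iff_dvd (by norm_num), hp'.dvd_pow_iff_dvd (by norm_num),
      Int.natCast_dvd_natCast, ← Int.natCast_dvd_natCast (n := 15)]
    rfl
  simp only [Mod.eul, l_ap h4 hp, hd, Mod.chi]
  push_cast
  congr 2
  by_cases h15 : p ∣ 15
  · simp [h15]
  · by_cases hn : p ∣ n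
    · have h9 : jacobiSym p n = 0 := by
        refine jacobiSym.eq_zero_iff.2 ⟨by omega, ?_⟩
        rw [Int.gcd_natCast_natCast, Nat.gcd_eq_left hn]
        exact hp.ne_one
      simp [h15, hn, h9]
    · have h8 : jacobiSym p n ^ 2 = 1 := jacobiSym.sq_one (by
        rw [Int.gcd_natCast_natCast]
        exact hp.coprime_iff_not_dvd.2 hn)
      have h9 : (jacobiSym p n : ℂ) ^ 2 = 1 := by exact_mod_cast h8
      simp [h15, hn, h9]

end

section
open Pool.Agent.P.MP_8b7eba_nt Complex Filter Topology MeasureTheory Set Asymptotics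
open scoped Real

theorem l_gauss_gt {n : ℕ} (hn : Squarefree n) (h4 : n % 4 = 3) (h3 : 3 < n) :
    ∑ a ∈ Finset.range n, (jacobiSym a n : ℂ) * cexp (2 * π * I * (a / n)) = I * (√n : ℝ) := by
  have : BSD15.Good n := ⟨hn, h4, h3⟩
  have h1 : 1 < n := by omega
  have hodd : Odd n := Nat.odd_iff.mpr (by omega)
  have hn0 : (0 : ℝ) < n := by positivity
  have hn1 : (n : ℂ) ≠ 0 := by exact_mod_cast hn0.ne'
  obtain ⟨τ, -, hG⟩ := BSD15.exists_gauss h1 hodd hn
  obtain ⟨ζ, hζ⟩ : ∃ ζ, ζ = cexp (2 * π * I / n) := ⟨_, rfl⟩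
  have hprim : IsPrimitiveRoot ζ n := hζ ▸ Complex.isPrimitiveRoot_exp n (by omega)
  have he : ∀ a m : ℕ, cexp (2 * π * I * (a * m / n)) = (ζ ^ a) ^ m := by
    intro a m
    rw [hζ, ← pow_mul, ← Complex.exp_nat_mul]
    congr 1
    push_cast
    ring
  have hτ : ∑ a ∈ Finset.range n, (jacobiSym a n : ℂ) * cexp (2 * π * I * (a / n)) = τ := by
    simpa using hG 1
  rw [hτ]
  simp only [he] at hG
  have hj0 : jacobiSym ((0 : ℕ) : ℤ) n = 0 := jacobiSym.zero_left h1
  have hsq : τ ^ 2 = -n := by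
    have h5 : ∑ a ∈ Finset.range n, (jacobiSym a n : ℂ) * ζ ^ a = τ := by simpa using hG 1
    have h6 : τ ^ 2 = ∑ b ∈ Finset.range n, (jacobiSym b n : ℂ) *
        ∑ a ∈ Finset.range n, (ζ ^ (b + 1)) ^ a := by
      simp only [Finset.mul_sum]
      rw [Finset.sum_comm, sq]
      nth_rewrite 1 [← h5]
      rw [Finset.sum_mul]
      refine Finset.sum_congr rfl fun a _ => ?_
      rw [mul_right_comm, ← hG a, Finset.sum_mul]
      refine Finset.sum_congr rfl fun b _ => ?_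
      ring
    rw [h6, Finset.sum_eq_single (n - 1)]
    · have h7 : jacobiSym ((n - 1 : ℕ) : ℤ) n = -1 := by
        rw [jacobiSym.mod_left' (a₂ := -1) (by
          rw [Nat.cast_sub h1.le, sub_eq_add_neg, add_comm, Int.add_emod_right]; rfl),
          jacobiSym.at_neg_one hodd, ZMod.χ₄_nat_three_mod_four h4]
      rw [h7, Nat.sub_add_cancel h1.le, hprim.pow_eq_one]
      simp
    · intro b hb hb1
      have hb' := Finset.mem_range.1 hb
      have h7 : ζ ^ (b + 1) ≠ 1 := hprim.pow_ne_one_of_pos_of_lt b.succ_ne_zero (by omega)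
      have h8 := mul_geom_sum (ζ ^ (b + 1)) n
      rw [← pow_mul, mul_comm (b + 1) n, pow_mul, hprim.pow_eq_one, one_pow, sub_self] at h8
      rw [(mul_eq_zero.1 h8).resolve_left (sub_ne_zero.2 h7), mul_zero]
    · intro h
      exact absurd (Finset.mem_range.2 (by omega)) h
  have hsq' : τ ^ 2 = (I * (√n : ℝ)) ^ 2 := by
    rw [hsq, mul_pow, I_sq, ← ofReal_pow, Real.sq_sqrt hn0.le]
    simp
  refine (sq_eq_sq_iff_eq_or_eq_neg.mp hsq').resolve_right fun hneg => ?_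
  have key : ∀ a : ℕ, ∃ M : ℂ → ℂ, a ∈ Finset.range n → ContinuousAt M 1 ∧
      (M 1).im = jacobiSym a n * (π / 2 - π * a / n) ∧ ∀ s : ℂ, 1 < s.re → HasSum (fun k : ℕ =>
        (jacobiSym a n : ℂ) * (Gamma s * LSeries.term (fun k => (ζ ^ a) ^ k) s k)) (M s) := by
    intro a
    by_cases ha : a ∈ Finset.range n
    swap
    · exact ⟨0, fun h => absurd h ha⟩
    rcases Nat.eq_zero_or_pos a with rfl | ha0
    · exact ⟨0, fun _ => ⟨continuousAt_const, by rw [hj0]; simp, fun s _ => by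
        rw [hj0]; simp⟩⟩
    have ha' := Finset.mem_range.1 ha
    have ha1 : (a : ℝ) < n := by exact_mod_cast ha'
    obtain ⟨M, hM1, hM2, hM3⟩ := gauss_mellin (w := ζ ^ a)
      (by rw [norm_pow, hprim.norm'_eq_one (by omega), one_pow])
      (hprim.pow_ne_one_of_pos_of_lt ha0.ne' ha')
    refine ⟨fun s => jacobiSym a n * M s, fun _ => ⟨continuousAt_const.mul hM1, ?_,
      fun s hs => (hM3 s hs).mul_left _⟩⟩
    have h5 : ζ ^ a = cexp (2 * ((π * a / n : ℝ) : ℂ) * I) := by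
      rw [hζ, ← Complex.exp_nat_mul]
      congr 1
      push_cast
      ring
    have h6 := gauss_arg (θ := π * a / n) (by positivity)
      (by rw [div_lt_iff₀ hn0]; exact mul_lt_mul_of_pos_left ha1 Real.pi_pos)
    beta_reduce
    rw [hM2, h5, ← ofReal_intCast, im_ofReal_mul, neg_im, h6]
    ring
  choose M hM using key
  have h5 : ∀ s : ℝ, 1 < s → (∑ a ∈ Finset.range n, M a s).im ≤ 0 := by
    intro s hs
    have h6 := hasSum_sum (s := Finset.range n) fun a ha => (hM a ha).2.2 s hs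
    have h7 : ∑ a ∈ Finset.range n, M a s =
        τ * Gamma s * LSeries (fun k => (jacobiSym k n : ℂ)) s := by
      rw [← h6.tsum_eq, LSeries, ← tsum_mul_left]
      refine tsum_congr fun k => ?_
      rcases Nat.eq_zero_or_pos k with rfl | hk
      · simp
      · simp only [LSeries.term_of_ne_zero hk.ne']
        rw [mul_assoc, mul_div_assoc', mul_div_assoc', mul_left_comm, mul_comm τ, ← hG k,
          Finset.mul_sum, Finset.sum_div]
        exact Finset.sum_congr rfl fun a _ => by ring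
    obtain ⟨h8, h9⟩ := Complex.nonneg_iff.mp (gauss_pos (n := n) hs)
    have h10 := Real.Gamma_pos_of_pos (s := s) (by linarith)
    rw [h7, hneg, Gamma_ofReal]
    simp only [neg_mul, neg_im, mul_im, mul_re, I_re, I_im, ofReal_re, ofReal_im, ← h9]
    simp only [zero_mul, mul_zero, sub_zero, one_mul, zero_add, neg_nonpos]
    positivity
  have h6 : ContinuousAt (fun s : ℝ => (∑ a ∈ Finset.range n, M a s).im) 1 :=
    continuous_im.continuousAt.comp (tendsto_finsetSum _ fun a ha =>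
      (hM a ha).1.tendsto.comp (continuous_ofReal.tendsto 1))
  have h7 := le_of_tendsto (h6.tendsto.mono_left (nhdsWithin_le_nhds (s := Ioi 1)))
    (eventually_nhdsWithin_of_forall h5)
  have h8 : (0 : ℝ) < BSD15.Bn n := by
    have h9 : (0 : ℚ) < BSD15.Bn n := by
      rw [← BSD15.class_number_formula n]
      exact_mod_cast Fintype.card_pos
    exact_mod_cast h9
  have h9 : ∑ a ∈ Finset.range n, (jacobiSym a n : ℝ) = 0 := by
    exact_mod_cast BSD15.sum_jacobi_eq_zero h1 hodd hn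
  rw [im_sum, ofReal_one, Finset.sum_congr rfl fun a ha => (hM a ha).2.1] at h7
  have h10 : ∑ a ∈ Finset.range n, (jacobiSym a n : ℝ) * (π / 2 - π * a / n) =
      π * BSD15.Bn n := by
    simp only [mul_sub, Finset.sum_sub_distrib, ← Finset.sum_mul, h9, BSD15.Bn]
    push_cast
    rw [mul_neg, Finset.mul_sum, zero_mul, zero_sub, neg_inj]
    exact Finset.sum_congr rfl fun a _ => by ring
  rw [h10] at h7
  exact absurd (mul_pos Real.pi_pos h8) (not_lt.mpr h7)

theorem l_gauss_three :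
    ∑ a ∈ Finset.range 3, (jacobiSym a 3 : ℂ) * cexp (2 * π * I * (a / (3 : ℕ))) =
      I * (√(3 : ℕ) : ℝ) := by
  have h0 : jacobiSym ((0 : ℕ) : ℤ) 3 = 0 := by norm_num
  have h1 : jacobiSym ((1 : ℕ) : ℤ) 3 = 1 := by norm_num
  have h2 : jacobiSym ((2 : ℕ) : ℤ) 3 = -1 := by norm_num
  have e1 : cexp (2 * π * I * (((1 : ℕ) : ℂ) / (3 : ℕ))) = cexp ((2 * π / 3 : ℝ) * I) := by
    congr 1; push_cast; ring
  have e2 : cexp (2 * π * I * (((2 : ℕ) : ℂ) / (3 : ℕ))) = cexp (-((2 * π / 3 : ℝ) : ℂ) * I) := by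
    rw [← mul_one (cexp (-_ * I)), ← exp_two_pi_mul_I, ← Complex.exp_add]
    congr 1; push_cast; ring
  have e3 : Real.sin (2 * π / 3) = √3 / 2 := by
    rw [show 2 * π / 3 = π - π / 3 by ring, Real.sin_pi_sub, Real.sin_pi_div_three]
  simp only [Finset.sum_range_succ, Finset.sum_range_zero, h0, h1, h2, e1, e2]
  rw [exp_mul_I, exp_mul_I, cos_neg, sin_neg, ← ofReal_sin, e3]
  push_cast
  ring

theorem l_gauss {n : ℕ} (hn : Squarefree n) (h4 : n % 4 = 3) :
    ∑ a ∈ Finset.range n, (jacobiSym a n : ℂ) * cexp (2 * π * I * (a / n)) = I * (√n : ℝ) := by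
  by_cases h : n = 3
  · subst h; exact l_gauss_three
  · exact l_gauss_gt hn h4 (by omega)

end

open Finset Pool.Agent.P.MP_8b7eba_nt Pool.Agent.P.MP_8b7eba_nt.BSD15

theorem l_euler_sum {n : ℕ} (hn : 1 < n) (h : LamSpec n (lam n)) :
    ∑ a ∈ range n, Mod.chi n a * Mod.lam (a / n) = lam n *
      (if n % 4 = 1 then msA fun x => Mod.lv x.1 x.2 else msB fun x => Mod.lv x.1 x.2) := by
  rw [← h _ euler_isMS]
  refine sum_congr rfl fun a _ => ?_
  rw [Mod.lv_of_ne _ (by omega : (n : ℤ) ≠ 0)]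
  rfl

theorem aL (h : S_LS) : S_L := by
  intro n hn h4
  refine ⟨fun p _ => l_minimal hn h4 p, ?_⟩
  have hodd : Odd n := Nat.odd_iff.2 (by omega)
  obtain ⟨τ, hτ, hG⟩ := BSD15.exists_gauss (n := n) (by omega) hodd hn
  obtain ⟨L, h1, h2, h6⟩ := Mod.exists_L (χ := Mod.chi n) hτ (Mod.norm_chi _) hG
  refine ⟨L, l_isL h4 h1 h2, ?_⟩
  have h7 := hG 1
  simp only [Nat.cast_one, mul_one, jacobiSym.one_left, Int.cast_one, one_mul,
    l_gauss hn h4] at h7
  rw [l_euler_sum (by omega) (h n (by omega) hodd hn), if_neg (by omega), BSD15.euler_msB, om_eq,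
    ← h7] at h6
  have h8 : ((√n : ℝ) : ℂ) ≠ 0 := by
    exact_mod_cast (Real.sqrt_pos.2 (by exact_mod_cast (show 0 < n by omega))).ne'
  rw [period_tw h4]
  push_cast at h6 ⊢
  field_simp
  exact mul_left_cancel₀ Complex.I_ne_zero (by linear_combination 2 * h6)

end Pool.Agent.P.MP_9c97e9_nt.All
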