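import Pool.Agent.P.MP_9c97e9_nt.All.Defs

/-! The torsion subgroup of the twists and the criterion for finiteness of the group of points. -/

namespace Pool.Agent.P.MP_9c97e9_nt.All

open Finset Pool.Agent.P.MP_8b7eba_nt Pool.Agent.P.MP_8b7eba_nt.BSD15 Classical Height

section General

theorem g3_odd {A : Type} [AddCommGroup A] (no4 : ∀ P : A, P + P + (P + P) = 0 → P + P = 0)
    {P : A} (hP : IsOfFinAddOrder P) : ∃ m : ℕ, (2 * m + 1) • P + (2 * m + 1) • P = 0 := by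
  have key : ∀ (k : ℕ) (Q : A), 2 ^ k • Q = 0 → Q + Q = 0 := by
    intro k
    induction k with
    | zero => intro Q hQ; simp at hQ; simp [hQ]
    | succ k ih =>
      intro Q hQ
      exact no4 Q (ih (Q + Q) (by rwa [← two_nsmul, ← mul_nsmul', ← pow_succ]))
  obtain ⟨k, s, ⟨m, rfl⟩, e⟩ := Nat.exists_eq_two_pow_mul_odd hP.addOrderOf_pos.ne'
  exact ⟨m, key k _ (by rw [← mul_nsmul', ← e, addOrderOf_nsmul_eq_zero])⟩

theorem g3_sq {K : Type} [Field K] {u v : K} (h1 : IsSquare (u * v)) (h2 : IsSquare u)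
    (h0 : u ≠ 0) : IsSquare v := by
  obtain ⟨r, hr⟩ := h1
  obtain ⟨s, rfl⟩ := h2
  have hs : s ≠ 0 := left_ne_zero_of_mul h0
  exact ⟨r / s, by field_simp; linear_combination hr⟩

theorem g3_sq' {K : Type} [Field K] {u v w : K} (h1 : IsSquare (u * v)) (h2 : IsSquare (w * v))
    (h0 : v ≠ 0) : IsSquare (u * w) := by
  obtain ⟨r, hr⟩ := h1
  obtain ⟨s, hs⟩ := h2
  exact ⟨r * s / v, by field_simp; linear_combination (w * v) * hr + r * r * hs⟩

variable {F : Type} [Field F] {W : WeierstrassCurve ℤ} {e₁ e₂ e₃ : F}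

theorem g3_fib (h : Split W e₁ e₂ e₃) (x : F) : {R : Pt W F | ∃ η, Is R x η}.Finite := by
  rcases Set.eq_empty_or_nonempty {R : Pt W F | ∃ η, Is R x η} with e | ⟨R₀, η₀, h0⟩
  · rw [e]; exact Set.finite_empty
  refine (Set.toFinite {R₀, -R₀}).subset ?_
  rintro R ⟨η, hR⟩
  rcases sq_eq_sq_iff_eq_or_eq_neg.1 ((hR.eq h).trans (h0.eq h).symm) with rfl | rfl
  · exact .inl (hR.unique h h0)
  · exact .inr (hR.unique h h0.neg)

theorem g3_ker (h : Split W e₁ e₂ e₃) : {T : Pt W F | T + T = 0}.Finite := by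
  refine ((((g3_fib h e₁).union (g3_fib h e₂)).union (g3_fib h e₃)).insert 0).subset
    fun T hT => ?_
  rcases two_torsion h (T := T) hT with e | e | e | e
  exacts [.inl e, .inr (.inl (.inl ⟨_, e⟩)), .inr (.inl (.inr ⟨_, e⟩)), .inr (.inr ⟨_, e⟩)]

theorem g3_dl_odd (h : Split W e₁ e₂ e₃) (P : Pt W F) (m : ℕ) :
    IsSquare (dl e₁ e₂ e₃ ((2 * m + 1) • P) * dl e₁ e₂ e₃ P) := by
  induction m with
  | zero => simp
  | succ m ih =>
    have h1 := g3_sq (dl_add h ((2 * m + 1) • P) P) ih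
      (mul_ne_zero (dl_ne_zero h _) (dl_ne_zero h _))
    have h2 := dl_add h ((2 * m + 1) • P + P) P
    rw [mul_assoc] at h2
    have h3 := g3_sq h2 h1 (dl_ne_zero h _)
    have e : (2 * (m + 1) + 1) • P = (2 * m + 1) • P + P + P := by
      rw [show 2 * (m + 1) + 1 = 2 * m + 1 + 1 + 1 by ring, succ_nsmul, succ_nsmul]
    rw [e, mul_comm]
    exact h3

theorem g3_card (h : Split W e₁ e₂ e₃)
    (no4 : ∀ P : Pt W F, P + P + (P + P) = 0 → P + P = 0)
    [Finite (AddCommGroup.torsion (Pt W F))] :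
    ∃ t, Odd t ∧ Nat.card (AddCommGroup.torsion (Pt W F)) = 4 * t := by
  let D : AddCommGroup.torsion (Pt W F) →+ Pt W F :=
    (AddCommGroup.torsion (Pt W F)).subtype + (AddCommGroup.torsion (Pt W F)).subtype
  obtain ⟨A, hA⟩ := h.exists_is (x := e₁) (η := 0) (by simp)
  obtain ⟨B, hB⟩ := h.exists_is (x := e₂) (η := 0) (by simp)
  obtain ⟨C, hC⟩ := h.exists_is (x := e₃) (η := 0) (by simp)
  have ht : ∀ T : Pt W F, T + T = 0 →
      T ∈ D.ker.map (AddCommGroup.torsion (Pt W F)).subtype := fun T hT =>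
    ⟨⟨T, isOfFinAddOrder_iff_nsmul_eq_zero.2 ⟨2, two_pos, (two_nsmul T).trans hT⟩⟩, hT, rfl⟩
  have hk : (D.ker.map (AddCommGroup.torsion (Pt W F)).subtype : Set (Pt W F)) =
      {0, A, B, C} := by
    ext T
    refine ⟨?_, ?_⟩
    · rintro ⟨T, hT, rfl⟩
      rcases two_torsion h (T := T.1) hT with e | e | e | e
      exacts [.inl e, .inr (.inl (e.unique h hA)), .inr (.inr (.inl (e.unique h hB))),
        .inr (.inr (.inr (e.unique h hC)))]
    · rintro (rfl | rfl | rfl | rfl)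
      exacts [zero_mem _, ht _ (hA.add_eq_zero h (by simpa using hA)),
        ht _ (hB.add_eq_zero h (by simpa using hB)), ht _ (hC.add_eq_zero h (by simpa using hC))]
  have n1 : A ≠ B := fun e => h.n12 (sub_eq_zero.2 (hA.inj (e ▸ hB)).1)
  have n2 : A ≠ C := fun e => h.n13 (sub_eq_zero.2 (hA.inj (e ▸ hC)).1)
  have n3 : B ≠ C := fun e => h.n23 (sub_eq_zero.2 (hB.inj (e ▸ hC)).1)
  have hc : Nat.card D.ker = 4 := by
    rw [← AddSubgroup.card_map_of_injective (AddCommGroup.torsion (Pt W F)).subtype_injective,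
      ← SetLike.coe_sort_coe, Nat.card_coe_set_eq, hk, Set.ncard_insert_of_notMem (by
      simp [hA.ne_zero.symm, hB.ne_zero.symm, hC.ne_zero.symm]),
      Set.ncard_insert_of_notMem (by simp [n1, n2]), Set.ncard_pair n3]
  have : Finite D.range := Finite.of_surjective _ D.rangeRestrict_surjective
  refine ⟨Nat.card D.range, Nat.not_even_iff_odd.1 fun he => ?_, by
    rw [← AddSubgroup.index_ker, ← hc, AddSubgroup.card_mul_index]⟩
  obtain ⟨⟨_, R, rfl⟩, hx⟩ := exists_prime_addOrderOf_dvd_card' 2 he.two_dvd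
  obtain ⟨h4, h5⟩ := (addOrderOf_eq_prime_iff.1 hx)
  have h6 : R.1 + R.1 + (R.1 + R.1) = 0 := (two_nsmul _).symm.trans (congrArg Subtype.val h4)
  exact h5 (Subtype.ext (no4 _ h6))

end General

theorem g3_height {a b : ℚ} (ha : a ≠ 0) (hb : b ≠ 0) (hab : b - a ≠ 0) :
    ∃ c : ℝ, ∀ x : ℚ, 4 * logHeight₁ x - c ≤ logHeight₁ (Desc.dup a b x) := by
  let W : WeierstrassCurve ℚ := ⟨0, -(a + b), 0, a * b, 0⟩
  have : W.IsElliptic := ⟨by
    have : W.Δ = 16 * a ^ 2 * b ^ 2 * (b - a) ^ 2 := by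
      simp only [W, WeierstrassCurve.Δ, WeierstrassCurve.b₂, WeierstrassCurve.b₄,
        WeierstrassCurve.b₆, WeierstrassCurve.b₈]
      ring
    rw [this]
    exact Ne.isUnit (by positivity)⟩
  obtain ⟨c, hc⟩ := Desc.height_dup W
  refine ⟨c, fun x => ?_⟩
  convert hc x using 2
  simp only [W, Desc.dup, WeierstrassCurve.b₂, WeierstrassCurve.b₄,
      WeierstrassCurve.b₆, WeierstrassCurve.b₈]
  congr 1 <;> ring

section Rat

/-- The classical decision of equality of rational numbers. -/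
@[reducible] noncomputable def g3_dec : DecidableEq ℚ := fun a b => propDecidable (a = b)

attribute [local instance 10000] g3_dec

theorem g3_fin_odd {W : WeierstrassCurve ℤ} {a b : ℚ} (h : Split W 0 a b) :
    {R : Pt W ℚ | ∃ m : ℕ, (2 * m + 1) • R = 0}.Finite := by
  obtain ⟨c, hc⟩ := g3_height (a := a) (b := b) (fun e => h.n12 (by simp [e]))
    (fun e => h.n13 (by simp [e])) (fun e => h.n23 (by linear_combination -e))
  have hS : {x : ℚ | ∃ (R : Pt W ℚ) (η : ℚ), (∃ m : ℕ, (2 * m + 1) • R = 0) ∧ Is R x η}.Finite := by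
    refine Desc.finite_of_descent _ logHeight₁ (Desc.dup a b) c
      (NumberField.finite_setOfPred_logHeight₁_le ℚ) ?_
    rintro x ⟨R, η, ⟨m, hm⟩, hR⟩
    have e : (m + 1) • R + (m + 1) • R = R := by
      rw [← add_nsmul, show m + 1 + (m + 1) = 2 * m + 1 + 1 by ring, succ_nsmul, hm, zero_add]
    have hQ : (2 * m + 1) • (m + 1) • R = 0 := by rw [smul_comm, hm, smul_zero]
    generalize (m + 1) • R = Q at e hQ
    subst e
    rcases zero_or_is Q with rfl | ⟨x', η', hQ'⟩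
    · exact absurd (add_zero _) hR.ne_zero
    have h1 : Desc.dup a b x' = x := by
      have h2 := UU_sq h hR
      rw [hQ'.UU_eq, div_pow, hQ'.eq h] at h2
      simp only [sub_zero, zero_sub, neg_mul_neg] at h2
      rw [h2, Desc.dup]
    exact ⟨x', ⟨Q, η', ⟨m, hQ⟩, hQ'⟩, h1, h1 ▸ hc x'⟩
  refine ((hS.biUnion fun x _ => g3_fib h x).insert 0).subset fun R hR => ?_
  exact (zero_or_is R).imp_right fun ⟨x, η, hx⟩ =>
    Set.mem_iUnion₂.2 ⟨x, ⟨R, η, hR, hx⟩, η, hx⟩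

theorem g3_fin_tors {W : WeierstrassCurve ℤ} {a b : ℚ} (h : Split W 0 a b)
    (no4 : ∀ P : Pt W ℚ, P + P + (P + P) = 0 → P + P = 0) :
    Finite (AddCommGroup.torsion (Pt W ℚ)) := by
  refine Set.Finite.to_subtype (s := (AddCommGroup.torsion (Pt W ℚ) : Set (Pt W ℚ)))
    (((g3_ker h).image2 (· + ·) (g3_fin_odd h)).subset fun P hP => ?_)
  obtain ⟨m, hm⟩ := g3_odd no4 (P := P) hP
  refine ⟨_, hm, -(m • (P + P)), ⟨m, ?_⟩, ?_⟩
  · rw [smul_neg, smul_comm, smul_add, hm, smul_zero, neg_zero]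
  · show (2 * m + 1) • P + -(m • (P + P)) = P
    rw [succ_nsmul, ← two_nsmul, ← mul_nsmul]
    abel

variable {n : ℕ}

theorem g3_no4 (h4 : n % 4 = 3) (P : Pt (tw n) ℚ) (hP : P + P + (P + P) = 0) : P + P = 0 := by
  have h := split_tw h4 ℚ
  have h0 : (0 : ℚ) < n := by exact_mod_cast (show 0 < n by omega)
  rcases two_torsion h hP with e | e | e | e
  · exact e
  · have := UU_sq h.swap e
    nlinarith [sq_nonneg (UU (9 * (n : ℚ) / 4) 0 (-4 * n) P)]
  · have hr := UU_sq h e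
    generalize UU (0 : ℚ) (9 * n / 4) (-4 * n) P = r at hr
    obtain ⟨s, rfl⟩ := Rat.isSquare_natCast_iff.1
      (⟨2 / 3 * r, by linear_combination 4 / 9 * hr⟩ : IsSquare (n : ℚ))
    have : s % 4 < 4 := Nat.mod_lt _ (by norm_num)
    rw [Nat.mul_mod] at h4
    interval_cases s % 4 <;> omega
  · have := UU_sq h e
    nlinarith [sq_nonneg (UU (0 : ℚ) (9 * n / 4) (-4 * n) P)]

theorem g3_tor (h4 : n % 4 = 3) {T : Pt (tw n) ℚ} (hT : T + T = 0) {d₂ d₃ : ℚ}
    (h2 : IsSquare (d₂ * dl (9 * n / 4 : ℚ) 0 (-4 * n) T))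
    (h3 : IsSquare (d₃ * dl (-4 * n : ℚ) 0 (9 * n / 4) T)) : Tor n d₂ d₃ := by
  have h := split_tw h4 ℚ
  have h0 : (n : ℚ) ≠ 0 := by exact_mod_cast (show n ≠ 0 by omega)
  rcases two_torsion h hT with rfl | e | e | e
  · rw [dl_zero, mul_one] at h2 h3
    exact ⟨.inl h2, .inl h3⟩
  · rw [e.dl_ne h.n12] at h2
    rw [e.dl_ne h.n13] at h3
    obtain ⟨r, hr⟩ := h2
    obtain ⟨s, hs⟩ := h3
    exact ⟨.inr ⟨2 / 3 * r, by linear_combination 4 / 9 * hr⟩,
      .inr ⟨s / 2, by linear_combination 1 / 4 * hs⟩⟩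
  · rw [e.dl_eq] at h2
    rw [e.dl_ne h.n23] at h3
    obtain ⟨r, hr⟩ := h2
    obtain ⟨s, hs⟩ := h3
    exact ⟨.inl ⟨4 * r / (15 * n), by field_simp; linear_combination 16 * hr⟩,
      .inr ⟨2 / 5 * s, by linear_combination 4 / 25 * hs⟩⟩
  · rw [e.dl_ne h.swap'.n23] at h2
    rw [e.dl_eq] at h3
    obtain ⟨r, hr⟩ := h2
    obtain ⟨s, hs⟩ := h3
    exact ⟨.inr ⟨2 / 5 * r, by linear_combination 4 / 25 * hr⟩,
      .inl ⟨s / (5 * n), by field_simp; linear_combination hs⟩⟩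

theorem g3_mp (h4 : n % 4 = 3) [Finite (Pt (tw n) ℚ)] {d₂ d₃ : ℚ} (h2 : d₂ ≠ 0)
    (hL : Lc ℚ n d₂ d₃) : Tor n d₂ d₃ := by
  have h := split_tw h4 ℚ
  rcases hL with ⟨s1, s2⟩ | ⟨x, w₁, w₂, w₃, e1, e2, e3⟩
  · exact ⟨.inl s2, .inl (g3_sq s1 s2 h2)⟩
  obtain ⟨P, hP⟩ := h.exists_is (x := x) (η := 2 * d₂ ^ 2 * d₃ * w₁ * w₂ * w₃) (by
    rw [e1, e2, e3]; ring)
  have s2 : IsSquare (d₂ * dl (9 * n / 4 : ℚ) 0 (-4 * n) P) := by
    by_cases hx : x = 9 * n / 4
    · subst hx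
      rw [hP.dl_eq, e1, e3]
      exact ⟨d₂ ^ 2 * d₃ * w₁ * w₃, by ring⟩
    · rw [hP.dl_ne (sub_ne_zero.2 hx), e2]
      exact ⟨d₂ * w₂, by ring⟩
  have s3 : IsSquare (d₃ * dl (-4 * n : ℚ) 0 (9 * n / 4) P) := by
    by_cases hx : x = -4 * n
    · subst hx
      rw [hP.dl_eq, e1, e2]
      exact ⟨d₂ * d₃ * w₁ * w₂, by ring⟩
    · rw [hP.dl_ne (sub_ne_zero.2 hx), e3]
      exact ⟨d₂ * d₃ * w₃, by ring⟩
  obtain ⟨m, hm⟩ := g3_odd (g3_no4 h4) (isOfFinAddOrder_of_finite P)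
  exact g3_tor h4 hm (g3_sq' s2 (g3_dl_odd h.swap P m) (dl_ne_zero h.swap P))
    (g3_sq' s3 (g3_dl_odd h.swap'.swap P m) (dl_ne_zero h.swap'.swap P))

theorem g3_mpr (h4 : n % 4 = 3)
    (H : ∀ d₂ d₃ : ℚ, d₂ ≠ 0 → d₃ ≠ 0 → Lc ℚ n d₂ d₃ → Tor n d₂ d₃) : Finite (Pt (tw n) ℚ) := by
  have h := split_tw h4 ℚ
  have h0 : (n : ℚ) ≠ 0 := by exact_mod_cast (show n ≠ 0 by omega)
  have key : ∀ x, Desc.InS (9 * n / 4) (-4 * n) x → Tor n (x - 9 * n / 4) (x - -4 * n) := by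
    intro x hx
    obtain ⟨n1, n2, n3⟩ := hx.ne
    obtain ⟨y, -, e⟩ := hx
    refine H _ _ n2 n3 (.inr ⟨x, y / ((x - 9 * n / 4) * (x - -4 * n)), 1, 1 / (x - 9 * n / 4),
      ?_, by ring, ?_⟩)
    · generalize x - 9 * (n : ℚ) / 4 = u at *
      generalize x - -4 * (n : ℚ) = v at *
      field_simp
      linear_combination -e
    · generalize x - 9 * (n : ℚ) / 4 = u at *
      generalize x - -4 * (n : ℚ) = v at *
      field_simp
  have hS := Desc.finite_inS (a := 9 * n / 4) (b := -4 * n) (by positivity)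
    (mul_ne_zero (by norm_num) h0) h.swap'.n23 (fun x hx => by
      refine (key x hx).1.imp_right fun ⟨r, hr⟩ => ?_
      obtain ⟨n1, n2, n3⟩ := hx.ne
      obtain ⟨y, -, e⟩ := hx
      refine ⟨3 / 2 * r * y / (x * (x - 9 * n / 4)), ?_⟩
      have e' : 9 * (n : ℚ) / 4 * (-4 * n) / x - 9 * n / 4 = -(9 * n / 4) * (x - -4 * n) / x := by
        field_simp; ring
      rw [e']
      generalize x - 9 * (n : ℚ) / 4 = u at *
      generalize x - -4 * (n : ℚ) = v at *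
      field_simp
      linear_combination (36 * y ^ 2) * hr + 36 * n * u * e) (fun x hx ⟨r, hr⟩ => by
      obtain ⟨n1, n2, n3⟩ := hx.ne
      have hr0 : r ≠ 0 := fun e => n2 (by rw [hr, e, mul_zero])
      rcases (key x hx).2 with ⟨t, ht⟩ | ⟨t, ht⟩
      · have ht0 : t ≠ 0 := fun e => n3 (by rw [ht, e, mul_zero])
        obtain ⟨y, hy, e⟩ := hx
        refine .inl ⟨y / (r * t), r, t, by positivity, hr0, ht0, ?_, by rw [hr, sq],
          by rw [ht, sq]⟩
        rw [hr, ht] at e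
        field_simp
        linear_combination -e
      · have ht0 : t ≠ 0 := fun e => mul_ne_zero h0 n3 (by rw [ht, e, mul_zero])
        obtain ⟨y, hy, e⟩ := hx
        refine .inr ⟨3 * t / (2 * r), 15 * n / (4 * r), 5 * n * y / (2 * (r * r) * t),
          by positivity, by positivity, by positivity, ?_, ?_, ?_⟩
        · rw [hr]
          field_simp
          linear_combination 36 * ht
        · rw [hr]
          field_simp
          linear_combination 36 * hr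
        · rw [hr] at e ⊢
          field_simp
          linear_combination (-64 * r ^ 2 * t ^ 2) * hr - 100 * n * e - 100 * x * r ^ 2 * ht)
  refine Set.finite_univ_iff.1 (((hS.biUnion fun x _ => g3_fib h x).union (g3_ker h)).subset
    fun P _ => ?_)
  rcases zero_or_is P with rfl | ⟨x, η, hP⟩
  · exact .inr (add_zero _)
  by_cases hη : η = 0
  · exact .inr (by_contra fun e => (hP.two_ne h).1 e hη)
  · refine .inl (Set.mem_iUnion₂.2 ⟨x, ⟨η / 2, by positivity, ?_⟩, η, hP⟩)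
    linear_combination 1 / 4 * hP.eq h

theorem g3_tors (h4 : n % 4 = 3) : Finite (AddCommGroup.torsion (Pt (tw n) ℚ)) ∧
    ∃ t, Odd t ∧ Nat.card (AddCommGroup.torsion (Pt (tw n) ℚ)) = 4 * t :=
  have hf := g3_fin_tors (split_tw h4 ℚ) (g3_no4 h4)
  ⟨hf, g3_card (split_tw h4 ℚ) (g3_no4 h4)⟩

end Rat

theorem aG3 : S_G3 := by
  intro n h4
  refine ⟨?_, fun _ d₂ d₃ h2 _ hL => g3_mp h4 h2 hL, g3_mpr h4⟩
  have e : instDecidableEqRat = fun a b => propDecidable (a = b) := Subsingleton.elim _ _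
  rw [e]
  exact g3_tors h4

end Pool.Agent.P.MP_9c97e9_nt.All
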