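import Pool.Agent.P.MP_9c97e9_nt.All.Defs

/-! Square classes of fields and of `p`-adic numbers; local points of 2-coverings. -/

namespace Pool.Agent.P.MP_9c97e9_nt.All

open PadicInt Classical

section Field

variable {K : Type} [Field K] {a b c : K}

theorem sq_cast (h : IsSquare a) (e : a = b) : IsSquare b := e ▸ h

theorem sq_trans (hb : b ≠ 0) (h1 : IsSquare (a * b)) (h2 : IsSquare (b * c)) :
    IsSquare (a * c) := by
  obtain ⟨r, hr⟩ := h1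
  obtain ⟨s, hs⟩ := h2
  exact ⟨r * s / b, by field_simp; linear_combination b * c * hr + r * r * hs⟩

theorem sq_of_mul_left (ha : a ≠ 0) (h1 : IsSquare a) (h2 : IsSquare (a * b)) : IsSquare b := by
  simpa using sq_trans ha (show IsSquare (1 * a) by simpa using h1) h2

theorem sq_iff_of_mul (ha : a ≠ 0) (hb : b ≠ 0) (h : IsSquare (a * b)) :
    IsSquare a ↔ IsSquare b :=
  ⟨fun h1 => sq_of_mul_left ha h1 h, fun h1 => sq_of_mul_left hb h1 (mul_comm a b ▸ h)⟩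

theorem sq_of_eq {r : K} (h : a = b * r ^ 2) : IsSquare (b * a) := ⟨b * r, by rw [h]; ring⟩

theorem eq_of_sq (hb : b ≠ 0) (h : IsSquare (b * a)) : ∃ r, a = b * r ^ 2 := by
  obtain ⟨r, hr⟩ := h
  exact ⟨r / b, by field_simp; linear_combination hr⟩

variable {W : WeierstrassCurve ℤ} {e₁ e₂ e₃ d₁ d₂ d₃ : K}

theorem loc_iff_sq (h1 : d₁ ≠ 0) (h2 : d₂ ≠ 0) : Loc K e₁ e₂ e₃ d₁ d₂ ↔
    (IsSquare d₁ ∧ IsSquare d₂) ∨ ∃ x, IsSquare (d₁ * (x - e₁)) ∧ IsSquare (d₂ * (x - e₂)) ∧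
      IsSquare (d₁ * d₂ * (x - e₃)) := by
  refine or_congr_right ⟨fun ⟨x, _, _, _, a, b, c⟩ => ⟨x, sq_of_eq a, sq_of_eq b, sq_of_eq c⟩,
    fun ⟨x, a, b, c⟩ => ?_⟩
  obtain ⟨r, hr⟩ := eq_of_sq h1 a
  obtain ⟨s, hs⟩ := eq_of_sq h2 b
  obtain ⟨t, ht⟩ := eq_of_sq (mul_ne_zero h1 h2) c
  exact ⟨x, r, s, t, hr, hs, ht⟩

theorem loc_iff (h : Split W e₁ e₂ e₃) (h1 : d₁ ≠ 0) (h2 : d₂ ≠ 0) : Loc K e₁ e₂ e₃ d₁ d₂ ↔
    ∃ P : Pt W K, IsSquare (d₁ * dl e₁ e₂ e₃ P) ∧ IsSquare (d₂ * dl e₂ e₁ e₃ P) := by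
  have two := h.two
  constructor
  · rintro (⟨a, b⟩ | ⟨x, r, s, t, a, b, c⟩)
    · exact ⟨0, by simpa [dl_zero] using a, by simpa [dl_zero] using b⟩
    · obtain ⟨P, hP⟩ := h.exists_is (x := x) (η := 2 * d₁ * d₂ * r * s * t)
        (by rw [a, b, c]; ring)
      refine ⟨P, ?_, ?_⟩
      · by_cases hx : x = e₁
        · subst hx
          rw [hP.dl_eq, b, c]
          exact ⟨d₁ * d₂ * s * t, by ring⟩
        · rw [hP.dl_ne (sub_ne_zero.2 hx)]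
          exact sq_of_eq a
      · by_cases hx : x = e₂
        · subst hx
          rw [hP.dl_eq, a, c]
          exact ⟨d₁ * d₂ * r * t, by ring⟩
        · rw [hP.dl_ne (sub_ne_zero.2 hx)]
          exact sq_of_eq b
  · rintro ⟨P, a, b⟩
    rw [loc_iff_sq h1 h2]
    rcases zero_or_is P with rfl | ⟨x, η, hP⟩
    · exact .inl ⟨by simpa [dl_zero] using a, by simpa [dl_zero] using b⟩
    refine .inr ⟨x, ?_⟩
    by_cases hx : x = e₁
    · subst hx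
      rw [hP.dl_eq] at a
      rw [hP.dl_ne h.n12] at b
      refine ⟨by simp, b, ?_⟩
      exact sq_cast (sq_trans (c := d₁ * (x - e₃)) h.n12 b (sq_cast a (by ring))) (by ring)
    rw [hP.dl_ne (sub_ne_zero.2 hx)] at a
    by_cases hy : x = e₂
    · subst hy
      rw [hP.dl_eq] at b
      refine ⟨a, by simp, ?_⟩
      exact sq_cast (sq_trans (c := d₂ * (x - e₃)) (sub_ne_zero.2 hx) a (sq_cast b (by ring)))
        (by ring)
    rw [hP.dl_ne (sub_ne_zero.2 hy)] at b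
    exact ⟨a, b, sq_trans (mul_ne_zero (sub_ne_zero.2 hx) (sub_ne_zero.2 hy))
      (sq_cast (a.mul b) (by ring)) ⟨η / 2, by field_simp; linear_combination -hP.eq h⟩⟩

theorem Loc.mul' (h : Split W e₁ e₂ e₃) {d₁' d₂' : K} (h1 : d₁ ≠ 0) (h2 : d₂ ≠ 0) (h1' : d₁' ≠ 0)
    (h2' : d₂' ≠ 0) (H : Loc K e₁ e₂ e₃ d₁ d₂) (H' : Loc K e₁ e₂ e₃ d₁' d₂') :
    Loc K e₁ e₂ e₃ (d₁ * d₁') (d₂ * d₂') := by
  obtain ⟨P, a, b⟩ := (loc_iff h h1 h2).1 H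
  obtain ⟨Q, a', b'⟩ := (loc_iff h h1' h2').1 H'
  refine (loc_iff h (mul_ne_zero h1 h1') (mul_ne_zero h2 h2')).2 ⟨P + Q,
    sq_trans (mul_ne_zero (dl_ne_zero h P) (dl_ne_zero h Q)) ?_ (dl_add h P Q),
    sq_trans (mul_ne_zero (dl_ne_zero h.swap P) (dl_ne_zero h.swap Q)) ?_ (dl_add h.swap P Q)⟩
  · exact sq_cast (a.mul a') (by ring)
  · exact sq_cast (b.mul b') (by ring)

variable {n : ℕ}

/-- `Lc` in terms of square classes -/
theorem lc_iff (h2 : d₂ ≠ 0) (h3 : d₃ ≠ 0) : Lc K n d₂ d₃ ↔ (IsSquare d₂ ∧ IsSquare d₃) ∨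
    ∃ x, IsSquare (d₂ * d₃ * x) ∧ IsSquare (d₂ * (x - 9 * n / 4)) ∧
      IsSquare (d₃ * (x + 4 * n)) := by
  rw [Lc, loc_iff_sq (mul_ne_zero h2 h3) h2]
  refine or_congr ⟨fun h => ⟨h.2, sq_of_mul_left h2 h.2 h.1⟩, fun h => ⟨h.1.mul h.2, h.1⟩⟩
    (exists_congr fun x => and_congr (by rw [sub_zero]) (and_congr_right fun _ => ?_))
  rw [show d₂ * d₃ * d₂ * (x - -4 * n) = d₂ * d₂ * (d₃ * (x + 4 * n)) by ring]
  exact ⟨sq_of_mul_left (mul_ne_zero h2 h2) (.mul_self _), (IsSquare.mul_self _).mul⟩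

theorem Lc.of_point (h2 : d₂ ≠ 0) (h3 : d₃ ≠ 0) (x : K) (a : IsSquare (d₂ * d₃ * x))
    (b : IsSquare (d₂ * (x - 9 * n / 4))) (c : IsSquare (d₃ * (x + 4 * n))) : Lc K n d₂ d₃ :=
  (lc_iff h2 h3).2 (.inr ⟨x, a, b, c⟩)

theorem Lc.congr {d₂' d₃' : K} (h2 : d₂ ≠ 0) (h3 : d₃ ≠ 0) (h2' : d₂' ≠ 0) (h3' : d₃' ≠ 0)
    (a : IsSquare (d₂' * d₂)) (b : IsSquare (d₃' * d₃)) (H : Lc K n d₂ d₃) : Lc K n d₂' d₃' := by
  rw [lc_iff h2 h3] at H
  rw [lc_iff h2' h3']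
  refine H.imp (fun h => ⟨(sq_iff_of_mul h2' h2 a).2 h.1, (sq_iff_of_mul h3' h3 b).2 h.2⟩)
    fun ⟨x, u, v, w⟩ => ⟨x, sq_trans (mul_ne_zero h2 h3) ?_ u, sq_trans h2 a v, sq_trans h3 b w⟩
  exact sq_cast (a.mul b) (by ring)

theorem Lc.mul [CharZero K] (h4 : n % 4 = 3) {d₂' d₃' : K} (h2 : d₂ ≠ 0) (h3 : d₃ ≠ 0)
    (h2' : d₂' ≠ 0) (h3' : d₃' ≠ 0) (H : Lc K n d₂ d₃) (H' : Lc K n d₂' d₃') :
    Lc K n (d₂ * d₂') (d₃ * d₃') := by
  have := Loc.mul' (split_tw h4 K) (mul_ne_zero h2 h3) h2 (mul_ne_zero h2' h3') h2' H H'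
  rwa [mul_mul_mul_comm] at this

theorem Lc.of_tor [CharZero K] (h2 : d₂ ≠ 0) (h3 : d₃ ≠ 0) (H : Tor n d₂ d₃) : Lc K n d₂ d₃ := by
  obtain ⟨⟨a, ha⟩ | ⟨a, ha⟩, ⟨b, hb⟩ | ⟨b, hb⟩⟩ := H
  · exact (lc_iff h2 h3).2 (.inl ⟨⟨a, ha⟩, b, hb⟩)
  · exact .of_point h2 h3 (9 * n / 4) ⟨3 / 2 * a * b, by
      linear_combination 9 / 4 * d₂ * hb + 9 / 4 * b * b * ha⟩ (by simp)
      ⟨5 / 2 * b, by linear_combination 25 / 4 * hb⟩
  · exact .of_point h2 h3 (-4 * n) ⟨2 * a * b, by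
      linear_combination 4 * d₃ * ha + 4 * a * a * hb⟩
      ⟨5 / 2 * a, by linear_combination 25 / 4 * ha⟩ (by simp)
  · exact .of_point h2 h3 0 (by simp) ⟨3 / 2 * a, by linear_combination 9 / 4 * ha⟩
      ⟨2 * b, by linear_combination 4 * hb⟩

/-- a local point is a point of order dividing 2 or has abscissa different from the roots -/
theorem Lc.elim [CharZero K] (hn : n ≠ 0) (h2 : d₂ ≠ 0) (h3 : d₃ ≠ 0) (H : Lc K n d₂ d₃) :
    Tor n d₂ d₃ ∨ ∃ x : K, x ≠ 0 ∧ x - 9 * n / 4 ≠ 0 ∧ x + 4 * n ≠ 0 ∧ IsSquare (d₂ * d₃ * x) ∧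
      IsSquare (d₂ * (x - 9 * n / 4)) ∧ IsSquare (d₃ * (x + 4 * n)) := by
  have hn' : (n : K) ≠ 0 := by exact_mod_cast hn
  rcases (lc_iff h2 h3).1 H with h | ⟨x, ⟨a, ha⟩, ⟨b, hb⟩, c, hc⟩
  · exact .inl ⟨.inl h.1, .inl h.2⟩
  by_cases h0 : x = 0
  · subst h0
    exact .inl ⟨.inr ⟨2 / 3 * b, by linear_combination 4 / 9 * hb⟩,
      .inr ⟨c / 2, by linear_combination 1 / 4 * hc⟩⟩
  by_cases h1 : x - 9 * n / 4 = 0
  · obtain rfl := sub_eq_zero.1 h1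
    have e : IsSquare ((n : K) * d₃) := ⟨2 / 5 * c, by linear_combination 4 / 25 * hc⟩
    exact .inl ⟨.inl (sq_of_mul_left (mul_ne_zero hn' h3) e
      ⟨2 / 3 * a, by linear_combination 4 / 9 * ha⟩), .inr e⟩
  by_cases h5 : x + 4 * n = 0
  · obtain rfl := eq_neg_of_add_eq_zero_left h5
    have e : IsSquare (-(n : K) * d₂) := ⟨2 / 5 * b, by linear_combination 4 / 25 * hb⟩
    exact .inl ⟨.inr e, .inl (sq_of_mul_left (mul_ne_zero (neg_ne_zero.2 hn') h2) e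
      ⟨a / 2, by linear_combination 1 / 4 * ha⟩)⟩
  exact .inr ⟨x, h0, h1, h5, ⟨a, ha⟩, ⟨b, hb⟩, c, hc⟩

end Field

section Padic

variable {p : ℕ} [hp : Fact p.Prime] {a b : ℚ_[p]}

theorem sq_one_add {z : ℚ_[p]} (h : ‖z‖ < ‖(4 : ℚ_[p])‖) : IsSquare (1 + z) := by
  obtain ⟨z, rfl⟩ : ∃ w : ℤ_[p], w = z := ⟨⟨z, h.le.trans (4 : ℤ_[p]).2⟩, rfl⟩
  have e1 : ∀ w : ℤ_[p], (Polynomial.X ^ 2 - Polynomial.C (1 + z) : Polynomial ℤ_[p]).aeval w =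
      w ^ 2 - (1 + z) := fun w => by
    rw [map_sub, map_pow, Polynomial.aeval_X, Polynomial.aeval_C]
    rfl
  have e2 : (Polynomial.X ^ 2 - Polynomial.C (1 + z) : Polynomial ℤ_[p]).derivative.aeval
      (1 : ℤ_[p]) = 2 := by
    rw [Polynomial.derivative_sub, Polynomial.derivative_C, Polynomial.derivative_X_sq, sub_zero,
      map_mul, Polynomial.aeval_X, Polynomial.aeval_C, mul_one]
    rfl
  obtain ⟨w, hw, -⟩ := hensels_lemma (F := (Polynomial.X ^ 2 - Polynomial.C (1 + z) :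
      Polynomial ℤ_[p])) (a := 1) (by
    rw [e1, e2, ← norm_pow, show (2 : ℤ_[p]) ^ 2 = 4 by norm_num,
      show (1 : ℤ_[p]) ^ 2 - (1 + z) = -z by ring, norm_neg]
    exact h)
  refine ⟨w, ?_⟩
  have : w ^ 2 - (1 + z) = 0 := (e1 w).symm.trans hw
  exact congrArg Subtype.val (show 1 + z = w * w by linear_combination -this)

theorem sq_of_close4 (h : ‖a - b‖ < ‖(4 : ℚ_[p])‖ * ‖b‖) : IsSquare (a * b) := by
  have hb : b ≠ 0 := by
    rintro rfl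
    simp at h
    exact absurd h (not_lt.2 (norm_nonneg _))
  have := sq_one_add (z := (a - b) / b) (by rwa [norm_div, div_lt_iff₀ (norm_pos_iff.2 hb)])
  exact sq_cast (this.mul (.mul_self b)) (by field_simp; ring)

theorem norm_nat {k : ℕ} (h : ¬p ∣ k) : ‖(k : ℚ_[p])‖ = 1 :=
  Padic.norm_natCast_eq_one_iff.2 (hp.1.coprime_iff_not_dvd.2 h)

theorem norm_int {k : ℤ} (h : ¬(p : ℤ) ∣ k) : ‖(k : ℚ_[p])‖ = 1 :=
  (Padic.norm_int_le_one k).eq_of_not_lt fun e => h (Padic.norm_intCast_lt_one_iff.1 e)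

theorem norm_four (h2 : p ≠ 2) : ‖(4 : ℚ_[p])‖ = 1 :=
  norm_nat (k := 4) fun e =>
    h2 ((Nat.prime_dvd_prime_iff_eq hp.1 Nat.prime_two).1 (hp.1.dvd_of_dvd_pow (n := 2) e))

theorem norm_four_two : ‖(4 : ℚ_[2])‖ = 1 / 4 := by
  have := Padic.norm_p_pow (p := 2) 2
  norm_num at this ⊢
  exact this

theorem sq_of_close (h2 : p ≠ 2) (h : ‖a - b‖ < ‖b‖) : IsSquare (a * b) :=
  sq_of_close4 (by rwa [norm_four h2, one_mul])

theorem sq_of_close_two {a b : ℚ_[2]} (h : ‖a - b‖ < ‖b‖ / 4) : IsSquare (a * b) :=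
  sq_of_close4 (by rw [norm_four_two]; linarith)

theorem val_eq_of_norm (ha : a ≠ 0) (h : ‖b‖ = ‖a‖) : b.valuation = a.valuation := by
  have hp1 : (1 : ℝ) < p := by exact_mod_cast hp.1.one_lt
  have hb : b ≠ 0 := norm_ne_zero_iff.1 (h ▸ norm_ne_zero_iff.2 ha)
  rwa [Padic.norm_eq_zpow_neg_valuation ha, Padic.norm_eq_zpow_neg_valuation hb,
    zpow_right_inj₀ (by positivity) hp1.ne', neg_inj] at h

theorem val_of_norm {k : ℤ} (h : ‖a‖ = (p : ℝ) ^ (-k)) : a.valuation = k := by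
  have h0 : (p : ℚ_[p]) ≠ 0 := by exact_mod_cast hp.1.ne_zero
  rw [val_eq_of_norm (zpow_ne_zero k h0) (h.trans (Padic.norm_p_zpow k).symm)]
  simp

theorem even_val (h : IsSquare a) : Even a.valuation := by
  obtain ⟨r, rfl⟩ := h
  rw [← sq, Padic.valuation_pow]
  exact even_two_mul _

theorem even_val_iff (ha : a ≠ 0) (hb : b ≠ 0) (h : IsSquare (a * b)) :
    Even a.valuation ↔ Even b.valuation := by
  have := even_val h
  rwa [Padic.valuation_mul ha hb, Int.even_add] at this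

theorem sq_unit_iff (h2 : p ≠ 2) {u : ℤ_[p]} (hu : ‖u‖ = 1) :
    IsSquare (u : ℚ_[p]) ↔ IsSquare (toZMod u) := by
  constructor
  · rintro ⟨r, hr⟩
    have h1 : ‖r‖ ≤ 1 := by
      have : ‖r‖ * ‖r‖ = 1 := by rw [← norm_mul, ← hr]; exact hu
      nlinarith [norm_nonneg r]
    obtain ⟨r, rfl⟩ : ∃ w : ℤ_[p], w = r := ⟨⟨r, h1⟩, rfl⟩
    exact ⟨toZMod r, by rw [← map_mul, show u = r * r from PadicInt.ext hr]⟩
  · rintro ⟨r, hr⟩
    obtain ⟨r, rfl⟩ := ZMod.ringHom_surjective toZMod r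
    have h1 : ‖u - r * r‖ < 1 := toZMod_eq_zero.1 (by rw [map_sub, map_mul, hr, sub_self])
    have h3 : ‖(r * r : ℚ_[p]) - u‖ < ‖(u : ℚ_[p])‖ := by
      rw [norm_sub_rev]
      exact h1.trans_eq hu.symm
    have h4 := Padic.norm_eq_of_norm_sub_lt_right h3
    exact sq_of_mul_left (norm_ne_zero_iff.1 (by rw [h4]; exact hu.trans_ne one_ne_zero))
      (.mul_self _) (sq_of_close h2 h3)

theorem sq_int_iff (h2 : p ≠ 2) {k : ℤ} (h : ¬(p : ℤ) ∣ k) :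
    IsSquare (k : ℚ_[p]) ↔ jacobiSym k p = 1 := by
  have := sq_unit_iff h2 (u := (k : ℤ_[p])) (norm_int h)
  rw [map_intCast, PadicInt.coe_intCast] at this
  rw [this, ← jacobiSym.legendreSym.to_jacobiSym,
    legendreSym.eq_one_iff p (mt (ZMod.intCast_zmod_eq_zero_iff_dvd _ _).1 h)]

theorem sq_int_iff_two {k : ℤ} (h : k % 2 = 1) : IsSquare (k : ℚ_[2]) ↔ k % 8 = 1 := by
  constructor
  · rintro ⟨r, hr⟩
    have h1 : ‖r‖ ≤ 1 := by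
      have : ‖r‖ * ‖r‖ ≤ 1 := by rw [← norm_mul, ← hr]; exact Padic.norm_int_le_one k
      nlinarith [norm_nonneg r]
    obtain ⟨r, rfl⟩ : ∃ w : ℤ_[2], w = r := ⟨⟨r, h1⟩, rfl⟩
    have h3 : (k : ZMod 8) = toZModPow 3 r * toZModPow 3 r := by
      rw [← map_mul, ← show (k : ℤ_[2]) = r * r from PadicInt.ext hr, map_intCast]
    have h4 : ∀ s : ZMod 8, s * s = 0 ∨ s * s = 1 ∨ s * s = 4 := by decide
    have h5 : ∀ j : ℤ, (k : ZMod 8) = j → k % 8 = j % 8 := fun j e =>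
      (ZMod.intCast_eq_intCast_iff' k j 8).1 e
    rcases h4 (toZModPow 3 r) with e | e | e
    · have := h5 0 (by simpa using h3.trans e)
      omega
    · exact h5 1 (by simpa using h3.trans e)
    · have := h5 4 (by simpa using h3.trans e)
      omega
  · intro h1
    obtain ⟨j, hj⟩ : ∃ j, k = 1 + 8 * j := ⟨k / 8, by omega⟩
    have h3 : ‖(8 : ℚ_[2])‖ = 1 / 8 := by
      have := Padic.norm_p_pow (p := 2) 3
      norm_num at this ⊢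
      exact this
    rw [hj]
    push_cast
    refine sq_one_add ?_
    rw [norm_mul, h3, norm_four_two]
    linarith [Padic.norm_int_le_one (p := 2) j]

/-- every class of even valuation is represented by an integer prime to `p` -/
theorem exists_int_rep (ha : a ≠ 0) (h : Even a.valuation) :
    ∃ k : ℤ, ¬(p : ℤ) ∣ k ∧ IsSquare (k * a) := by
  obtain ⟨j, hj⟩ := h
  have h0 : (p : ℚ_[p]) ≠ 0 := by exact_mod_cast hp.1.ne_zero
  have hp0 : (p : ℝ) ≠ 0 := by exact_mod_cast hp.1.ne_zero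
  have h1 : ‖a * (p ^ (-j)) ^ 2‖ = 1 := by
    rw [norm_mul, norm_pow, Padic.norm_p_zpow, Padic.norm_eq_zpow_neg_valuation ha, hj, sq,
      ← zpow_add₀ hp0, ← zpow_add₀ hp0]
    simp
  have h4 : 0 < ‖(4 : ℚ_[p])‖ := norm_pos_iff.2 (by norm_num)
  obtain ⟨k, hk⟩ := PadicInt.denseRange_intCast.exists_dist_lt (⟨_, h1.le⟩ : ℤ_[p]) h4
  have h5 : ‖(k : ℚ_[p]) - a * (p ^ (-j)) ^ 2‖ < ‖(4 : ℚ_[p])‖ := by
    rw [dist_comm, dist_eq_norm] at hk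
    exact hk
  have h6 := Padic.norm_eq_of_norm_sub_lt_right
    (h5.trans_le ((4 : ℤ_[p]).2.trans h1.ge))
  refine ⟨k, fun e => (Padic.norm_intCast_lt_one_iff.2 e).ne (h6.trans h1), ?_⟩
  have := sq_of_close4 (h5.trans_eq (by rw [h1, mul_one]))
  rw [← mul_assoc, mul_comm] at this
  exact sq_of_mul_left (pow_ne_zero 2 (zpow_ne_zero _ h0)) ⟨_, sq _⟩ this

/-- for odd `p` there are two classes of even valuation -/
theorem sq_mul_of_not (h2 : p ≠ 2) (ha : a ≠ 0) (hb : b ≠ 0) (ea : Even a.valuation)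
    (eb : Even b.valuation) (na : ¬IsSquare a) (nb : ¬IsSquare b) : IsSquare (a * b) := by
  obtain ⟨k, hk, sk⟩ := exists_int_rep ha ea
  obtain ⟨l, hl, sl⟩ := exists_int_rep hb eb
  have k0 : (k : ℚ_[p]) ≠ 0 := norm_ne_zero_iff.1 (by simp [norm_int hk])
  have l0 : (l : ℚ_[p]) ≠ 0 := norm_ne_zero_iff.1 (by simp [norm_int hl])
  have g : ∀ j : ℤ, ¬(p : ℤ) ∣ j → ¬IsSquare (j : ℚ_[p]) → jacobiSym j p = -1 := fun j h1 h3 =>
    (jacobiSym.eq_one_or_neg_one (MP_8b7eba_nt.BSD15.cfid_gcd hp.1 h1)).resolve_left (mt (sq_int_iff h2 h1).2 h3)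
  have h3 : IsSquare ((k : ℚ_[p]) * l) := by
    rw [← Int.cast_mul, sq_int_iff h2 fun e =>
      ((Nat.prime_iff_prime_int.1 hp.1).dvd_or_dvd e).elim hk hl, jacobiSym.mul_left,
      g k hk (mt (sq_iff_of_mul k0 ha sk).1 na), g l hl (mt (sq_iff_of_mul l0 hb sl).1 nb)]
    rfl
  exact sq_trans l0 (sq_trans k0 (mul_comm (k : ℚ_[p]) a ▸ sk) h3) sl

end Padic

end Pool.Agent.P.MP_9c97e9_nt.All
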