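import Pool.Agent.P.MP_9c97e9_nt.All.Defs2

/-! Tamagawa numbers of all the twists. -/

namespace Pool.Agent.P.MP_9c97e9_nt.All

open WeierstrassCurve Classical PadicInt Finset

section Split

variable {W : WeierstrassCurve ℤ} {p : ℕ} [hp : Fact p.Prime]

theorem tam_lt {x y : ℚ_[p]} {S : ℝ} (hx : ‖x‖ < S) (hy : ‖y‖ < S) : ‖x + y‖ < S :=
  (Padic.nonarchimedean x y).trans_lt (max_lt hx hy)

theorem tam_le {x y : ℚ_[p]} {S : ℝ} (hx : ‖x‖ ≤ S) (hy : ‖y‖ ≤ S) : ‖x + y‖ ≤ S :=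
  (Padic.nonarchimedean x y).trans (max_le hx hy)

theorem tam_add (h2 : p ≠ 2) {a b c : ℚ_[p]} (h : Split W a b c) (hab : ‖a - b‖ < 1)
    (hac : ‖a - c‖ ≤ 1) {P Q : Pt W ℚ_[p]} (hP : ∀ x η, Is P x η → 1 ≤ ‖x - a‖)
    (hQ : ∀ x η, Is Q x η → 1 ≤ ‖x - a‖) : ∀ x η, Is (P + Q) x η → 1 ≤ ‖x - a‖ := by
  rcases zero_or_is P with rfl | ⟨x₁, η₁, h1⟩
  · simpa using hQ
  rcases zero_or_is Q with rfl | ⟨x₂, η₂, h3⟩
  · simpa using hP
  intro x η hR
  obtain ⟨m, x₃, η₃, hR', hc⟩ := h1.add_cubic h h3 hR.ne_zero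
  obtain ⟨rfl, -⟩ := hR.inj hR'
  have n1 := hP _ _ h1
  have n2 := hQ _ _ h3
  by_contra n3
  rw [not_le] at n3
  have two := h.two
  obtain ⟨d, hd⟩ : ∃ d, 2 * d = η₁ + m * (a - x₁) := ⟨_ / 2, mul_div_cancel₀ _ two⟩
  have i0 : (x₁ - a) * (x₂ - a) * (x - a) = d * d := mul_left_cancel₀ h.four (by
    linear_combination -hc a - (2 * d + η₁ + m * (a - x₁)) * hd)
  have i1 : (x₁ - a) * (x₂ - a) = (a - b) * (a - c) + -(m * d) + -((x₁ - a) * (x - a)) +
      -((x₂ - a) * (x - a)) := mul_left_cancel₀ (mul_ne_zero two h.four) (by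
    linear_combination hc (a + 1) - hc (a - 1) + 4 * m * hd)
  have i2 : m * m = 4 * ((x₁ - a) + (x₂ - a) + (x - a) + (a - b) + (a - c)) :=
    mul_left_cancel₀ two (by linear_combination hc (a + 1) + hc (a - 1) - 2 * hc a)
  have s1 : ‖x₁ - a‖ ≤ ‖x₁ - a‖ * ‖x₂ - a‖ := le_mul_of_one_le_right (norm_nonneg _) n2
  have s2 : ‖x₂ - a‖ ≤ ‖x₁ - a‖ * ‖x₂ - a‖ := le_mul_of_one_le_left (norm_nonneg _) n1
  have s0 : 1 ≤ ‖x₁ - a‖ * ‖x₂ - a‖ := n1.trans s1
  have j0 : ‖d‖ * ‖d‖ < ‖x₁ - a‖ * ‖x₂ - a‖ := by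
    rw [← norm_mul, ← i0, norm_mul, norm_mul]
    exact mul_lt_of_lt_one_right (by linarith) n3
  have j2 : ‖m‖ * ‖m‖ ≤ ‖x₁ - a‖ * ‖x₂ - a‖ := by
    rw [← norm_mul, i2, norm_mul, norm_four h2, one_mul]
    exact tam_le (tam_le (tam_le (tam_le s1 s2) (by linarith)) (by linarith)) (by linarith)
  have j1 : ‖m * d‖ < ‖x₁ - a‖ * ‖x₂ - a‖ := by
    rw [norm_mul]
    refine abs_lt_of_sq_lt_sq' ?_ (by linarith) |>.2
    nlinarith [mul_nonneg (norm_nonneg m) (norm_nonneg m),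
      mul_nonneg (norm_nonneg d) (norm_nonneg d)]
  have j3 : ‖(x₁ - a) * (x₂ - a)‖ < ‖x₁ - a‖ * ‖x₂ - a‖ := by
    rw [i1]
    refine tam_lt (tam_lt (tam_lt ?_ (by rwa [norm_neg])) ?_) ?_
    · rw [norm_mul]
      nlinarith [norm_nonneg (a - b), norm_nonneg (a - c)]
    · rw [norm_neg, norm_mul]
      exact mul_lt_mul_of_pos_left (by linarith) (by linarith)
    · rw [norm_neg, norm_mul, mul_comm]
      exact mul_lt_mul_of_pos_right (by linarith) (by linarith)
  rw [norm_mul] at j3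
  exact lt_irrefl _ j3

theorem tam_split (h2 : p ≠ 2) {a b c : ℤ_[p]} (h : Split W (a : ℚ_[p]) b c)
    (hab : ‖(a : ℚ_[p]) - b‖ = (p : ℝ) ^ (-2 : ℤ)) (hac : ‖(a : ℚ_[p]) - c‖ = 1)
    (hsq : IsSquare (toZMod (a - c))) : (AddSubgroup.closure (goodRed W p)).index = 4 := by
  have hp1 : (1 : ℝ) < p := by exact_mod_cast hp.1.one_lt
  have hp0 : (p : ℚ_[p]) ≠ 0 := by exact_mod_cast hp.1.ne_zero
  have l1 : (p : ℝ) ^ (-2 : ℤ) < (p : ℝ)⁻¹ := by
    rw [← zpow_neg_one]; exact zpow_lt_zpow_right₀ hp1 (by norm_num)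
  have l2 := inv_lt_one_of_one_lt₀ hp1
  have hab1 : ‖(a : ℚ_[p]) - b‖ < 1 := by rw [hab]; linarith
  have hf : Chr fun x : ℚ_[p] => ((x.valuation : ℤ) : ZMod 2) := fun x y hx hy => by
    simp [Padic.valuation_mul hx hy]
  let E : AddSubgroup (Pt W ℚ_[p]) :=
    { carrier := {P | ∀ x η, Is P x η → 1 ≤ ‖x - a‖}
      zero_mem' := fun x η h0 => absurd rfl h0.ne_zero
      add_mem' := fun hP hQ => tam_add h2 h hab1 hac.le hP hQ
      neg_mem' := fun {P} hP x η h0 => hP x (-η) (by simpa using h0.neg) }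
  have hE : goodRed W p = E := Set.ext fun P => mem_goodRed h2 h hab1 P
  rw [hE, AddSubgroup.closure_eq]
  have hle : E ≤ (dh h hf).ker := by
    intro P hP
    rw [AddMonoidHom.mem_ker]
    rcases zero_or_is P with rfl | ⟨x, η, h1⟩
    · simp
    have h3 := hP x η h1
    have h6 : x - a ≠ 0 := norm_pos_iff.1 (by linarith)
    rcases h3.eq_or_lt with h4 | h4
    · show (((dl (a : ℚ_[p]) b c P).valuation : ℤ) : ZMod 2) = 0
      rw [h1.dl_ne h6, val_of_norm (k := 0) (by simpa using h4.symm)]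
      simp
    · have h5 := norm_sub_eq (hab1.trans h4)
      have h7 := norm_sub_eq (hac.trans_lt h4)
      rw [dh_eq _ _ h1 (norm_pos_iff.1 (by linarith)) (norm_pos_iff.1 (by linarith)),
        val_eq_of_norm h6 h5, val_eq_of_norm h6 h7]
      exact CharTwo.add_self_eq_zero _
  obtain ⟨T, hT⟩ := h.exists_is (x := ↑a) (η := 0) (by simp)
  have i1 : E.relIndex (dh h hf).ker = 2 := by
    refine AddSubgroup.relIndex_eq_two_iff_exists_notMem_and.2 ⟨T, ?_, fun h0 => ?_,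
      fun P hP => ?_⟩
    · show (((dl (a : ℚ_[p]) b c T).valuation : ℤ) : ZMod 2) = 0
      rw [hT.dl_eq, val_of_norm (k := 2) (by rw [norm_mul, hab, hac, mul_one])]
      rfl
    · have := h0 _ _ hT
      rw [sub_self, norm_zero] at this
      linarith
    rcases zero_or_is P with rfl | ⟨x, η, h1⟩
    · exact .inr E.zero_mem
    by_cases h3 : 1 ≤ ‖x - a‖
    · exact .inr fun x' η' h4 => (h1.inj h4).1 ▸ h3
    left
    have e := h1.eq h
    by_cases hx : x - a = 0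
    · obtain rfl : η = 0 := by simpa [hx] using e
      obtain rfl := sub_eq_zero.1 hx
      rw [h1.add_eq_zero h (by simpa using hT)]
      exact E.zero_mem
    have h4 := h1.add_ne h hT (sub_ne_zero.1 hx) (m := η / (x - a))
      (x₃ := a + (a - b) * (a - c) / (x - a)) (by field_simp; ring) (by
        field_simp
        linear_combination -e)
    intro x' η' h5
    rw [← (h4.inj h5).1, add_sub_cancel_left, norm_div, norm_mul, hab, hac, mul_one,
      one_le_div (norm_pos_iff.2 hx)]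
    have h6 : (((x - a).valuation : ℤ) : ZMod 2) = 0 := by
      rw [← h1.dl_ne (e₂ := (b : ℚ_[p])) (e₃ := (c : ℚ_[p])) hx]
      exact hP
    rw [ZMod.intCast_zmod_eq_zero_iff_dvd] at h6
    rw [not_le, Padic.norm_eq_zpow_neg_valuation hx, zpow_lt_one_iff_right₀ hp1] at h3
    rw [Padic.norm_eq_zpow_neg_valuation hx]
    refine zpow_le_zpow_right₀ hp1.le ?_
    omega
  have i2 : (dh h hf).ker.index = 2 := by
    have q1 : IsSquare (((p : ℚ_[p]) + (a - b)) * p) :=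
      sq_of_close h2 (by rw [add_sub_cancel_left, hab, Padic.norm_p]; exact l1)
    have q2 : IsSquare (((p : ℚ_[p]) + (a - c)) * (a - c)) :=
      sq_of_close h2 (by rw [add_sub_cancel_right, hac, Padic.norm_p]; exact l2)
    have q3 : IsSquare ((a : ℚ_[p]) - c) := (sq_unit_iff h2 (u := a - c) hac).2 hsq
    obtain ⟨r, hr⟩ := q1
    rw [mul_comm] at q2
    obtain ⟨s, hs⟩ := sq_of_mul_left h.n13 q3 q2
    obtain ⟨A, hA⟩ := h.exists_is (x := (a : ℚ_[p]) + p) (η := 2 * r * s) (by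
      linear_combination -4 * ((p : ℚ_[p]) + (a - c)) * hr - 4 * r * r * hs)
    have a1 : dh h hf A = 1 := by
      show (((dl (a : ℚ_[p]) b c A).valuation : ℤ) : ZMod 2) = 1
      rw [hA.dl_ne (by simpa using hp0)]
      simp
    rw [AddSubgroup.index_ker, AddMonoidHom.range_eq_top.2 fun z => ?_]
    · simp
    · have : ∀ z : ZMod 2, z = 0 ∨ z = 1 := by decide
      rcases this z with rfl | rfl
      exacts [⟨0, map_zero _⟩, ⟨A, a1⟩]
  rw [← AddSubgroup.relIndex_mul_index hle, i1, i2]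

end Split

theorem tam_sq : IsSquare (0 - -4 * 1 : ZMod 3) ∧ IsSquare (-4 * 1 - 0 : ZMod 5) ∧
    IsSquare (-4 * 4 - 0 : ZMod 5) := by decide

/-- the Tamagawa number at `p` -/
def tam_c (n p : ℕ) : ℕ :=
  if p ∣ n then 4 else if p = 3 then (if n % 3 = 2 then 2 else 4)
    else if p = 5 then (if n % 5 = 2 ∨ n % 5 = 3 then 2 else 4) else 1

theorem tam_tw {n : ℕ} (hn : Squarefree n) (h4 : n % 4 = 3) (p : Nat.Primes) :
    tamagawa (tw n) p = tam_c n p.1 := by
  obtain ⟨p, hp⟩ := p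
  have := Fact.mk hp
  have h := split_tw h4 ℚ_[p]
  have hz : p ≠ 2 → ∃ z : ℤ_[p], (z : ℚ_[p]) = 9 * n / 4 := fun h2 =>
    ⟨⟨_, by rw [norm_div, norm_four h2, div_one]; exact (9 * n : ℤ_[p]).2⟩, rfl⟩
  show (AddSubgroup.closure (goodRed (tw n) p)).index = tam_c n p
  unfold tam_c
  by_cases h1 : p ∣ n
  · rw [if_pos h1]
    have h2 : p ≠ 2 := by rintro rfl; omega
    obtain ⟨z, hz⟩ := hz h2
    have h6 := norm_four h2
    have h8 : ‖(n : ℚ_[p])‖ = (p : ℝ)⁻¹ := by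
      obtain ⟨m, rfl⟩ := h1
      rw [Nat.cast_mul, norm_mul, Padic.norm_p, norm_nat (k := m) fun e =>
        hp.not_isUnit (hn p (mul_dvd_mul_left p e)), mul_one]
    rw [← hz] at h
    by_cases h3 : p = 3
    · subst h3
      have h7 : ‖(25 : ℚ_[3])‖ = 1 := norm_nat (k := 25) (by norm_num)
      refine index_additive h2 (e₁ := -4 * n) (e₂ := 0) h.swap'.swap ?_ ?_
      · show ‖(-4 * n : ℚ_[3]) - 0‖ = _
        simp [h6, h8]
      · show ‖(-4 * n : ℚ_[3]) - z‖ = _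
        rw [hz, show (-4 * n : ℚ_[3]) - 9 * n / 4 = -(25 * n / 4) by ring]
        simp [h6, h7, h8]
    · have h7 : ‖(9 : ℚ_[p])‖ = 1 := norm_nat (k := 9) fun e =>
        h3 ((Nat.prime_dvd_prime_iff_eq hp Nat.prime_three).1 (hp.dvd_of_dvd_pow (n := 2) e))
      exact index_additive h2 (e₁ := 0) (e₃ := -4 * n) h (by simp [hz, h6, h7, h8]) (by
        show ‖(0 : ℚ_[p]) - -4 * n‖ = _
        simp [h6, h8])
  rw [if_neg h1]
  have h6 : ‖(n : ℚ_[p])‖ = 1 := norm_nat h1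
  by_cases h3 : p = 3
  · subst h3
    rw [if_pos rfl]
    obtain ⟨z, hz⟩ := hz (by norm_num)
    have h7 : ‖(4 : ℚ_[3])‖ = 1 := norm_four (by norm_num)
    have h9 : ‖(9 : ℚ_[3])‖ = ((3 : ℕ) : ℝ) ^ (-2 : ℤ) := by
      rw [← Padic.norm_p_zpow]; norm_num
    rw [← hz] at h
    split_ifs with h5
    · refine index_nonsplit (by norm_num) (e₁ := 0) (e₃ := -4 * n) h ?_ ?_
      · simpa [hz, h6, h7] using Padic.norm_natCast_lt_one_iff.2 (show 3 ∣ 9 by norm_num)
      · have : (n : ZMod 3) = 2 := by rw [← ZMod.natCast_mod, h5]; rfl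
        simp only [map_sub, map_mul, map_neg, map_zero, map_natCast, map_ofNat, this]
        exact nonsq.1
    · refine tam_split (by norm_num) (a := 0) (c := -4 * n) h ?_ ?_ ?_
      · rw [← h9]; simp [hz, h6, h7]
      · show ‖(0 : ℚ_[3]) - -4 * n‖ = _
        simp [h6, h7]
      · have : (n : ZMod 3) = 1 := by
          rw [← ZMod.natCast_mod, show n % 3 = 1 by omega]; rfl
        simp only [map_sub, map_mul, map_neg, map_zero, map_natCast, map_ofNat, this]
        exact tam_sq.1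
  rw [if_neg h3]
  by_cases h5 : p = 5
  · subst h5
    rw [if_pos rfl]
    obtain ⟨z, hz⟩ := hz (by norm_num)
    have h7 : ‖(4 : ℚ_[5])‖ = 1 := norm_four (by norm_num)
    have h9 : ‖(25 : ℚ_[5])‖ = ((5 : ℕ) : ℝ) ^ (-2 : ℤ) := by
      rw [← Padic.norm_p_zpow]; norm_num
    have h10 : ‖(-4 * n : ℚ_[5]) - z‖ = ‖(25 : ℚ_[5])‖ := by
      rw [hz, show (-4 * n : ℚ_[5]) - 9 * n / 4 = -(25 * n / 4) by ring]
      simp [h6, h7]
    rw [← hz] at h
    split_ifs with h5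
    · refine index_nonsplit (by norm_num) (e₁ := -4 * n) (e₃ := 0) h.swap'.swap.swap' ?_ ?_
      · show ‖(-4 * n : ℚ_[5]) - z‖ < 1
        rw [h10]
        exact Padic.norm_natCast_lt_one_iff.2 (show 5 ∣ 25 by norm_num)
      · have : (n : ZMod 5) = 2 ∨ (n : ZMod 5) = 3 := by
          rw [← ZMod.natCast_mod]
          rcases h5 with h | h <;> rw [h] <;> simp
        simp only [map_sub, map_mul, map_neg, map_zero, map_natCast, map_ofNat]
        rcases this with e | e <;> rw [e]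
        exacts [nonsq.2.1, nonsq.2.2]
    · refine tam_split (by norm_num) (a := -4 * n) (c := 0) h.swap'.swap.swap'
        (h10.trans h9) ?_ ?_
      · show ‖(-4 * n : ℚ_[5]) - 0‖ = _
        simp [h6, h7]
      · have : (n : ZMod 5) = 1 ∨ (n : ZMod 5) = 4 := by
          rw [← ZMod.natCast_mod]
          rcases (show n % 5 = 1 ∨ n % 5 = 4 by omega) with h | h <;> rw [h] <;> simp
        simp only [map_sub, map_mul, map_neg, map_zero, map_natCast, map_ofNat]
        rcases this with e | e <;> rw [e]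
        exacts [tam_sq.2.1, tam_sq.2.2]
  rw [if_neg h5]
  refine index_good fun e => ?_
  rw [tw_Δ h4] at e
  have e' : p ∣ 15 ^ 4 * n ^ 6 := by exact_mod_cast e
  rcases hp.dvd_mul.1 e' with e | e
  · rcases hp.dvd_mul.1 (hp.dvd_of_dvd_pow e : p ∣ 3 * 5) with e | e
    · exact h3 ((Nat.prime_dvd_prime_iff_eq hp Nat.prime_three).1 e)
    · exact h5 ((Nat.prime_dvd_prime_iff_eq hp Nat.prime_five).1 e)
  · exact h1 (hp.dvd_of_dvd_pow e)

theorem aTam : S_Tam := by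
  intro n hn h4
  simp only [tam_tw hn h4]
  have h0 := hn.ne_zero
  refine (finprod_eq_prod_of_mulSupport_subset (α := Subtype Nat.Prime)
    (s := (insert 3 (insert 5 n.primeFactors)).subtype Nat.Prime) _ fun p hp => ?_).trans ?_
  · refine mem_coe.2 (mem_subtype.2 (by_contra fun e => hp ?_))
    simp only [mem_insert, Nat.mem_primeFactors, p.2, true_and, h0, not_or, ne_eq,
      not_false_iff, and_true] at e
    simp [tam_c, e]
  refine (prod_subtype_of_mem (tam_c n) fun p hp => ?_).trans ?_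
  · simp only [mem_insert] at hp
    rcases hp with rfl | rfl | hp
    exacts [Nat.prime_three, Nat.prime_five, Nat.prime_of_mem_primeFactors hp]
  have hP : ∏ p ∈ n.primeFactors, tam_c n p = 4 ^ n.primeFactors.card := by
    rw [← prod_const]
    exact prod_congr rfl fun p hp => if_pos (Nat.dvd_of_mem_primeFactors hp)
  have m3 : 3 ∈ n.primeFactors ↔ 3 ∣ n := by simp [h0, Nat.prime_three]
  have m5 : 5 ∈ n.primeFactors ↔ 5 ∣ n := by simp [h0, Nat.prime_five]
  have e5 : ∏ p ∈ insert 5 n.primeFactors, tam_c n p = 4 ^ n.primeFactors.card *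
      (if 5 ∣ n then 1 else if n % 5 = 2 ∨ n % 5 = 3 then 2 else 4) := by
    by_cases h : 5 ∣ n
    · rw [insert_eq_of_mem (m5.2 h), hP, if_pos h, mul_one]
    · rw [prod_insert (mt m5.1 h), hP, if_neg h, mul_comm]
      simp [tam_c, h]
  unfold TP
  by_cases h : 3 ∣ n
  · rw [insert_eq_of_mem (mem_insert_of_mem (m3.2 h)), e5, if_pos h, mul_one]
  · rw [prod_insert (by simp [h]), e5, if_neg h]
    simp only [tam_c, h, if_false, if_true]
    ring

end Pool.Agent.P.MP_9c97e9_nt.All
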