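import Pool.Agent.P.MP_9c97e9_nt.All.Defs

/-! Trivial 2-torsion of the Tate-Shafarevich group gives the Hasse principle for 2-coverings. -/

namespace Pool.Agent.P.MP_9c97e9_nt.All

open Finset Pool.Agent.P.MP_8b7eba_nt Pool.Agent.P.MP_8b7eba_nt.BSD15
open WeierstrassCurve WeierstrassCurve.Affine Classical Topology

variable {k : Type} [Field k] {W : WeierstrassCurve ℤ} {e₁ e₂ e₃ : k}

theorem g2_cancel {F : Type} [Field F] [CharZero F] {a b : ℤ} {α : F} (h0 : α ≠ 0)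
    (e : (a : F) * α = b * α) : a = b :=
  Int.cast_injective (mul_right_cancel₀ h0 e)

theorem g2_ne {α : AlgebraicClosure k} {d : k} (hd : d ≠ 0) (hα : α ^ 2 = algebraMap k _ d) :
    α ≠ 0 := fun e => hd (by simpa [e] using hα.symm)

theorem g2_pm {α : AlgebraicClosure k} {d : k} (hα : α ^ 2 = algebraMap k _ d) (σ : Gal k) :
    σ α = α ∨ σ α = -α :=
  sq_eq_sq_iff_eq_or_eq_neg.1 (by rw [← map_pow, hα, AlgEquiv.commutes])

/-- The homomorphism to the points of order two attached to a pair of square roots. -/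
theorem g2_exists (h : Split W e₁ e₂ e₃) {α β : AlgebraicClosure k} {d₁ d₂ : k}
    (hα : α ^ 2 = algebraMap k _ d₁) (hβ : β ^ 2 = algebraMap k _ d₂) :
    ∃ c : Gal k → Pt W (AlgebraicClosure k), (∀ σ, c σ + c σ = 0) ∧
      (∀ σ : Gal k, σ α = sg (algebraMap k _ e₁) (c σ) * α) ∧
      ∀ σ : Gal k, σ β = sg (algebraMap k _ e₂) (c σ) * β := by
  have h' := h.map (algebraMap k (AlgebraicClosure k))
  obtain ⟨T₁, hT₁⟩ := h'.exists_is (x := algebraMap k _ e₁) (η := 0) (by simp)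
  obtain ⟨T₂, hT₂⟩ := h'.exists_is (x := algebraMap k _ e₂) (η := 0) (by simp)
  obtain ⟨T₃, hT₃⟩ := h'.exists_is (x := algebraMap k _ e₃) (η := 0) (by simp)
  have t1 : T₁ + T₁ = 0 := hT₁.add_eq_zero h' (by simpa using hT₁)
  have t2 : T₂ + T₂ = 0 := hT₂.add_eq_zero h' (by simpa using hT₂)
  have t3 : T₃ + T₃ = 0 := hT₃.add_eq_zero h' (by simpa using hT₃)
  have key : ∀ σ : Gal k, ∃ T : Pt W (AlgebraicClosure k), T + T = 0 ∧
      σ α = sg (algebraMap k _ e₁) T * α ∧ σ β = sg (algebraMap k _ e₂) T * β := fun σ => by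
    rcases g2_pm hα σ with a | a <;> rcases g2_pm hβ σ with b | b
    · exact ⟨0, add_zero _, by simp [sg_zero, a], by simp [sg_zero, b]⟩
    · exact ⟨T₁, t1, by simp [hT₁.sg_eq, a], by simp [hT₁.sg_ne h'.n12, b]⟩
    · exact ⟨T₂, t2, by simp [hT₂.sg_ne h'.swap.n12, a], by simp [hT₂.sg_eq, b]⟩
    · exact ⟨T₃, t3, by simp [hT₃.sg_ne h'.swap'.swap.n12, a], by simp [hT₃.sg_ne h'.swap'.n23, b]⟩
  choose c h1 h2 h3 using key
  exact ⟨c, h1, h2, h3⟩

/-- A point on the covering makes the homomorphism a coboundary. -/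
theorem g2_cob (h : Split W e₁ e₂ e₃) {c : Gal k → Pt W (AlgebraicClosure k)}
    (hc : ∀ σ, c σ + c σ = 0) {α β : AlgebraicClosure k} {d₁ d₂ : k} (h1 : d₁ ≠ 0) (h2 : d₂ ≠ 0)
    (hα : α ^ 2 = algebraMap k _ d₁) (hβ : β ^ 2 = algebraMap k _ d₂)
    (gα : ∀ σ : Gal k, σ α = sg (algebraMap k _ e₁) (c σ) * α)
    (gβ : ∀ σ : Gal k, σ β = sg (algebraMap k _ e₂) (c σ) * β)
    (hL : Loc k e₁ e₂ e₃ d₁ d₂) : ∃ R, ∀ σ : Gal k, c σ = pm W σ R - R := by
  have h' := h.map (algebraMap k (AlgebraicClosure k))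
  have hγ : (α * β) ^ 2 = algebraMap k _ (d₁ * d₂) := by rw [mul_pow, hα, hβ, map_mul]
  have gγ : ∀ σ : Gal k, σ (α * β) = sg (algebraMap k _ e₃) (c σ) * (α * β) := fun σ => by
    rw [map_mul, gα, gβ, sg_prod h' (hc σ)]
    push_cast
    ring
  have h3 := mul_ne_zero h1 h2
  rcases hL with s | ⟨x, w₁, w₂, w₃, a1, a2, a3⟩
  · have key : ∀ {a d : k} {δ : AlgebraicClosure k} {σ : Gal k}, d ≠ 0 →
        δ ^ 2 = algebraMap k _ d → σ δ = sg (algebraMap k _ a) (c σ) * δ → IsSquare d →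
        sg (algebraMap k _ a) (c σ) =
          sg (algebraMap k _ a) (0 : Pt W (AlgebraicClosure k)) :=
      fun {a d δ σ} hd hδ gδ ⟨y, hy⟩ => by
        have h8 : δ ≠ 0 := g2_ne hd hδ
        rw [hy, map_mul, ← sq] at hδ
        have h9 : σ δ = δ := by
          rcases sq_eq_sq_iff_eq_or_eq_neg.1 hδ with e | e <;> simp [e]
        refine sg_cast h'.two (mul_right_cancel₀ h8 ?_)
        rw [sg_zero]
        linear_combination h9 - gδ
    exact ⟨0, fun σ => by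
      simpa using sg_inj h' (hc σ) (add_zero 0) (key h1 hα (gα σ) s.1) (key h2 hβ (gβ σ) s.2)⟩
  by_cases b1 : x = e₁
  · subst b1
    exact cob_of_sq h hc h2 h3 hβ hγ gβ gγ ⟨d₂ * w₂, by rw [a2]; ring⟩
      ⟨d₁ * d₂ * w₃, by rw [a3]; ring⟩
  by_cases b2 : x = e₂
  · subst b2
    exact cob_of_sq h.swap hc h1 h3 hα hγ gα gγ ⟨d₁ * w₁, by rw [a1]; ring⟩
      ⟨d₁ * d₂ * w₃, by rw [a3]; ring⟩
  obtain ⟨Q, hQ⟩ := h'.exists_is (x := algebraMap k _ x)
    (η := algebraMap k _ (2 * d₁ * d₂ * w₁ * w₂ * w₃)) (by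
      rw [← map_sub, ← map_sub, ← map_sub, a1, a2, a3]
      simp only [map_mul, map_pow, map_ofNat]
      ring)
  have hQ' : ∀ σ : Gal k, pm W σ Q = Q := fun σ =>
    Is.unique h' (by simpa using hQ.map (K := AlgebraicClosure k) σ) hQ
  obtain ⟨R, rfl⟩ := exists_half h' Q
  refine ⟨R, fun σ => ?_⟩
  have h4 : pm W σ R - R + (pm W σ R - R) = 0 := by
    rw [sub_add_sub_comm, ← map_add, hQ', sub_self]
  have key : ∀ {a b e d : k} {δ : AlgebraicClosure k}, Split W a b e → d ≠ 0 → x - a ≠ 0 →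
      δ ^ 2 = algebraMap k _ d → σ δ = sg (algebraMap k _ a) (c σ) * δ → IsSquare (d * (x - a)) →
      sg (algebraMap k _ a) (c σ) = sg (algebraMap k _ a) (pm W σ R - R) :=
    fun {a b e d δ} hs hd ha hδ gδ ⟨y, hy⟩ => by
      have hs' := hs.map (algebraMap k (AlgebraicClosure k))
      have h5 := UU_add hs' h4 hQ.ne_zero
      rw [add_sub_cancel, UU_gal] at h5
      have h6 := UU_sq hs' hQ
      generalize UU _ _ _ R = u at h5 h6
      have h7 : (δ * u) ^ 2 = algebraMap k _ y ^ 2 := by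
        rw [mul_pow, hδ, ← h6, ← map_sub, ← map_mul, hy, map_mul, sq]
      have h8 : δ * u ≠ 0 := fun e => mul_ne_zero hd ha (by simpa [e, hy] using h7.symm)
      have h9 : σ (δ * u) = δ * u := by
        rcases sq_eq_sq_iff_eq_or_eq_neg.1 h7 with e | e <;> simp [e]
      rw [map_mul, gδ, h5] at h9
      exact sg_cast hs'.two (mul_right_cancel₀ h8 (by linear_combination h9))
  exact sg_inj h' (hc σ) h4
    (key h h1 (sub_ne_zero.2 b1) hα (gα σ) ⟨d₁ * w₁, by rw [a1]; ring⟩)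
    (key h.swap h2 (sub_ne_zero.2 b2) hβ (gβ σ) ⟨d₂ * w₂, by rw [a2]; ring⟩)

/-- A point on the covering over `K` makes the restriction of the homomorphism a coboundary. -/
theorem g2_triv (h : Split W e₁ e₂ e₃) {c : Gal k → Pt W (AlgebraicClosure k)}
    (hc : ∀ σ, c σ + c σ = 0) {α β : AlgebraicClosure k} {d₁ d₂ : k} (h1 : d₁ ≠ 0) (h2 : d₂ ≠ 0)
    (hα : α ^ 2 = algebraMap k _ d₁) (hβ : β ^ 2 = algebraMap k _ d₂)
    (gα : ∀ σ : Gal k, σ α = sg (algebraMap k _ e₁) (c σ) * α)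
    (gβ : ∀ σ : Gal k, σ β = sg (algebraMap k _ e₂) (c σ) * β)
    (K : Type) [Field K] [CharZero K] [Algebra k K]
    (hL : Loc K (algebraMap k K e₁) (algebraMap k K e₂) (algebraMap k K e₃) (algebraMap k K d₁)
      (algebraMap k K d₂)) :
    ∃ P : Pt W (AlgebraicClosure K), ∀ (σ : Gal K) (τ : Gal k),
      (∀ x, emb k K (τ x) = σ (emb k K x)) → pm W (emb k K) (c τ) = pm W σ P - P := by
  have hK := h.map (algebraMap k K)
  have hK' := hK.map (algebraMap K (AlgebraicClosure K))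
  have hα' := congrArg (emb k K) hα
  have hβ' := congrArg (emb k K) hβ
  rw [map_pow, emb_alg] at hα' hβ'
  have n1 := (map_ne_zero (algebraMap k K)).2 h1
  have n2 := (map_ne_zero (algebraMap k K)).2 h2
  obtain ⟨c', hc', gα', gβ'⟩ := g2_exists hK hα' hβ'
  obtain ⟨P, hP⟩ := g2_cob hK hc' n1 n2 hα' hβ' gα' gβ' hL
  refine ⟨P, fun σ τ hτ => ?_⟩
  rw [← hP]
  refine sg_inj hK' (by rw [← map_add, hc, map_zero]) (hc' σ) ?_ ?_
  · rw [← emb_alg, sg_map]
    refine g2_cancel (g2_ne n1 hα') ?_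
    rw [emb_alg, ← gα', ← hτ, gα, map_mul, map_intCast]
  · rw [← emb_alg, sg_map]
    refine g2_cancel (g2_ne n2 hβ') ?_
    rw [emb_alg, ← gβ', ← hτ, gβ, map_mul, map_intCast]

theorem g2_nhds (α : AlgebraicClosure k) (σ : Gal k) : ∀ᶠ τ in 𝓝 σ, τ α = σ α := by
  have h1 : {τ : Gal k | τ α = α} ∈ 𝓝 (σ⁻¹ * σ) := by
    rw [inv_mul_cancel]
    exact (stabilizer_isOpen_of_isIntegral (K := k) α).mem_nhds (one_mem _)
  filter_upwards [(continuous_const_mul σ⁻¹).continuousAt h1] with τ hτ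
  have h2 : σ⁻¹ (τ α) = α := hτ
  simpa using congrArg σ h2

theorem aG2 : S_G2 := by
  intro W e₁ e₂ e₃ h H d₁ d₂ h1 h2 hR hp
  have h' := h.map (am ℚ)
  obtain ⟨α, hα⟩ := IsAlgClosed.exists_pow_nat_eq (am ℚ d₁) two_pos
  obtain ⟨β, hβ⟩ := IsAlgClosed.exists_pow_nat_eq (am ℚ d₂) two_pos
  obtain ⟨c, hc, gα, gβ⟩ := g2_exists h hα hβ
  have n1 := g2_ne h1 hα
  have n2 := g2_ne h2 hβ
  have c1 : IsLocallyConstant c := (IsLocallyConstant.iff_eventually_eq c).2 fun σ => by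
    filter_upwards [g2_nhds α σ, g2_nhds β σ] with τ a b
    exact sg_inj h' (hc τ) (hc σ) (g2_cancel n1 (by rw [← gα, ← gα, a]))
      (g2_cancel n2 (by rw [← gβ, ← gβ, b]))
  have c2 : ∀ σ τ, c (σ * τ) = c σ + pm W σ (c τ) := fun σ τ => by
    rw [h.gal (hc τ) σ]
    refine sg_inj h' (hc _) (by rw [add_add_add_comm, hc, hc, add_zero]) ?_ ?_
    · rw [sg_add h' (hc σ) (hc τ)]
      refine g2_cancel n1 ?_
      rw [← gα, AlgEquiv.mul_apply, gα τ, map_mul, map_intCast, gα σ]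
      push_cast
      ring
    · rw [sg_add h'.swap (hc σ) (hc τ)]
      refine g2_cancel n2 ?_
      rw [← gβ, AlgEquiv.mul_apply, gβ τ, map_mul, map_intCast, gβ σ]
      push_cast
      ring
  have hl : ∀ (K : Type) [Field K] [CharZero K], Loc K e₁ e₂ e₃ d₁ d₂ → LocTriv W K c :=
    fun K _ _ hL => g2_triv h hc h1 h2 hα hβ gα gβ K hL
  let c₀ : shaCocycles W := ⟨c, c1, c2, hl ℝ hR, fun p _ => hl _ (hp p)⟩
  have h0 : c₀ + c₀ = 0 := Subtype.ext (funext hc)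
  have h3 := H (QuotientAddGroup.mk c₀) (by
    show QuotientAddGroup.mk (c₀ + c₀) = _
    rw [h0]
    rfl)
  obtain ⟨P, hP⟩ := (QuotientAddGroup.eq_zero_iff _).1 h3
  have h4 : ∀ σ : Gal ℚ, pm W σ P - P = c σ := fun σ => congrFun hP σ
  have h5 := loc_of_triv h hc h1 h2 hα hβ gα gβ ℚ (pm W (emb ℚ ℚ) P) fun σ τ hτ => by
    rw [← h4, map_sub, pm_compat hτ]
  simpa using h5

end Pool.Agent.P.MP_9c97e9_nt.All
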