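import Pool.Agent.P.MP_9c97e9_nt.All.AZ

/-! Local solubility of the candidates is the linear system `Sel`. -/

namespace Pool.Agent.P.MP_9c97e9_nt.All

open Finset Pool.Agent.P.MP_8b7eba_nt

theorem ax_z (e : ZMod 2) : e = 0 ∨ e = 1 := by
  revert e
  decide

theorem ax_lam_pow (a : ℤ) (e : ZMod 2) (p : ℕ) : Desc.lam (a ^ e.val) p = e * Desc.lam a p := by
  rcases ax_z e with rfl | rfl
  · simp [Desc.lam]
  · rw [one_mul, show (1 : ZMod 2).val = 1 from rfl, pow_one]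

theorem ax_star {p q : ℕ} (hp : p % 2 = 1) (hq : q % 2 = 1) :
    Desc.lam (Desc.star q) p = aa p q := by
  unfold aa Desc.lam
  rw [Desc.jacobi_star hq hp]

theorem ax_five {p : ℕ} (hp : p % 2 = 1) : Desc.lam 5 p = f5 p := ax_star (q := 5) hp rfl

theorem ax_three {p : ℕ} (hp : p % 2 = 1) : Desc.lam (-3) p = cc p := ax_star (q := 3) hp rfl

section

variable {p : ℕ} [hp : Fact p.Prime] {S : Finset ℕ} {g : ℕ → ℤ} {u v : ℤ}

theorem ax_pr : Prime (p : ℤ) := Nat.prime_iff_prime_int.1 hp.1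

theorem ax_nd {r : ℕ} (hr : r.Prime) (hu : u.natAbs = r) (h : p ≠ r) : ¬(p : ℤ) ∣ u := fun e =>
  h ((Nat.prime_dvd_prime_iff_eq hp.1 hr).1 (hu ▸ Int.natCast_dvd.1 e))

theorem ax_pow {r : ℕ} (hr : r.Prime) (hu : u.natAbs = r) {e : ZMod 2} (h : p = r → e = 0) :
    ¬(p : ℤ) ∣ u ^ e.val := by
  by_cases c : p = r
  · rw [h c, ZMod.val_zero, pow_zero]
    exact ax_pr.not_dvd_one
  · exact fun d => ax_nd hr hu c (ax_pr.dvd_of_dvd_pow d)

theorem ax_mul (hu : ¬(p : ℤ) ∣ u) (hv : ¬(p : ℤ) ∣ v) : ¬(p : ℤ) ∣ u * v := fun e =>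
  (ax_pr.dvd_or_dvd e).elim hu hv

theorem ax_prod (hg : ∀ q ∈ S, ¬(p : ℤ) ∣ g q) : ¬(p : ℤ) ∣ ∏ q ∈ S, g q := fun h => by
  obtain ⟨q, hq, h⟩ := (ax_pr.dvd_finsetProd_iff _).1 h
  exact hg q hq h

theorem ax_prod' (hg : ∀ q ∈ S, ¬(p : ℤ) ∣ g q) (y : ℕ → ZMod 2) :
    ¬(p : ℤ) ∣ ∏ q ∈ S, g q ^ (y q).val :=
  ax_prod fun q hq d => hg q hq (ax_pr.dvd_of_dvd_pow d)

theorem ax_lam_mul (hu : ¬(p : ℤ) ∣ u) (hv : ¬(p : ℤ) ∣ v) :
    Desc.lam (u * v) p = Desc.lam u p + Desc.lam v p :=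
  Desc.lam_mul (BSD15.cfid_gcd hp.1 hu) (BSD15.cfid_gcd hp.1 hv)

theorem ax_lam_prod (hg : ∀ q ∈ S, ¬(p : ℤ) ∣ g q) (y : ℕ → ZMod 2) :
    Desc.lam (∏ q ∈ S, g q ^ (y q).val) p = ∑ q ∈ S, Desc.lam (g q) p * y q := by
  rw [Desc.lam_prod fun q hq => BSD15.cfid_gcd hp.1 fun d => hg q hq (ax_pr.dvd_of_dvd_pow d)]
  exact sum_congr rfl fun q _ => by rw [ax_lam_pow, mul_comm]

theorem ax_sq (h2 : p ≠ 2) (hu : ¬(p : ℤ) ∣ u) : IsSquare (u : ℚ_[p]) ↔ Desc.lam u p = 0 := by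
  rw [sq_int_iff h2 hu, Desc.lam]
  split_ifs with h <;> simp [h]

theorem ax_ev (hu : ¬(p : ℤ) ∣ u) : Even (u : ℚ_[p]).valuation := by
  rw [val_of_norm (k := 0) (by simp [norm_int hu])]
  exact Even.zero

theorem ax_sq_mul (hv : v ≠ 0) : IsSquare ((v * v * u : ℤ) : ℚ_[p]) ↔ IsSquare (u : ℚ_[p]) := by
  have : (v : ℚ_[p]) ≠ 0 := by exact_mod_cast hv
  push_cast
  exact ⟨sq_of_mul_left (mul_ne_zero this this) (.mul_self _), (IsSquare.mul_self _).mul⟩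

theorem ax_nsq (hv : v.natAbs = p) (hu : ¬(p : ℤ) ∣ u) : ¬IsSquare ((v * u : ℤ) : ℚ_[p]) := by
  intro h
  have h1 : ‖(v : ℚ_[p])‖ = (p : ℝ)⁻¹ := by
    rcases Int.natAbs_eq v with e | e <;> rw [e, hv] <;> simp
  have := even_val h
  rw [val_of_norm (k := 1) (by push_cast; rw [norm_mul, h1, norm_int hu]; simp)] at this
  exact Int.not_even_one this

theorem ax_tor (h2 : p ≠ 2) (hS : p ∈ S) (hv : (g p).natAbs = p)
    (hg : ∀ q ∈ S.erase p, ¬(p : ℤ) ∣ g q) (hu : ¬(p : ℤ) ∣ u) (y : ℕ → ZMod 2) :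
    (IsSquare ((u * ∏ q ∈ S, g q ^ (y q).val : ℤ) : ℚ_[p]) ∨
      IsSquare (((∏ q ∈ S, g q) * (u * ∏ q ∈ S, g q ^ (y q).val) : ℤ) : ℚ_[p])) ↔
    ∑ q ∈ S.erase p, Desc.lam (g q) p * (y p + y q) = Desc.lam u p := by
  have hD := ax_mul hu (ax_prod' hg y)
  have hN := ax_prod hg
  have hl := (ax_lam_mul hu (ax_prod' hg y)).trans (by rw [ax_lam_prod hg])
  have e : ∀ a b : ZMod 2, a + b = 0 ↔ b = a := by decide
  rw [← mul_prod_erase _ _ hS, ← mul_prod_erase _ g hS]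
  rcases ax_z (y p) with h | h <;> rw [h]
  · rw [ZMod.val_zero, pow_zero, one_mul, mul_assoc, or_iff_left (ax_nsq hv (ax_mul hN hD)),
      ax_sq h2 hD, hl, e]
    simp only [zero_add]
  · rw [show (1 : ZMod 2).val = 1 from rfl, pow_one, mul_left_comm u, or_iff_right (ax_nsq hv hD),
      mul_mul_mul_comm, ax_sq_mul (fun e => hp.1.ne_zero (by rw [← hv, e]; rfl)),
      ax_sq h2 (ax_mul hN hD), ax_lam_mul hN hD, hl,
      Desc.lam_prod fun q hq => BSD15.cfid_gcd hp.1 (hg q hq), add_left_comm, e, ← sum_add_distrib]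
    simp only [mul_add, mul_one]

end

theorem aAX (hR : S_LocR) (h2 : S_Loc2) (hA : S_LocA) (hG : S_LocG) (hM : S_LocM) : S_AX := by
  intro n hn h4 α β y z ha hb
  have : Fact (Nat.Prime 5) := ⟨Nat.prime_five⟩
  have n2 : ∀ (K : Type) [Field K] [CharZero K], (D2 n α β y : K) ≠ 0 := fun K _ _ => by
    exact_mod_cast D2_ne n α β y
  have n3 : ∀ (K : Type) [Field K] [CharZero K], (D3 n β z : K) ≠ 0 := fun K _ _ => by
    exact_mod_cast (D3_pos n β z).ne'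
  have odd : ∀ {q : ℕ}, q ∈ n.primeFactors → q % 2 = 1 := Desc.odd_of_mem h4
  have pr : ∀ {q : ℕ}, q ∈ n.primeFactors → q.Prime := Nat.prime_of_mem_primeFactors
  have w : ∀ (p : ℕ) [Fact p.Prime], ¬p ∣ n → ∀ g : ℕ → ℤ, (∀ q, (g q).natAbs = q) →
      ∀ q ∈ n.primeFactors, ¬(p : ℤ) ∣ g q := fun p _ h g hg q hq =>
    ax_nd (pr hq) (hg q) fun e => h (e ▸ Nat.dvd_of_mem_primeFactors hq)
  have u3 : ∀ (p : ℕ) [Fact p.Prime], (p = 3 → α = 0) → ¬(p : ℤ) ∣ (-3) ^ α.val :=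
    fun p _ h => ax_pow Nat.prime_three rfl h
  have u5 : ∀ (p : ℕ) [Fact p.Prime], (p = 5 → β = 0) → ¬(p : ℤ) ∣ 5 ^ β.val :=
    fun p _ h => ax_pow Nat.prime_five rfl h
  have v3 : ∀ (p : ℕ) [Fact p.Prime], ¬p ∣ n → (p = 5 → β = 0) → ¬(p : ℤ) ∣ D3 n β z :=
    fun p _ h h5 => ax_mul (u5 p h5) (ax_prod' (w p h _ Int.natAbs_natCast) z)
  have ev : ∀ (p : ℕ) [Fact p.Prime], ¬p ∣ n → (p = 3 → α = 0) → (p = 5 → β = 0) →
      Even (D2 n α β y : ℚ_[p]).valuation ∧ Even (D3 n β z : ℚ_[p]).valuation :=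
    fun p _ h h3 h5 => ⟨ax_ev (ax_mul (ax_mul (u3 p h3) (u5 p h5))
      (ax_prod' (w p h _ Desc.natAbs_star) y)), ax_ev (v3 p h h5)⟩
  have kA : ∀ (p : ℕ) [Fact p.Prime], p ∈ n.primeFactors →
      (Lc ℚ_[p] n (D2 n α β y) (D3 n β z) ↔
        Lmul aa y n.primeFactors p = α * cc p + β * f5 p ∧
        Lmul (fun i j => aa j i) z n.primeFactors p = β * f5 p) := by
    intro p _ hp
    have d := Nat.dvd_of_mem_primeFactors hp
    have o := odd hp
    have h3 := u3 p fun e => ha (by rw [e] at d; omega)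
    have h5 := u5 p fun e => hb (by rw [e] at d; omega)
    have g : ∀ g : ℕ → ℤ, (∀ q, (g q).natAbs = q) → ∀ q ∈ n.primeFactors.erase p,
        ¬(p : ℤ) ∣ g q := fun g hg q hq =>
      ax_nd (pr (mem_of_mem_erase hq)) (hg q) (ne_of_mem_erase hq).symm
    have t2 := ax_tor (by omega) hp (Desc.natAbs_star p) (g _ Desc.natAbs_star) (ax_mul h3 h5) y
    have t3 := ax_tor (g := fun q => (q : ℤ)) (by omega) hp (Int.natAbs_natCast p)
      (g _ Int.natAbs_natCast) h5 z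
    rw [Desc.prod_star hn h4, ax_lam_mul h3 h5, ax_lam_pow, ax_lam_pow, ax_three o, ax_five o,
      sum_congr rfl fun q hq => by rw [ax_star o (odd (mem_of_mem_erase hq))]] at t2
    rw [← Nat.cast_prod, Nat.prod_primeFactors_of_squarefree hn, ax_lam_pow, ax_five o] at t3
    rw [hA n hn h4 p d _ _ (n2 _) (n3 _)]
    refine and_congr (Iff.trans ?_ t2) (Iff.trans ?_ t3) <;> simp only [D2, D3] <;> push_cast <;> rfl
  obtain ⟨m3, m5⟩ := hM n h4
  obtain ⟨m31, m32⟩ := m3 _ _ (n2 ℚ_[3]) (n3 ℚ_[3])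
  obtain ⟨m51, m52⟩ := m5 _ _ (n2 ℚ_[5]) (n3 ℚ_[5])
  have k3 : n % 3 = 1 → (Lc ℚ_[3] n (D2 n α β y) (D3 n β z) ↔
      β + sm (fun i => cc i * z i) n.primeFactors = 0) := fun h => by
    have d : ¬3 ∣ n := by omega
    have h5 := u5 3 (by omega)
    have g := w 3 d _ Int.natAbs_natCast
    rw [m31 h, ax_sq (by omega) (v3 3 d (by omega)), D3, ax_lam_mul h5 (ax_prod' g z), ax_lam_pow,
      ax_lam_prod g, show Desc.lam 5 3 = 1 from if_neg (by norm_num), mul_one]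
    rfl
  have k5 : n % 5 = 1 ∨ n % 5 = 4 → (Lc ℚ_[5] n (D2 n α β y) (D3 n β z) ↔
      α + sm (fun i => f5 i * (y i + z i)) n.primeFactors = 0) := fun h => by
    have d : ¬5 ∣ n := by omega
    have h3 := u3 5 (by omega)
    have g := w 5 d _ Int.natAbs_natCast
    have g' := w 5 d _ Desc.natAbs_star
    have e : D2 n α β y * D3 n β z = 5 ^ β.val * 5 ^ β.val * ((-3) ^ α.val *
        ((∏ q ∈ n.primeFactors, Desc.star q ^ (y q).val) *
          ∏ q ∈ n.primeFactors, (q : ℤ) ^ (z q).val)) := by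
      unfold D2 D3
      ring
    have h6 := ax_mul (ax_prod' g' y) (ax_prod' g z)
    rw [m51 h, ← Int.cast_mul, e, ax_sq_mul (by positivity), ax_sq (by omega) (ax_mul h3 h6),
      ax_lam_mul h3 h6, ax_lam_mul (ax_prod' g' y) (ax_prod' g z), ax_lam_pow, ax_lam_prod g,
      ax_lam_prod g', show Desc.lam (-3) 5 = 1 from if_neg (by norm_num), mul_one,
      ← sum_add_distrib, sm, sum_congr rfl fun q hq => by
        rw [ax_star rfl (odd hq), show aa 5 q = f5 q from ax_five (odd hq),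
          show Desc.lam q 5 = f5 q from rfl, ← mul_add]]
  simp only [Loc', Rat.cast_intCast]
  constructor
  · rintro ⟨-, H⟩
    refine ⟨fun p hp => ?_, fun p hp => ?_, fun h => (k3 h).1 (H 3), ha, fun h => (k5 h).1 (H 5), hb⟩
    all_goals have := Fact.mk (pr hp)
    exacts [((kA p hp).1 (H p)).1, ((kA p hp).1 (H p)).2]
  · rintro ⟨s1, s2, s3, -, s5, -⟩
    refine ⟨(hR n (by omega) _ _ (n2 _) (n3 _)).2 (by exact_mod_cast D3_pos n β z), fun p hp => ?_⟩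
    by_cases d : p ∣ n
    · have := Nat.mem_primeFactors.2 ⟨hp.1, d, hn.ne_zero⟩
      exact (kA p this).2 ⟨s1 p this, s2 p this⟩
    by_cases d' : p ∣ 30 * n
    · rcases az_thirty hp.1 (((Nat.Prime.dvd_mul hp.1).1 d').resolve_right d) with rfl | rfl | rfl
      · have := az_mod h4 α β y
        refine (h2 n h4 _ _ (n2 _) (n3 _)).2 ⟨?_, ax_ev (v3 2 d (by omega))⟩
        by_cases h : D2 n α β y % 8 = 1
        · exact .inl ((sq_int_iff_two (by omega)).2 h)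
        · exact .inr (by
            exact_mod_cast (sq_int_iff_two (k := 5 * D2 n α β y) (by omega)).2 (by omega))
      · by_cases h : n % 3 = 1
        · exact (k3 h).2 (s3 h)
        · exact (m32 (by omega)).2 (ev 3 d (fun _ => ha h) (by omega))
      · by_cases h : n % 5 = 1 ∨ n % 5 = 4
        · exact (k5 h).2 (s5 h)
        · exact (m52 (by omega)).2 (ev 5 d (by omega) fun _ => hb h)
    · refine (hG n h4 p d' _ _ (n2 _) (n3 _)).2 (ev p d (fun e => ?_) fun e => ?_) <;>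
        exact absurd (Dvd.dvd.mul_right (by rw [e]; norm_num) n) d'

end Pool.Agent.P.MP_9c97e9_nt.All
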