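import Pool.Agent.P.MP_9c97e9_nt.All.Defs2

/-! Everywhere locally soluble classes are candidates; the torsion candidates. -/

namespace Pool.Agent.P.MP_9c97e9_nt.All

open Finset Pool.Agent.P.MP_8b7eba_nt

def az_N (n : ℕ) (α β : ZMod 2) (y : ℕ → ZMod 2) : ℕ :=
  3 ^ α.val * 5 ^ β.val * ∏ p ∈ n.primeFactors, p ^ (y p).val

theorem az_D2 (n : ℕ) (α β : ZMod 2) (y : ℕ → ZMod 2) : (D2 n α β y).natAbs = az_N n α β y := by
  unfold D2 az_N
  rw [Int.natAbs_mul, Int.natAbs_mul, Int.natAbs_pow, Int.natAbs_pow, ← Int.natAbsHom_apply (∏ p ∈ _, _),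
    map_prod]
  congr 1
  exact prod_congr rfl fun p _ => by rw [Int.natAbsHom_apply, Int.natAbs_pow, Desc.natAbs_star]

theorem az_D3 (n : ℕ) (β : ZMod 2) (z : ℕ → ZMod 2) : D3 n β z = az_N n 0 β z := by
  unfold D3 az_N
  simp

theorem az_ne (n : ℕ) (α β : ZMod 2) (y : ℕ → ZMod 2) : az_N n α β y ≠ 0 := by
  rw [← az_D2]
  exact Int.natAbs_ne_zero.2 (D2_ne n α β y)

theorem az_fac (n : ℕ) (α β : ZMod 2) (y : ℕ → ZMod 2) (q : ℕ) :
    (az_N n α β y).factorization q = (if q = 3 then α.val else 0) + (if q = 5 then β.val else 0) +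
      if q ∈ n.primeFactors then (y q).val else 0 := by
  have h : ∀ p ∈ n.primeFactors, p ^ (y p).val ≠ 0 := fun p hp =>
    pow_ne_zero _ (Nat.prime_of_mem_primeFactors hp).ne_zero
  unfold az_N
  rw [Nat.factorization_mul (by positivity) (prod_ne_zero_iff.2 h),
    Nat.factorization_mul (by positivity) (by positivity), Nat.factorization_prod h,
    Nat.prime_three.factorization_pow, Nat.prime_five.factorization_pow]
  simp only [Finsupp.add_apply, Finsupp.single_apply, Finsupp.finsetSum_apply]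
  congr 1
  · congr 1 <;> simp only [eq_comm]
  · rw [← sum_ite_eq' n.primeFactors q fun p => (y p).val]
    refine sum_congr rfl fun p hp => ?_
    rw [(Nat.prime_of_mem_primeFactors hp).factorization_pow, Finsupp.single_apply]

theorem az_val (P : Prop) [Decidable P] :
    (if P then (1 : ZMod 2) else 0).val = if P then 1 else 0 := by
  split_ifs <;> rfl

theorem az_eq {n m : ℕ} (hn : n ≠ 0) (hm : Squarefree m)
    (h : ∀ q : ℕ, q.Prime → q ∣ m → q = 3 ∨ q = 5 ∨ q ∣ n) :
    az_N n (if ¬3 ∣ n ∧ 3 ∣ m then 1 else 0) (if ¬5 ∣ n ∧ 5 ∣ m then 1 else 0)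
      (fun p => if p ∣ m then 1 else 0) = m := by
  refine Nat.eq_of_factorization_eq (az_ne _ _ _ _) hm.ne_zero fun q => ?_
  rw [az_fac, az_val, az_val, az_val]
  by_cases hq : q.Prime
  · have e : q ∈ n.primeFactors ↔ q ∣ n := by simp [Nat.mem_primeFactors, hq, hn]
    simp only [e]
    by_cases hd : q ∣ m
    · rw [Nat.factorization_eq_one_of_squarefree hm hq hd]
      by_cases h3 : q = 3
      · subst h3
        by_cases h1 : 3 ∣ n <;> simp [h1, hd]
      · by_cases h5 : q = 5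
        · subst h5
          by_cases h1 : 5 ∣ n <;> simp [h1, hd]
        · have : q ∣ n := by
            rcases h q hq hd with h | h | h
            exacts [absurd h h3, absurd h h5, h]
          simp [h3, h5, this, hd]
    · rw [Nat.factorization_eq_zero_of_not_dvd hd]
      by_cases h3 : q = 3
      · subst h3
        simp [hd]
      · by_cases h5 : q = 5
        · subst h5
          simp [hd]
        · simp [h3, h5, hd]
  · have h3 : q ≠ 3 := fun e => hq (e ▸ Nat.prime_three)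
    have h5 : q ≠ 5 := fun e => hq (e ▸ Nat.prime_five)
    have e : q ∉ n.primeFactors := fun e => hq (Nat.prime_of_mem_primeFactors e)
    rw [Nat.factorization_eq_zero_of_not_prime _ hq, if_neg h3, if_neg h5, if_neg e]

theorem az_mod {n : ℕ} (h4 : n % 4 = 3) (α β : ZMod 2) (y : ℕ → ZMod 2) : D2 n α β y % 4 = 1 := by
  have hm : ∀ a b : ℤ, a % 4 = 1 → b % 4 = 1 → a * b % 4 = 1 := fun a b ha hb => by
    rw [Int.mul_emod, ha, hb]; rfl
  have hp : ∀ (a : ℤ) (k : ℕ), a % 4 = 1 → a ^ k % 4 = 1 := fun a k ha => by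
    induction k with
    | zero => rw [pow_zero]; rfl
    | succ k ih => rw [pow_succ]; exact hm _ _ ih ha
  exact hm _ _ (hm _ _ (hp _ _ rfl) (hp _ _ rfl)) (prod_induction _ (fun a => a % 4 = 1) hm rfl
    fun p hp' => hp _ _ (Desc.star_mod (Desc.odd_of_mem h4 hp')))

theorem az_even_iff {a : ℤ} (ha : Squarefree a) (p : ℕ) [hp : Fact p.Prime] :
    Even (a : ℚ_[p]).valuation ↔ ¬p ∣ a.natAbs := by
  have h1 : Squarefree a.natAbs := Int.squarefree_natAbs.2 ha
  rw [Padic.valuation_intCast, padicValInt, ← Nat.factorization_def _ hp.1]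
  by_cases hd : p ∣ a.natAbs
  · rw [Nat.factorization_eq_one_of_squarefree h1 hp.1 hd]
    simp [hd]
  · rw [Nat.factorization_eq_zero_of_not_dvd hd]
    simp [hd]

theorem az_thirty {q : ℕ} (hq : q.Prime) (h : q ∣ 30) : q = 2 ∨ q = 3 ∨ q = 5 := by
  rcases (Nat.Prime.dvd_mul hq).1 (show q ∣ 2 * 15 from h) with h | h
  · exact Or.inl ((Nat.prime_dvd_prime_iff_eq hq Nat.prime_two).1 h)
  · rcases (Nat.Prime.dvd_mul hq).1 (show q ∣ 3 * 5 from h) with h | h
    · exact Or.inr (Or.inl ((Nat.prime_dvd_prime_iff_eq hq Nat.prime_three).1 h))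
    · exact Or.inr (Or.inr ((Nat.prime_dvd_prime_iff_eq hq Nat.prime_five).1 h))

theorem az_core (hR : S_LocR) (h2 : S_Loc2) (hG : S_LocG) (hM : S_LocM) {n : ℕ} (h4 : n % 4 = 3)
    {a b : ℤ} (ha : Squarefree a) (hb : Squarefree b) (hr : Lc ℝ n a b)
    (hp : ∀ (p : ℕ) [Fact p.Prime], Lc ℚ_[p] n a b) :
    ∃ (α β : ZMod 2) (y z : ℕ → ZMod 2),
      (¬n % 3 = 1 → α = 0) ∧ (¬(n % 5 = 1 ∨ n % 5 = 4) → β = 0) ∧
      D2 n α β y = a ∧ D3 n β z = b := by
  have : Fact (Nat.Prime 5) := ⟨Nat.prime_five⟩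
  have a0 : ∀ (K : Type) [Field K] [CharZero K], (a : K) ≠ 0 := fun K _ _ => by
    exact_mod_cast ha.ne_zero
  have b0 : ∀ (K : Type) [Field K] [CharZero K], (b : K) ≠ 0 := fun K _ _ => by
    exact_mod_cast hb.ne_zero
  have bpos : 0 < b := by exact_mod_cast (hR n (by omega) _ _ (a0 ℝ) (b0 ℝ)).1 hr
  obtain ⟨s2, t2⟩ := (h2 n h4 _ _ (a0 _) (b0 _)).1 (hp 2)
  rw [az_even_iff hb] at t2
  have a2 : ¬2 ∣ a.natAbs := by
    rw [← az_even_iff ha]
    rcases s2 with s | s
    · exact even_val s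
    · rw [← even_val_iff (by norm_num) (a0 _) s]
      have := (az_even_iff (a := 5) (Int.squarefree_natAbs.1 Nat.prime_five.prime.squarefree) 2).2
        (by norm_num)
      exact_mod_cast this
  have a4 : a % 4 = 1 := by
    rcases s2 with s | s
    · have := (sq_int_iff_two (k := a) (by omega)).1 s
      omega
    · have := (sq_int_iff_two (k := 5 * a) (by omega)).1 (by exact_mod_cast s)
      omega
  have hgen : ∀ q : ℕ, q.Prime → (q ∣ a.natAbs ∨ q ∣ b.natAbs) → q = 3 ∨ q = 5 ∨ q ∣ n := by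
    intro q hq hd
    have : Fact q.Prime := ⟨hq⟩
    by_cases h : q ∣ 30 * n
    · rcases (Nat.Prime.dvd_mul hq).1 h with h | h
      · rcases az_thirty hq h with rfl | h | h
        · exact (hd.elim a2 t2).elim
        · exact Or.inl h
        · exact Or.inr (Or.inl h)
      · exact Or.inr (Or.inr h)
    · have := (hG n h4 q h _ _ (a0 _) (b0 _)).1 (hp q)
      rw [az_even_iff ha, az_even_iff hb] at this
      exact (hd.elim this.1 this.2).elim
  obtain ⟨m3, m5⟩ := hM n h4
  obtain ⟨m31, m32⟩ := m3 _ _ (a0 ℚ_[3]) (b0 ℚ_[3])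
  obtain ⟨m51, m52⟩ := m5 _ _ (a0 ℚ_[5]) (b0 ℚ_[5])
  have c3 : ¬(¬3 ∣ n ∧ 3 ∣ b.natAbs) := by
    rintro ⟨h1, h2⟩
    rcases (show n % 3 = 1 ∨ n % 3 = 2 by omega) with h | h
    · exact (az_even_iff hb 3).1 (even_val ((m31 h).1 (hp 3))) h2
    · exact (az_even_iff hb 3).1 ((m32 h).1 (hp 3)).2 h2
  have c5 : (¬5 ∣ n ∧ 5 ∣ b.natAbs) ↔ (¬5 ∣ n ∧ 5 ∣ a.natAbs) := by
    refine and_congr_right fun h1 => ?_
    rcases (show (n % 5 = 1 ∨ n % 5 = 4) ∨ (n % 5 = 2 ∨ n % 5 = 3) by omega) with h | h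
    · have := even_val_iff (a0 _) (b0 _) ((m51 h).1 (hp 5))
      rw [az_even_iff ha, az_even_iff hb] at this
      exact (not_iff_not.1 this).symm
    · have := (m52 h).1 (hp 5)
      rw [az_even_iff ha, az_even_iff hb] at this
      exact iff_of_false this.2 this.1
  refine ⟨if ¬3 ∣ n ∧ 3 ∣ a.natAbs then 1 else 0, if ¬5 ∣ n ∧ 5 ∣ a.natAbs then 1 else 0,
    fun p => if p ∣ a.natAbs then 1 else 0, fun p => if p ∣ b.natAbs then 1 else 0,
    fun h => if_neg ?_, fun h => if_neg ?_, ?_, ?_⟩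
  · rintro ⟨h1, h2⟩
    exact (az_even_iff ha 3).1 ((m32 (by omega)).1 (hp 3)).1 h2
  · rintro ⟨h1, h2⟩
    exact (az_even_iff ha 5).1 ((m52 (by omega)).1 (hp 5)).1 h2
  · refine Desc.eq_of_natAbs ?_ (az_mod h4 _ _ _) a4
    rw [az_D2, az_eq (by omega) (Int.squarefree_natAbs.2 ha) fun q hq hd => hgen q hq (Or.inl hd)]
  · have := az_eq (n := n) (by omega) (Int.squarefree_natAbs.2 hb)
      fun q hq hd => hgen q hq (Or.inr hd)
    rw [if_neg c3] at this
    simp only [c5] at this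
    rw [az_D3, this]
    omega

theorem aAZ (hR : S_LocR) (h2 : S_Loc2) (hG : S_LocG) (hM : S_LocM) : S_AZ := by
  intro n _ h4 d₂ d₃ n2 n3 hl
  obtain ⟨a, r, ha, -, e2⟩ := Sel.ex_sqfree n2
  obtain ⟨b, s, hb, -, e3⟩ := Sel.ex_sqfree n3
  have s2 : IsSquare ((a : ℚ) * d₂) := sq_of_eq e2
  have s3 : IsSquare ((b : ℚ) * d₃) := sq_of_eq e3
  have key : ∀ (K : Type) [Field K] [CharZero K], Lc K n (d₂ : K) (d₃ : K) →
      Lc K n (a : K) (b : K) := fun K _ _ h =>
    h.congr (by exact_mod_cast n2) (by exact_mod_cast n3) (by exact_mod_cast ha.ne_zero)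
      (by exact_mod_cast hb.ne_zero) (by simpa using s2.map (Rat.castHom K))
      (by simpa using s3.map (Rat.castHom K))
  obtain ⟨α, β, y, z, h3, h5, f2, f3⟩ :=
    az_core hR h2 hG hM h4 ha hb (key ℝ hl.1) fun p _ => key _ (hl.2 p)
  exact ⟨α, β, y, z, h3, h5, f2 ▸ s2, f3 ▸ s3⟩

theorem az_even {k : ℤ} (h : IsSquare (k : ℚ)) (q : ℕ) : Even (k.natAbs.factorization q) := by
  obtain ⟨r, rfl⟩ := Rat.isSquare_intCast_iff.1 h
  rw [Int.natAbs_mul, ← sq, Nat.factorization_pow]
  simp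

theorem az_zero {x : ZMod 2} (h : Even x.val) : x = 0 := by
  revert x; decide

theorem az_cst {n : ℕ} (hn : Squarefree n) {α β : ZMod 2} {y : ℕ → ZMod 2} (h3 : 3 ∣ n → α = 0)
    (h5 : 5 ∣ n → β = 0) (e : ℕ)
    (h : ∀ q, Even (e * n.factorization q + (az_N n α β y).factorization q)) :
    α = 0 ∧ β = 0 ∧ Cst y n.primeFactors := by
  have hα : α = 0 := by
    by_cases hd : 3 ∣ n
    · exact h3 hd
    · have := h 3
      rw [az_fac, Nat.factorization_eq_zero_of_not_dvd hd,
        if_neg fun e => hd (Nat.dvd_of_mem_primeFactors e)] at this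
      exact az_zero (by simpa using this)
  have hβ : β = 0 := by
    by_cases hd : 5 ∣ n
    · exact h5 hd
    · have := h 5
      rw [az_fac, Nat.factorization_eq_zero_of_not_dvd hd,
        if_neg fun e => hd (Nat.dvd_of_mem_primeFactors e)] at this
      exact az_zero (by simpa using this)
  refine ⟨hα, hβ, ?_⟩
  have key : ∀ q ∈ n.primeFactors, Even (e + (y q).val) := by
    intro q hq
    have := h q
    rw [az_fac, hα, hβ, if_pos hq, Nat.factorization_eq_one_of_squarefree hn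
      (Nat.prime_of_mem_primeFactors hq) (Nat.dvd_of_mem_primeFactors hq)] at this
    simpa using this
  intro i hi j hj
  have h1 := key i hi
  have h2 := key j hj
  have h3 := ZMod.val_lt (y i)
  have h4 := ZMod.val_lt (y j)
  rw [Nat.even_iff] at h1 h2
  exact ZMod.val_injective 2 (by omega)

theorem az_or {n : ℕ} (hn : Squarefree n) {α β : ZMod 2} {y : ℕ → ZMod 2} (h3 : 3 ∣ n → α = 0)
    (h5 : 5 ∣ n → β = 0) {c D : ℤ} (hc : c.natAbs = n) (hD : D.natAbs = az_N n α β y)
    (h : IsSquare (D : ℚ) ∨ IsSquare ((c * D : ℤ) : ℚ)) :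
    α = 0 ∧ β = 0 ∧ Cst y n.primeFactors := by
  rcases h with h | h
  · refine az_cst hn h3 h5 0 fun q => ?_
    rw [zero_mul, zero_add, ← hD]
    exact az_even h q
  · refine az_cst hn h3 h5 1 fun q => ?_
    have := az_even h q
    rwa [Int.natAbs_mul, hc, hD, Nat.factorization_mul hn.ne_zero (az_ne _ _ _ _),
      Finsupp.add_apply, ← one_mul (n.factorization q)] at this

theorem az_two {y : ℕ → ZMod 2} {A : Finset ℕ} (h : Cst y A) :
    (∀ p ∈ A, (y p).val = 0) ∨ ∀ p ∈ A, (y p).val = 1 := by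
  by_cases h0 : ∀ p ∈ A, (y p).val = 0
  · exact Or.inl h0
  · push Not at h0
    obtain ⟨q, hq, h1⟩ := h0
    refine Or.inr fun p hp => ?_
    rw [h p hp q hq]
    have := ZMod.val_lt (y q)
    omega

theorem aAY : S_AY := by
  intro n hn h4 α β y z h3 h5
  have h3' : 3 ∣ n → α = 0 := fun h => h3 (by omega)
  have h5' : 5 ∣ n → β = 0 := fun h => h5 (by omega)
  constructor
  · rintro ⟨t2, t3⟩
    obtain ⟨a, b, c⟩ := az_or hn h3' h5' (c := -n) (by simp) (az_D2 n α β y)
      (t2.imp_right fun h => by exact_mod_cast h)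
    obtain ⟨-, -, d⟩ := az_or hn (α := 0) (fun _ => rfl) h5' (c := n) (D := D3 n β z) (y := z)
      (by simp) (by rw [az_D3]; simp) (t3.imp_right fun h => by exact_mod_cast h)
    exact ⟨a, b, c, d⟩
  · rintro ⟨rfl, rfl, hy, hz⟩
    constructor
    · rcases az_two hy with h | h
      · have : D2 n 0 0 y = 1 := by
          unfold D2
          rw [prod_eq_one fun p hp => by rw [h p hp, pow_zero]]
          simp
        exact Or.inl (by rw [this]; simp)
      · have : D2 n 0 0 y = -n := by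
          unfold D2
          rw [prod_congr rfl fun p hp => by rw [h p hp, pow_one], Desc.prod_star hn h4]
          simp
        exact Or.inr ⟨-n, by rw [this]; simp⟩
    · rcases az_two hz with h | h
      · have : D3 n 0 z = 1 := by
          unfold D3
          rw [prod_eq_one fun p hp => by rw [h p hp, pow_zero]]
          simp
        exact Or.inl (by rw [this]; simp)
      · have : D3 n 0 z = n := by
          unfold D3
          rw [prod_congr rfl fun p hp => by rw [h p hp, pow_one], ← Nat.cast_prod,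
            Nat.prod_primeFactors_of_squarefree hn]
          simp
        exact Or.inr ⟨n, by rw [this]; simp⟩

end Pool.Agent.P.MP_9c97e9_nt.All
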