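import Pool.Agent.P.MP_9c97e9_nt.All.Defs

/-! Solving the linear system that describes the 2-Selmer group. -/

namespace Pool.Agent.P.MP_9c97e9_nt.All

open Finset Pool.Agent.P.MP_8b7eba_nt Pool.Agent.P.MP_8b7eba_nt.BSD15

theorem cb_two (x : ZMod 2) : x + x = 0 := by
  revert x; decide

theorem cb_eq {x y : ZMod 2} (h : x + y = 0) : x = y := by
  revert x y; decide

theorem cb_swap (F : ℕ → ℕ → ZMod 2) (A : Finset ℕ) :
    ∑ i ∈ A, ∑ j ∈ A.erase i, F i j = ∑ i ∈ A, ∑ j ∈ A.erase i, F j i := by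
  apply Finset.sum_comm'
  intro i j
  simp only [mem_erase]
  constructor
  · rintro ⟨h1, h2, h3⟩
    exact ⟨⟨fun h => h2 h.symm, h1⟩, h3⟩
  · rintro ⟨⟨h1, h2⟩, h3⟩
    exact ⟨h2, fun h => h1 h.symm, h3⟩

theorem cb_adj (a : ℕ → ℕ → ZMod 2) (y z : ℕ → ZMod 2) (A : Finset ℕ) (hB : Bal a A) :
    ∑ i ∈ A, z i * Lmul a y A i = ∑ i ∈ A, y i * Lmul (fun i j => a j i) z A i := by
  have h1 : ∀ i ∈ A, z i * Lmul a y A i =
      z i * y i * ∑ j ∈ A.erase i, a i j + ∑ j ∈ A.erase i, z i * a i j * y j := by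
    intro i _
    rw [Lmul, mul_sum, mul_sum, ← sum_add_distrib]
    exact sum_congr rfl fun j _ => by ring
  have h2 : ∀ i ∈ A, y i * Lmul (fun i j => a j i) z A i =
      z i * y i * ∑ j ∈ A.erase i, a i j + ∑ j ∈ A.erase i, z j * a j i * y i := by
    intro i hi
    rw [hB i hi, Lmul, mul_sum, mul_sum, ← sum_add_distrib]
    exact sum_congr rfl fun j _ => by ring
  rw [sum_congr rfl h1, sum_congr rfl h2, sum_add_distrib, sum_add_distrib,
    cb_swap (fun i j => z i * a i j * y j)]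

theorem cb_erase (g : ℕ → ZMod 2) (A : Finset ℕ) (i : ℕ) (hi : i ∈ A) (hg : sm g A = 0) :
    ∑ j ∈ A.erase i, g j = g i := by
  have := Finset.add_sum_erase A g hi
  rw [sm] at hg
  rw [hg] at this
  exact (cb_eq this).symm

theorem cb_sum (g y : ℕ → ZMod 2) (A : Finset ℕ) (i : ℕ) (hi : i ∈ A) (hg : sm g A = 0) :
    ∑ j ∈ A.erase i, g j * (y i + y j) = sm (fun j => g j * y j) A := by
  have h1 := Finset.add_sum_erase A (fun j => g j * (y i + y j)) hi
  simp only [cb_two, mul_zero, zero_add] at h1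
  rw [h1, sm]
  simp only [mul_add, sum_add_distrib]
  rw [← sum_mul]
  rw [sm] at hg
  rw [hg, zero_mul, zero_add]

theorem cb_L1 (a : ℕ → ℕ → ZMod 2) (c f y : ℕ → ZMod 2) (A : Finset ℕ) (i : ℕ) (hi : i ∈ A)
    (hf : sm f A = 0) : Lmul (fun i j => a i j + c i * f j) y A i =
      Lmul a y A i + c i * sm (fun j => f j * y j) A := by
  rw [← cb_sum f y A i hi hf, Lmul, Lmul, mul_sum, ← sum_add_distrib]
  exact sum_congr rfl fun j _ => by ring

theorem cb_L2 (a : ℕ → ℕ → ZMod 2) (c f z : ℕ → ZMod 2) (A : Finset ℕ) (i : ℕ) (hi : i ∈ A)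
    (hc : sm c A = 0) : Lmul (fun i j => a j i + c j * f i) z A i =
      Lmul (fun i j => a j i) z A i + f i * sm (fun j => c j * z j) A := by
  rw [← cb_sum c z A i hi hc, Lmul, Lmul, mul_sum, ← sum_add_distrib]
  exact sum_congr rfl fun j _ => by ring

theorem cb_bal (a : ℕ → ℕ → ZMod 2) (c f : ℕ → ZMod 2) (A : Finset ℕ) (hB : Bal a A)
    (hc : sm c A = 0) (hf : sm f A = 0) : Bal (fun i j => a i j + c i * f j) A := by
  intro i hi
  simp only [sum_add_distrib]
  rw [hB i hi, ← mul_sum, ← sum_mul, cb_erase f A i hi hf, cb_erase c A i hi hc]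

theorem cb_balT (a : ℕ → ℕ → ZMod 2) (A : Finset ℕ) (hB : Bal a A) :
    Bal (fun i j => a j i) A := fun i hi => (hB i hi).symm

theorem cb_cst (g y : ℕ → ZMod 2) (A : Finset ℕ) (r : ℕ) (hr : r ∈ A) (hg : sm g A = 0)
    (hy : Cst y A) : sm (fun j => g j * y j) A = 0 := by
  have : sm (fun j => g j * y j) A = sm g A * y r := by
    rw [sm, sm, sum_mul]
    exact sum_congr rfl fun j hj => by rw [hy j hj r hr]
  rw [this, hg, zero_mul]

theorem cb_split (f y z : ℕ → ZMod 2) (A : Finset ℕ) : sm (fun i => f i * (y i + z i)) A =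
    sm (fun i => f i * y i) A + sm (fun i => f i * z i) A := by
  simp only [sm, mul_add, sum_add_distrib]

theorem cb_L0 (a : ℕ → ℕ → ZMod 2) (A : Finset ℕ) (i : ℕ) : Lmul a (fun _ => 0) A i = 0 := by
  simp [Lmul]

theorem cb_s0 (f : ℕ → ZMod 2) (A : Finset ℕ) :
    sm (fun i => f i * (fun _ => (0 : ZMod 2)) i) A = 0 := by
  simp [sm]

theorem cb_one {x : ZMod 2} (h : x ≠ 0) : x = 1 := by
  revert x; decide

theorem cB (hT : S_T) (hK : S_Ker) (hN : S_N) : S_B := by
  intro a m c f A hR hm t3 t5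
  have hne : A.Nonempty := by
    rcases A.eq_empty_or_nonempty with rfl | h
    · simp [sm] at hm
    · exact h
  obtain ⟨r, hr⟩ := hne
  obtain ⟨hB, htau⟩ := (hT a A).2 m hR hm
  obtain ⟨k1, k2, k3⟩ := hK a A r hr hB
  obtain ⟨k4, -, k6⟩ := hK _ A r hr (cb_balT a A hB)
  rw [k2] at k4 k6
  refine ⟨fun h3 h5 => ?_, fun h3 h5 hc hf => ?_, fun h3 h5 hc hS => ?_, fun h3 h5 hf hS => ?_⟩
  · rw [← htau r hr]
    constructor
    · intro hS
      refine k1.2 fun y hy => (hS y (fun _ => 0) 0 0 ⟨fun i hi => ?_, fun i _ => ?_,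
        fun h => absurd h h3, fun _ => rfl, fun h => absurd h h5, fun _ => rfl⟩).2.2.1
      · rw [hy i hi]; simp
      · rw [cb_L0]; simp
    · rintro h1 y z α β ⟨e1, e2, -, e4, -, e6⟩
      have ha := e4 h3
      have hb := e6 h5
      subst ha hb
      exact ⟨rfl, rfl, k1.1 h1 y fun i hi => by rw [e1 i hi]; simp,
        k4.1 h1 z fun i hi => by rw [e2 i hi]; simp⟩
  · have hB' := cb_bal a c f A hB hc hf
    obtain ⟨j1, j2, -⟩ := hK _ A r hr hB'
    obtain ⟨j4, -, -⟩ := hK _ A r hr (cb_balT _ A hB')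
    rw [j2] at j4
    rw [← hN a m c f A r hr hR hm hc hf]
    constructor
    · intro hS
      refine j1.2 fun y hy => (hS y (fun _ => 0) (sm (fun j => f j * y j) A) 0
        ⟨fun i hi => ?_, fun i _ => ?_, fun _ => ?_, fun h => absurd h3 h, fun _ => ?_,
          fun _ => rfl⟩).2.2.1
      · have := hy i hi
        rw [cb_L1 a c f y A i hi hf] at this
        rw [cb_eq this]; ring
      · rw [cb_L0]; simp
      · rw [cb_s0]; simp
      · rw [cb_split, cb_s0, add_zero, cb_two]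
    · rintro h1 y z α β ⟨e1, e2, e3, -, e5, -⟩
      have hz : Cst z A := j4.1 h1 z fun i hi => by
        rw [cb_L2 a c f z A i hi hc, e2 i hi, ← cb_eq (e3 h3), mul_comm, cb_two]
      have hb : β = 0 := by rw [cb_eq (e3 h3), cb_cst c z A r hr hc hz]
      have ha : α = sm (fun j => f j * y j) A := by
        rw [cb_eq (e5 h5), cb_split, cb_cst f z A r hr hf hz, add_zero]
      have hy : Cst y A := j1.1 h1 y fun i hi => by
        rw [cb_L1 a c f y A i hi hf, e1 i hi, ← ha, hb, zero_mul, add_zero, mul_comm, cb_two]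
      exact ⟨by rw [ha, cb_cst f y A r hr hf hy], hb, hy, hz⟩
  · by_cases h1 : TT a r A = 1
    · obtain ⟨y, hy⟩ := k3 h1 c hc
      have := (hS y (fun _ => 0) 1 0 ⟨fun i hi => by rw [hy i hi]; simp,
        fun i _ => by rw [cb_L0]; simp, fun _ => by rw [cb_s0]; simp, fun h => absurd h3 h,
        fun h => absurd h h5, fun _ => rfl⟩).1
      exact one_ne_zero this
    · refine h1 (k1.2 fun y hy => (hS y (fun _ => 0) 0 0 ⟨fun i hi => by rw [hy i hi]; simp,
        fun i _ => by rw [cb_L0]; simp, fun _ => by rw [cb_s0]; simp, fun h => absurd h3 h,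
        fun h => absurd h h5, fun _ => rfl⟩).2.2.1)
  · by_cases h1 : TT a r A = 1
    · obtain ⟨y, hy⟩ := k3 h1 f hf
      obtain ⟨z, hz⟩ := k6 h1 f hf
      have hadj : ∑ i ∈ A, f i * y i = ∑ i ∈ A, f i * z i :=
        calc ∑ i ∈ A, f i * y i = ∑ i ∈ A, y i * Lmul (fun i j => a j i) z A i :=
              sum_congr rfl fun i hi => by rw [hz i hi, mul_comm]
          _ = ∑ i ∈ A, z i * Lmul a y A i := (cb_adj a y z A hB).symm
          _ = _ := sum_congr rfl fun i hi => by rw [hy i hi, mul_comm]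
      have := (hS y z 0 1 ⟨fun i hi => by rw [hy i hi]; simp,
        fun i hi => by rw [hz i hi]; simp, fun h => absurd h h3, fun _ => rfl,
        fun _ => by rw [cb_split, sm, sm, hadj, cb_two, zero_add], fun h => absurd h5 h⟩).2.1
      exact one_ne_zero this
    · have n1 := mt k1.2 h1
      have n2 := mt k4.2 h1
      push Not at n1 n2
      obtain ⟨y, hy, hy'⟩ := n1
      obtain ⟨z, hz, hz'⟩ := n2
      by_cases fy : sm (fun i => f i * y i) A = 0
      · exact hy' (hS y (fun _ => 0) 0 0 ⟨fun i hi => by rw [hy i hi]; simp,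
          fun i _ => by rw [cb_L0]; simp, fun h => absurd h h3, fun _ => rfl,
          fun _ => by rw [cb_split, cb_s0, fy]; simp, fun _ => rfl⟩).2.2.1
      by_cases fz : sm (fun i => f i * z i) A = 0
      · exact hz' (hS (fun _ => 0) z 0 0 ⟨fun i _ => by rw [cb_L0]; simp,
          fun i hi => by rw [hz i hi]; simp, fun h => absurd h h3, fun _ => rfl,
          fun _ => by rw [cb_split, cb_s0, fz]; simp, fun _ => rfl⟩).2.2.2
      · exact hy' (hS y z 0 0 ⟨fun i hi => by rw [hy i hi]; simp,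
          fun i hi => by rw [hz i hi]; simp, fun h => absurd h h3, fun _ => rfl,
          fun _ => by rw [cb_split, cb_one fy, cb_one fz, cb_two, zero_add], fun _ => rfl⟩).2.2.1

end Pool.Agent.P.MP_9c97e9_nt.All
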