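import Pool.Agent.P.MP_9c97e9_nt.All.Defs

/-! The all-minors matrix tree theorem modulo 2. -/

namespace Pool.Agent.P.MP_9c97e9_nt.All

open Finset

theorem cf_congr {M N : ℕ → ℕ → ZMod 2} {A : Finset ℕ}
    (h : ∀ i ∈ A, ∀ j ∈ A, M i j = N i j) : DD M A = DD N A := by
  unfold DD
  congr 1
  ext i j
  exact h i i.2 j j.2

theorem cf_empty (M : ℕ → ℕ → ZMod 2) : DD M ∅ = 1 := by
  unfold DD
  exact Matrix.det_isEmpty

theorem cf_transpose (M : ℕ → ℕ → ZMod 2) (A : Finset ℕ) :
    DD (fun i j => M j i) A = DD M A := by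
  unfold DD
  rw [← Matrix.det_transpose]
  rfl

/-- the equivalence between the complement of a point and the erased set -/
def cf_eqv (A : Finset ℕ) (k : ℕ) : {i : A // ¬(i : ℕ) = k} ≃ (A.erase k) where
  toFun i := ⟨i.1.1, mem_erase.2 ⟨i.2, i.1.2⟩⟩
  invFun i := ⟨⟨i.1, (mem_erase.1 i.2).2⟩, (mem_erase.1 i.2).1⟩
  left_inv _ := rfl
  right_inv _ := rfl

theorem cf_col {M : ℕ → ℕ → ZMod 2} {A : Finset ℕ} {k : ℕ} (hk : k ∈ A)
    (h : ∀ i ∈ A, i ≠ k → M i k = 0) : DD M A = M k k * DD M (A.erase k) := by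
  unfold DD
  rw [Matrix.twoBlockTriangular_det _ (fun i : A => (i : ℕ) = k)]
  · congr 1
    · have : Unique {i : A // (i : ℕ) = k} :=
        ⟨⟨⟨⟨k, hk⟩, rfl⟩⟩, fun i => Subtype.ext (Subtype.ext i.2)⟩
      rw [Matrix.det_unique]
      have := (default : {i : A // (i : ℕ) = k}).2
      simp only [Matrix.toSquareBlockProp_def, Matrix.of_apply, this]
    · rw [← Matrix.det_submatrix_equiv_self (cf_eqv A k)]
      rfl
  · intro i hi j hj
    simp only [Matrix.of_apply, hj]
    exact h i i.2 hi

theorem cf_row {M : ℕ → ℕ → ZMod 2} {A : Finset ℕ} {k : ℕ} (hk : k ∈ A)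
    (h : ∀ i ∈ A, i ≠ k → M k i = 0) : DD M A = M k k * DD M (A.erase k) := by
  rw [← cf_transpose M A, cf_col hk h, cf_transpose M]

theorem cf_sum {M : ℕ → ℕ → ZMod 2} {A : Finset ℕ} {k : ℕ} (hk : k ∈ A)
    (h : ∀ i ∈ A, i ≠ k → ∑ s ∈ A, M i s = 0) :
    DD M A = (∑ s ∈ A, M k s) * DD M (A.erase k) := by
  have h1 : DD M A = DD (fun i j => if j = k then ∑ s ∈ A, M i s else M i j) A := by
    unfold DD
    have := Matrix.det_updateCol_sum (Matrix.of fun i j : A => M i j) ⟨k, hk⟩ (fun _ => 1)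
    rw [one_smul] at this
    rw [← this]
    congr 1
    ext i j
    rw [Matrix.updateCol_apply]
    simp only [Matrix.of_apply, one_smul, Subtype.ext_iff]
    rw [Finset.sum_coe_sort A (fun s => M i s)]
  rw [h1, cf_col hk (by intro i hi hik; simp [h i hi hik])]
  simp only [if_true]
  congr 1
  refine cf_congr fun i _ j hj => ?_
  rw [if_neg (mem_erase.1 hj).1]

theorem cf_diag {M N : ℕ → ℕ → ZMod 2} {A : Finset ℕ} {j : ℕ} (hj : j ∈ A) (c : ZMod 2)
    (h : ∀ i ∈ A, ∀ s ∈ A, M i s = N i s + if i = j ∧ s = j then c else 0) :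
    DD M A = DD N A + c * DD N (A.erase j) := by
  have h2 : DD (fun i s => if i = j then (if s = j then c else 0) else N i s) A =
      c * DD N (A.erase j) := by
    rw [cf_row hj (by intro i _ hi; simp [hi])]
    simp only [if_true]
    congr 1
    refine cf_congr fun i hi s _ => ?_
    rw [if_neg (mem_erase.1 hi).1]
  rw [← h2]
  unfold DD
  have := Matrix.det_updateRow_add (Matrix.of fun i s : A => N i s) ⟨j, hj⟩
    (fun s => N j s) (fun s => if (s : ℕ) = j then c else 0)
  convert this using 2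
  · ext i s
    rw [Matrix.updateRow_apply]
    simp only [Matrix.of_apply, Subtype.ext_iff, Pi.add_apply]
    rw [h i i.2 s s.2]
    by_cases hi : (i : ℕ) = j <;> simp [hi]
  · congr 1
    ext i s
    rw [Matrix.updateRow_apply]
    simp only [Matrix.of_apply, Subtype.ext_iff]
    by_cases hi : (i : ℕ) = j <;> simp [hi]
  · congr 1
    ext i s
    rw [Matrix.updateRow_apply]
    simp only [Matrix.of_apply, Subtype.ext_iff]

theorem cf_lap_sum (a : ℕ → ℕ → ZMod 2) (d : ℕ → ZMod 2) {A : Finset ℕ} {i : ℕ} (hi : i ∈ A) :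
    ∑ s ∈ A, lap a d A i s = d i := by
  rw [← Finset.add_sum_erase A _ hi]
  have : ∑ s ∈ A.erase i, lap a d A i s = ∑ s ∈ A.erase i, a i s :=
    Finset.sum_congr rfl fun s hs => by
      unfold lap
      rw [if_neg (mem_erase.1 hs).1.symm]
  rw [this]
  unfold lap
  rw [if_pos rfl, add_assoc, CharTwo.add_self_eq_zero, add_zero]

theorem cf_lap_erase (a : ℕ → ℕ → ZMod 2) (d : ℕ → ZMod 2) {A : Finset ℕ} {j i : ℕ} (hj : j ∈ A)
    (hi : i ∈ A.erase j) (s : ℕ) :
    lap a d A i s = lap a (fun t => d t + a t j) (A.erase j) i s := by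
  unfold lap
  split_ifs with h
  · have hj' : j ∈ A.erase i := mem_erase.2 ⟨(mem_erase.1 hi).1.symm, hj⟩
    rw [← Finset.add_sum_erase _ _ hj', Finset.erase_right_comm, add_assoc]
  · rfl

theorem cf_EE_congr (a : ℕ → ℕ → ZMod 2) {d d' : ℕ → ZMod 2} {A : Finset ℕ}
    (h : ∀ i ∈ A, d i = d' i) : EE a d A = EE a d' A := by
  unfold EE
  refine cf_congr fun i hi j _ => ?_
  unfold lap
  rw [h i hi]

theorem cf_EE_zero (a : ℕ → ℕ → ZMod 2) {d : ℕ → ZMod 2} {A : Finset ℕ} (hA : A.Nonempty)
    (h : ∀ i ∈ A, d i = 0) : EE a d A = 0 := by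
  obtain ⟨k, hk⟩ := hA
  unfold EE
  rw [cf_sum hk (fun i hi _ => by rw [cf_lap_sum a d hi, h i hi]), cf_lap_sum a d hk, h k hk,
    zero_mul]

theorem cf_lap_update (a : ℕ → ℕ → ZMod 2) (d : ℕ → ZMod 2) (A : Finset ℕ) (j i s : ℕ) :
    lap a d A i s = lap a (Function.update d j 0) A i s + if i = j ∧ s = j then d j else 0 := by
  unfold lap
  by_cases h : i = s
  · subst h
    by_cases hi : i = j
    · subst hi
      simp [add_comm]
    · simp [hi]
  · have : ¬(i = j ∧ s = j) := fun h' => h (h'.1.trans h'.2.symm)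
    simp [h, this]

theorem cf_EE_step (a : ℕ → ℕ → ZMod 2) (d : ℕ → ZMod 2) {A : Finset ℕ} {j : ℕ} (hj : j ∈ A) :
    EE a d A = EE a (Function.update d j 0) A +
      d j * EE a (fun t => d t + a t j) (A.erase j) := by
  unfold EE
  rw [cf_diag hj (d j) (fun i _ s _ => cf_lap_update a d A j i s)]
  congr 2
  refine cf_congr fun i hi s _ => ?_
  rw [cf_lap_erase a _ hj hi]
  simp only [lap, Function.update_of_ne (mem_erase.1 hi).1]

theorem cf_UR_step (a : ℕ → ℕ → ZMod 2) (d u : ℕ → ZMod 2) {A : Finset ℕ} {j k : ℕ} (hj : j ∈ A)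
    (hjk : j ≠ k) :
    UR a d u A k = UR a (Function.update d j 0) u A k +
      d j * UR a (fun t => d t + a t j) u (A.erase j) k := by
  unfold UR
  rw [cf_diag (N := fun i s => if i = k then u s else lap a (Function.update d j 0) A i s) hj
    (d j)]
  · congr 2
    refine cf_congr fun i hi s _ => ?_
    split_ifs with h
    · rfl
    · rw [cf_lap_erase a _ hj hi]
      simp only [lap, Function.update_of_ne (mem_erase.1 hi).1]
  · intro i _ s _
    by_cases h : i = k
    · have : ¬(i = j ∧ s = j) := fun h' => hjk (h'.1.symm.trans h)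
      rw [if_pos h, if_pos h, if_neg this, add_zero]
    · rw [if_neg h, if_neg h]
      exact cf_lap_update a d A j i s

theorem cf_base (a : ℕ → ℕ → ZMod 2) (d u : ℕ → ZMod 2) {A : Finset ℕ} {k : ℕ} (hk : k ∈ A)
    (h : ∀ i ∈ A, i ≠ k → d i = 0) :
    UR a d u A k = ∑ B ∈ A.powerset with k ∈ B, sm u B * TT a k B * EE a d (A \ B) := by
  rw [Finset.sum_eq_single A]
  · unfold UR
    rw [cf_sum hk (fun i hi hik => by
      simp only [if_neg hik]
      rw [cf_lap_sum a d hi, h i hi hik])]
    rw [Finset.sdiff_self]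
    unfold TT EE
    rw [cf_empty, mul_one]
    simp only [if_true]
    congr 1
    refine cf_congr fun i hi s _ => ?_
    rw [if_neg (mem_erase.1 hi).1, cf_lap_erase a d hk hi]
    simp only [lap, h i (mem_erase.1 hi).2 (mem_erase.1 hi).1, zero_add]
  · intro B hB hne
    rw [mem_filter, mem_powerset] at hB
    rw [cf_EE_zero a (Finset.sdiff_nonempty.2 fun h' => hne (Finset.Subset.antisymm hB.1 h'))
      (fun i hi => h i (mem_sdiff.1 hi).1 fun hik => (mem_sdiff.1 hi).2 (hik ▸ hB.2)), mul_zero]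
  · intro h'
    exact absurd (mem_filter.2 ⟨mem_powerset.2 Subset.rfl, hk⟩) h'

theorem cf_main (a : ℕ → ℕ → ZMod 2) (u : ℕ → ZMod 2) (k : ℕ) (n : ℕ) :
    ∀ (A : Finset ℕ), A.card = n → k ∈ A → ∀ d : ℕ → ZMod 2,
    UR a d u A k = ∑ B ∈ A.powerset with k ∈ B, sm u B * TT a k B * EE a d (A \ B) := by
  induction n with
  | zero =>
    intro A hA hk
    rw [Finset.card_eq_zero] at hA
    subst hA
    exact absurd hk (Finset.notMem_empty k)
  | succ n ih =>
    intro A hA hk
    have key : ∀ S : Finset ℕ, S ⊆ A.erase k → ∀ d : ℕ → ZMod 2,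
        (∀ i ∈ A, i ≠ k → i ∉ S → d i = 0) →
        UR a d u A k = ∑ B ∈ A.powerset with k ∈ B, sm u B * TT a k B * EE a d (A \ B) := by
      intro S
      induction S using Finset.induction_on with
      | empty => exact fun _ d h => cf_base a d u hk fun i hi hik => h i hi hik (notMem_empty i)
      | insert j S _ ihS =>
        intro hS d h
        have hj := mem_erase.1 (hS (mem_insert_self j S))
        rw [cf_UR_step a d u hj.2 hj.1, ihS ((subset_insert j S).trans hS) (Function.update d j 0)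
          (fun i hi hik hiS => by
            by_cases hij : i = j
            · subst hij
              exact Function.update_self ..
            · rw [Function.update_of_ne hij]
              exact h i hi hik (by simp [hij, hiS])),
          ih (A.erase j) (by rw [card_erase_of_mem hj.2, hA]; rfl)
            (mem_erase.2 ⟨hj.1.symm, hk⟩)]
        have e : (A.erase j).powerset.filter (fun B => k ∈ B) =
            (A.powerset.filter (fun B => k ∈ B)).filter (fun B => j ∉ B) := by
          ext B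
          simp only [mem_filter, mem_powerset, subset_erase]
          tauto
        rw [e, Finset.sum_filter (fun B => j ∉ B), Finset.mul_sum, ← Finset.sum_add_distrib]
        refine Finset.sum_congr rfl fun B hB => ?_
        by_cases hjB : j ∈ B
        · rw [if_neg (not_not.2 hjB), mul_zero, add_zero]
          congr 1
          refine cf_EE_congr a fun i hi => ?_
          rw [Function.update_of_ne]
          rintro rfl
          exact (mem_sdiff.1 hi).2 hjB
        · rw [if_pos hjB, cf_EE_step a d (mem_sdiff.2 ⟨hj.2, hjB⟩), Finset.erase_sdiff_comm]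
          ring
    intro d
    exact key (A.erase k) Subset.rfl d fun i hi hik h => absurd (mem_erase.2 ⟨hik, hi⟩) h

theorem cF : S_F := fun a d u A k hk => cf_main a u k A.card A rfl hk d

end Pool.Agent.P.MP_9c97e9_nt.All
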