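import Pool.Agent.P.MP_9c97e9_nt.All.Defs

/-! The Redei data: reciprocity, sums, and the spanning tree criterion. -/

namespace Pool.Agent.P.MP_9c97e9_nt.All

open Finset Pool.Agent.P.MP_8b7eba_nt Pool.Agent.P.MP_8b7eba_nt.BSD15

theorem cg_odd {n p : ℕ} (h2 : n % 2 = 1) (hp : p ∈ n.primeFactors) : p % 2 = 1 := by
  by_contra h
  have : 2 ∣ n := (show 2 ∣ p by omega).trans (Nat.dvd_of_mem_primeFactors hp)
  omega

theorem cg_rec {n : ℕ} (h2 : n % 2 = 1) : Rec aa mm n.primeFactors := by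
  intro i hi j hj hij
  have hi2 := cg_odd h2 hi
  have hj2 := cg_odd h2 hj
  have hg : (j : ℤ).gcd i = 1 := Desc.gcd_of_ne hi hj hij.symm rfl
  unfold aa mm Desc.lam
  rcases Nat.odd_mod_four_iff.1 hi2 with h | h
  · rw [jacobiSym.quadratic_reciprocity_one_mod_four h (Nat.odd_iff.2 hj2),
      if_neg (show ¬i % 4 = 3 by omega), zero_mul, CharTwo.add_self_eq_zero]
  · rcases Nat.odd_mod_four_iff.1 hj2 with h' | h'
    · rw [jacobiSym.quadratic_reciprocity_one_mod_four' (Nat.odd_iff.2 hi2) h',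
        if_neg (show ¬j % 4 = 3 by omega), mul_zero, CharTwo.add_self_eq_zero]
    · rw [jacobiSym.quadratic_reciprocity_three_mod_four h h', if_pos h, if_pos h']
      rcases jacobiSym.eq_one_or_neg_one hg with e | e <;> rw [e] <;> decide

theorem cg_sm_mm (S : Finset ℕ) (h : ∀ p ∈ S, p % 2 = 1) :
    (∏ p ∈ S, p) % 2 = 1 ∧ sm mm S = if (∏ p ∈ S, p) % 4 = 3 then 1 else 0 := by
  induction S using Finset.induction_on with
  | empty => simp [sm]
  | insert q S hq ih =>
    obtain ⟨h1, h2⟩ := ih fun p hp => h p (mem_insert_of_mem hp)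
    have h3 := h q (mem_insert_self _ _)
    unfold sm at h2 ⊢
    rw [prod_insert hq, sum_insert hq, h2, mm]
    generalize ∏ p ∈ S, p = m at h1
    refine ⟨by rw [Nat.mul_mod, h1, h3], ?_⟩
    rw [Nat.mul_mod]
    rcases Nat.odd_mod_four_iff.1 h1 with e | e <;>
      rcases Nat.odd_mod_four_iff.1 h3 with e' | e' <;> rw [e, e'] <;> decide

theorem cg_sum {n q : ℕ} (hn : Squarefree n) (hq : q.Prime) (h : ¬q ∣ n) :
    ∑ p ∈ n.primeFactors, aa p q = Desc.lam ((n : ℤ) % q) q := by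
  unfold aa
  rw [← Desc.lam_prod (f := fun p : ℕ => (p : ℤ)) fun p hp => by
    rw [Int.gcd_natCast_natCast]
    exact (Nat.coprime_primes (Nat.prime_of_mem_primeFactors hp) hq).2 fun e =>
      h (e ▸ Nat.dvd_of_mem_primeFactors hp)]
  rw [show ∏ p ∈ n.primeFactors, (p : ℤ) = n by
    simpa using congrArg (Nat.cast : ℕ → ℤ) (Nat.prod_primeFactors_of_squarefree hn)]
  unfold Desc.lam
  rw [jacobiSym.mod_left]

theorem cg_lmul (g : ℕ → ℕ → ZMod 2) {P S : Finset ℕ} (hS : S ⊆ P) {y : ℕ → ZMod 2}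
    (hy : ∀ i ∈ P, y i = if i ∈ S then 1 else 0) {i : ℕ} (hi : i ∈ P) :
    Lmul g y P i = if i ∈ S then ∑ j ∈ P \ S, g i j else ∑ j ∈ S, g i j := by
  unfold Lmul
  have e : ∑ j ∈ P.erase i, g i j * (y i + y j) = ∑ j ∈ P, g i j * (y i + y j) := by
    rw [← add_sum_erase _ _ hi, CharTwo.add_self_eq_zero, mul_zero, zero_add]
  rw [e, ← sum_sdiff hS, hy i hi]
  have e1 : ∀ j ∈ P \ S, y j = 0 := fun j hj => by
    rw [hy j (mem_sdiff.1 hj).1, if_neg (mem_sdiff.1 hj).2]
  have e2 : ∀ j ∈ S, y j = 1 := fun j hj => by rw [hy j (hS hj), if_pos hj]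
  split_ifs with h
  · rw [sum_eq_zero (s := S) fun j hj => by rw [e2 j hj, CharTwo.add_self_eq_zero, mul_zero],
      add_zero]
    exact sum_congr rfl fun j hj => by rw [e1 j hj, add_zero, mul_one]
  · rw [sum_eq_zero fun j hj => by rw [e1 j hj, add_zero, mul_zero], zero_add]
    exact sum_congr rfl fun j hj => by rw [e2 j hj, zero_add, mul_one]

theorem cg_ker (g : ℕ → ℕ → ZMod 2) (P : Finset ℕ) :
    (∀ y : ℕ → ZMod 2, (∀ i ∈ P, Lmul g y P i = 0) → Cst y P) ↔ Desc.Ker P g := by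
  constructor
  · intro h S hS h1 h2
    have hc := h (fun i => if i ∈ S then 1 else 0) fun i hi => by
      rw [cg_lmul g hS (fun _ _ => rfl) hi]
      split_ifs with e
      · exact h1 i e
      · exact h2 i (mem_sdiff.2 ⟨hi, e⟩)
    rcases S.eq_empty_or_nonempty with e | ⟨i, hi⟩
    · exact .inl e
    · refine .inr (hS.antisymm fun j hj => ?_)
      by_contra hjS
      have := hc i (hS hi) j hj
      simp only [if_pos hi, if_neg hjS] at this
      exact one_ne_zero this
  · intro h y hy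
    have hS : P.filter (fun i => y i = 1) ⊆ P := filter_subset _ _
    have h01 : ∀ a : ZMod 2, a = if a = 1 then 1 else 0 := by decide
    have hy' : ∀ i ∈ P, y i = if i ∈ P.filter (fun i => y i = 1) then 1 else 0 := fun i hi => by
      simpa [hi] using h01 (y i)
    rcases h _ hS (fun i hi => by
        have := hy i (hS hi)
        rwa [cg_lmul g hS hy' (hS hi), if_pos hi] at this)
      (fun i hi => by
        have := hy i (mem_sdiff.1 hi).1
        rwa [cg_lmul g hS hy' (mem_sdiff.1 hi).1, if_neg (mem_sdiff.1 hi).2] at this) with e | e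
    · intro i hi j hj
      rw [hy' i hi, hy' j hj, e, if_neg (notMem_empty i), if_neg (notMem_empty j)]
    · intro i hi j hj
      rw [hy' i hi, hy' j hj, e, if_pos hi, if_pos hj]

theorem cg_sm {n : ℕ} (hn : Squarefree n) (h2 : n % 2 = 1) :
    sm mm n.primeFactors = if n % 4 = 3 then 1 else 0 := by
  have := (cg_sm_mm n.primeFactors fun p hp => cg_odd h2 hp).2
  rwa [Nat.prod_primeFactors_of_squarefree hn] at this

theorem cG (hT : S_T) (hK : S_Ker) : S_G := by
  intro n hn h2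
  refine ⟨cg_rec h2, cg_sm hn h2, fun h3 => ?_, fun h5 => ?_, fun h4 => ?_, fun h4 h3 => ?_⟩
  · unfold sm cc
    rw [cg_sum hn Nat.prime_three h3]
    have : n % 3 = 1 ∨ n % 3 = 2 := by omega
    rcases this with e | e
    · rw [show (n : ℤ) % (3 : ℕ) = 1 by omega, e]
      simp [Desc.lam]
    · rw [show (n : ℤ) % (3 : ℕ) = 2 by omega, e, Desc.lam, if_neg (by norm_num), if_pos rfl]
  · unfold sm f5
    rw [cg_sum hn Nat.prime_five h5]
    have : n % 5 = 1 ∨ n % 5 = 2 ∨ n % 5 = 3 ∨ n % 5 = 4 := by omega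
    rcases this with e | e | e | e
    · rw [show (n : ℤ) % (5 : ℕ) = 1 by omega, e]
      simp [Desc.lam]
    · rw [show (n : ℤ) % (5 : ℕ) = 2 by omega, e, Desc.lam, if_neg (by norm_num),
        if_pos (.inl rfl)]
    · rw [show (n : ℤ) % (5 : ℕ) = 3 by omega, e, Desc.lam, if_neg (by norm_num),
        if_pos (.inr rfl)]
    · rw [show (n : ℤ) % (5 : ℕ) = 4 by omega, e, Desc.lam, if_pos (by norm_num),
        if_neg (by omega)]
  · obtain ⟨hb, ht⟩ := (hT aa n.primeFactors).2 mm (cg_rec h2) (by rw [cg_sm hn h2, if_pos h4])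
    obtain ⟨r, hr⟩ : n.primeFactors.Nonempty := Nat.nonempty_primeFactors.2 (by omega)
    have hb' : Bal (fun i j => aa j i) n.primeFactors := fun i hi => (hb i hi).symm
    rw [gg, ← ht r hr, ← (hK aa _ r hr hb).2.1, (hK _ _ r hr hb').1, cg_ker, Desc.redeiL_iff hn]
    rfl
  · have hn3 : Squarefree (3 * n) :=
      (Nat.squarefree_mul ((Nat.Prime.coprime_iff_not_dvd Nat.prime_three).2 h3)).2
        ⟨Nat.prime_three.prime.squarefree, hn⟩
    have hp : (3 * n).primeFactors = insert 3 n.primeFactors := by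
      rw [Nat.primeFactors_mul (by norm_num) hn.ne_zero, Nat.prime_three.primeFactors]
      rfl
    have h3' : 3 ∉ n.primeFactors := fun h => h3 (Nat.dvd_of_mem_primeFactors h)
    obtain ⟨-, ht⟩ := (hT aa (3 * n).primeFactors).2 mm (cg_rec (by omega))
      (by rw [cg_sm hn3 (by omega), if_pos (by omega)])
    rw [gg, ← ht 3 (by rw [hp]; exact mem_insert_self _ _), hp, TT, erase_insert h3']
    rfl

end Pool.Agent.P.MP_9c97e9_nt.All
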