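import Pool.Agent.P.MP_9c97e9_nt.All.Defs

/-! The tree polynomial of a rank one perturbation modulo 2. -/

namespace Pool.Agent.P.MP_9c97e9_nt.All

open Finset Pool.Agent.P.MP_8b7eba_nt Pool.Agent.P.MP_8b7eba_nt.BSD15

theorem cn_rank_one_aux {n R : Type} [Fintype n] [DecidableEq n] [CommRing R] (M : Matrix n n R)
    (c f : n → R) (S : Finset n) :
    (Matrix.of fun i j => M i j + (if i ∈ S then c i else 0) * f j).det =
      M.det + ∑ k ∈ S, c k * (M.updateRow k f).det := by
  induction S using Finset.induction_on with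
  | empty => simp; rfl
  | insert k S hk ih =>
    have e : (Matrix.of fun i j => M i j + (if i ∈ insert k S then c i else 0) * f j) =
        (Matrix.of fun i j => M i j + (if i ∈ S then c i else 0) * f j).updateRow k
          ((Matrix.of fun i j => M i j + (if i ∈ S then c i else 0) * f j) k + c k • f) := by
      ext i j
      by_cases h : i = k
      · subst h
        simp [hk]
      · simp [h]
    have e2 : ((Matrix.of fun i j => M i j + (if i ∈ S then c i else 0) * f j).updateRow k f).det =
        (M.updateRow k f).det := by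
      refine Matrix.det_eq_of_forall_row_eq_smul_add_const (fun i => if i ∈ S then c i else 0) k
        (if_neg hk) fun i j => ?_
      by_cases h : i = k
      · subst h
        simp [hk]
      · simp [h]
    rw [e, Matrix.det_updateRow_add, Matrix.det_updateRow_smul, Matrix.updateRow_eq_self, ih, e2,
      sum_insert hk]
    ring

theorem cn_rank_one {n R : Type} [Fintype n] [DecidableEq n] [CommRing R] (M : Matrix n n R)
    (c f : n → R) :
    (Matrix.of fun i j => M i j + c i * f j).det =
      M.det + ∑ k, c k * (M.updateRow k f).det := by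
  simpa using cn_rank_one_aux M c f univ

theorem cn_sm_erase (φ : ℕ → ZMod 2) {A : Finset ℕ} {i : ℕ} (hi : i ∈ A) (h : sm φ A = 0) :
    ∑ k ∈ A.erase i, φ k = φ i := by
  have := add_sum_erase A φ hi
  rw [sm] at h
  rw [h] at this
  generalize ∑ k ∈ A.erase i, φ k = x at this ⊢
  generalize φ i = y at this ⊢
  revert x y
  decide

theorem cn_sm_sdiff (φ : ℕ → ZMod 2) {A B : Finset ℕ} (h : B ⊆ A) :
    sm φ (A \ B) = sm φ A + sm φ B := by
  have := sum_sdiff (f := φ) h
  rw [sm, sm, sm, ← this, add_assoc, CharTwo.add_self_eq_zero, add_zero]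

theorem cn_rec_mono {a : ℕ → ℕ → ZMod 2} {m : ℕ → ZMod 2} {A B : Finset ℕ} (h : Rec a m A)
    (hB : B ⊆ A) : Rec a m B := fun i hi j hj => h i (hB hi) j (hB hj)

theorem cn_reindex (A : Finset ℕ) (F : Finset ℕ → Finset ℕ → ZMod 2) :
    ∑ B ∈ A.powerset, ∑ C ∈ B.powerset, F B C =
      ∑ D ∈ A.powerset, ∑ C ∈ (A \ D).powerset, F (C ∪ D) C := by
  rw [sum_sigma', sum_sigma']
  refine sum_nbij' (fun x => ⟨x.1 \ x.2, x.2⟩) (fun x => ⟨x.2 ∪ x.1, x.2⟩) ?_ ?_ ?_ ?_ ?_
  · rintro ⟨B, C⟩ h
    simp only [mem_sigma, mem_powerset] at h ⊢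
    refine ⟨sdiff_subset.trans h.1, fun x hx => mem_sdiff.mpr ⟨h.1 (h.2 hx), fun h' => ?_⟩⟩
    exact (mem_sdiff.mp h').2 hx
  · rintro ⟨D, C⟩ h
    simp only [mem_sigma, mem_powerset] at h ⊢
    exact ⟨union_subset (h.2.trans sdiff_subset) h.1, subset_union_left⟩
  · rintro ⟨B, C⟩ h
    simp only [mem_sigma, mem_powerset] at h
    simp only [union_sdiff_of_subset h.2]
  · rintro ⟨D, C⟩ h
    simp only [mem_sigma, mem_powerset] at h
    have : Disjoint C D := (subset_sdiff.mp h.2).2
    simp only [union_sdiff_cancel_left this]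
  · rintro ⟨B, C⟩ h
    simp only [mem_sigma, mem_powerset] at h
    simp only [union_sdiff_of_subset h.2]

/-- The expansion for a fixed root. -/
theorem cn_root (hF : S_F) (a : ℕ → ℕ → ZMod 2) (c f : ℕ → ZMod 2) {A : Finset ℕ} {r : ℕ}
    (hr : r ∈ A) (hf : sm f A = 0) :
    TT (fun i j => a i j + c i * f j) r A = TT a r A +
      ∑ B ∈ (A.erase r).powerset, sm f B * tau a c B * TT a r (A \ B) := by
  have e : (Matrix.of fun i j : A.erase r =>
      lap (fun i j => a i j + c i * f j) (fun i => a i r + c i * f r) (A.erase r) i j) =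
      Matrix.of fun i j : A.erase r =>
        (Matrix.of fun i j : A.erase r => lap a (fun i => a i r) (A.erase r) i j) i j +
          c i * f j := by
    ext i j
    simp only [Matrix.of_apply, lap]
    split_ifs with h
    · have h1 := add_sum_erase _ f i.2
      rw [cn_sm_erase f hr hf] at h1
      rw [sum_add_distrib, ← mul_sum, ← h, ← h1]
      have h2 : ∀ x y z u v : ZMod 2, x + y * (z + u) + (v + y * u) = x + v + y * z := by decide
      exact h2 _ _ _ _ _
    · rfl
  have e2 : ∀ k : A.erase r,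
      ((Matrix.of fun i j : A.erase r => lap a (fun i => a i r) (A.erase r) i j).updateRow k
        fun j => f j).det = UR a (fun i => a i r) f (A.erase r) k := by
    intro k
    rw [UR, DD]
    congr 1
    ext i j
    simp only [Matrix.updateRow_apply, Matrix.of_apply, Subtype.ext_iff]
  rw [TT, EE, DD, e, cn_rank_one]
  simp only [e2]
  rw [sum_coe_sort (A.erase r) fun k => c k * UR a (fun i => a i r) f (A.erase r) k]
  congr 1
  rw [sum_congr rfl fun k hk => by rw [hF a _ f _ k hk, mul_sum, sum_filter], sum_comm]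
  refine sum_congr rfl fun B hB => ?_
  rw [← sum_filter, filter_mem_eq_inter, inter_eq_right.mpr (mem_powerset.mp hB), tau, mul_sum,
    sum_mul]
  refine sum_congr rfl fun k _ => ?_
  have : (A \ B).erase r = A.erase r \ B := by
    ext x
    simp only [mem_erase, mem_sdiff, and_assoc]
  rw [show TT a r (A \ B) = EE a (fun i => a i r) (A.erase r \ B) by rw [TT, this]]
  ring

theorem cn_exp (hF : S_F) (hT : S_T) {a : ℕ → ℕ → ZMod 2} {m c f : ℕ → ZMod 2} {A : Finset ℕ}
    {r : ℕ} (hr : r ∈ A) (hR : Rec a m A) (hm : sm m A = 1) (hc : sm c A = 0)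
    (hf : sm f A = 0) :
    TT (fun i j => a i j + c i * f j) r A = tau a m A +
      ∑ B ∈ A.powerset, sm f B * tau a c B * tau a m (A \ B) := by
  obtain ⟨hb, ht⟩ := (hT a A).2 m hR hm
  have hb' : Bal (fun i j => a i j + c i * f j) A := by
    intro i hi
    rw [sum_add_distrib, sum_add_distrib, ← mul_sum, ← sum_mul, cn_sm_erase f hi hf,
      cn_sm_erase c hi hc, hb i hi]
  have h1 : TT (fun i j => a i j + c i * f j) r A =
      ∑ s ∈ A, m s * TT (fun i j => a i j + c i * f j) s A := by
    rw [sum_congr rfl fun s hs => by rw [(hT _ A).1 hb' s hs r hr], ← sum_mul]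
    rw [sm] at hm
    rw [hm, one_mul]
  rw [h1, sum_congr rfl fun s hs => by rw [cn_root hF a c f hs hf, mul_add], sum_add_distrib]
  congr 1
  have h2 : ∀ s ∈ A, m s * ∑ B ∈ (A.erase s).powerset, sm f B * tau a c B * TT a s (A \ B) =
      ∑ B ∈ A.powerset, if s ∉ B then sm f B * tau a c B * (m s * TT a s (A \ B)) else 0 := by
    intro s _
    rw [← sum_filter, mul_sum]
    refine sum_congr ?_ fun B _ => by ring
    ext B
    simp only [mem_powerset, mem_filter, subset_erase]
  rw [sum_congr rfl h2, sum_comm]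
  refine sum_congr rfl fun B _ => ?_
  rw [← sum_filter, ← mul_sum, ← sdiff_eq_filter]
  rfl

theorem cN (hF : S_F) (hT : S_T) (hK : S_K) : S_N := by
  intro a m c f A r hr hR hm hc hf
  rw [cn_exp hF hT hr hR hm hc hf, kap]
  congr 1
  have z2 : ∀ x : ZMod 2, x = 0 ∨ x = 1 := by decide
  have h1 : ∀ B ∈ A.powerset, sm f B * tau a c B * tau a m (A \ B) =
      (1 + sm m B) * sm c B * sm f B * tau a c B * tau a m (A \ B) +
      (sm m B * sm c B * sm f B * tau a m B * tau a m (A \ B) +
      ∑ C ∈ B.powerset, (1 + sm m B) * (1 + sm c B) * tau a m (A \ B) *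
        (sm c C * sm f (B \ C) * sm m C * tau a m C * tau a m (B \ C))) := by
    intro B hB
    have hRB := cn_rec_mono hR (mem_powerset.mp hB)
    rw [← mul_sum]
    rcases z2 (sm m B) with h | h
    · rw [hK a m c f B hRB h, h]
      have : ∀ x y z u v w : ZMod 2, x * y * z = (1 + 0) * u * x * y * z +
        (0 * u * x * v * z + (1 + 0) * (1 + u) * z * (u * w + x * y)) := by decide
      exact this _ _ _ _ _ _
    · have e : tau a c B = sm c B * tau a m B := by
        rw [tau, sm, sum_mul]
        exact sum_congr rfl fun s hs => by rw [((hT a B).2 m hRB h).2 s hs]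
      rw [e, h]
      have : ∀ x y z u w : ZMod 2, x * (u * y) * z = (1 + 1) * u * x * (u * y) * z +
        (1 * u * x * y * z + (1 + 1) * (1 + u) * z * w) := by decide
      exact this _ _ _ _ _
  rw [sum_congr rfl h1, sum_add_distrib, sum_add_distrib, cn_reindex, add_eq_left,
    ← sum_add_distrib]
  refine sum_eq_zero fun D hD => ?_
  have hDA := mem_powerset.mp hD
  have h2 : ∀ C ∈ (A \ D).powerset,
      (1 + sm m (C ∪ D)) * (1 + sm c (C ∪ D)) * tau a m (A \ (C ∪ D)) *
        (sm c C * sm f ((C ∪ D) \ C) * sm m C * tau a m C * tau a m ((C ∪ D) \ C)) =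
      sm m D * sm c D * sm f D * tau a m D * (sm c C * (sm m ((A \ D) \ C) + sm m (A \ D)) *
        sm m C * tau a m C * tau a m ((A \ D) \ C)) := by
    intro C hC
    have hCA := mem_powerset.mp hC
    have hd : Disjoint C D := (subset_sdiff.mp hCA).2
    have e1 : ∀ φ : ℕ → ZMod 2, sm φ (C ∪ D) = sm φ C + sm φ D := fun φ => sum_union hd
    have e2 : A \ (C ∪ D) = (A \ D) \ C := by rw [sdiff_sdiff_left, sup_eq_union, union_comm]
    rw [e1, e1, e2, union_sdiff_cancel_left hd, cn_sm_sdiff m hCA]
    have : ∀ x y z u v w s t e : ZMod 2, (1 + (x + y)) * (1 + (z + u)) * v * (z * w * x * s * t) =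
      y * u * w * t * (z * (e + x + e) * x * s * v) := by decide
    exact this _ _ _ _ _ _ _ _ _
  rw [sum_congr rfl h2, ← mul_sum]
  rcases z2 (sm m D) with h | h
  · simp [h]
  rcases z2 (sm c D) with h' | h'
  · simp [h']
  have e1 : sm m (A \ D) = 0 := by rw [cn_sm_sdiff m hDA, hm, h]; rfl
  have e2 : sm c (A \ D) = 1 := by rw [cn_sm_sdiff c hDA, hc, h', zero_add]
  simp only [e1, add_zero]
  rw [hK a m c m _ (cn_rec_mono hR sdiff_subset) e1, e1, e2, one_mul, zero_mul, add_zero,
    CharTwo.add_self_eq_zero]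

end Pool.Agent.P.MP_9c97e9_nt.All
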