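import Pool.Agent.P.MP_9c97e9_nt.All.Defs

/-! The identity `S_P` for tree polynomials modulo 2. -/

namespace Pool.Agent.P.MP_9c97e9_nt.All

open Finset Pool.Agent.P.MP_8b7eba_nt Pool.Agent.P.MP_8b7eba_nt.BSD15

theorem cp_cases (x : ZMod 2) : x = 0 ∨ x = 1 := by
  revert x
  decide

theorem cp_reindex (A : Finset ℕ) (G : Finset ℕ → Finset ℕ → ZMod 2) :
    ∑ B ∈ A.powerset, ∑ C ∈ B.powerset, G (B \ C) C =
      ∑ D ∈ A.powerset, ∑ C ∈ (A \ D).powerset, G D C := by
  rw [sum_sigma', sum_sigma']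
  refine sum_nbij' (fun x => ⟨x.1 \ x.2, x.2⟩) (fun x => ⟨x.1 ∪ x.2, x.2⟩) ?_ ?_ ?_ ?_ ?_
  · rintro ⟨B, C⟩ h
    simp only [mem_sigma, mem_powerset] at h ⊢
    refine ⟨sdiff_subset.trans h.1, fun x hx => ?_⟩
    simp only [mem_sdiff, not_and, not_not]
    exact ⟨h.1 (h.2 hx), fun _ => hx⟩
  · rintro ⟨D, C⟩ h
    simp only [mem_sigma, mem_powerset] at h ⊢
    exact ⟨union_subset h.1 (h.2.trans sdiff_subset), subset_union_right⟩
  · rintro ⟨B, C⟩ h
    simp only [mem_sigma, mem_powerset] at h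
    simp only [sdiff_union_of_subset h.2]
  · rintro ⟨D, C⟩ h
    simp only [mem_sigma, mem_powerset] at h
    have : Disjoint D C := disjoint_left.2 fun x hx hc => (mem_sdiff.1 (h.2 hc)).2 hx
    simp only [union_sdiff_cancel_right this]
  · rintro ⟨B, C⟩ _
    rfl

theorem cp_sm_sdiff (φ : ℕ → ZMod 2) {B C : Finset ℕ} (h : C ⊆ B) :
    sm φ B = sm φ (B \ C) + sm φ C := (sum_sdiff h).symm

theorem cp_rec {a : ℕ → ℕ → ZMod 2} {m : ℕ → ZMod 2} {A B : Finset ℕ} (h : Rec a m A)
    (hB : B ⊆ A) : Rec a m B := fun i hi j hj e => h i (hB hi) j (hB hj) e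

theorem cp_tau (hT : S_T) {a : ℕ → ℕ → ZMod 2} {m : ℕ → ZMod 2} (c : ℕ → ZMod 2) {B : Finset ℕ}
    (h : Rec a m B) : sm m B * tau a c B = sm m B * (sm c B * tau a m B) := by
  rcases cp_cases (sm m B) with h0 | h1
  · rw [h0, zero_mul, zero_mul]
  · congr 1
    have := ((hT a B).2 m h h1).2
    rw [sm, sum_mul]
    exact sum_congr rfl fun r hr => by rw [this r hr]

theorem cP (hW : S_W) (hT : S_T) (hK : S_K) : S_P := by
  intro a m c f A hR hm hf
  have h1 := hW a c f A
  rw [hf, one_mul] at h1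
  set G : Finset ℕ → Finset ℕ → ZMod 2 := fun D C =>
    sm m D * sm c D * sm f D * tau a m D * (sm m C * tau a c C * EE a c ((A \ D) \ C)) with hG
  have h2 : ∀ B ∈ A.powerset,
      (1 + sm m B) * sm c B * sm f B * tau a c B * EE a c (A \ B) =
        sm f B * tau a c B * EE a c (A \ B) +
          (sm m B * sm c B * sm f B * tau a m B * EE a c (A \ B) +
            ∑ C ∈ B.powerset, G (B \ C) C) := by
    intro B hB
    have hBA := mem_powerset.1 hB
    have h3 : ∑ C ∈ B.powerset, G (B \ C) C = (1 + sm m B) * (1 + sm c B) *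
        (∑ C ∈ B.powerset, sm c C * sm f (B \ C) * sm m C * tau a m C * tau a m (B \ C)) *
          EE a c (A \ B) := by
      rw [mul_sum, sum_mul]
      refine sum_congr rfl fun C hC => ?_
      have hCB := mem_powerset.1 hC
      have e : (A \ (B \ C)) \ C = A \ B := by
        rw [sdiff_sdiff_left, sup_eq_union, sdiff_union_of_subset hCB]
      simp only [hG]
      rw [e, cp_tau hT c (cp_rec hR (hCB.trans hBA)), cp_sm_sdiff m hCB, cp_sm_sdiff c hCB]
      generalize sm m (B \ C) = x1, sm m C = x2, sm c (B \ C) = x3, sm c C = x4,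
        sm f (B \ C) = x5, tau a m C = x6, tau a m (B \ C) = x7, EE a c (A \ B) = x8
      revert x1 x2 x3 x4 x5 x6 x7 x8
      decide
    rw [h3]
    rcases cp_cases (sm m B) with h0 | h0
    · rw [hK a m c f B (cp_rec hR hBA) h0, h0]
      generalize sm c B = x1, sm f B = x2, tau a c B = x3, tau a f B = x4, tau a m B = x5,
        EE a c (A \ B) = x6
      revert x1 x2 x3 x4 x5 x6
      decide
    · have h4 := cp_tau hT c (cp_rec hR hBA)
      rw [h0, one_mul, one_mul] at h4
      rw [h0, h4]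
      generalize sm c B = x1, sm f B = x2, tau a m B = x5, EE a c (A \ B) = x6,
        (∑ C ∈ B.powerset, sm c C * sm f (B \ C) * sm m C * tau a m C * tau a m (B \ C)) = x7
      revert x1 x2 x5 x6 x7
      decide
  have h5 : ∀ D ∈ A.powerset, ∑ C ∈ (A \ D).powerset, G D C =
      sm m D * sm c D * sm f D * tau a m D * EE a c (A \ D) := by
    intro D hD
    have h6 := cp_sm_sdiff m (mem_powerset.1 hD)
    rw [hm] at h6
    simp only [hG]
    rw [← mul_sum, hW a c m (A \ D)]
    generalize sm m D = x1, sm m (A \ D) = x2, sm c D = x3, sm f D = x4, tau a m D = x5,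
      EE a c (A \ D) = x6 at h6 ⊢
    revert x1 x2 x3 x4 x5 x6
    decide
  rw [sum_congr rfl h2, sum_add_distrib, sum_add_distrib, h1, cp_reindex, sum_congr rfl h5,
    CharTwo.add_self_eq_zero, add_zero]

end Pool.Agent.P.MP_9c97e9_nt.All
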