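import Pool.Agent.P.MP_9c97e9_nt.All.Defs

/-! The kernel of a balanced Laplacian modulo 2. -/

namespace Pool.Agent.P.MP_9c97e9_nt.All

open Finset Matrix

/-- the reduced Laplacian -/
def ct_M (a : ℕ → ℕ → ZMod 2) (A : Finset ℕ) (r : ℕ) :
    Matrix (A.erase r) (A.erase r) (ZMod 2) :=
  Matrix.of fun i j => lap a (fun i => a i r) (A.erase r) i j

theorem ct_TT (a : ℕ → ℕ → ZMod 2) (A : Finset ℕ) (r : ℕ) : TT a r A = (ct_M a A r).det := rfl

theorem ct_two (x : ZMod 2) : x + x = 0 := CharTwo.add_self_eq_zero x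

theorem ct_one (x : ZMod 2) : x = 1 ↔ x ≠ 0 := by revert x; decide

theorem ct_split {A : Finset ℕ} {r i : ℕ} (hr : r ∈ A) (hi : i ∈ A.erase r) (F : ℕ → ZMod 2) :
    ∑ j ∈ A.erase i, F j = F r + ∑ j ∈ (A.erase r).erase i, F j := by
  rw [erase_right_comm, add_sum_erase _ _ (mem_erase.2 ⟨(mem_erase.1 hi).1.symm, hr⟩)]

theorem ct_mul (a : ℕ → ℕ → ZMod 2) {A : Finset ℕ} {r : ℕ} (hr : r ∈ A) (y : ℕ → ZMod 2)
    (hy : y r = 0) (i : A.erase r) :
    (ct_M a A r *ᵥ fun j => y j) i = Lmul a y A i := by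
  have e : (ct_M a A r *ᵥ fun j => y j) i =
      ∑ j ∈ A.erase r, lap a (fun i => a i r) (A.erase r) i j * y j :=
    sum_coe_sort (A.erase r) fun j => lap a (fun i => a i r) (A.erase r) i j * y j
  rw [e, ← add_sum_erase _ _ i.2, Lmul, ct_split hr i.2, hy, add_zero]
  have e2 : ∑ j ∈ (A.erase r).erase i, lap a (fun i => a i r) (A.erase r) i j * y j =
      ∑ j ∈ (A.erase r).erase i, a i j * y j :=
    sum_congr rfl fun j hj => by rw [lap, if_neg (mem_erase.1 hj).1.symm]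
  rw [e2, lap, if_pos rfl]
  simp only [mul_add, add_mul, sum_add_distrib, sum_mul]
  ring

theorem ct_swap (A : Finset ℕ) (F : ℕ → ℕ → ZMod 2) :
    ∑ i ∈ A, ∑ j ∈ A.erase i, F i j = ∑ i ∈ A, ∑ j ∈ A.erase i, F j i :=
  sum_comm' fun x y => by simp only [mem_erase]; tauto

theorem ct_sum {a : ℕ → ℕ → ZMod 2} {A : Finset ℕ} (hb : Bal a A) (y : ℕ → ZMod 2) :
    ∑ i ∈ A, Lmul a y A i = 0 := by
  simp only [Lmul, mul_add, sum_add_distrib]
  rw [ct_swap A fun i j => a i j * y j, ← sum_add_distrib]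
  refine sum_eq_zero fun i hi => ?_
  rw [← sum_mul, ← sum_mul, hb i hi, ct_two]

theorem ct_ext {a : ℕ → ℕ → ZMod 2} {A : Finset ℕ} {r : ℕ} (hr : r ∈ A) (hb : Bal a A)
    (y b : ℕ → ZMod 2) (hs : sm b A = 0) (h : ∀ i ∈ A.erase r, Lmul a y A i = b i) :
    ∀ i ∈ A, Lmul a y A i = b i := by
  intro i hi
  by_cases e : i = r
  · subst e
    have h1 := ct_sum hb y
    rw [← add_sum_erase _ _ hr, sum_congr rfl h] at h1
    rw [sm, ← add_sum_erase _ _ hr] at hs
    exact add_right_cancel (h1.trans hs.symm)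
  · exact h i (mem_erase.2 ⟨e, hi⟩)

/-- extension by zero -/
def ct_E {A : Finset ℕ} (v : A → ZMod 2) (i : ℕ) : ZMod 2 := if h : i ∈ A then v ⟨i, h⟩ else 0

theorem ct_E_coe {A : Finset ℕ} (v : A → ZMod 2) : (fun j : A => ct_E v j) = v :=
  funext fun j => dif_pos j.2

theorem ct_E_r {A : Finset ℕ} {r : ℕ} (v : A.erase r → ZMod 2) : ct_E v r = 0 :=
  dif_neg (notMem_erase r A)

theorem ct_ker {a : ℕ → ℕ → ZMod 2} {A : Finset ℕ} {r : ℕ} (hr : r ∈ A) (hb : Bal a A) :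
    TT a r A = 1 ↔ ∀ y : ℕ → ZMod 2, (∀ i ∈ A, Lmul a y A i = 0) → Cst y A := by
  rw [ct_TT, ct_one, ne_eq, ← exists_mulVec_eq_zero_iff]
  constructor
  · intro h y hy
    have h1 : (fun j : A.erase r => y j + y r) = 0 := by
      by_contra h0
      refine h ⟨_, h0, funext fun i => ?_⟩
      rw [ct_mul a hr (fun j => y j + y r) (ct_two _), Pi.zero_apply,
        ← hy i (mem_of_mem_erase i.2)]
      refine sum_congr rfl fun j _ => ?_
      linear_combination a i j * ct_two (y r)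
    have h2 : ∀ i ∈ A, y i = y r := by
      intro i hi
      by_cases e : i = r
      · rw [e]
      · have := congrFun h1 ⟨i, mem_erase.2 ⟨e, hi⟩⟩
        simp only [Pi.zero_apply] at this
        linear_combination this - ct_two (y r)
    exact fun i hi j hj => (h2 i hi).trans (h2 j hj).symm
  · rintro h ⟨v, hv, hM⟩
    have h1 := h (ct_E v) (ct_ext hr hb _ (fun _ => 0) (by simp [sm]) fun i hi => by
      rw [← ct_mul a hr _ (ct_E_r v) ⟨i, hi⟩, ct_E_coe, hM, Pi.zero_apply])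
    refine hv (funext fun j => ?_)
    rw [← ct_E_coe v]
    exact (h1 j (mem_of_mem_erase j.2) r hr).trans (ct_E_r v)

theorem cKer : S_Ker := by
  intro a A r hr hb
  refine ⟨ct_ker hr hb, ?_, fun h b hs => ?_⟩
  · rw [ct_TT, ct_TT, ← det_transpose]
    congr 1
    ext i j
    simp only [ct_M, transpose_apply, of_apply, lap]
    by_cases e : (i : ℕ) = j
    · rw [if_pos e, if_pos e.symm, ← e, ← ct_split hr i.2 fun k => a k i,
        ← ct_split hr i.2 fun k => a i k, hb i (mem_of_mem_erase i.2)]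
    · rw [if_neg e, if_neg (Ne.symm e)]
  · rw [ct_TT] at h
    have hu : IsUnit (ct_M a A r).det := h ▸ isUnit_one
    refine ⟨ct_E ((ct_M a A r)⁻¹ *ᵥ fun j => b j), ct_ext hr hb _ b hs fun i hi => ?_⟩
    rw [← ct_mul a hr _ (ct_E_r _) ⟨i, hi⟩, ct_E_coe, mulVec_mulVec, mul_nonsing_inv _ hu,
      one_mulVec]

theorem ct_eq {a : ℕ → ℕ → ZMod 2} {A : Finset ℕ} (hb : Bal a A) :
    ∀ r ∈ A, ∀ s ∈ A, TT a r A = TT a s A := by
  intro r hr s hs
  have h := (ct_ker hr hb).trans (ct_ker hs hb).symm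
  revert h
  generalize TT a r A = x
  generalize TT a s A = y
  revert x y
  decide

theorem cT : S_T := by
  intro a A
  refine ⟨ct_eq, fun m hR hs => ?_⟩
  have hb : Bal a A := by
    intro i hi
    have h1 : ∑ j ∈ A.erase i, a i j + ∑ j ∈ A.erase i, a j i = m i * ∑ j ∈ A.erase i, m j := by
      rw [← sum_add_distrib, mul_sum]
      exact sum_congr rfl fun j hj => hR i hi j (mem_of_mem_erase hj) (mem_erase.1 hj).1.symm
    rw [sm, ← add_sum_erase _ _ hi] at hs
    revert h1 hs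
    generalize ∑ j ∈ A.erase i, a i j = x
    generalize ∑ j ∈ A.erase i, a j i = y
    generalize ∑ j ∈ A.erase i, m j = z
    generalize m i = w
    revert x y z w
    decide
  refine ⟨hb, fun r hr => ?_⟩
  rw [tau, sum_congr rfl fun s hs => by rw [ct_eq hb s hs r hr], ← sum_mul]
  rw [sm] at hs
  rw [hs, one_mul]

end Pool.Agent.P.MP_9c97e9_nt.All
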