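import Pool.Agent.P.MP_9c97e9_nt.All.Defs

/-! Two convolution identities for tree polynomials modulo 2. -/

namespace Pool.Agent.P.MP_9c97e9_nt.All

open Finset Pool.Agent.P.MP_8b7eba_nt Pool.Agent.P.MP_8b7eba_nt.BSD15

theorem cw_two (x : ZMod 2) : x + x = 0 := by
  revert x; decide

theorem cw_sq (x : ZMod 2) : x * x = x := by
  revert x; decide

theorem cw_cramer {n : Type*} [Fintype n] [DecidableEq n] (M : Matrix n n (ZMod 2))
    (x v : n → ZMod 2) :
    ∑ r, (M.mulVec x) r * (M.updateRow r v).det = (v ⬝ᵥ x) * M.det := by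
  have h1 : ∀ r, (M.updateRow r v).det = Matrix.cramer M.transpose v r := fun r =>
    (Matrix.cramer_transpose_apply M v r).symm
  simp only [h1]
  have h2 : ∑ r, (M.mulVec x) r * Matrix.cramer M.transpose v r =
      (Matrix.cramer M.transpose v) ⬝ᵥ (M.mulVec x) := by
    rw [dotProduct_comm]; rfl
  rw [h2, Matrix.dotProduct_mulVec, ← Matrix.mulVec_transpose, Matrix.mulVec_cramer,
    Matrix.det_transpose, smul_dotProduct, smul_eq_mul, mul_comm]

theorem cw_congr {M N : ℕ → ℕ → ZMod 2} {A : Finset ℕ}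
    (h : ∀ i ∈ A, ∀ j ∈ A, M i j = N i j) : DD M A = DD N A := by
  unfold DD
  congr 1
  ext i j
  exact h i i.2 j j.2

theorem cw_upd (M : ℕ → ℕ → ZMod 2) (u : ℕ → ZMod 2) (A : Finset ℕ) (k : A) :
    DD (fun i j => if i = k.1 then u j else M i j) A =
      ((Matrix.of fun i j : A => M i j).updateRow k (fun j : A => u j)).det := by
  unfold DD
  congr 1
  ext i j
  by_cases h : i = k
  · subst h; simp
  · have : i.1 ≠ k.1 := fun e => h (Subtype.ext e)
    rw [Matrix.updateRow_ne h, Matrix.of_apply, Matrix.of_apply]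
    exact if_neg this

theorem cw_rowsum (a : ℕ → ℕ → ZMod 2) (d : ℕ → ZMod 2) (A : Finset ℕ) (i : ℕ) (hi : i ∈ A) :
    ∑ j ∈ A, lap a d A i j = d i := by
  rw [← add_sum_erase A _ hi]
  have : ∑ j ∈ A.erase i, lap a d A i j = ∑ j ∈ A.erase i, a i j := by
    refine sum_congr rfl fun j hj => ?_
    have : i ≠ j := (ne_of_mem_erase hj).symm
    simp [lap, this]
  rw [this]
  simp only [lap, if_true]
  rw [add_assoc, cw_two, add_zero]

theorem cw_row (a : ℕ → ℕ → ZMod 2) (d φ : ℕ → ZMod 2) (A : Finset ℕ) :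
    ∑ r ∈ A, d r * UR a d φ A r = sm φ A * EE a d A := by
  have h := cw_cramer (Matrix.of fun i j : A => lap a d A i j) (fun _ => 1) (fun j : A => φ j)
  rw [← sum_coe_sort A]
  have h1 : ((fun j : A => φ j) ⬝ᵥ fun _ => (1 : ZMod 2)) = sm φ A := by
    simp only [dotProduct, mul_one, sm]
    exact sum_coe_sort A φ
  rw [h1] at h
  unfold EE DD
  rw [← h]
  refine sum_congr rfl fun r _ => ?_
  congr 1
  · simp only [Matrix.mulVec, dotProduct, Matrix.of_apply, mul_one]
    rw [sum_coe_sort A (fun j => lap a d A r j), cw_rowsum a d A r r.2]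
  · exact cw_upd _ _ _ _

theorem cW (hF : S_F) : S_W := by
  intro a d φ A
  rw [← cw_row]
  have h1 : ∀ r ∈ A, d r * UR a d φ A r =
      ∑ B ∈ A.powerset, if r ∈ B then d r * (sm φ B * TT a r B * EE a d (A \ B)) else 0 := by
    intro r hr
    rw [hF a d φ A r hr, mul_sum, sum_filter]
  rw [sum_congr rfl h1, sum_comm]
  refine sum_congr rfl fun B hB => ?_
  rw [← sum_filter, filter_mem_eq_inter, inter_eq_right.2 (mem_powerset.1 hB), tau, mul_sum,
    sum_mul]
  refine sum_congr rfl fun r _ => by ring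

theorem cw_EE0 (a : ℕ → ℕ → ZMod 2) (C : Finset ℕ) (hC : C.Nonempty) :
    EE a (fun _ => 0) C = 0 := by
  obtain ⟨x, hx⟩ := hC
  have h := cw_row a (fun _ => 0) (fun i => if i = x then 1 else 0) C
  have h1 : sm (fun i => if i = x then (1 : ZMod 2) else 0) C = 1 := by
    simp [sm, hx]
  rw [h1, one_mul] at h
  rw [← h]; simp

theorem cw_UR0 (hF : S_F) (a : ℕ → ℕ → ZMod 2) (u : ℕ → ZMod 2) (A : Finset ℕ) (k : ℕ)
    (hk : k ∈ A) : UR a (fun _ => 0) u A k = sm u A * TT a k A := by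
  rw [hF a _ u A k hk, sum_eq_single A]
  · have : EE a (fun _ => 0) (A \ A) = 1 := by
      rw [Finset.sdiff_self]
      unfold EE DD
      exact Matrix.det_isEmpty
    rw [this, mul_one]
  · intro B hB hne
    have hB' : B ⊆ A := mem_powerset.1 (mem_filter.1 hB).1
    rw [cw_EE0 a _ (sdiff_nonempty.2 fun h => hne (Subset.antisymm hB' h)), mul_zero]
  · intro h
    exact absurd (mem_filter.2 ⟨mem_powerset.2 Subset.rfl, hk⟩) h

theorem cw_swap (N : ℕ → ℕ → ZMod 2) (A : Finset ℕ) (j k : ℕ) (hj : j ∈ A) (hk : k ∈ A) :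
    DD (fun i t => N (Equiv.swap j k i) t) A = DD N A := by
  unfold DD
  have h := Matrix.det_permute (Equiv.swap (⟨j, hj⟩ : A) ⟨k, hk⟩) (Matrix.of fun i t : A => N i t)
  have h2 : (((Equiv.Perm.sign (Equiv.swap (⟨j, hj⟩ : A) ⟨k, hk⟩) : ℤˣ) : ℤ) : ZMod 2) = 1 := by
    rcases Int.units_eq_one_or (Equiv.Perm.sign (Equiv.swap (⟨j, hj⟩ : A) ⟨k, hk⟩)) with h | h
    · rw [h]; simp
    · rw [h]; decide
  rw [h2, one_mul] at h
  rw [← h]
  congr 1
  ext i t
  simp only [Matrix.of_apply, Matrix.submatrix_apply, id]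
  congr 1
  by_cases h1 : i = ⟨j, hj⟩
  · subst h1; simp
  · by_cases h3 : i = ⟨k, hk⟩
    · subst h3; simp
    · rw [Equiv.swap_apply_of_ne_of_ne h1 h3, Equiv.swap_apply_of_ne_of_ne
        (fun e => h1 (Subtype.ext e)) (fun e => h3 (Subtype.ext e))]

theorem cw_del (N : ℕ → ℕ → ZMod 2) (A : Finset ℕ) (j : ℕ)
    (h1 : N j j = 1) (h0 : ∀ t, t ≠ j → N j t = 0) : DD N A = DD N (A.erase j) := by
  unfold DD
  rw [Matrix.twoBlockTriangular_det (Matrix.of fun i t : A => N i t) (fun i => i.1 ≠ j)]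
  · have h2 : (Matrix.toSquareBlockProp (Matrix.of fun i t : A => N i t)
        (fun i => ¬ i.1 ≠ j)).det = 1 := by
      have : Matrix.toSquareBlockProp (Matrix.of fun i t : A => N i t) (fun i => ¬ i.1 ≠ j) = 1 := by
        ext i t
        have hi : i.1.1 = j := not_not.1 i.2
        have ht : t.1.1 = j := not_not.1 t.2
        have : i = t := Subtype.ext (Subtype.ext (hi.trans ht.symm))
        subst this
        simp [Matrix.toSquareBlockProp, Matrix.toBlock, hi, h1]
      rw [this, Matrix.det_one]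
    rw [h2, mul_one]
    let e : {i : A // i.1 ≠ j} ≃ (A.erase j) :=
      { toFun := fun i => ⟨i.1.1, mem_erase.2 ⟨i.2, i.1.2⟩⟩
        invFun := fun i => ⟨⟨i.1, mem_of_mem_erase i.2⟩, ne_of_mem_erase i.2⟩
        left_inv := fun _ => rfl
        right_inv := fun _ => rfl }
    rw [← Matrix.det_submatrix_equiv_self e]
    rfl
  · intro i hi t ht
    have : i.1 = j := not_not.1 hi
    simp only [Matrix.of_apply, this]
    exact h0 _ ht

theorem cw_lap (a : ℕ → ℕ → ZMod 2) (A : Finset ℕ) (j : ℕ) (hj : j ∈ A) (i t : ℕ) (hi : i ≠ j) :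
    lap a (fun i => a i j) (A.erase j) i t = lap a (fun _ => 0) A i t := by
  unfold lap
  split_ifs with h
  · rw [zero_add, erase_right_comm, add_sum_erase (A.erase i) (fun k => a i k)
      (mem_erase.2 ⟨hi.symm, hj⟩)]
  · rfl

theorem cw_col (a : ℕ → ℕ → ZMod 2) (m : ℕ → ZMod 2) (A : Finset ℕ) (hR : Rec a m A)
    (hm : sm m A = 0) (t : ℕ) (ht : t ∈ A) : ∑ i ∈ A, lap a (fun _ => 0) A i t = m t := by
  rw [← add_sum_erase A _ ht]
  have h1 : ∑ i ∈ A.erase t, lap a (fun _ => 0) A i t = ∑ i ∈ A.erase t, a i t := by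
    refine sum_congr rfl fun i hi => ?_
    simp [lap, ne_of_mem_erase hi]
  rw [h1]
  simp only [lap, if_true, zero_add]
  rw [← sum_add_distrib]
  have h2 : ∑ i ∈ A.erase t, (a t i + a i t) = ∑ i ∈ A.erase t, m t * m i :=
    sum_congr rfl fun i hi => hR t ht i (mem_of_mem_erase hi) (ne_of_mem_erase hi).symm
  rw [h2, ← mul_sum]
  have h3 : m t + ∑ i ∈ A.erase t, m i = 0 := by
    rw [add_sum_erase A m ht]; exact hm
  have h4 : ∑ i ∈ A.erase t, m i = m t := by
    have := cw_two (m t)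
    linear_combination h3 - this
  rw [h4, cw_sq]

theorem cw_X (hF : S_F) (a : ℕ → ℕ → ZMod 2) (A : Finset ℕ) (j k : ℕ) (hj : j ∈ A) (hk : k ∈ A)
    (hjk : j ≠ k) :
    UR a (fun i => a i j) (fun t => lap a (fun _ => 0) A j t) (A.erase j) k = TT a k A := by
  have h := cw_UR0 hF a (fun t => if t = j then 1 else 0) A k hk
  have h1 : sm (fun t => if t = j then (1 : ZMod 2) else 0) A = 1 := by
    simp [sm, hj]
  rw [h1, one_mul] at h
  rw [← h]
  unfold UR
  rw [← cw_swap _ A j k hj hk, cw_del _ A j (by simp) (fun t ht => by simp [ht])]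
  refine cw_congr fun i hi t _ => ?_
  have hij : i ≠ j := ne_of_mem_erase hi
  by_cases hik : i = k
  · subst hik
    simp [hjk]
  · rw [if_neg hik, Equiv.swap_apply_of_ne_of_ne hij hik, if_neg hik, cw_lap a A j hj i t hij]

theorem cw_Y (hF : S_F) (a : ℕ → ℕ → ZMod 2) (m : ℕ → ZMod 2) (A : Finset ℕ) (hR : Rec a m A)
    (hm : sm m A = 0) (j k : ℕ) (hj : j ∈ A) (hk : k ∈ A) (hjk : j ≠ k) :
    UR a (fun i => a i j) m (A.erase j) k = TT a j A + TT a k A := by
  rw [← cw_X hF a A j k hj hk hjk]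
  have hk' : k ∈ A.erase j := mem_erase.2 ⟨hjk.symm, hk⟩
  unfold UR
  rw [cw_upd _ m (A.erase j) ⟨k, hk'⟩, cw_upd _ _ (A.erase j) ⟨k, hk'⟩]
  set M : Matrix (A.erase j) (A.erase j) (ZMod 2) :=
    Matrix.of fun i t : (A.erase j) => lap a (fun i => a i j) (A.erase j) i t with hM
  have h1 : (fun t : (A.erase j) => m t) =
      (∑ i, (1 : ZMod 2) • M i) + fun t : (A.erase j) => lap a (fun _ => 0) A j t := by
    funext t
    rw [Pi.add_apply, Finset.sum_apply, ← cw_col a m A hR hm t (mem_of_mem_erase t.2),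
      ← add_sum_erase A _ hj, add_comm, ← sum_coe_sort (A.erase j)]
    congr 1
    refine sum_congr rfl fun i _ => ?_
    simp only [hM, one_smul, Matrix.of_apply]
    exact (cw_lap a A j hj i t (ne_of_mem_erase i.2)).symm
  rw [h1, Matrix.det_updateRow_add, Matrix.det_updateRow_sum, one_smul]
  rfl

theorem cw_K (hF : S_F) (hT : S_T) (a : ℕ → ℕ → ZMod 2) (m : ℕ → ZMod 2) (A : Finset ℕ)
    (hR : Rec a m A) (hm : sm m A = 0) (j k : ℕ) (hj : j ∈ A) (hk : k ∈ A) :
    TT a j A + TT a k A = ∑ C ∈ A.powerset,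
      if k ∈ C ∧ j ∈ A \ C then sm m C * tau a m C * tau a m (A \ C) else 0 := by
  by_cases hjk : j = k
  · subst hjk
    rw [cw_two]
    refine (sum_eq_zero fun C _ => ?_).symm
    rw [if_neg]
    rintro ⟨h1, h2⟩
    exact (mem_sdiff.1 h2).2 h1
  rw [← cw_Y hF a m A hR hm j k hj hk hjk, hF a _ m _ k (mem_erase.2 ⟨Ne.symm hjk, hk⟩),
    ← sum_filter]
  have hS : filter (fun B => k ∈ B) (A.erase j).powerset =
      filter (fun C => k ∈ C ∧ j ∈ A \ C) A.powerset := by
    ext C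
    simp only [mem_filter, mem_powerset, subset_erase, mem_sdiff]
    tauto
  rw [hS]
  refine sum_congr rfl fun C hC => ?_
  obtain ⟨hCA, hkC, hjC⟩ : C ⊆ A ∧ k ∈ C ∧ j ∈ A \ C := by
    simpa only [mem_filter, mem_powerset] using hC
  have h0 : A.erase j \ C = (A \ C).erase j := by
    ext x
    simp only [mem_sdiff, mem_erase]
    tauto
  have h1 : EE a (fun i => a i j) (A.erase j \ C) = TT a j (A \ C) := by
    rw [h0]; rfl
  rw [h1]
  have h2 : sm m C = 0 ∨ sm m C = 1 := by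
    generalize sm m C = x
    revert x; decide
  rcases h2 with h2 | h2
  · rw [h2]; simp
  · have h3 : sm m (A \ C) = 1 := by
      have h4 : sm m (A \ C) + sm m C = sm m A := sum_sdiff hCA
      rw [hm, h2] at h4
      have := cw_two 1
      linear_combination h4 - this
    have hR1 : Rec a m C := fun i hi t ht => hR i (hCA hi) t (hCA ht)
    have hR2 : Rec a m (A \ C) := fun i hi t ht => hR i (sdiff_subset hi) t (sdiff_subset ht)
    rw [((hT a C).2 m hR1 h2).2 k hkC, ((hT a (A \ C)).2 m hR2 h3).2 j hjC]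

theorem cK (hF : S_F) (hT : S_T) : S_K := by
  intro a m φ ψ A hR hm
  have h1 : sm φ A * tau a ψ A + sm ψ A * tau a φ A =
      ∑ k ∈ A, ∑ j ∈ A, φ k * ψ j * (TT a j A + TT a k A) := by
    unfold sm tau
    rw [sum_mul_sum, sum_mul_sum, sum_comm (s := A) (t := A) (f := fun j k => ψ j * (φ k * TT a k A)),
      ← sum_add_distrib]
    refine sum_congr rfl fun k _ => ?_
    rw [← sum_add_distrib]
    refine sum_congr rfl fun j _ => by ring
  have h2 : ∀ k ∈ A, ∑ j ∈ A, φ k * ψ j * (TT a j A + TT a k A) = ∑ C ∈ A.powerset, ∑ j ∈ A,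
      if k ∈ C ∧ j ∈ A \ C then φ k * ψ j * (sm m C * tau a m C * tau a m (A \ C)) else 0 := by
    intro k hk
    rw [sum_comm]
    refine sum_congr rfl fun j hj => ?_
    rw [cw_K hF hT a m A hR hm j k hj hk, mul_sum]
    refine sum_congr rfl fun C _ => ?_
    split_ifs <;> simp
  rw [h1, sum_congr rfl h2, sum_comm]
  refine sum_congr rfl fun C hC => ?_
  have hCA : C ⊆ A := mem_powerset.1 hC
  have h3 : sm φ C = ∑ k ∈ A, if k ∈ C then φ k else 0 := by
    rw [← sum_filter, filter_mem_eq_inter, inter_eq_right.2 hCA]; rfl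
  have h4 : sm ψ (A \ C) = ∑ j ∈ A, if j ∈ A \ C then ψ j else 0 := by
    rw [← sum_filter, filter_mem_eq_inter, inter_eq_right.2 sdiff_subset]; rfl
  rw [h3, h4, sum_mul_sum, mul_assoc, mul_assoc, sum_mul]
  refine sum_congr rfl fun k _ => ?_
  rw [sum_mul]
  refine sum_congr rfl fun j _ => ?_
  by_cases hk : k ∈ C
  · by_cases hj : j ∈ A \ C
    · rw [if_pos hk, if_pos hj, if_pos ⟨hk, hj⟩]; ring
    · rw [if_neg hj, if_neg (fun h : k ∈ C ∧ j ∈ A \ C => hj h.2)]; ring
  · rw [if_neg hk, if_neg (fun h : k ∈ C ∧ j ∈ A \ C => hk h.1)]; ring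

end Pool.Agent.P.MP_9c97e9_nt.All
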