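import Pool.Agent.P.MP_9c97e9_nt.Final
import Pool.Agent.P.MP_8b7eba_nt.Dens.RedNo4

/-! Definitions and intermediate statements for the 2-part of the formula in the whole family of
twists of `X₀(15)` by `-n`, `n ≡ 3 (mod 4)` squarefree. -/

namespace Pool.Agent.P.MP_9c97e9_nt.All

open Finset Pool.Agent.P.MP_8b7eba_nt Pool.Agent.P.MP_8b7eba_nt.BSD15

/-! ### Determinants of Laplacians modulo 2 -/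

section Comb

variable (a : ℕ → ℕ → ZMod 2) (d u m c f φ y z : ℕ → ZMod 2) (A : Finset ℕ)

/-- the principal minor on `A` -/
def DD (M : ℕ → ℕ → ZMod 2) (A : Finset ℕ) : ZMod 2 := (Matrix.of fun i j : A => M i j).det

/-- the Laplacian on `A` with weights `a`, plus the diagonal `d` -/
def lap (i j : ℕ) : ZMod 2 := if i = j then d i + ∑ k ∈ A.erase i, a i k else a i j

def EE : ZMod 2 := DD (lap a d A) A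

/-- the same determinant with row `k` replaced by `u` -/
def UR (k : ℕ) : ZMod 2 := DD (fun i j => if i = k then u j else lap a d A i j) A

/-- spanning trees of `A` with root `r` -/
def TT (r : ℕ) (A : Finset ℕ) : ZMod 2 := EE a (fun i => a i r) (A.erase r)

def tau : ZMod 2 := ∑ r ∈ A, d r * TT a r A

def sm : ZMod 2 := ∑ i ∈ A, φ i

/-- the reciprocity law -/
def Rec : Prop := ∀ i ∈ A, ∀ j ∈ A, i ≠ j → a i j + a j i = m i * m j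

def Bal : Prop := ∀ i ∈ A, ∑ j ∈ A.erase i, a i j = ∑ j ∈ A.erase i, a j i

def Lmul (i : ℕ) : ZMod 2 := ∑ j ∈ A.erase i, a i j * (y i + y j)

def Cst : Prop := ∀ i ∈ A, ∀ j ∈ A, y i = y j

def kap : ZMod 2 := tau a m A +
  ∑ B ∈ A.powerset, (1 + sm m B) * sm c B * sm f B * tau a c B * tau a m (A \ B)

/-- the linear system describing the 2-Selmer group -/
def Sel (t3 t5 : Prop) (α β : ZMod 2) : Prop :=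
  (∀ i ∈ A, Lmul a y A i = α * c i + β * f i) ∧
  (∀ i ∈ A, Lmul (fun i j => a j i) z A i = β * f i) ∧
  (t3 → β + sm (fun i => c i * z i) A = 0) ∧ (¬t3 → α = 0) ∧
  (t5 → α + sm (fun i => f i * (y i + z i)) A = 0) ∧ (¬t5 → β = 0)

def SelM (t3 t5 : Prop) : Prop :=
  ∀ (y z : ℕ → ZMod 2) (α β : ZMod 2), Sel a c f y z A t3 t5 α β →
    α = 0 ∧ β = 0 ∧ Cst y A ∧ Cst z A

end Comb

/-- all-minors matrix tree theorem -/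
def S_F : Prop := ∀ (a : ℕ → ℕ → ZMod 2) (d u : ℕ → ZMod 2) (A : Finset ℕ) (k : ℕ), k ∈ A →
  UR a d u A k = ∑ B ∈ A.powerset with k ∈ B, sm u B * TT a k B * EE a d (A \ B)

def S_W : Prop := ∀ (a : ℕ → ℕ → ZMod 2) (d φ : ℕ → ZMod 2) (A : Finset ℕ),
  ∑ B ∈ A.powerset, sm φ B * tau a d B * EE a d (A \ B) = sm φ A * EE a d A

def S_T : Prop := ∀ (a : ℕ → ℕ → ZMod 2) (A : Finset ℕ),
  (Bal a A → ∀ r ∈ A, ∀ s ∈ A, TT a r A = TT a s A) ∧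
  ∀ m : ℕ → ZMod 2, Rec a m A → sm m A = 1 → Bal a A ∧ ∀ r ∈ A, TT a r A = tau a m A

def S_Ker : Prop := ∀ (a : ℕ → ℕ → ZMod 2) (A : Finset ℕ) (r : ℕ), r ∈ A → Bal a A →
  (TT a r A = 1 ↔ ∀ y : ℕ → ZMod 2, (∀ i ∈ A, Lmul a y A i = 0) → Cst y A) ∧
  TT (fun i j => a j i) r A = TT a r A ∧
  (TT a r A = 1 → ∀ b : ℕ → ZMod 2, sm b A = 0 → ∃ y : ℕ → ZMod 2, ∀ i ∈ A, Lmul a y A i = b i)

def S_K : Prop := ∀ (a : ℕ → ℕ → ZMod 2) (m φ ψ : ℕ → ZMod 2) (A : Finset ℕ), Rec a m A →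
  sm m A = 0 →
  ∑ C ∈ A.powerset, sm φ C * sm ψ (A \ C) * sm m C * tau a m C * tau a m (A \ C) =
    sm φ A * tau a ψ A + sm ψ A * tau a φ A

def S_P : Prop := ∀ (a : ℕ → ℕ → ZMod 2) (m c f : ℕ → ZMod 2) (A : Finset ℕ), Rec a m A →
  sm m A = 0 → sm f A = 1 →
  ∑ B ∈ A.powerset, (1 + sm m B) * sm c B * sm f B * tau a c B * EE a c (A \ B) = EE a c A

def S_N : Prop := ∀ (a : ℕ → ℕ → ZMod 2) (m c f : ℕ → ZMod 2) (A : Finset ℕ) (r : ℕ), r ∈ A →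
  Rec a m A → sm m A = 1 → sm c A = 0 → sm f A = 0 →
  TT (fun i j => a i j + c i * f j) r A = kap a m c f A

def S_B : Prop := ∀ (a : ℕ → ℕ → ZMod 2) (m c f : ℕ → ZMod 2) (A : Finset ℕ), Rec a m A →
  sm m A = 1 → ∀ t3 t5 : Prop,
  (¬t3 → ¬t5 → (SelM a c f A t3 t5 ↔ tau a m A = 1)) ∧
  (t3 → t5 → sm c A = 0 → sm f A = 0 → (SelM a c f A t3 t5 ↔ kap a m c f A = 1)) ∧
  (t3 → ¬t5 → sm c A = 0 → ¬SelM a c f A t3 t5) ∧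
  (¬t3 → t5 → sm f A = 0 → ¬SelM a c f A t3 t5)

/-! ### The Redei data -/

def aa (p q : ℕ) : ZMod 2 := Desc.lam p q

def mm (p : ℕ) : ZMod 2 := if p % 4 = 3 then 1 else 0

def cc (p : ℕ) : ZMod 2 := aa p 3

def f5 (p : ℕ) : ZMod 2 := aa p 5

def gg (n : ℕ) : ZMod 2 := tau aa mm n.primeFactors

def xx (n : ℕ) : ZMod 2 := tau aa cc n.primeFactors

def kk (n : ℕ) : ZMod 2 := kap aa mm cc f5 n.primeFactors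

def SelMin (n : ℕ) : Prop := SelM aa cc f5 n.primeFactors (n % 3 = 1) (n % 5 = 1 ∨ n % 5 = 4)

def S_G : Prop := ∀ n : ℕ, Squarefree n → n % 2 = 1 →
  Rec aa mm n.primeFactors ∧ sm mm n.primeFactors = (if n % 4 = 3 then 1 else 0) ∧
  (¬3 ∣ n → sm cc n.primeFactors = if n % 3 = 2 then 1 else 0) ∧
  (¬5 ∣ n → sm f5 n.primeFactors = if n % 5 = 2 ∨ n % 5 = 3 then 1 else 0) ∧
  (n % 4 = 3 → (gg n = 1 ↔ Desc.RedeiL n)) ∧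
  (n % 4 = 1 → ¬3 ∣ n → EE aa cc n.primeFactors = gg (3 * n))

/-! ### The modular side -/

def S_LS : Prop := ∀ n : ℕ, 1 < n → Odd n → Squarefree n → LamSpec n (lam n)

def S_PL : Prop :=
  (∀ n₁ n₂ : ℕ, Squarefree n₁ → Squarefree n₂ → 1 < n₁ → n₁ % 4 = 1 → n₂ % 4 = 3 →
    ∑ a ∈ range n₁, ∑ b ∈ range n₂, (jacobiSym a n₁ : ℚ) * (jacobiSym b n₂ : ℚ) *
      BSD15.II ((a : ℤ), (n₁ : ℤ)) (1, 0) ((b : ℤ), (n₂ : ℤ)) (1, 0) = -(lam n₁ * lam n₂)) ∧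
  ∀ n : ℕ, Squarefree n → n % 4 = 3 →
    ∑ b ∈ range n, (jacobiSym b n : ℚ) * (BSD15.II (1, 2) (1, 0) ((b : ℤ), (n : ℤ)) (1, 0) -
      BSD15.II (0, 1) (1, 0) ((b : ℤ), (n : ℤ)) (1, 0)) = -lam n

/-- the classes with `3 ∣ m` or `5 ∣ m` in which the central value vanishes -/
def VanC (m : ℕ) : Prop :=
  (3 ∣ m ∧ m % 4 = 1 ∧ (m % 5 = 2 ∨ m % 5 = 3)) ∨ (3 ∣ m ∧ m % 4 = 3 ∧ (m % 5 = 1 ∨ m % 5 = 4)) ∨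
    (5 ∣ m ∧ m % 3 = 1) ∨ (15 ∣ m ∧ m % 4 = 1)

def S_Van : Prop := lam 3 = 1 ∧ ∀ m : ℕ, Odd m → Squarefree m → VanC m → lam m = 0

def S_Cross : Prop :=
  (∀ n₁ n₂ : ℕ, Squarefree (n₁ * n₂) → n₁ % 4 = 1 → n₂ % 4 = 3 →
    ∑ a ∈ range n₁, ∑ b ∈ range n₂, jacobiSym a n₁ * jacobiSym b n₂ *
      crossSum ((a : ℤ), (n₁ : ℤ)) (1, 0) ((b : ℤ), (n₂ : ℤ)) (1, 0) =
      -4 * ∑ m ∈ mRange (n₁ * n₂), MW n₁ n₂ (n₁ * n₂ - 15 * m) m) ∧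
  ∀ n : ℕ, Squarefree n → n % 4 = 3 →
    ∑ b ∈ range n, jacobiSym b n * (crossSum (1, 2) (1, 0) ((b : ℤ), (n : ℤ)) (1, 0) +
      2 * crossSum (0, 1) (1, 0) ((b : ℤ), (n : ℤ)) (1, 0)) =
      -4 * ∑ m ∈ mRange (2 * n), MW 1 n (2 * n - 15 * m) m

def ee (n₁ n₂ : ℕ) : ℚ := if 15 ∣ n₁ then 0 else if 15 ∣ n₂ then 2 else 1

def S_Ends : Prop :=
  (∀ n₁ n₂ : ℕ, Squarefree (n₁ * n₂) → n₁ % 4 = 1 → n₂ % 4 = 3 → ¬(n₁ * n₂).Coprime 15 →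
    ∑ a ∈ range n₁, ∑ b ∈ range n₂, (jacobiSym a n₁ : ℚ) * (jacobiSym b n₂ : ℚ) *
      endSum ((a : ℤ), (n₁ : ℤ)) (1, 0) ((b : ℤ), (n₂ : ℤ)) (1, 0) = ee n₁ n₂ * Bn (n₁ * n₂)) ∧
  ∀ n : ℕ, Squarefree n → n % 4 = 3 → ¬n.Coprime 15 →
    ∑ b ∈ range n, (jacobiSym b n : ℚ) * endSum (1, 2) (1, 0) ((b : ℤ), (n : ℤ)) (1, 0) =
      ee 1 n * ((jacobiSym 2 n : ℚ) - 1) * Bn n

def S_MW : Prop := ∀ n₁ n₂ ν A m : ℕ, Squarefree (n₁ * n₂) → n₁ % 4 = 1 → n₂ % 4 = 3 →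
  ¬(n₁ * n₂).Coprime 15 → (ν = 1 ∨ ν = 2) → 0 < A → 0 < m → A + 15 * m = ν * (n₁ * n₂) →
  MW n₁ n₂ A m = -CF (n₁ * n₂) n₁.primeFactors A m

def S_Mod : Prop :=
  (∀ n₁ n₂ : ℕ, Squarefree (n₁ * n₂) → 1 < n₁ → n₁ % 4 = 1 → n₂ % 4 = 3 →
    ¬(n₁ * n₂).Coprime 15 →
    ee n₁ n₂ * Bn (n₁ * n₂) + 2 * (CFsum (n₁ * n₂) n₁.primeFactors 1 : ℚ) = -(lam n₁ * lam n₂)) ∧
  ∀ n : ℕ, Squarefree n → n % 4 = 3 → ¬n.Coprime 15 →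
    (ee 1 n * (1 + (jacobiSym 2 n : ℚ)) * Bn n + 2 * (CFsum n ∅ 2 : ℚ)) -
      3 * (ee 1 n * Bn n + 2 * (CFsum n ∅ 1 : ℚ)) = -lam n

/-! ### The quaternionic side -/

/-- the auxiliary ideal `G * F`, with `G` ramified -/
structure Aux {n : ℕ} [Good n] (G F : Ideal (OO n)) : Prop where
  nmG : nm G = n.gcd 15
  cjG : cj G = G
  memG : ∀ z ∈ G, ((n.gcd 15 : ℕ) : ℤ) ∣ 2 * z.re + z.im
  delG : del n ∈ G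
  cop : (nm F).Coprime n
  md : ((nm (G * F) : ℕ) : ZMod n) = -15

def S_Aux : Prop := ∀ (n : ℕ) [Good n],
  (¬15 ∣ n → ¬n.Coprime 15 → ∃ G F : Ideal (OO n), Aux G F) ∧
  (15 ∣ n → ∀ ε : ℤ, ε = 1 ∨ ε = -1 →
    ∃ G F : Ideal (OO n), Aux G F ∧ jacobiSym (nm F) 3 = ε ∧ jacobiSym (nm F) 5 = ε)

/-- the pairing of genus periods -/
noncomputable def SS {n : ℕ} [Good n] (F : Ideal (OO n)) (J : Finset ℕ) (ν : ℕ) : ℤ :=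
  ∑ s : ClassGroup (OO n), ∑ t : ClassGroup (OO n), gJ J s * gJ J t * rr F (rep s) (rep t) ν

def CG (n : ℕ) (J : Finset ℕ) (k A m : ℕ) : ℤ :=
  XJ n J A * Rn n A * Rn n m *
    ∏ p ∈ (Nat.gcd (15 * m) n).primeFactors, (1 + Xp n p A * Xp n p m * Xp n p k)

def S_Gr : Prop := ∀ (n : ℕ) [Good n] (G F : Ideal (OO n)), Aux G F →
  ∀ J ⊆ n.primeFactors, ∀ ν : ℕ, ν = 1 ∨ ν = 2 →
    SS (G * F) J ν = 2 * Fintype.card (ClassGroup (OO n)) * (XJ n J ν * Rn n ν) *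
        (1 + if 15 ∣ n then XJ n J (nm F) else 0) +
      2 * ∑ m ∈ mRange (ν * n), CG n J (nm (G * F)) (ν * n - 15 * m) m

def S_Br : Prop := ∀ (n : ℕ) [Good n] (G F : Ideal (OO n)), Aux G F →
  ∃ B : Brandt (-(n : ℚ)) (-15 / (nm (G * F) : ℚ)) {A : Ideal (OO n) // (nm A).Coprime n},
    (∀ s, B.N s = nm s.1) ∧
    (∀ s t, B.L s t = (latt_lam (s.1 * cj t.1) (s.1 * t.1 * (G * F))).map
      (latt_io n (-15 / (nm (G * F) : ℚ)))) ∧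
    ∀ ν s t, B.r ν s t = rr (G * F) s.1 t.1 ν

def TyA {n : ℕ} [Good n] (F : Ideal (OO n)) : Prop :=
  ∃ τ : ClassGroup (OO n) → Bool, (∀ s t,
    rr F (rep s) (rep t) 1 = (if τ s = τ t then 4 else 0) ∧
    rr F (rep s) (rep t) 2 = (if τ s = τ t then 4 else 8)) ∧
    (3 ∣ n → ∃ c, ∀ s, τ (s * c) ≠ τ s)

def TyB {n : ℕ} [Good n] (F : Ideal (OO n)) : Prop :=
  ∃ τ : ClassGroup (OO n) → Bool, ∀ s t,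
    rr F (rep s) (rep t) 1 = (if τ s = τ t then (if τ s then 6 else 2) else 0) ∧
    rr F (rep s) (rep t) 2 = (if τ s = τ t then (if τ s then 0 else 4) else 6)

def C3 (n : ℕ) : Prop := (3 ∣ n ∧ (n % 5 = 2 ∨ n % 5 = 3)) ∨ (5 ∣ n ∧ n % 3 = 2)

def C4 (n : ℕ) : Prop := (3 ∣ n ∧ (n % 5 = 1 ∨ n % 5 = 4)) ∨ (5 ∣ n ∧ n % 3 = 1)

def S_Ty : Prop := ∀ (n : ℕ) [Good n] (G F : Ideal (OO n)), Aux G F →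
  (C4 n ∨ (15 ∣ n ∧ jacobiSym (nm F) 3 = 1) → TyA (G * F)) ∧
  (C3 n ∨ (15 ∣ n ∧ jacobiSym (nm F) 3 = -1) → TyB (G * F))

noncomputable def LM (n : ℕ) (J : Finset ℕ) : ℤ := lam (∏ p ∈ J, p) * lam (n / ∏ p ∈ J, p)

def S_GL : Prop := ∀ (n : ℕ) [Good n],
  (¬15 ∣ n → ¬n.Coprime 15 → ∀ G F : Ideal (OO n), Aux G F →
    (∀ J ⊆ n.primeFactors, J ≠ ∅ → J ≠ n.primeFactors → SS (G * F) J 1 = -2 * LM n J) ∧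
    SS (G * F) ∅ 2 - 3 * SS (G * F) ∅ 1 = -2 * lam n) ∧
  (15 ∣ n → ∀ G F G' F' : Ideal (OO n), Aux G F → Aux G' F' →
    jacobiSym (nm F) 3 = 1 → jacobiSym (nm F) 5 = 1 →
    jacobiSym (nm F') 3 = -1 → jacobiSym (nm F') 5 = -1 →
    (∀ J ⊆ n.primeFactors, J ≠ ∅ → J ≠ n.primeFactors →
      SS (G * F) J 1 + SS (G' * F') J 1 = -4 * LM n J) ∧
    (SS (G * F) ∅ 2 - 3 * SS (G * F) ∅ 1) + (SS (G' * F') ∅ 2 - 3 * SS (G' * F') ∅ 1) =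
      -4 * lam n)

/-- the two divisibility properties of genus periods -/
def Had (n k : ℕ) (P : Finset ℕ → ℤ) : Prop :=
  (∀ l ∈ n.primeFactors, ∃ u : ℤ, ∑ J ∈ (n.primeFactors.erase l).powerset, P J =
    2 ^ (n.primeFactors.card - 1) * u ∧ (Odd u ↔ Desc.RedeiL n)) ∧
  ∀ l ∈ n.primeFactors, ∀ q ∈ n.primeFactors, q ≠ l →
    (2 : ℤ) ^ (n.primeFactors.card - 1 + k) ∣
      ∑ J ∈ (n.primeFactors.erase l).powerset with q ∈ J, P J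

def S_Had : Prop := ∀ (n : ℕ) [Good n] (k : ℕ) (t : ClassGroup (OO n) → ℤ),
  Had n k fun J => ∑ g, gJ J g * (1 - 2 ^ (k + 1) * t g)

/-- `α P_J ^ 2 = β |lam lam|` and `γ P_∅ ^ 2 = lam n` -/
def Ifc (n k : ℕ) (α β γ : ℤ) : Prop :=
  ∃ P : Finset ℕ → ℤ, Had n k P ∧
    (∀ J ⊆ n.primeFactors, J ≠ ∅ → J ≠ n.primeFactors → α * P J ^ 2 = β * |LM n J|) ∧
    γ * P ∅ ^ 2 = lam n

def S_I : Prop := ∀ n : ℕ, Squarefree n → n % 4 = 3 → 3 < n →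
  (B5 n → Ifc n 1 1 2 2) ∧ (B3 n → Ifc n 0 2 1 8) ∧ (C3 n → Ifc n 1 1 4 1) ∧
  (C4 n → Ifc n 0 1 1 4) ∧
  (15 ∣ n → ∃ P Q : Finset ℕ → ℤ, Had n 1 P ∧
    (∀ J ⊆ n.primeFactors, J ≠ ∅ → J ≠ n.primeFactors → P J ^ 2 + 4 * Q J ^ 2 = 8 * |LM n J|) ∧
    P ∅ ^ 2 = 2 * lam n)

def S_Ex : Prop := ∀ n : ℕ, Squarefree n →
  (n % 4 = 1 → 3 ∣ n ∨ 5 ∣ n → (2 : ℤ) ^ (2 * n.primeFactors.card - 1) ∣ lam n) ∧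
  (B5 n → ∃ v : ℤ, lam n = 2 * (2 ^ (n.primeFactors.card - 1) * v) ^ 2 ∧
    (Odd v ↔ Desc.RedeiL n)) ∧
  (B3 n → (2 : ℤ) ^ (2 * n.primeFactors.card + 1) ∣ lam n) ∧
  (n % 4 = 3 → C3 n → ∃ v : ℤ, lam n = (2 ^ (n.primeFactors.card - 1) * v) ^ 2 ∧
    (Odd v ↔ Desc.RedeiL n)) ∧
  (n % 4 = 3 → 15 ∣ n → ∃ v : ℤ, 2 * lam n = (2 ^ (n.primeFactors.card - 1) * v) ^ 2 ∧
    (Odd v ↔ Desc.RedeiL n))

def S_Pm : Prop := ∀ n : ℕ, Squarefree n → n % 4 = 1 → n % 3 = 2 → (n % 5 = 2 ∨ n % 5 = 3) →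
  ∃ w : ℤ, lam n = 4 ^ n.primeFactors.card * w ∧ (w : ZMod 2) = xx n

def S_B3 : Prop := ∀ n : ℕ, B3 n →
  ∃ v : ℤ, lam n = 8 * (2 ^ (n.primeFactors.card - 1) * v) ^ 2 ∧ (v : ZMod 2) = kk n

/-- the product of the Tamagawa numbers -/
def TP (n : ℕ) : ℕ := 4 ^ n.primeFactors.card *
  (if 3 ∣ n then 1 else if n % 3 = 2 then 2 else 4) *
  (if 5 ∣ n then 1 else if n % 5 = 2 ∨ n % 5 = 3 then 2 else 4)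

def S_V : Prop := ∀ n : ℕ, Squarefree n → n % 4 = 3 →
  ∃ v : ℤ, 8 * lam n = v ^ 2 * TP n ∧ (Odd v ↔ SelMin n)

/-! ### The arithmetic side -/

def S_L : Prop := ∀ n : ℕ, Squarefree n → n % 4 = 3 →
  (∀ (p : ℕ) [Fact p.Prime], ((tw n).baseChange ℚ_[p]).IsMinimal ℤ_[p]) ∧
  ∃ L : ℂ → ℂ, IsL (tw n) L ∧ L 1 = lam n * period (tw n) / 2

def S_Tam : Prop := ∀ n : ℕ, Squarefree n → n % 4 = 3 → ∏ᶠ p, tamagawa (tw n) p = TP n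

/-- the covering with `x - 9 n / 4 ∼ d₂`, `x + 4 n ∼ d₃` has a point over `K` -/
def Lc (K : Type) [Field K] (n : ℕ) (d₂ d₃ : K) : Prop :=
  Loc K 0 (9 * n / 4) (-4 * n) (d₂ * d₃) d₂

/-- the classes of the points of order dividing 2 -/
def Tor {K : Type} [Field K] (n : ℕ) (d₂ d₃ : K) : Prop :=
  (IsSquare d₂ ∨ IsSquare (-n * d₂)) ∧ (IsSquare d₃ ∨ IsSquare (n * d₃))

def Loc' (n : ℕ) (d₂ d₃ : ℚ) : Prop :=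
  Lc ℝ n d₂ d₃ ∧ ∀ (p : ℕ) [Fact p.Prime], Lc ℚ_[p] n d₂ d₃

def SelTriv (n : ℕ) : Prop := ∀ d₂ d₃ : ℚ, d₂ ≠ 0 → d₃ ≠ 0 → Loc' n d₂ d₃ → Tor n d₂ d₃

def S_LocR : Prop := ∀ n : ℕ, 0 < n → ∀ d₂ d₃ : ℝ, d₂ ≠ 0 → d₃ ≠ 0 → (Lc ℝ n d₂ d₃ ↔ 0 < d₃)

def S_Loc2 : Prop := ∀ n : ℕ, n % 4 = 3 → ∀ d₂ d₃ : ℚ_[2], d₂ ≠ 0 → d₃ ≠ 0 →
  (Lc ℚ_[2] n d₂ d₃ ↔ (IsSquare d₂ ∨ IsSquare (5 * d₂)) ∧ Even d₃.valuation)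

def S_LocA : Prop := ∀ n : ℕ, Squarefree n → n % 4 = 3 → ∀ (p : ℕ) [Fact p.Prime], p ∣ n →
  ∀ d₂ d₃ : ℚ_[p], d₂ ≠ 0 → d₃ ≠ 0 → (Lc ℚ_[p] n d₂ d₃ ↔ Tor n d₂ d₃)

def S_LocG : Prop := ∀ n : ℕ, n % 4 = 3 → ∀ (p : ℕ) [Fact p.Prime], ¬p ∣ 30 * n →
  ∀ d₂ d₃ : ℚ_[p], d₂ ≠ 0 → d₃ ≠ 0 →
    (Lc ℚ_[p] n d₂ d₃ ↔ Even d₂.valuation ∧ Even d₃.valuation)

def S_LocM : Prop := ∀ n : ℕ, n % 4 = 3 →
  (∀ d₂ d₃ : ℚ_[3], d₂ ≠ 0 → d₃ ≠ 0 →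
    (n % 3 = 1 → (Lc ℚ_[3] n d₂ d₃ ↔ IsSquare d₃)) ∧
    (n % 3 = 2 → (Lc ℚ_[3] n d₂ d₃ ↔ Even d₂.valuation ∧ Even d₃.valuation))) ∧
  ∀ [Fact (Nat.Prime 5)] (d₂ d₃ : ℚ_[5]), d₂ ≠ 0 → d₃ ≠ 0 →
    (n % 5 = 1 ∨ n % 5 = 4 → (Lc ℚ_[5] n d₂ d₃ ↔ IsSquare (d₂ * d₃))) ∧
    (n % 5 = 2 ∨ n % 5 = 3 → (Lc ℚ_[5] n d₂ d₃ ↔ Even d₂.valuation ∧ Even d₃.valuation))

def S_A : Prop := ∀ n : ℕ, Squarefree n → n % 4 = 3 → (SelMin n ↔ SelTriv n)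

open Classical in
def S_G2 : Prop := ∀ (W : WeierstrassCurve ℤ) (e₁ e₂ e₃ : ℚ), Split W e₁ e₂ e₃ →
  (∀ x : Sha W, x + x = 0 → x = 0) → ∀ d₁ d₂ : ℚ, d₁ ≠ 0 → d₂ ≠ 0 → Loc ℝ e₁ e₂ e₃ d₁ d₂ →
  (∀ (p : ℕ) [Fact p.Prime], Loc ℚ_[p] e₁ e₂ e₃ d₁ d₂) → Loc ℚ e₁ e₂ e₃ d₁ d₂

open Classical in
def S_G3 : Prop := ∀ n : ℕ, n % 4 = 3 →
  (Finite (AddCommGroup.torsion (Pt (tw n) ℚ)) ∧
    ∃ t, Odd t ∧ Nat.card (AddCommGroup.torsion (Pt (tw n) ℚ)) = 4 * t) ∧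
  (Finite (Pt (tw n) ℚ) ↔ ∀ d₂ d₃ : ℚ, d₂ ≠ 0 → d₃ ≠ 0 → Lc ℚ n d₂ d₃ → Tor n d₂ d₃)

end Pool.Agent.P.MP_9c97e9_nt.All
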