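import Pool.Agent.P.MP_9c97e9_nt.All.Padic

/-! The candidates for the 2-Selmer group. -/

namespace Pool.Agent.P.MP_9c97e9_nt.All

open Finset Pool.Agent.P.MP_8b7eba_nt

def D2 (n : ℕ) (α β : ZMod 2) (y : ℕ → ZMod 2) : ℤ :=
  (-3) ^ α.val * 5 ^ β.val * ∏ p ∈ n.primeFactors, Desc.star p ^ (y p).val

def D3 (n : ℕ) (β : ZMod 2) (z : ℕ → ZMod 2) : ℤ :=
  5 ^ β.val * ∏ p ∈ n.primeFactors, (p : ℤ) ^ (z p).val

def S_AX : Prop := ∀ n : ℕ, Squarefree n → n % 4 = 3 → ∀ (α β : ZMod 2) (y z : ℕ → ZMod 2),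
  (¬n % 3 = 1 → α = 0) → (¬(n % 5 = 1 ∨ n % 5 = 4) → β = 0) →
  (Loc' n (D2 n α β y) (D3 n β z) ↔
    Sel aa cc f5 y z n.primeFactors (n % 3 = 1) (n % 5 = 1 ∨ n % 5 = 4) α β)

def S_AY : Prop := ∀ n : ℕ, Squarefree n → n % 4 = 3 → ∀ (α β : ZMod 2) (y z : ℕ → ZMod 2),
  (¬n % 3 = 1 → α = 0) → (¬(n % 5 = 1 ∨ n % 5 = 4) → β = 0) →
  (Tor n (D2 n α β y : ℚ) (D3 n β z) ↔
    α = 0 ∧ β = 0 ∧ Cst y n.primeFactors ∧ Cst z n.primeFactors)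

def S_AZ : Prop := ∀ n : ℕ, Squarefree n → n % 4 = 3 → ∀ d₂ d₃ : ℚ, d₂ ≠ 0 → d₃ ≠ 0 →
  Loc' n d₂ d₃ → ∃ (α β : ZMod 2) (y z : ℕ → ZMod 2),
    (¬n % 3 = 1 → α = 0) ∧ (¬(n % 5 = 1 ∨ n % 5 = 4) → β = 0) ∧
    IsSquare (D2 n α β y * d₂) ∧ IsSquare (D3 n β z * d₃)

theorem D2_ne (n : ℕ) (α β : ZMod 2) (y : ℕ → ZMod 2) : D2 n α β y ≠ 0 :=
  mul_ne_zero (by positivity) (prod_ne_zero_iff.2 fun p hp => pow_ne_zero _ fun h => by
    have := Desc.natAbs_star p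
    rw [h] at this
    exact (Nat.prime_of_mem_primeFactors hp).ne_zero this.symm)

theorem D3_pos (n : ℕ) (β : ZMod 2) (z : ℕ → ZMod 2) : 0 < D3 n β z :=
  mul_pos (by positivity) (prod_pos fun p hp => pow_pos (by
    exact_mod_cast (Nat.prime_of_mem_primeFactors hp).pos) _)

theorem aA (hX : S_AX) (hY : S_AY) (hZ : S_AZ) : S_A := by
  intro n hn h4
  refine ⟨fun H d₂ d₃ h2 h3 hl => ?_, fun H y z α β hs => ?_⟩
  · obtain ⟨α, β, y, z, a, b, s2, s3⟩ := hZ n hn h4 d₂ d₃ h2 h3 hl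
    have n2 : (D2 n α β y : ℚ) ≠ 0 := by exact_mod_cast D2_ne n α β y
    have n3 : (D3 n β z : ℚ) ≠ 0 := by exact_mod_cast (D3_pos n β z).ne'
    have key : ∀ (K : Type) [Field K] [CharZero K], Lc K n (d₂ : K) (d₃ : K) →
        Lc K n ((D2 n α β y : ℚ) : K) ((D3 n β z : ℚ) : K) := fun K _ _ h =>
      h.congr (by exact_mod_cast h2) (by exact_mod_cast h3) (by exact_mod_cast n2)
        (by exact_mod_cast n3) (by simpa using s2.map (Rat.castHom K))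
        (by simpa using s3.map (Rat.castHom K))
    obtain ⟨t2, t3⟩ := (hY n hn h4 α β y z a b).2
      (H y z α β ((hX n hn h4 α β y z a b).1 ⟨key ℝ hl.1, fun p _ => key _ (hl.2 p)⟩))
    exact ⟨t2.imp (sq_of_mul_left n2 · s2) (sq_trans n2 · s2),
      t3.imp (sq_of_mul_left n3 · s3) (sq_trans n3 · s3)⟩
  · have a := hs.2.2.2.1
    have b := hs.2.2.2.2.2
    exact (hY n hn h4 α β y z a b).1 (H _ _ (by exact_mod_cast D2_ne n α β y)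
      (by exact_mod_cast (D3_pos n β z).ne') ((hX n hn h4 α β y z a b).2 hs))

end Pool.Agent.P.MP_9c97e9_nt.All
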