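import Pool.Agent.P.MP_9c97e9_nt.All.Defs2

/-! Assembly of the analytic and of the arithmetic statements. -/

namespace Pool.Agent.P.MP_9c97e9_nt.All

open Finset Pool.Agent.P.MP_8b7eba_nt Pool.Agent.P.MP_8b7eba_nt.BSD15 Classical

theorem glue_odd {v : ℤ} : Odd v ↔ (v : ZMod 2) = 1 := by
  rw [← Int.not_even_iff_odd, even_iff_two_dvd]
  have h := ZMod.intCast_zmod_eq_zero_iff_dvd v 2
  have : ∀ x : ZMod 2, ¬x = 0 ↔ x = 1 := by decide
  rw [← this, h]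
  rfl

theorem iV (hV : S_Van) (hE : S_Ex) (h3 : S_B3) (hB : S_B) (hG : S_G) : S_V := by
  intro n hn h4
  obtain ⟨g1, g2, g3, g4, g5, -⟩ := hG n hn (by omega)
  rw [if_pos h4] at g2
  obtain ⟨b1, b2, b3, b4⟩ := hB aa mm cc f5 _ g1 g2 (n % 3 = 1) (n % 5 = 1 ∨ n % 5 = 4)
  obtain ⟨-, e1, -, e2, e3⟩ := hE n hn
  obtain ⟨r, hr⟩ : ∃ r, n.primeFactors.card = r + 1 := Nat.exists_eq_succ_of_ne_zero
    (card_pos.2 (Nat.nonempty_primeFactors.2 (by omega))).ne'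
  have h44 : (4 : ℤ) ^ r = (2 ^ r) ^ 2 := by rw [← pow_mul, mul_comm, pow_mul]; norm_num
  have zero : lam n = 0 → ¬SelMin n → ∃ v : ℤ, 8 * lam n = v ^ 2 * TP n ∧ (Odd v ↔ SelMin n) :=
    fun h1 h2 => ⟨0, by simp [h1], iff_of_false (by decide) h2⟩
  have van : ¬3 ∣ n → ¬5 ∣ n → ¬(n % 3 = 1 ↔ n % 5 = 1 ∨ n % 5 = 4) → lam n = 0 :=
    fun a b c => by
      have ha := ind_b5_adm hn h4 (by omega) (by omega)
      exact lam_vanish (by omega) ha ((ind_jac ha).resolve_right fun h => by omega)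
  have hodd : Odd n := Nat.odd_iff.2 (by omega)
  simp only [hr, Nat.add_sub_cancel] at e1 e2 e3
  by_cases t3 : n % 3 = 1 <;> by_cases t5 : n % 5 = 1 ∨ n % 5 = 4
  · obtain ⟨v, hv, hv'⟩ := h3 n ⟨hn, h4, t3, t5⟩
    refine ⟨v, ?_, ?_⟩
    · rw [hv, TP, hr, if_neg (by omega), if_neg (by omega), if_neg (by omega), if_neg (by omega)]
      push_cast
      rw [pow_succ 4, h44]
      ring
    · rw [glue_odd, hv']
      exact (b2 t3 t5 (by rw [g3 (by omega), if_neg (by omega)])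
        (by rw [g4 (by omega), if_neg (by omega)])).symm
  · refine zero ?_ (b3 t3 t5 (by rw [g3 (by omega), if_neg (by omega)]))
    by_cases h5 : 5 ∣ n
    · exact hV.2 n hodd hn (.inr (.inr (.inl ⟨h5, t3⟩)))
    · exact van (by omega) h5 fun h => t5 (h.1 t3)
  · refine zero ?_ (b4 t3 t5 (by rw [g4 (by omega), if_neg (by omega)]))
    by_cases h5 : 3 ∣ n
    · exact hV.2 n hodd hn (.inr (.inl ⟨h5, h4, t5⟩))
    · exact van h5 (by omega) fun h => t3 (h.2 t5)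
  · have key : Desc.RedeiL n ↔ SelMin n := (g5 h4).symm.trans (b1 t3 t5).symm
    by_cases a : 3 ∣ n <;> by_cases b : 5 ∣ n
    · obtain ⟨v, hv, hv'⟩ := e3 h4 (by omega)
      refine ⟨v, ?_, hv'.trans key⟩
      rw [TP, hr, if_pos a, if_pos b]
      push_cast
      rw [pow_succ 4, h44]
      linear_combination 4 * hv
    · obtain ⟨v, hv, hv'⟩ := e2 h4 (.inl ⟨a, by omega⟩)
      refine ⟨v, ?_, hv'.trans key⟩
      rw [hv, TP, hr, if_pos a, if_neg b, if_pos (by omega)]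
      push_cast
      rw [pow_succ 4, h44]
      ring
    · obtain ⟨v, hv, hv'⟩ := e2 h4 (.inr ⟨b, by omega⟩)
      refine ⟨v, ?_, hv'.trans key⟩
      rw [hv, TP, hr, if_neg a, if_pos b, if_pos (by omega)]
      push_cast
      rw [pow_succ 4, h44]
      ring
    · obtain ⟨v, hv, hv'⟩ := e1 ⟨hn, h4, by omega, by omega⟩
      refine ⟨v, ?_, hv'.trans key⟩
      rw [hv, TP, hr, if_neg a, if_neg b, if_pos (by omega), if_pos (by omega)]
      push_cast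
      rw [pow_succ 4, h44]
      ring

theorem lc_of_loc {K : Type} [Field K] {n : ℕ} {d₁ d₂ : K} (h2 : d₂ ≠ 0)
    (h : Loc K 0 (9 * n / 4) (-4 * n) d₁ d₂) : Lc K n d₂ (d₁ / d₂) := by
  rwa [Lc, mul_div_cancel₀ _ h2]

theorem loc'_of_lc {n : ℕ} {d₂ d₃ : ℚ} (h : Lc ℚ n d₂ d₃) : Loc' n d₂ d₃ := by
  have key : ∀ (K : Type) [Field K] [CharZero K], Lc K n (d₂ : K) (d₃ : K) := fun K _ _ => by
    rcases h with ⟨a, b⟩ | ⟨x, r, s, t, a, b, c⟩
    · exact .inl ⟨by simpa using a.map (Rat.castHom K), by simpa using b.map (Rat.castHom K)⟩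
    · exact .inr ⟨x, r, s, t, by simpa using congrArg (Rat.castHom K) a,
        by simpa using congrArg (Rat.castHom K) b, by simpa using congrArg (Rat.castHom K) c⟩
  exact ⟨key ℝ, fun p _ => key _⟩

theorem selTriv_iff (hG2 : S_G2) (hG3 : S_G3) {n : ℕ} (h4 : n % 4 = 3) : SelTriv n ↔
    Finite (Pt (tw n) ℚ) ∧ ∀ (k : ℕ) (x : Sha (tw n)), 2 ^ k • x = 0 → x = 0 := by
  refine ⟨fun H => ⟨(hG3 n h4).2.2 fun d₂ d₃ h2 h3 h => H d₂ d₃ h2 h3 (loc'_of_lc h), ?_⟩,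
    fun ⟨hf, hs⟩ d₂ d₃ h2 h3 h => (hG3 n h4).2.1 hf d₂ d₃ h2 h3 ?_⟩
  · have key := sha_two (split_tw h4 ℚ) fun d₁ d₂ h1 h2 hr hp => by
      have h2' : ∀ (K : Type) [Field K] [CharZero K], (d₂ : K) ≠ 0 := fun K _ _ => by
        exact_mod_cast h2
      obtain ⟨⟨a, ha⟩ | ⟨a, ha⟩, ⟨b, hb⟩ | ⟨b, hb⟩⟩ := H d₂ (d₁ / d₂) h2 (div_ne_zero h1 h2)
        ⟨by simpa using lc_of_loc (h2' ℝ) (by simpa using hr),
          fun p _ => by simpa using lc_of_loc (h2' _) (by simpa using hp p)⟩ <;>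
        field_simp at hb
      · exact .inl ⟨⟨a * b, by linear_combination hb + b ^ 2 * ha⟩, a, ha⟩
      · exact .inr (.inr (.inl ⟨⟨3 / 2 * a * b, by
          linear_combination 9 / 4 * hb + 9 / 4 * b ^ 2 * ha⟩,
          5 / 2 * d₂ * b, by linear_combination 25 / 4 * d₂ * hb⟩))
      · exact .inr (.inr (.inr ⟨⟨2 * a * b, by
          linear_combination -4 * n * hb + 4 * b ^ 2 * ha⟩,
          5 / 2 * a, by linear_combination 25 / 4 * ha⟩))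
      · exact .inr (.inl ⟨⟨3 / 2 * a, by linear_combination 9 / 4 * ha⟩,
          2 * d₂ * b, by linear_combination 4 * d₂ * hb⟩)
    intro k x hx
    induction k generalizing x with
    | zero => simpa using hx
    | succ k ih => exact key x (ih _ (by rwa [← two_nsmul, ← mul_nsmul', ← pow_succ]))
  · exact hG2 _ _ _ _ (split_tw h4 ℚ) (fun x hx => hs 1 x (by rwa [pow_one, two_nsmul])) _ _
      (mul_ne_zero h2 h3) h2 (by simpa [Lc] using h.1) fun p _ => by simpa [Lc] using h.2 p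

theorem main_of (hL : S_L) (hT : S_Tam) (hV : S_V) (hA : S_A) (hG2 : S_G2) (hG3 : S_G3) (n : ℕ)
    (hn : Squarefree n) (h4 : n % 4 = 3) :
    (∀ (p : ℕ) [Fact p.Prime], ((tw n).baseChange ℚ_[p]).IsMinimal ℤ_[p]) ∧
    Finite (AddCommGroup.torsion (Pt (tw n) ℚ)) ∧
    ∃ L : ℂ → ℂ, IsL (tw n) L ∧ ∃ m : ℕ,
      L 1 = (m : ℂ) ^ 2 * (period (tw n) : ℂ) * ((∏ᶠ p, tamagawa (tw n) p : ℕ) : ℂ) /
        (Nat.card (AddCommGroup.torsion (Pt (tw n) ℚ)) : ℂ) ^ 2 ∧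
      (Odd m ↔ Finite (Pt (tw n) ℚ) ∧ ∀ (k : ℕ) (x : Sha (tw n)), 2 ^ k • x = 0 → x = 0) := by
  obtain ⟨h1, L, h2, h3⟩ := hL n hn h4
  obtain ⟨v, hv, hv'⟩ := hV n hn h4
  obtain ⟨⟨hf, t, ht, hc⟩, -⟩ := hG3 n h4
  refine ⟨h1, hf, L, h2, v.natAbs * t, ?_, ?_⟩
  · have h6 : (t : ℂ) ≠ 0 := by exact_mod_cast ht.pos.ne'
    have h7 : ((v.natAbs : ℕ) : ℂ) ^ 2 = v ^ 2 := by
      rw [Nat.cast_natAbs, ← Int.cast_pow, sq_abs, Int.cast_pow]
    have h8 : (8 : ℂ) * lam n = v ^ 2 * TP n := by exact_mod_cast hv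
    rw [h3, hc, hT n hn h4, Nat.cast_mul, mul_pow, h7]
    push_cast
    field_simp
    linear_combination 2 * (period (tw n) : ℂ) * h8
  · rw [Nat.odd_mul, Int.natAbs_odd, and_iff_left ht, hv', hA n hn h4, selTriv_iff hG2 hG3 h4]

end Pool.Agent.P.MP_9c97e9_nt.All
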