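import Pool.Agent.P.MP_9c97e9_nt.All.Defs

/-! The induction on the number of prime factors, for the classes with `3 ∣ n` or `5 ∣ n`. -/

namespace Pool.Agent.P.MP_9c97e9_nt.All

open Finset Pool.Agent.P.MP_8b7eba_nt Pool.Agent.P.MP_8b7eba_nt.BSD15

/-- the defect in the expected divisibility -/
def i1_d (m : ℕ) : ℕ :=
  if m % 4 = 1 then (if 3 ∣ m ∨ 5 ∣ m then 1 else 0)
  else if 3 ∣ m ∧ 5 ∣ m then 3 else if 3 ∣ m ∨ 5 ∣ m then 2 else 1

/-- the expected divisibility -/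
def i1_D (m : ℕ) : Prop := (2 : ℤ) ^ (2 * m.primeFactors.card) ∣ 2 ^ i1_d m * lam m

theorem i1_d_add {a b : ℕ} (hc : a.Coprime b) (h4 : (a * b) % 4 = 3) :
    i1_d a + i1_d b ≤ i1_d (a * b) := by
  have e3 : 3 ∣ a * b ↔ 3 ∣ a ∨ 3 ∣ b := Nat.prime_three.dvd_mul
  have e5 : 5 ∣ a * b ↔ 5 ∣ a ∨ 5 ∣ b := Nat.prime_five.dvd_mul
  have n3 : ¬(3 ∣ a ∧ 3 ∣ b) := fun h => by
    have := Nat.eq_one_of_dvd_coprimes hc h.1 h.2
    omega
  have n5 : ¬(5 ∣ a ∧ 5 ∣ b) := fun h => by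
    have := Nat.eq_one_of_dvd_coprimes hc h.1 h.2
    omega
  have hm : (a % 4 = 1 ∧ b % 4 = 3) ∨ (a % 4 = 3 ∧ b % 4 = 1) := by
    rw [Nat.mul_mod] at h4
    have ha : a % 4 < 4 := Nat.mod_lt _ (by norm_num)
    have hb : b % 4 < 4 := Nat.mod_lt _ (by norm_num)
    generalize a % 4 = x at *
    generalize b % 4 = y at *
    interval_cases x <;> interval_cases y <;> simp_all
  unfold i1_d
  simp only [e3, e5, h4]
  clear e3 e5 h4 hc
  rcases hm with ⟨h, h'⟩ | ⟨h, h'⟩ <;> simp only [h, h'] <;>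
    by_cases a3 : 3 ∣ a <;> by_cases a5 : 5 ∣ a <;> by_cases b3 : 3 ∣ b <;>
    by_cases b5 : 5 ∣ b <;> simp_all

theorem i1_adm {m : ℕ} (hsq : Squarefree m) (h2 : m % 2 = 1) (h3 : ¬3 ∣ m) (h5 : ¬5 ∣ m) :
    Adm m := by
  refine ⟨hsq, ?_⟩
  have h2' : m.Coprime 2 := (Nat.coprime_two_right).2 (Nat.odd_iff.2 h2)
  have h3' : m.Coprime 3 :=
    Nat.Coprime.symm ((Nat.Prime.coprime_iff_not_dvd Nat.prime_three).2 h3)
  have h5' : m.Coprime 5 :=
    Nat.Coprime.symm ((Nat.Prime.coprime_iff_not_dvd Nat.prime_five).2 h5)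
  exact Nat.Coprime.mul_right (Nat.Coprime.mul_right h2' h3') h5'

theorem i1_card_pos {m : ℕ} (hm : 1 < m) : 0 < m.primeFactors.card :=
  card_pos.2 (Nat.nonempty_primeFactors.2 hm)

theorem i1_D_adm {m : ℕ} (hsq : Squarefree m) (h2 : m % 2 = 1) (hm : 1 < m) (h3 : ¬3 ∣ m)
    (h5 : ¬5 ∣ m) : i1_D m := by
  have h := indG_lam (i1_adm hsq h2 h3 h5) hm
  have hr := i1_card_pos hm
  unfold i1_D i1_d
  by_cases h4 : m % 4 = 1
  · simpa [h4, h3, h5] using h.1 h4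
  · have := mul_dvd_mul_left 2 (h.2 (by omega))
    rw [← pow_succ', show 2 * m.primeFactors.card - 1 + 1 = 2 * m.primeFactors.card by omega]
      at this
    simpa [h4, h3, h5] using this

theorem i1_part {n : ℕ} {J : Finset ℕ} (hJ : J ⊆ n.primeFactors)
    (h0 : J ≠ ∅) : (∏ p ∈ J, p) ∣ n ∧ 1 < ∏ p ∈ J, p ∧ (∏ p ∈ J, p).primeFactors = J := by
  have hp : ∀ p ∈ J, p.Prime := fun p hp => Nat.prime_of_mem_primeFactors (hJ hp)
  have e := Nat.primeFactors_prod hp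
  refine ⟨?_, ?_, e⟩
  · exact (Finset.prod_dvd_prod_of_subset _ _ _ hJ).trans (Nat.prod_primeFactors_dvd n)
  · rw [← Nat.nonempty_primeFactors, e]
    exact Finset.nonempty_iff_ne_empty.2 h0

theorem i1_split {n : ℕ} (h : Squarefree n) (h4 : n % 4 = 3) {J : Finset ℕ}
    (hJ : J ⊆ n.primeFactors) (h0 : J ≠ ∅) (h1 : J ≠ n.primeFactors)
    (hG : ∀ a b : ℕ, Squarefree a → Squarefree b → a % 2 = 1 → b % 2 = 1 → 1 < a → 1 < b →
      a.primeFactors = J → a * b = n → a.Coprime b →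
      a.primeFactors.card + b.primeFactors.card = n.primeFactors.card → i1_D a ∧ i1_D b) :
    (2 : ℤ) ^ (2 * n.primeFactors.card) ∣ 2 ^ i1_d n * |LM n J| := by
  have h0' : n.primeFactors \ J ≠ ∅ := by
    intro hc
    exact h1 (Finset.Subset.antisymm hJ (Finset.sdiff_eq_empty_iff_subset.1 hc))
  obtain ⟨a1, a2, a3⟩ := i1_part hJ h0
  obtain ⟨b1, b2, b3⟩ := i1_part Finset.sdiff_subset h0'
  rw [Nat.prod_primeFactors_sdiff_of_squarefree h hJ] at b1 b2 b3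
  have hm : (∏ p ∈ J, p) * (n / ∏ p ∈ J, p) = n := Nat.mul_div_cancel' a1
  unfold LM
  generalize (∏ p ∈ J, p) = a at *
  generalize n / a = b at *
  have c1 : a.primeFactors.card + b.primeFactors.card = n.primeFactors.card := by
    rw [a3, b3, Finset.card_sdiff_of_subset hJ]
    have := Finset.card_le_card hJ
    omega
  have hc : a.Coprime b := Nat.coprime_of_squarefree_mul (hm ▸ h)
  have ho : Odd n := Nat.odd_iff.2 (by omega)
  obtain ⟨ga, gb⟩ := hG a b (h.squarefree_of_dvd a1) (h.squarefree_of_dvd b1)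
    (Nat.odd_iff.1 (ho.of_dvd_nat a1)) (Nat.odd_iff.1 (ho.of_dvd_nat b1)) a2 b2 a3 hm hc c1
  have hd := i1_d_add hc (hm ▸ h4)
  rw [hm] at hd
  obtain ⟨t, ht⟩ := Nat.exists_eq_add_of_le hd
  have := mul_dvd_mul ga gb
  rw [← pow_add, ← mul_add, c1] at this
  rw [← abs_of_pos (show (0 : ℤ) < 2 ^ i1_d n by positivity), ← abs_mul, dvd_abs, ht]
  convert this.mul_left (2 ^ t) using 1
  ring

/-- the induction hypothesis -/
def i1_IH (n : ℕ) : Prop := ∀ a : ℕ, Squarefree a → a % 2 = 1 → 1 < a →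
  a.primeFactors.card < n.primeFactors.card → i1_D a

theorem i1_split' {n : ℕ} (h : Squarefree n) (h4 : n % 4 = 3) (ih : i1_IH n) {J : Finset ℕ}
    (hJ : J ⊆ n.primeFactors) (h0 : J ≠ ∅) (h1 : J ≠ n.primeFactors) :
    (2 : ℤ) ^ (2 * n.primeFactors.card) ∣ 2 ^ i1_d n * |LM n J| :=
  i1_split h h4 hJ h0 h1 fun a b a1 b1 a2 b2 a3 b3 _ _ _ c => by
    have := i1_card_pos a3
    have := i1_card_pos b3
    exact ⟨ih a a1 a2 a3 (by omega), ih b b1 b2 b3 (by omega)⟩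

theorem i1_split_adm {n : ℕ} (h : Squarefree n) (h4 : n % 4 = 3) (h3 : ¬3 ∣ n) (h5 : ¬5 ∣ n)
    {J : Finset ℕ} (hJ : J ⊆ n.primeFactors) (h0 : J ≠ ∅) (h1 : J ≠ n.primeFactors) :
    (2 : ℤ) ^ (2 * n.primeFactors.card) ∣ 2 * |LM n J| := by
  have := i1_split h h4 hJ h0 h1 fun a b a1 b1 a2 b2 a3 b3 _ e _ _ =>
    ⟨i1_D_adm a1 a2 a3 (fun hd => h3 (e ▸ hd.mul_right b)) (fun hd => h5 (e ▸ hd.mul_right b)),
      i1_D_adm b1 b2 b3 (fun hd => h3 (e ▸ hd.mul_left a)) (fun hd => h5 (e ▸ hd.mul_left a))⟩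
  simpa [i1_d, h4, h3, h5] using this

theorem i1_P0 {n k : ℕ} {P : Finset ℕ → ℤ} (hn : 1 < n) (hP : Had n k P)
    (h : ∀ J ⊆ n.primeFactors, J ≠ ∅ → J ≠ n.primeFactors → (2 : ℤ) ^ n.primeFactors.card ∣ P J) :
    ∃ v : ℤ, P ∅ = 2 ^ (n.primeFactors.card - 1) * v ∧ (Odd v ↔ Desc.RedeiL n) := by
  obtain ⟨l, hl⟩ := Nat.nonempty_primeFactors.2 hn
  have hr := i1_card_pos hn
  obtain ⟨u, hu, hu'⟩ := hP.1 l hl
  obtain ⟨w, hw⟩ := ind_isolate (T := (n.primeFactors.erase l).powerset) (P := P) (J₀ := ∅)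
    (Finset.empty_mem_powerset _) (d := 2 ^ n.primeFactors.card) (by
      intro J hJ h0
      obtain ⟨j1, j2⟩ := ind_ne_of_erase hl (Finset.mem_powerset.1 hJ)
      exact h J j1 h0 j2)
  refine ⟨u - 2 * w, ?_, ?_⟩
  · rw [hu, show n.primeFactors.card = (n.primeFactors.card - 1) + 1 by omega, pow_succ] at hw
    simp only [Nat.add_sub_cancel] at hw
    linear_combination (-1 : ℤ) * hw
  · rw [← hu', Int.odd_sub]
    simp

theorem i1_redei {l : ℕ} (hl : l.Prime) : Desc.RedeiL l := fun b c e _ _ => by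
  rcases (Nat.dvd_prime hl).1 (Dvd.intro c e) with h | h
  · exact Or.inl h
  · right
    rw [h] at e
    exact Nat.eq_of_mul_eq_mul_left hl.pos (by rw [e, mul_one])

theorem i1_b5 (hI : S_I) {n : ℕ} (h : B5 n) :
    ∃ v : ℤ, lam n = 2 * (2 ^ (n.primeFactors.card - 1) * v) ^ 2 ∧ (Odd v ↔ Desc.RedeiL n) := by
  obtain ⟨P, p1, p2, p3⟩ := (hI n h.1 h.2.1 (by have := h.2; omega)).1 h
  obtain ⟨hsq, h4, h3, h5⟩ := h
  obtain ⟨v, hv, hv'⟩ := i1_P0 (by omega) p1 fun J j1 j2 j3 => ind_sq (by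
    rw [← one_mul (P J ^ 2), p2 J j1 j2 j3]
    exact i1_split_adm hsq h4 (by omega) (by omega) j1 j2 j3)
  exact ⟨v, by rw [← p3, hv], hv'⟩

theorem i1_b3 (hI : S_I) {n : ℕ} (h : B3 n) :
    (2 : ℤ) ^ (2 * n.primeFactors.card + 1) ∣ lam n := by
  obtain ⟨P, p1, p2, p3⟩ := (hI n h.1 h.2.1 (by have := h.2; omega)).2.1 h
  obtain ⟨hsq, h4, h3, h5⟩ := h
  have hn : 1 < n := by omega
  obtain ⟨l, hl⟩ := Nat.nonempty_primeFactors.2 hn
  have hr := i1_card_pos hn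
  obtain ⟨u, hu, -⟩ := p1.1 l hl
  obtain ⟨w, hw⟩ := ind_isolate' (T := (n.primeFactors.erase l).powerset) (P := P) (J₀ := ∅)
    (Finset.empty_mem_powerset _) (d := 2 ^ (n.primeFactors.card - 1)) (by
      intro J hJ h0
      obtain ⟨j1, j2⟩ := ind_ne_of_erase hl (Finset.mem_powerset.1 hJ)
      have e := i1_split_adm hsq h4 (by omega) (by omega) j1 h0 j2
      rw [← one_mul |LM n J|, ← p2 J j1 h0 j2,
        show 2 * n.primeFactors.card = 2 + 2 * (n.primeFactors.card - 1) by omega, pow_add,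
        ← mul_assoc] at e
      exact ind_sq ((mul_dvd_mul_iff_left (by norm_num)).1 e)) ⟨u, hu⟩
  rw [← p3, hw]
  refine ⟨w ^ 2, ?_⟩
  rw [show 2 * n.primeFactors.card + 1 = (n.primeFactors.card - 1) * 2 + 3 by omega]
  ring

theorem i1_c3 (hI : S_I) (hV : S_Van) {n : ℕ} (hsq : Squarefree n) (h4 : n % 4 = 3) (h : C3 n)
    (ih : i1_IH n) :
    ∃ v : ℤ, lam n = (2 ^ (n.primeFactors.card - 1) * v) ^ 2 ∧ (Odd v ↔ Desc.RedeiL n) := by
  by_cases hn : n = 3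
  · subst hn
    refine ⟨1, ?_, iff_of_true odd_one (i1_redei Nat.prime_three)⟩
    rw [hV.1, Nat.prime_three.primeFactors]
    simp
  obtain ⟨P, p1, p2, p3⟩ := (hI n hsq h4 (by omega)).2.2.1 h
  have hd : i1_d n = 2 := by
    unfold i1_d
    rcases h with ⟨h, h'⟩ | ⟨h, h'⟩
    · rw [if_neg (by omega), if_neg (by omega), if_pos (Or.inl h)]
    · rw [if_neg (by omega), if_neg (by omega), if_pos (Or.inr h)]
  obtain ⟨v, hv, hv'⟩ := i1_P0 (by omega) p1 fun J j1 j2 j3 => ind_sq (by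
    have e := i1_split' hsq h4 ih j1 j2 j3
    rw [hd] at e
    rw [← one_mul (P J ^ 2), p2 J j1 j2 j3]
    exact e)
  exact ⟨v, by rw [← p3, hv, one_mul], hv'⟩

theorem i1_two_sq (k : ℕ) {x y : ℤ} (h : (2 : ℤ) ^ (2 * k) ∣ x ^ 2 + y ^ 2) : (2 : ℤ) ^ k ∣ x := by
  induction k generalizing x y with
  | zero => simp
  | succ k ih =>
    have h4 : (4 : ℤ) ∣ x ^ 2 + y ^ 2 :=
      Dvd.dvd.trans ⟨2 ^ (2 * k), by ring⟩ h
    have hxy : Even x ∧ Even y := by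
      rcases Int.even_or_odd' x with ⟨a, rfl | rfl⟩ <;>
        rcases Int.even_or_odd' y with ⟨b, rfl | rfl⟩
      · exact ⟨even_two_mul a, even_two_mul b⟩
      · exfalso
        rw [show (2 * a) ^ 2 + (2 * b + 1) ^ 2 = 4 * (a ^ 2 + b ^ 2 + b) + 1 by ring] at h4
        omega
      · exfalso
        rw [show (2 * a + 1) ^ 2 + (2 * b) ^ 2 = 4 * (a ^ 2 + b ^ 2 + a) + 1 by ring] at h4
        omega
      · exfalso
        rw [show (2 * a + 1) ^ 2 + (2 * b + 1) ^ 2 = 4 * (a ^ 2 + b ^ 2 + a + b) + 2 by ring] at h4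
        omega
    obtain ⟨⟨a, rfl⟩, ⟨b, rfl⟩⟩ := hxy
    rw [show (a + a) ^ 2 + (b + b) ^ 2 = 4 * (a ^ 2 + b ^ 2) by ring,
      show (2 : ℤ) ^ (2 * (k + 1)) = 4 * 2 ^ (2 * k) by ring] at h
    rw [← two_mul, pow_succ']
    exact mul_dvd_mul_left 2 (ih ((mul_dvd_mul_iff_left (by norm_num)).1 h))

theorem i1_c15 (hI : S_I) {n : ℕ} (hsq : Squarefree n) (h4 : n % 4 = 3) (h : 15 ∣ n)
    (ih : i1_IH n) :
    ∃ v : ℤ, 2 * lam n = (2 ^ (n.primeFactors.card - 1) * v) ^ 2 ∧ (Odd v ↔ Desc.RedeiL n) := by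
  obtain ⟨P, Q, p1, p2, p3⟩ := (hI n hsq h4 (by omega)).2.2.2.2 h
  have hd : i1_d n = 3 := by
    unfold i1_d
    rw [if_neg (by omega), if_pos (by omega)]
  obtain ⟨v, hv, hv'⟩ := i1_P0 (by omega) p1 fun J j1 j2 j3 => i1_two_sq _ (y := 2 * Q J) (by
    have e := i1_split' hsq h4 ih j1 j2 j3
    rw [hd] at e
    rw [show P J ^ 2 + (2 * Q J) ^ 2 = P J ^ 2 + 4 * Q J ^ 2 by ring, p2 J j1 j2 j3]
    exact e)
  exact ⟨v, by rw [← p3, hv], hv'⟩

theorem i1_aux (hI : S_I) {m : ℕ} (ha : Squarefree m) (hm : 1 < m) :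
    ∃ l : ℕ, ∃ v : ℤ, l % 60 = 23 ∧ Odd v ∧ lam l = 2 * v ^ 2 ∧ Squarefree (m * l) ∧
      l ∈ (m * l).primeFactors ∧ (m * l).primeFactors.erase l = m.primeFactors ∧
      (m * l).primeFactors.card = m.primeFactors.card + 1 ∧
      LM (m * l) m.primeFactors = lam m * lam l := by
  obtain ⟨l, l1, l2, l3⟩ := Nat.forall_exists_prime_gt_and_modEq m (q := 60) (a := 23)
    (by norm_num) (by norm_num)
  have l4 : l % 60 = 23 := l3
  have hb : B5 l := ⟨l2.squarefree, by omega, by omega, by omega⟩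
  obtain ⟨v, hv, hv'⟩ := i1_b5 hI hb
  rw [l2.primeFactors, Finset.card_singleton] at hv
  have hnd : ¬ l ∣ m := fun h => absurd (Nat.le_of_dvd (by omega) h) (by omega)
  have hco : m.Coprime l := ((Nat.Prime.coprime_iff_not_dvd l2).2 hnd).symm
  have hnm : l ∉ m.primeFactors := fun h => hnd (Nat.dvd_of_mem_primeFactors h)
  have e : (m * l).primeFactors = insert l m.primeFactors := by
    rw [hco.primeFactors_mul, l2.primeFactors, Finset.union_comm]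
    rfl
  refine ⟨l, v, l4, hv'.2 (i1_redei l2), by simpa using hv,
    (Nat.squarefree_mul hco).2 ⟨ha, l2.squarefree⟩, by rw [e]; exact Finset.mem_insert_self _ _,
    by rw [e, Finset.erase_insert hnm], by rw [e, Finset.card_insert_of_notMem hnm], ?_⟩
  unfold LM
  rw [Nat.prod_primeFactors_of_squarefree ha, Nat.mul_div_cancel_left _ (by omega)]

theorem i1_pos_core {m n l q k : ℕ} {v γ : ℤ} (hsq : Squarefree n) (h4 : n % 4 = 3)
    (hq : q ∈ m.primeFactors) (hd : i1_d n = 2)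
    (hb : ∀ b, b ∣ n → ¬q ∣ b → ¬3 ∣ b ∧ ¬5 ∣ b) (hv : Odd v) (hl : lam l = 2 * v ^ 2)
    (hmem : l ∈ n.primeFactors) (he : n.primeFactors.erase l = m.primeFactors)
    (hcard : n.primeFactors.card = m.primeFactors.card + 1)
    (hlm : LM n m.primeFactors = lam m * lam l) (hI : Ifc n k 1 (4 ^ k) γ) (ih : i1_IH m) :
    (2 : ℤ) ^ (2 * m.primeFactors.card) ∣ 2 * lam m := by
  obtain ⟨P, p1, p2, -⟩ := hI
  have hq' : q ∈ n.primeFactors.erase l := he ▸ hq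
  have key : (2 : ℤ) ^ (n.primeFactors.card - 1 + k) ∣ P m.primeFactors := by
    refine ind_isolate' ?_ ?_ (p1.2 l hmem q (mem_of_mem_erase hq') (ne_of_mem_erase hq'))
    · simp [he, hq]
    · intro J hJ h1
      obtain ⟨j1, j2⟩ := Finset.mem_filter.1 hJ
      have j3 := Finset.mem_powerset.1 j1
      have h0 : J ≠ ∅ := Finset.ne_empty_of_mem j2
      obtain ⟨j4, j5⟩ := ind_ne_of_erase hmem j3
      have c3 : J.card < m.primeFactors.card :=
        Finset.card_lt_card (Finset.ssubset_iff_subset_ne.2 ⟨he ▸ j3, h1⟩)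
      have e := i1_split hsq h4 j4 h0 j5 fun a b a1 b1 a2 b2 a3 b3 ea e hc _ => by
        have hqa : q ∣ a := Nat.dvd_of_mem_primeFactors (ea ▸ j2)
        have hqb : ¬q ∣ b := fun h =>
          (Nat.prime_of_mem_primeFactors hq).one_lt.ne' (Nat.eq_one_of_dvd_coprimes hc hqa h)
        obtain ⟨b4, b5⟩ := hb b (Dvd.intro_left a e) hqb
        exact ⟨ih a a1 a2 a3 (ea ▸ c3), i1_D_adm b1 b2 b3 b4 b5⟩
      rw [hd, hcard, show (2 : ℤ) ^ (2 * (m.primeFactors.card + 1)) =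
        2 ^ 2 * 2 ^ (2 * m.primeFactors.card) by ring] at e
      have e' := (mul_dvd_mul_iff_left (by norm_num)).1 e
      refine ind_sq ?_
      rw [← one_mul (P J ^ 2), p2 J j4 h0 j5, hcard, Nat.add_sub_cancel,
        show (2 : ℤ) ^ (2 * (m.primeFactors.card + k)) = 4 ^ k * 2 ^ (2 * m.primeFactors.card) by
          rw [mul_add, pow_add, pow_mul 2 2 k, mul_comm]; norm_num]
      exact mul_dvd_mul_left _ e'
  obtain ⟨j4, j5⟩ := ind_ne_of_erase hmem he.symm.subset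
  have e := p2 _ j4 (Finset.ne_empty_of_mem hq) j5
  rw [hcard, Nat.add_sub_cancel] at key
  obtain ⟨w, hw⟩ := key
  rw [hlm, abs_mul, hl, hw, abs_of_nonneg (show (0 : ℤ) ≤ 2 * v ^ 2 by positivity)] at e
  refine ind_fin (P := 2 ^ m.primeFactors.card * w) hv (dvd_mul_right _ _) ?_
  rw [abs_mul, abs_two]
  refine mul_left_cancel₀ (show (4 : ℤ) ^ k ≠ 0 by positivity) ?_
  rw [show (4 : ℤ) ^ k = (2 ^ k) ^ 2 by rw [← pow_mul, mul_comm, pow_mul]; norm_num] at e ⊢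
  rw [pow_add] at e
  linear_combination e

theorem i1_pos (hI : S_I) (hV : S_Van) {m : ℕ} (hsq : Squarefree m) (h4 : m % 4 = 1)
    (h : 3 ∣ m ∨ 5 ∣ m) (ih : i1_IH m) : (2 : ℤ) ^ (2 * m.primeFactors.card) ∣ 2 * lam m := by
  by_cases hv : VanC m
  · rw [hV.2 m (Nat.odd_iff.2 (by omega)) hsq hv]
    simp
  unfold VanC at hv
  have hm : 1 < m := by omega
  have hv3 : 3 ∣ m → m % 5 = 1 ∨ m % 5 = 4 := fun _ => by omega
  have hv5 : ¬3 ∣ m → m % 3 = 2 := fun _ => by omega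
  clear hv
  obtain ⟨l, v, l1, hv', hl, hsq', hmem, he, hcard, hlm⟩ := i1_aux hI hsq hm
  have n4 : (m * l) % 4 = 3 := by
    rw [Nat.mul_mod, h4, show l % 4 = 3 by omega]
  have n0 : 3 < m * l := by
    have : 23 ≤ l := by omega
    nlinarith
  by_cases h3 : 3 ∣ m
  · have n5 : (m * l) % 5 = 2 ∨ (m * l) % 5 = 3 := by
      rw [Nat.mul_mod, show l % 5 = 3 by omega]
      rcases hv3 h3 with h | h <;> simp [h]
    have n3 : 3 ∣ m * l := h3.mul_right l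
    refine i1_pos_core (q := 3) (k := 1) (γ := 1) hsq' n4
      (Nat.prime_three.mem_primeFactors h3 (by omega)) ?_
      (fun b hb h => ⟨h, fun h' => ?_⟩) hv' hl hmem he hcard hlm
      (by simpa using (hI _ hsq' n4 n0).2.2.1 (Or.inl ⟨n3, n5⟩)) ih
    · unfold i1_d
      rw [if_neg (by omega), if_neg (by omega), if_pos (Or.inl n3)]
    · have := h'.trans hb
      omega
  · have h5 : 5 ∣ m := h.resolve_left h3
    have n3 : (m * l) % 3 = 1 := by
      rw [Nat.mul_mod, show l % 3 = 2 by omega, hv5 h3]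
    have n5 : 5 ∣ m * l := h5.mul_right l
    refine i1_pos_core (q := 5) (k := 0) (γ := 4) hsq' n4
      (Nat.prime_five.mem_primeFactors h5 (by omega)) ?_
      (fun b hb h => ⟨fun h' => ?_, h⟩) hv' hl hmem he hcard hlm
      (by simpa using (hI _ hsq' n4 n0).2.2.2.1 (Or.inr ⟨n5, n3⟩)) ih
    · unfold i1_d
      rw [if_neg (by omega), if_neg (by omega), if_pos (Or.inr n5)]
    · have := h'.trans hb
      omega

theorem i1_van {m : ℕ} (h4 : m % 4 = 3) (h : 3 ∣ m ∨ 5 ∣ m) (h15 : ¬(3 ∣ m ∧ 5 ∣ m))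
    (hc : ¬C3 m) : VanC m := by
  rcases h with h | h
  · have h1 : ¬(m % 5 = 2 ∨ m % 5 = 3) := fun h' => hc (Or.inl ⟨h, h'⟩)
    have h2 : ¬5 ∣ m := fun h' => h15 ⟨h, h'⟩
    exact Or.inr (Or.inl ⟨h, h4, by omega⟩)
  · have h1 : ¬m % 3 = 2 := fun h' => hc (Or.inr ⟨h, h'⟩)
    have h2 : ¬3 ∣ m := fun h' => h15 ⟨h', h⟩
    exact Or.inr (Or.inr (Or.inl ⟨h, by omega⟩))

theorem i1_step (hI : S_I) (hV : S_Van) {m : ℕ} (hsq : Squarefree m) (h2 : m % 2 = 1)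
    (hm : 1 < m) (ih : i1_IH m) : i1_D m := by
  have hr := i1_card_pos hm
  by_cases h : 3 ∣ m ∨ 5 ∣ m
  swap
  · exact i1_D_adm hsq h2 hm (fun h' => h (Or.inl h')) fun h' => h (Or.inr h')
  unfold i1_D i1_d
  by_cases h4 : m % 4 = 1
  · rw [if_pos h4, if_pos h, pow_one]
    exact i1_pos hI hV hsq h4 h ih
  rw [if_neg h4]
  by_cases h15 : 3 ∣ m ∧ 5 ∣ m
  · obtain ⟨v, hv, -⟩ := i1_c15 hI hsq (by omega) (by omega) ih
    rw [if_pos h15, show (2 : ℤ) ^ 3 * lam m = 4 * (2 * lam m) by ring, hv]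
    refine ⟨v ^ 2, ?_⟩
    rw [show 2 * m.primeFactors.card = (m.primeFactors.card - 1) * 2 + 2 by omega]
    ring
  rw [if_neg h15, if_pos h]
  by_cases hc : C3 m
  · obtain ⟨v, hv, -⟩ := i1_c3 hI hV hsq (by omega) hc ih
    rw [hv]
    refine ⟨v ^ 2, ?_⟩
    rw [show 2 * m.primeFactors.card = (m.primeFactors.card - 1) * 2 + 2 by omega]
    ring
  · rw [hV.2 m (Nat.odd_iff.2 h2) hsq (i1_van (by omega) h h15 hc)]
    simp

theorem i1_all (hI : S_I) (hV : S_Van) (n : ℕ) : i1_IH n := by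
  have key : ∀ k a : ℕ, Squarefree a → a % 2 = 1 → 1 < a → a.primeFactors.card = k → i1_D a := by
    intro k
    induction k using Nat.strong_induction_on with
    | _ k ih =>
      exact fun a a1 a2 a3 a4 =>
        i1_step hI hV a1 a2 a3 fun b b1 b2 b3 b4 => ih _ (a4 ▸ b4) b b1 b2 b3 rfl
  exact fun a a1 a2 a3 _ => key _ a a1 a2 a3 rfl

theorem iEx (hI : S_I) (hV : S_Van) : S_Ex := by
  intro n hsq
  refine ⟨fun h4 h => ?_, i1_b5 hI, i1_b3 hI, fun h4 h => i1_c3 hI hV hsq h4 h (i1_all hI hV n),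
    fun h4 h => i1_c15 hI hsq h4 h (i1_all hI hV n)⟩
  have hr := i1_card_pos (show 1 < n by omega)
  have e := i1_pos hI hV hsq h4 h (i1_all hI hV n)
  obtain ⟨r, hr'⟩ : ∃ r, 2 * n.primeFactors.card = r + 1 := ⟨2 * n.primeFactors.card - 1, by omega⟩
  rw [hr', pow_succ'] at e
  rw [hr', Nat.add_sub_cancel]
  exact (mul_dvd_mul_iff_left two_ne_zero).1 e

end Pool.Agent.P.MP_9c97e9_nt.All
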