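import Pool.Agent.P.MP_9c97e9_nt.All.Defs

/-! The central value modulo 2 for `a ≡ 1 (mod 4)` with 3 and 5 inert. -/

namespace Pool.Agent.P.MP_9c97e9_nt.All

open Finset Pool.Agent.P.MP_8b7eba_nt Pool.Agent.P.MP_8b7eba_nt.BSD15

theorem i2_mod4 {b k : ℕ} (h : b * k % 4 = 1) :
    (b % 4 = 1 ∧ k % 4 = 1) ∨ (b % 4 = 3 ∧ k % 4 = 3) := by
  rw [Nat.mul_mod] at h
  have h1 : b % 4 < 4 := Nat.mod_lt _ (by norm_num)
  have h2 : k % 4 < 4 := Nat.mod_lt _ (by norm_num)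
  generalize b % 4 = x at *
  generalize k % 4 = y at *
  interval_cases x <;> interval_cases y <;> simp_all

theorem i2_mod3 {b k : ℕ} (h : b * k % 3 = 2) :
    (b % 3 = 1 ∧ k % 3 = 2) ∨ (b % 3 = 2 ∧ k % 3 = 1) := by
  rw [Nat.mul_mod] at h
  have h1 : b % 3 < 3 := Nat.mod_lt _ (by norm_num)
  have h2 : k % 3 < 3 := Nat.mod_lt _ (by norm_num)
  generalize b % 3 = x at *
  generalize k % 3 = y at *
  interval_cases x <;> interval_cases y <;> simp_all

theorem i2_mod5 {b k : ℕ} (h : b * k % 5 = 2 ∨ b * k % 5 = 3) :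
    ((b % 5 = 1 ∨ b % 5 = 4) ∧ (k % 5 = 2 ∨ k % 5 = 3)) ∨
      ((b % 5 = 2 ∨ b % 5 = 3) ∧ (k % 5 = 1 ∨ k % 5 = 4)) := by
  rw [Nat.mul_mod] at h
  have h1 : b % 5 < 5 := Nat.mod_lt _ (by norm_num)
  have h2 : k % 5 < 5 := Nat.mod_lt _ (by norm_num)
  generalize b % 5 = x at *
  generalize k % 5 = y at *
  interval_cases x <;> interval_cases y <;> simp_all

theorem i2_par {v : ℤ} {g : ZMod 2} (h : Odd v ↔ g = 1) : (v : ZMod 2) = g := by
  rw [← ZMod.intCast_eq_one_iff_odd] at h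
  generalize (v : ZMod 2) = x at h
  revert x g
  decide

theorem i2_sq (x : ZMod 2) : x ^ 2 = x := by
  revert x; decide

theorem i2_abs (w : ℤ) : ((|w| : ℤ) : ZMod 2) = w := by
  rcases abs_choice w with h | h
  · rw [h]
  · rw [h]; push_cast
    generalize (w : ZMod 2) = x
    revert x; decide

theorem i2_three {k : ℕ} (hk : Squarefree k) (h3 : k % 3 ≠ 0) :
    Squarefree (3 * k) ∧ (3 * k).primeFactors = insert 3 k.primeFactors ∧
      3 ∉ k.primeFactors := by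
  have hc : Nat.Coprime 3 k := (Nat.Prime.coprime_iff_not_dvd Nat.prime_three).2 (by omega)
  refine ⟨(Nat.squarefree_mul hc).2 ⟨Nat.prime_three.prime.squarefree, hk⟩, ?_, ?_⟩
  · rw [Nat.primeFactors_mul (by norm_num) hk.ne_zero, Nat.prime_three.primeFactors]
    rfl
  · intro h
    have := Nat.dvd_of_mem_primeFactors h
    omega

theorem i2_card {k : ℕ} (hk : Squarefree k) (h3 : k % 3 ≠ 0) :
    (3 * k).primeFactors.card = k.primeFactors.card + 1 := by
  obtain ⟨_, h1, h2⟩ := i2_three hk h3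
  rw [h1, card_insert_of_notMem h2]

/-- the main case -/
theorem i2_main (hE : S_Ex) (hG : S_G) {b k : ℕ} (hk : Squarefree k) (k4 : k % 4 = 1)
    (k3 : k % 3 = 1) (k5 : k % 5 = 1 ∨ k % 5 = 4) {w P : ℤ}
    (hw : lam b = 4 ^ b.primeFactors.card * w) (hP : P ^ 2 = |lam b * lam (3 * k)|) :
    ∃ x : ℤ, P = 2 ^ (b.primeFactors.card + k.primeFactors.card) * x ∧
      (x : ZMod 2) = w * EE aa cc k.primeFactors := by
  obtain ⟨hsq, -, -⟩ := i2_three hk (by omega)
  obtain ⟨v, hv, hv'⟩ := (hE (3 * k) hsq).2.2.2.1 (by omega) (Or.inl ⟨dvd_mul_right _ _, by omega⟩)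
  rw [i2_card hk (by omega), Nat.add_sub_cancel] at hv
  have h1 : (v : ZMod 2) = EE aa cc k.primeFactors := by
    rw [(hG k hk (by omega)).2.2.2.2.2 k4 (by omega)]
    exact i2_par (hv'.trans ((hG (3 * k) hsq (by omega)).2.2.2.2.1 (by omega)).symm)
  have h2 : P ^ 2 = (2 ^ (b.primeFactors.card + k.primeFactors.card)) ^ 2 * (|w| * v ^ 2) := by
    rw [hP, hw, hv, abs_mul, abs_mul, abs_of_nonneg (sq_nonneg (_ * v)),
      abs_of_nonneg (by positivity : (0 : ℤ) ≤ 4 ^ b.primeFactors.card),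
      show (4 : ℤ) = 2 ^ 2 by norm_num, ← pow_mul]
    ring
  obtain ⟨x, hx⟩ : (2 : ℤ) ^ (b.primeFactors.card + k.primeFactors.card) ∣ P :=
    (Int.pow_dvd_pow_iff two_ne_zero).1 ⟨_, h2⟩
  refine ⟨x, hx, ?_⟩
  rw [hx, mul_pow] at h2
  have h3 : x ^ 2 = |w| * v ^ 2 := mul_left_cancel₀ (by positivity) h2
  have h4 : ((x ^ 2 : ℤ) : ZMod 2) = ((|w| * v ^ 2 : ℤ) : ZMod 2) := by rw [h3]
  rw [Int.cast_mul, Int.cast_pow, Int.cast_pow, i2_sq, i2_sq, i2_abs, h1] at h4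
  exact h4

theorem i2_term (hV : S_Van) (hE : S_Ex) (hG : S_G) {b k : ℕ} (hb : Adm b) (hk : Adm k)
    (b1 : 1 < b) (h4 : b * k % 4 = 1) (h3 : b * k % 3 = 2) (h5 : b * k % 5 = 2 ∨ b * k % 5 = 3)
    (ih : b % 4 = 1 → b % 3 = 2 → (b % 5 = 2 ∨ b % 5 = 3) →
      ∃ w : ℤ, lam b = 4 ^ b.primeFactors.card * w ∧ (w : ZMod 2) = xx b)
    {P : ℤ} (hP : P ^ 2 = |lam b * lam (3 * k)|) :
    ∃ x : ℤ, P = 2 ^ (b.primeFactors.card + k.primeFactors.card) * x ∧
      (x : ZMod 2) = (1 + sm mm b.primeFactors) * sm cc b.primeFactors * sm f5 b.primeFactors *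
        tau aa cc b.primeFactors * EE aa cc k.primeFactors := by
  obtain ⟨b2, b3, b5⟩ := ind_mod hb
  obtain ⟨k2, k3, k5⟩ := ind_mod hk
  obtain ⟨hsq, -, -⟩ := i2_three hk.1 k3
  obtain ⟨-, g1, g2, g3, -, -⟩ := hG b hb.1 b2
  replace g2 := g2 (by omega)
  replace g3 := g3 (by omega)
  have hodd : Odd (3 * k) := Nat.odd_iff.2 (by omega)
  have hz : lam b * lam (3 * k) = 0 → P = 2 ^ (b.primeFactors.card + k.primeFactors.card) * 0 := by
    intro h
    rw [h, abs_zero] at hP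
    rw [mul_zero]
    exact pow_eq_zero_iff two_ne_zero |>.1 hP
  have hvb : (b % 3 = 1 ∧ (b % 5 = 2 ∨ b % 5 = 3)) ∨ (b % 3 = 2 ∧ (b % 5 = 1 ∨ b % 5 = 4)) →
      lam b * lam (3 * k) = 0 := by
    intro h
    rcases ind_jac hb with h1 | h1
    · rw [lam_vanish b1 hb h1, zero_mul]
    · omega
  rcases i2_mod4 h4 with ⟨e4, f4⟩ | ⟨e4, f4⟩
  · rcases i2_mod5 h5 with ⟨e5, f5'⟩ | ⟨e5, f5'⟩
    · refine ⟨0, hz ?_, ?_⟩
      · rw [hV.2 (3 * k) hodd hsq (Or.inr (Or.inl ⟨dvd_mul_right _ _, by omega, by omega⟩)),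
          mul_zero]
      · rw [g3, if_neg (by omega)]; simp
    · rcases i2_mod3 h3 with ⟨e3, f3⟩ | ⟨e3, f3⟩
      · refine ⟨0, hz (hvb (Or.inl ⟨e3, e5⟩)), ?_⟩
        rw [g2, if_neg (by omega)]; simp
      · obtain ⟨w, hw, hw'⟩ := ih e4 e3 e5
        obtain ⟨x, hx, hx'⟩ := i2_main hE hG hk.1 f4 f3 f5' hw hP
        refine ⟨x, hx, ?_⟩
        rw [hx', hw', g1, g2, g3, if_neg (by omega), if_pos e3, if_pos e5, xx]
        ring
  · have hF : (1 + sm mm b.primeFactors) * sm cc b.primeFactors * sm f5 b.primeFactors *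
        tau aa cc b.primeFactors * EE aa cc k.primeFactors = 0 := by
      rw [g1, if_pos e4, show (1 : ZMod 2) + 1 = 0 by decide]; simp
    rw [hF]
    rcases i2_mod5 h5 with ⟨e5, f5'⟩ | ⟨e5, f5'⟩
    · rcases i2_mod3 h3 with ⟨e3, f3⟩ | ⟨e3, f3⟩
      · have d1 := (hE b hb.1).2.2.1 ⟨hb.1, e4, e3, e5⟩
        have d2 := (hE (3 * k) hsq).1 (by omega) (Or.inl (dvd_mul_right _ _))
        rw [i2_card hk.1 k3] at d2
        have d3 := mul_dvd_mul d1 d2
        rw [← pow_add, show 2 * b.primeFactors.card + 1 + (2 * (k.primeFactors.card + 1) - 1) =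
          2 * (b.primeFactors.card + k.primeFactors.card + 1) by omega, ← dvd_abs, ← hP] at d3
        obtain ⟨y, hy⟩ := ind_sq d3
        refine ⟨2 * y, by rw [hy]; ring, ?_⟩
        rw [Int.cast_mul, show ((2 : ℤ) : ZMod 2) = 0 by decide, zero_mul]
      · exact ⟨0, hz (hvb (Or.inr ⟨e3, e5⟩)), by simp⟩
    · refine ⟨0, hz ?_, by simp⟩
      rw [hV.2 (3 * k) hodd hsq (Or.inl ⟨dvd_mul_right _ _, by omega, by omega⟩), mul_zero]

theorem i2_EE_empty : EE aa cc ∅ = 1 := by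
  unfold EE DD
  exact Matrix.det_isEmpty

theorem i2_step (hI : S_I) (hV : S_Van) (hE : S_Ex) (hP : S_P) (hG : S_G) {a : ℕ}
    (hsq : Squarefree a) (h4 : a % 4 = 1) (h3 : a % 3 = 2) (h5 : a % 5 = 2 ∨ a % 5 = 3)
    (ih : ∀ b : ℕ, b.primeFactors.card < a.primeFactors.card → Squarefree b → b % 4 = 1 →
      b % 3 = 2 → (b % 5 = 2 ∨ b % 5 = 3) →
      ∃ w : ℤ, lam b = 4 ^ b.primeFactors.card * w ∧ (w : ZMod 2) = xx b) :
    ∃ w : ℤ, lam a = 4 ^ a.primeFactors.card * w ∧ (w : ZMod 2) = xx a := by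
  have hA : Adm a := by
    refine ⟨hsq, ?_⟩
    have h2 : a.Coprime 2 := (Nat.coprime_two_right).2 (Nat.odd_iff.2 (by omega))
    have h3' : a.Coprime 3 :=
      Nat.Coprime.symm ((Nat.Prime.coprime_iff_not_dvd Nat.prime_three).2 (by omega))
    have h5' : a.Coprime 5 :=
      Nat.Coprime.symm ((Nat.Prime.coprime_iff_not_dvd Nat.prime_five).2 (by omega))
    exact Nat.Coprime.mul_right (Nat.Coprime.mul_right h2 h3') h5'
  obtain ⟨w, hw⟩ := (indG_lam hA (by omega)).1 h4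
  rw [pow_mul, show (2 : ℤ) ^ 2 = 4 by norm_num] at hw
  refine ⟨w, hw, ?_⟩
  obtain ⟨nsq, npf, n3⟩ := i2_three hsq (by omega)
  obtain ⟨P, hHad, hPJ, hP0⟩ := (hI (3 * a) nsq (by omega) (by omega)).2.2.2.1
    (Or.inl ⟨dvd_mul_right _ _, by omega⟩)
  have hodd : Odd (3 * a) := Nat.odd_iff.2 (by omega)
  rw [hV.2 (3 * a) hodd nsq (Or.inr (Or.inl ⟨dvd_mul_right _ _, by omega, by omega⟩))] at hP0
  have hP0' : P ∅ = 0 := by
    rcases mul_eq_zero.1 hP0 with h | h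
    · norm_num at h
    · exact pow_eq_zero_iff two_ne_zero |>.1 h
  obtain ⟨u, hu, hu'⟩ := hHad.1 3 (by rw [npf]; exact mem_insert_self _ _)
  rw [i2_card hsq (by omega), Nat.add_sub_cancel, npf, erase_insert n3] at hu
  obtain ⟨g0, g1, g2, g3, -, g5⟩ := hG a hsq (by omega)
  rw [if_neg (by omega)] at g1
  replace g2 := g2 (by omega)
  replace g3 := g3 (by omega)
  rw [if_pos h3] at g2
  rw [if_pos h5] at g3
  have hue : (u : ZMod 2) = EE aa cc a.primeFactors := by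
    rw [g5 h4 (by omega)]
    exact i2_par (hu'.trans ((hG (3 * a) nsq (by omega)).2.2.2.2.1 (by omega)).symm)
  have hS := hP aa mm cc f5 a.primeFactors g0 g1 g3
  set F : Finset ℕ → ZMod 2 := fun B => (1 + sm mm B) * sm cc B * sm f5 B * tau aa cc B *
    EE aa cc (a.primeFactors \ B) with hFdef
  have key : ∀ J ∈ a.primeFactors.powerset, ∃ x : ℤ, P J = 2 ^ a.primeFactors.card * x ∧
      (x : ZMod 2) = if J = a.primeFactors then (w : ZMod 2) else F J := by
    intro J hJ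
    have hJ' : J ⊆ a.primeFactors := mem_powerset.1 hJ
    have hne : a.primeFactors ≠ ∅ := by
      rw [← nonempty_iff_ne_empty, Nat.nonempty_primeFactors]; omega
    by_cases h0 : J = ∅
    · subst h0
      refine ⟨0, by rw [hP0', mul_zero], ?_⟩
      rw [if_neg hne.symm]
      simp [hFdef, sm]
    obtain ⟨b1, b2, b3⟩ := ind_part hA hJ' h0
    have hdvd : (∏ p ∈ J, p) ∣ a :=
      (prod_dvd_prod_of_subset _ _ _ hJ').trans (Nat.prod_primeFactors_dvd a)
    obtain ⟨k, hk⟩ := hdvd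
    have hk1 : ∏ p ∈ a.primeFactors \ J, p = k := by
      rw [Nat.prod_primeFactors_sdiff_of_squarefree hsq hJ']
      exact Nat.div_eq_of_eq_mul_right (by omega) hk
    have hk2 : k.primeFactors = a.primeFactors \ J := by
      rw [← hk1]
      exact Nat.primeFactors_prod fun p hp => Nat.prime_of_mem_primeFactors (sdiff_subset hp)
    have hk3 : Adm k := ind_adm_dvd hA ⟨_, by rw [mul_comm]; exact hk⟩
    have hc : J.card + k.primeFactors.card = a.primeFactors.card := by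
      rw [hk2, card_sdiff_of_subset hJ']
      have := card_le_card hJ'
      omega
    have hPs : P J ^ 2 = |lam (∏ p ∈ J, p) * lam (3 * k)| := by
      have h1 := hPJ J (by rw [npf]; exact hJ'.trans (subset_insert _ _)) h0 (by
        rw [npf]; rintro rfl; exact n3 (hJ' (mem_insert_self _ _)))
      rw [one_mul, one_mul, LM] at h1
      rw [h1, show 3 * a / ∏ p ∈ J, p = 3 * k from
        Nat.div_eq_of_eq_mul_right (by omega) (by rw [hk]; ring)]
    by_cases h1 : J = a.primeFactors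
    · rw [if_pos h1]
      have hb : ∏ p ∈ J, p = a := by rw [h1]; exact Nat.prod_primeFactors_of_squarefree hsq
      have hk4 : k = 1 := by
        rw [← hk1, h1, Finset.sdiff_self, prod_empty]
      rw [hb, hk4] at hPs
      obtain ⟨x, hx, hx'⟩ := i2_main hE hG squarefree_one rfl rfl (Or.inl rfl) hw hPs
      rw [Nat.primeFactors_one, card_empty, add_zero] at hx
      rw [Nat.primeFactors_one, i2_EE_empty, mul_one] at hx'
      exact ⟨x, hx, hx'⟩
    · rw [if_neg h1]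
      have hlt : J.card < a.primeFactors.card := card_lt_card (ssubset_of_subset_of_ne hJ' h1)
      obtain ⟨x, hx, hx'⟩ := i2_term hV hE hG b1 hk3 b2 (hk ▸ h4) (hk ▸ h3) (hk ▸ h5)
        (ih _ (by rw [b3]; exact hlt) b1.1) hPs
      rw [b3, hc] at hx
      rw [b3, hk2] at hx'
      exact ⟨x, hx, hx'⟩
  choose! x hx hx' using key
  rw [sum_congr rfl hx, ← mul_sum] at hu
  have hu2 : ∑ J ∈ a.primeFactors.powerset, x J = u := mul_left_cancel₀ (by positivity) hu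
  have hmem : a.primeFactors ∈ a.primeFactors.powerset := mem_powerset.2 Subset.rfl
  rw [← hu2, Int.cast_sum, sum_congr rfl hx', ← hS, ← add_sum_erase _ _ hmem,
    ← add_sum_erase _ F hmem, if_pos rfl,
    sum_congr rfl fun J hJ => if_neg (ne_of_mem_erase hJ)] at hue
  rw [add_right_cancel hue, hFdef]
  simp only [g1, g2, g3, Finset.sdiff_self, i2_EE_empty, xx]
  ring

theorem iPm (hI : S_I) (hV : S_Van) (hE : S_Ex) (hP : S_P) (hG : S_G) : S_Pm := by
  have key : ∀ c : ℕ, ∀ a : ℕ, a.primeFactors.card = c → Squarefree a → a % 4 = 1 → a % 3 = 2 →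
      (a % 5 = 2 ∨ a % 5 = 3) →
      ∃ w : ℤ, lam a = 4 ^ a.primeFactors.card * w ∧ (w : ZMod 2) = xx a := by
    intro c
    induction c using Nat.strong_induction_on with
    | _ c ih =>
      intro a hc hsq h4 h3 h5
      exact i2_step hI hV hE hP hG hsq h4 h3 h5 fun b hb => ih _ (hc ▸ hb) b rfl
  exact fun n => key _ n rfl

end Pool.Agent.P.MP_9c97e9_nt.All
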