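import Pool.Agent.P.MP_9c97e9_nt.All.Defs

/-! The exact value of `lam n` in the class `B3`. -/

namespace Pool.Agent.P.MP_9c97e9_nt.All

open Finset Pool.Agent.P.MP_8b7eba_nt Pool.Agent.P.MP_8b7eba_nt.BSD15

theorem i3_cast {v : ℤ} {g : ZMod 2} {R : Prop} (h1 : Odd v ↔ R) (h2 : g = 1 ↔ R) :
    (v : ZMod 2) = g := by
  have h3 : (v : ZMod 2) = 1 ↔ g = 1 := by rw [ZMod.intCast_eq_one_iff_odd, h1, h2]
  have h4 : ∀ s t : ZMod 2, (s = 1 ↔ t = 1) → s = t := by decide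
  exact h4 _ _ h3

theorem i3_sq (s : ZMod 2) : s ^ 2 = s := by
  revert s
  decide

theorem i3_abs (w : ℤ) : ((|w| : ℤ) : ZMod 2) = w := by
  rcases abs_choice w with h | h
  · rw [h]
  · rw [h, Int.cast_neg, ZMod.neg_eq_self_mod_two]

theorem i3_pair (hE : S_Ex) (hP : S_Pm) (hG : S_G) {a b : ℕ} (ha : Adm a) (hb : Adm b)
    (a1 : 1 < a) (b1 : 1 < b) (a4 : a % 4 = 1) (b4 : b % 4 = 3) (h3 : a * b % 3 = 1)
    (h5 : a * b % 5 = 1 ∨ a * b % 5 = 4) {P : ℤ} (hP2 : 2 * P ^ 2 = |lam a * lam b|) :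
    ∃ x : ℤ, P = 2 ^ (a.primeFactors.card + b.primeFactors.card - 1) * x ∧
      (x : ZMod 2) = (if a % 3 = 2 then 1 else 0) * (if a % 5 = 2 ∨ a % 5 = 3 then 1 else 0) *
        xx a * gg b := by
  have cb : 0 < b.primeFactors.card := Finset.card_pos.2 (Nat.nonempty_primeFactors.2 b1)
  obtain ⟨b2, b3, b5⟩ := ind_mod hb
  rw [Nat.mul_mod] at h3
  rw [Nat.mul_mod] at h5
  by_cases c3 : a % 3 = 2 ∧ (a % 5 = 2 ∨ a % 5 = 3)
  · have hb3 : b % 3 = 2 := by
      rw [c3.1] at h3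
      omega
    have hb5 : b % 5 = 2 ∨ b % 5 = 3 := by
      rcases c3.2 with h | h <;> rw [h] at h5 <;> omega
    obtain ⟨w, hw, hw'⟩ := hP a ha.1 a4 c3.1 c3.2
    obtain ⟨v, hv, hv'⟩ := (hE b hb.1).2.1 ⟨hb.1, b4, hb3, hb5⟩
    have hg := i3_cast hv' ((hG b hb.1 b2).2.2.2.2.1 b4)
    have e1 : P ^ 2 = 2 ^ (2 * (a.primeFactors.card + b.primeFactors.card - 1)) * (|w| * v ^ 2) := by
      have e2 : |lam a * lam b| =
          2 * (2 ^ (2 * (a.primeFactors.card + b.primeFactors.card - 1)) * (|w| * v ^ 2)) := by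
        rw [abs_mul, hw, hv, abs_mul, abs_of_nonneg (by positivity : (0 : ℤ) ≤ 4 ^ _),
          abs_of_nonneg (by positivity : (0 : ℤ) ≤ 2 * _ ^ 2),
          show 2 * (a.primeFactors.card + b.primeFactors.card - 1) =
            2 * a.primeFactors.card + (b.primeFactors.card - 1) * 2 by omega,
          pow_add, pow_mul, pow_mul]
        ring
      rw [e2] at hP2
      exact mul_left_cancel₀ two_ne_zero hP2
    obtain ⟨x, hx⟩ := ind_sq (Dvd.intro _ e1.symm)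
    refine ⟨x, hx, ?_⟩
    have e3 : x ^ 2 = |w| * v ^ 2 := by
      rw [hx, mul_pow, ← pow_mul, mul_comm _ 2] at e1
      exact mul_left_cancel₀ (by positivity) e1
    have e4 := congrArg (Int.cast : ℤ → ZMod 2) e3
    rw [Int.cast_pow, Int.cast_mul, Int.cast_pow, i3_sq, i3_sq, i3_abs, hw', hg] at e4
    rw [e4, if_pos c3.1, if_pos c3.2, one_mul, one_mul]
  have hz : ((if a % 3 = 2 then 1 else 0) * (if a % 5 = 2 ∨ a % 5 = 3 then 1 else 0) *
      xx a * gg b : ZMod 2) = 0 := by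
    by_cases h : a % 3 = 2
    · rw [if_neg fun h' => c3 ⟨h, h'⟩]
      simp
    · rw [if_neg h]
      simp
  rw [hz]
  rcases ind_jac ha with hj | ⟨_, c1 | c1⟩
  · rw [lam_vanish a1 ha hj, zero_mul, abs_zero] at hP2
    have : P = 0 := by nlinarith [sq_nonneg P, pow_eq_zero_iff (a := P) two_ne_zero]
    exact ⟨0, by simp [this], Int.cast_zero⟩
  · have hb3 : b % 3 = 1 := by
      rw [c1.1] at h3
      omega
    have hb5 : b % 5 = 1 ∨ b % 5 = 4 := by
      rcases c1.2 with h | h <;> rw [h] at h5 <;> omega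
    have d1 := (indG_lam ha a1).1 a4
    have d2 := (hE b hb.1).2.2.1 ⟨hb.1, b4, hb3, hb5⟩
    have d3 := (dvd_abs _ _).2 (mul_dvd_mul d1 d2)
    rw [← hP2, ← pow_add, show 2 * a.primeFactors.card + (2 * b.primeFactors.card + 1) =
      2 * (a.primeFactors.card + b.primeFactors.card - 1 + 1) + 1 by omega, pow_succ'] at d3
    obtain ⟨y, hy⟩ := ind_sq ((mul_dvd_mul_iff_left two_ne_zero).1 d3)
    refine ⟨2 * y, by rw [hy, pow_succ, mul_assoc], ?_⟩
    rw [Int.cast_mul, show ((2 : ℤ) : ZMod 2) = 0 from rfl, zero_mul]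
  · exact absurd c1 c3

/-- the terms of the sum in `kap` -/
def i3_F (A B : Finset ℕ) : ZMod 2 :=
  (1 + sm mm B) * sm cc B * sm f5 B * tau aa cc B * tau aa mm (A \ B)

theorem i3_eval (hG : S_G) {a b : ℕ} (ha : Adm a) {A : Finset ℕ}
    (hA : A \ a.primeFactors = b.primeFactors) :
    i3_F A a.primeFactors = if a % 4 = 3 then 0 else
      (if a % 3 = 2 then 1 else 0) * (if a % 5 = 2 ∨ a % 5 = 3 then 1 else 0) * xx a * gg b := by
  obtain ⟨a2, a3, a5⟩ := ind_mod ha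
  obtain ⟨_, g1, g2, g3, _⟩ := hG a ha.1 a2
  unfold i3_F xx gg
  rw [g1, g2 (by omega), g3 (by omega), hA]
  by_cases h : a % 4 = 3
  · rw [if_pos h, if_pos h, show (1 + 1 : ZMod 2) = 0 from rfl]
    simp
  · rw [if_neg h, if_neg h, add_zero, one_mul]

theorem i3_term (hE : S_Ex) (hP : S_Pm) (hG : S_G) {n : ℕ} (hn : B3 n) {J : Finset ℕ}
    (hJ : J ⊆ n.primeFactors) (h0 : J ≠ ∅) (h1 : J ≠ n.primeFactors) {P : ℤ}
    (hP2 : 2 * P ^ 2 = |LM n J|) :
    ∃ x : ℤ, P = 2 ^ (n.primeFactors.card - 1) * x ∧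
      (x : ZMod 2) = i3_F n.primeFactors J + i3_F n.primeFactors (n.primeFactors \ J) := by
  obtain ⟨hsq, h4, h3, h5⟩ := hn
  have h : Adm n := ind_b5_adm hsq h4 (by omega) (by omega)
  have h0' : n.primeFactors \ J ≠ ∅ := by
    intro hc
    exact h1 (Finset.Subset.antisymm hJ (Finset.sdiff_eq_empty_iff_subset.1 hc))
  obtain ⟨a1, a2, a3⟩ := ind_part h hJ h0
  obtain ⟨b1, b2, b3⟩ := ind_part h Finset.sdiff_subset h0'
  rw [Nat.prod_primeFactors_sdiff_of_squarefree h.1 hJ] at b1 b2 b3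
  have hm : (∏ p ∈ J, p) * (n / ∏ p ∈ J, p) = n := Nat.mul_div_cancel'
    ((Finset.prod_dvd_prod_of_subset _ _ _ hJ).trans (Nat.prod_primeFactors_dvd n))
  unfold LM at hP2
  generalize n / ∏ p ∈ J, p = b at *
  generalize ∏ p ∈ J, p = a at *
  have c1 : a.primeFactors.card + b.primeFactors.card = n.primeFactors.card := by
    rw [a3, b3, Finset.card_sdiff_of_subset hJ]
    have := Finset.card_le_card hJ
    omega
  have e1 := i3_eval hG a1 (A := n.primeFactors) (b := b) (by rw [a3, b3])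
  have e2 := i3_eval hG b1 (A := n.primeFactors) (b := a)
    (by rw [a3, b3, Finset.sdiff_sdiff_eq_self hJ])
  rw [← b3, ← a3, e1, e2, ← c1]
  have m1 := (ind_mod a1).1
  have m2 := (ind_mod b1).1
  have hmod := Nat.mul_mod a b 4
  rw [hm, h4] at hmod
  rcases (show a % 4 = 1 ∨ a % 4 = 3 by omega) with f1 | f1 <;>
    rcases (show b % 4 = 1 ∨ b % 4 = 3 by omega) with f2 | f2
  · rw [f1, f2] at hmod
    omega
  · rw [if_neg (by omega), if_pos f2, add_zero]
    exact i3_pair hE hP hG a1 b1 a2 b2 f1 f2 (hm ▸ h3) (hm ▸ h5) hP2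
  · rw [if_pos f1, if_neg (by omega), zero_add, add_comm a.primeFactors.card]
    rw [mul_comm] at hm
    rw [mul_comm (lam a)] at hP2
    exact i3_pair hE hP hG b1 a1 b2 a2 f2 f1 (hm ▸ h3) (hm ▸ h5) hP2
  · rw [f1, f2] at hmod
    omega

theorem i3_sum (F : Finset ℕ → ZMod 2) {A : Finset ℕ} {l : ℕ} (hl : l ∈ A) :
    ∑ B ∈ A.powerset, F B = ∑ J ∈ (A.erase l).powerset, (F J + F (A \ J)) := by
  conv_lhs => rw [← Finset.insert_erase hl]
  rw [Finset.sum_powerset_insert (Finset.notMem_erase l A), Finset.sum_add_distrib]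
  congr 1
  refine Finset.sum_bij' (fun J _ => A.erase l \ J) (fun J _ => A.erase l \ J)
    (fun J _ => Finset.mem_powerset.2 Finset.sdiff_subset)
    (fun J _ => Finset.mem_powerset.2 Finset.sdiff_subset)
    (fun J hJ => Finset.sdiff_sdiff_eq_self (Finset.mem_powerset.1 hJ))
    (fun J hJ => Finset.sdiff_sdiff_eq_self (Finset.mem_powerset.1 hJ)) fun J hJ => ?_
  congr 1
  have hJ' := Finset.mem_powerset.1 hJ
  ext p
  simp only [Finset.mem_insert, Finset.mem_sdiff, Finset.mem_erase]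
  constructor
  · rintro (rfl | hp)
    · exact ⟨hl, fun h => h.1.1 rfl⟩
    · exact ⟨Finset.mem_of_mem_erase (hJ' hp), fun h => h.2 hp⟩
  · rintro ⟨hp, h⟩
    by_contra hc
    rw [not_or] at hc
    exact h ⟨⟨hc.1, hp⟩, hc.2⟩

theorem iB3 (hI : S_I) (hE : S_Ex) (hP : S_Pm) (hG : S_G) : S_B3 := by
  intro n hn
  obtain ⟨hsq, h4, h3, h5⟩ := id hn
  obtain ⟨P, hH, hJ, h0⟩ := (hI n hsq h4 (by omega)).2.1 hn
  obtain ⟨l, hl⟩ : n.primeFactors.Nonempty := Nat.nonempty_primeFactors.2 (by omega)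
  obtain ⟨u, hu, hu'⟩ := hH.1 l hl
  obtain ⟨_, g1, _, _, g4, _⟩ := hG n hsq (by omega)
  have hg := i3_cast hu' (g4 h4)
  have hx : ∀ J : Finset ℕ, ∃ x : ℤ, J ∈ ((n.primeFactors.erase l).powerset).erase ∅ →
      P J = 2 ^ (n.primeFactors.card - 1) * x ∧
        (x : ZMod 2) = i3_F n.primeFactors J + i3_F n.primeFactors (n.primeFactors \ J) := by
    intro J
    by_cases hm : J ∈ ((n.primeFactors.erase l).powerset).erase ∅
    · obtain ⟨j0, j1⟩ := Finset.mem_erase.1 hm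
      obtain ⟨j2, j3⟩ := ind_ne_of_erase hl (Finset.mem_powerset.1 j1)
      obtain ⟨x, hx⟩ := i3_term hE hP hG hn j2 j0 j3 (by rw [hJ J j2 j0 j3, one_mul])
      exact ⟨x, fun _ => hx⟩
    · exact ⟨0, fun h => absurd h hm⟩
  choose x hx using hx
  have hem : (∅ : Finset ℕ) ∈ (n.primeFactors.erase l).powerset := Finset.empty_mem_powerset _
  refine ⟨u - ∑ J ∈ ((n.primeFactors.erase l).powerset).erase ∅, x J, ?_, ?_⟩
  · rw [← h0]
    congr 2
    rw [← Finset.add_sum_erase _ _ hem, Finset.sum_congr rfl fun J hJ => (hx J hJ).1,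
      ← Finset.mul_sum] at hu
    rw [mul_sub, ← hu]
    ring
  · rw [Int.cast_sub, Int.cast_sum, Finset.sum_congr rfl fun J hJ => (hx J hJ).2, hg,
      sub_eq_add_neg, ZMod.neg_eq_self_mod_two]
    change _ = gg n + ∑ B ∈ n.primeFactors.powerset, i3_F n.primeFactors B
    rw [i3_sum _ hl, ← Finset.add_sum_erase _ _ hem]
    have e1 : i3_F n.primeFactors ∅ = 0 := by simp [i3_F, sm]
    have e2 : i3_F n.primeFactors (n.primeFactors \ ∅) = 0 := by
      rw [Finset.sdiff_empty, i3_F, g1, if_pos h4, show (1 + 1 : ZMod 2) = 0 from rfl]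
      simp
    rw [e1, e2, add_zero, zero_add]

end Pool.Agent.P.MP_9c97e9_nt.All
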