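import Pool.Agent.P.MP_9c97e9_nt.All.Defs2

/-! The local image at the prime 2. -/

namespace Pool.Agent.P.MP_9c97e9_nt.All

theorem l2_ne {k : ℤ} (h : ¬8 ∣ k) : (k : ℚ_[2]) ≠ 0 := by
  intro e
  have : k = 0 := by exact_mod_cast e
  omega

theorem l2_approx {a : ℚ_[2]} (h : ‖a‖ ≤ 1) : ∃ k : ℤ, ‖a - k‖ < 1 / 16 := by
  obtain ⟨a, rfl⟩ : ∃ w : ℤ_[2], w = a := ⟨⟨a, h⟩, rfl⟩
  obtain ⟨k, hk⟩ := PadicInt.denseRange_intCast.exists_dist_lt a
    (show (0 : ℝ) < 1 / 16 by norm_num)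
  rw [dist_eq_norm] at hk
  exact ⟨k, hk⟩

theorem l2_close {a : ℚ_[2]} {k : ℤ} (h8 : ¬8 ∣ k) (h : ‖a - k‖ < 1 / 16) :
    IsSquare (k * a) := by
  have h1 : ¬‖(k : ℚ_[2])‖ ≤ ((2 : ℕ) : ℝ) ^ (-((3 : ℕ) : ℤ)) := fun e =>
    h8 (by simpa using (Padic.norm_int_le_pow_iff_dvd k 3).1 e)
  rw [Padic.norm_le_pow_iff_norm_lt_pow_add_one, not_lt] at h1
  norm_num at h1
  rw [mul_comm]
  exact sq_of_close_two (by linarith)

theorem l2_five {d : ℚ_[2]} {k : ℤ} (h4 : k % 4 = 1) (h : IsSquare (k * d)) :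
    IsSquare d ∨ IsSquare (5 * d) := by
  have k0 := l2_ne (k := k) (by omega)
  rcases (by omega : k % 8 = 1 ∨ k % 8 = 5) with e | e
  · exact .inl (sq_of_mul_left k0 ((sq_int_iff_two (by omega)).2 e) h)
  · refine .inr (sq_trans k0 ?_ h)
    have := (sq_int_iff_two (k := 5 * k) (by omega)).2 (by omega)
    exact sq_cast this (by push_cast; ring)

theorem l2_even {d : ℚ_[2]} {k : ℤ} (hd : d ≠ 0) (h2 : k % 2 = 1) (h : IsSquare (k * d)) :
    Even d.valuation := by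
  have h1 : (k : ℚ_[2]).valuation = 0 :=
    val_of_norm (by rw [norm_int (by push_cast; omega)]; simp)
  exact (even_val_iff (l2_ne (by omega)) hd h).1 (by simp [h1])

theorem l2_small {n : ℕ} (h4 : n % 4 = 3) {x : ℚ_[2]} (h0 : x ≠ 0) (h1 : 4 * x - 9 * n ≠ 0)
    (h2 : x + 4 * n ≠ 0) (hP : IsSquare (x * (4 * x - 9 * n) * (x + 4 * n))) (hx : ‖x‖ ≤ 1) :
    (∃ k : ℤ, k % 4 = 1 ∧ IsSquare (k * (4 * x - 9 * n))) ∧ Even (x + 4 * n).valuation := by
  obtain ⟨k, hk⟩ := l2_approx hx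
  have a2 : IsSquare (((4 * k - 9 * n : ℤ) : ℚ_[2]) * (4 * x - 9 * n)) := by
    refine l2_close (by omega) ?_
    rw [show (4 * x - 9 * n - ((4 * k - 9 * n : ℤ) : ℚ_[2])) = 4 * (x - k) by push_cast; ring,
      norm_mul, norm_four_two]
    linarith [norm_nonneg (x - k)]
  have a3 : ¬8 ∣ k + 4 * n → IsSquare (((k + 4 * n : ℤ) : ℚ_[2]) * (x + 4 * n)) := fun h =>
    l2_close h (by rwa [show (x + 4 * n - ((k + 4 * n : ℤ) : ℚ_[2])) = x - k by push_cast; ring])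
  refine ⟨⟨_, by omega, a2⟩, ?_⟩
  rcases (by omega : k % 2 = 1 ∨ k % 4 = 2 ∨ k % 8 = 4 ∨ k % 8 = 0) with e | e | e | e
  · exact l2_even h2 (by omega) (a3 (by omega))
  · exfalso
    obtain ⟨j, rfl⟩ : ∃ j, k = 4 * j + 2 := ⟨k / 4, by omega⟩
    obtain ⟨m, rfl⟩ : ∃ m, n = 4 * m + 3 := ⟨n / 4, by omega⟩
    have a1 := l2_close (k := 4 * j + 2) (by omega) hk
    have b := sq_of_mul_left (mul_ne_zero (mul_ne_zero h0 h1) h2) hP
      (sq_cast ((a1.mul a2).mul (a3 (by omega)))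
        (b := x * (4 * x - 9 * (4 * m + 3 : ℕ)) * (x + 4 * (4 * m + 3 : ℕ)) *
          (2 * 2 * ((4 * (16 * j ^ 3 + 45 * j ^ 2 + 28 * j ^ 2 * m - 48 * j - 188 * j * m
            - 144 * j * m ^ 2 - 34 - 101 * m - 72 * m ^ 2) + 3 : ℤ) :
            ℚ_[2]))) (by push_cast; ring))
    have c := (sq_int_iff_two (by omega)).1
      (sq_of_mul_left (by norm_num) (IsSquare.mul_self (2 : ℚ_[2])) b)
    omega
  · obtain ⟨j, rfl⟩ : ∃ j, k = 4 * j := ⟨k / 4, by omega⟩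
    have a1 := l2_close (k := 4 * j) (by omega) hk
    have e1 : Even x.valuation := l2_even (k := j) h0 (by omega)
      (sq_of_mul_left (by norm_num) (IsSquare.mul_self (2 : ℚ_[2]))
        (sq_cast a1 (by push_cast; ring)))
    have e2 := l2_even h1 (by omega) a2
    refine (even_val_iff (mul_ne_zero h0 h1) h2 hP).1 ?_
    rw [Padic.valuation_mul h0 h1]
    exact e1.add e2
  · obtain ⟨j, rfl⟩ : ∃ j, k = 8 * j := ⟨k / 8, by omega⟩
    exact l2_even (k := 2 * j + n) h2 (by omega)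
      (sq_of_mul_left (by norm_num) (IsSquare.mul_self (2 : ℚ_[2]))
        (sq_cast (a3 (by omega)) (by push_cast; ring)))

theorem l2_big {n : ℕ} (h4 : n % 4 = 3) {y : ℚ_[2]} (h1 : y - 9 * n ≠ 0)
    (hs : IsSquare (y - 9 * n)) (hy : 1 / 4 < ‖y‖) : Even y.valuation := by
  have h0 : y ≠ 0 := norm_pos_iff.1 (by linarith)
  rcases le_or_gt ‖y‖ 1 with l | l
  · obtain ⟨k, hk⟩ := l2_approx l
    rcases (by omega : k % 2 = 1 ∨ k % 4 = 2 ∨ k % 4 = 0) with e | e | e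
    · exact l2_even h0 e (l2_close (by omega) hk)
    · exfalso
      have a := l2_close (a := y - 9 * n) (k := k - 9 * n) (by omega)
        (by rwa [show (y - 9 * n - ((k - 9 * n : ℤ) : ℚ_[2])) = y - k by push_cast; ring])
      have := (sq_int_iff_two (by omega)).1 (sq_of_mul_left h1 hs (mul_comm _ (y - 9 * n) ▸ a))
      omega
    · exfalso
      obtain ⟨j, rfl⟩ : ∃ j, k = 4 * j := ⟨k / 4, by omega⟩
      have b : ‖((4 * j : ℤ) : ℚ_[2])‖ ≤ 1 / 4 := by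
        push_cast
        rw [norm_mul, norm_four_two]
        linarith [Padic.norm_int_le_one (p := 2) j]
      have := Padic.nonarchimedean (y - ((4 * j : ℤ) : ℚ_[2])) ((4 * j : ℤ) : ℚ_[2])
      rw [sub_add_cancel] at this
      rcases le_max_iff.1 this with c | c <;> linarith
  · have b : ‖y - 9 * n - y‖ < ‖y‖ := by
      rw [show y - 9 * n - y = ((-(9 * n) : ℤ) : ℚ_[2]) by push_cast; ring]
      exact (Padic.norm_int_le_one _).trans_lt l
    rw [← val_eq_of_norm h0 (Padic.norm_eq_of_norm_sub_lt_right b)]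
    exact even_val hs

theorem l2_fwd {n : ℕ} (h4 : n % 4 = 3) {d₂ d₃ : ℚ_[2]} (h2 : d₂ ≠ 0) (h3 : d₃ ≠ 0)
    (H : Lc ℚ_[2] n d₂ d₃) : (IsSquare d₂ ∨ IsSquare (5 * d₂)) ∧ Even d₃.valuation := by
  rcases H.elim (by omega) h2 h3 with ⟨a, b⟩ | ⟨x, x0, x1, x2, s1, s2, s3⟩
  · refine ⟨a.elim .inl fun a => l2_five (k := -n) (by omega) (by simpa using a),
      b.elim even_val fun b => l2_even (k := n) h3 (by omega) (by simpa using b)⟩
  have x1' : 4 * x - 9 * n ≠ 0 := fun e => x1 (by linear_combination e / 4)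
  have s2' : IsSquare (d₂ * (4 * x - 9 * n)) :=
    sq_cast ((IsSquare.mul_self 2).mul s2) (by ring)
  have hP : IsSquare (x * (4 * x - 9 * n) * (x + 4 * n)) :=
    sq_of_mul_left (mul_ne_zero (mul_ne_zero h2 h3) (mul_ne_zero h2 h3)) (.mul_self _)
      (sq_cast ((s1.mul s2').mul s3) (by ring))
  rw [even_val_iff h3 x2 s3]
  rcases le_or_gt ‖x‖ 1 with l | l
  · obtain ⟨⟨k, k4, sk⟩, e⟩ := l2_small h4 x0 x1' x2 hP l
    exact ⟨l2_five k4 (sq_trans x1' sk (mul_comm d₂ _ ▸ s2')), e⟩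
  · have a : IsSquare ((x + 4 * n) * x) := by
      refine sq_of_close_two ?_
      rw [add_sub_cancel_left, norm_mul, norm_four_two, norm_nat (by omega)]
      linarith
    have b : IsSquare (4 * x - 9 * n) :=
      sq_of_mul_left (mul_ne_zero x2 x0) a (sq_cast hP (by ring))
    refine ⟨.inl (sq_of_mul_left x1' b (mul_comm d₂ _ ▸ s2')), ?_⟩
    have c := l2_big h4 x1' b (by rw [norm_mul, norm_four_two]; linarith)
    rw [even_val_iff x2 x0 a, even_val_iff x0 (mul_ne_zero (show (4 : ℚ_[2]) ≠ 0 by norm_num) x0)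
      ⟨2 * x, by ring⟩]
    exact c

theorem l2_sq (k : ℤ) (h : k % 8 = 1) {a r : ℚ_[2]} (e : a = k * r ^ 2) : IsSquare a :=
  sq_cast (((sq_int_iff_two (by omega)).2 h).mul (.mul_self r)) (by rw [e]; ring)

theorem l2_15 {n : ℕ} (h4 : n % 4 = 3) : Lc ℚ_[2] n 1 5 :=
  .of_point one_ne_zero (by norm_num) (5 / 16) ⟨5 / 4, by norm_num⟩
    (l2_sq (5 - 36 * n) (by omega) (r := 1 / 4) (by push_cast; ring))
    (l2_sq (25 + 320 * n) (by omega) (r := 1 / 4) (by push_cast; ring))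

theorem l2_51 {n : ℕ} (h4 : n % 4 = 3) : Lc ℚ_[2] n 5 1 := by
  have f : (5 : ℚ_[2]) ≠ 0 := by norm_num
  rcases (by omega : n % 8 = 3 ∨ n % 8 = 7) with e | e
  · exact .of_tor f one_ne_zero
      ⟨.inr (l2_sq (-5 * n) (by omega) (r := 1) (by push_cast; ring)), .inl .one⟩
  · have a : Lc ℚ_[2] n 5 5 := .of_point f f 1 ⟨5, by ring⟩
      (l2_sq (20 - 45 * n) (by omega) (r := 1 / 2) (by push_cast; ring))
      (l2_sq (5 + 20 * n) (by omega) (r := 1) (by push_cast; ring))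
    exact (a.mul h4 f f one_ne_zero f (l2_15 h4)).congr (by norm_num) (by norm_num) f one_ne_zero
      ⟨5, by ring⟩ ⟨5, by ring⟩

theorem l2_1d {n : ℕ} (h4 : n % 4 = 3) {d : ℚ_[2]} (hd : d ≠ 0) (e : Even d.valuation) :
    Lc ℚ_[2] n 1 d := by
  have f : (5 : ℚ_[2]) ≠ 0 := by norm_num
  have key : ∀ d : ℚ_[2], d ≠ 0 → IsSquare d ∨ IsSquare (5 * d) → Lc ℚ_[2] n 1 d := by
    rintro d hd (s | s)
    · exact .of_tor one_ne_zero hd ⟨.inl .one, .inl s⟩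
    · exact (l2_15 h4).congr one_ne_zero f one_ne_zero hd (by simp) (mul_comm 5 d ▸ s)
  obtain ⟨k, k2, s⟩ := exists_int_rep hd e
  rcases (by push_cast at k2; omega : k % 4 = 1 ∨ k % 4 = 3) with a | a
  · exact key d hd (l2_five a s)
  · have n0 : (n : ℚ_[2]) ≠ 0 := by exact_mod_cast (by omega : n ≠ 0)
    have b : (k * n) % 4 = 1 := by
      rw [Int.mul_emod, a, show (n : ℤ) % 4 = 3 by omega]
      rfl
    have c := key (n * d) (mul_ne_zero n0 hd) (l2_five b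
      (sq_cast (s.mul (.mul_self (n : ℚ_[2]))) (by push_cast; ring)))
    have t : Lc ℚ_[2] n 1 n := .of_tor one_ne_zero n0 ⟨.inl .one, .inr (.mul_self _)⟩
    exact (c.mul h4 one_ne_zero (mul_ne_zero n0 hd) one_ne_zero n0 t).congr (by simp)
      (mul_ne_zero (mul_ne_zero n0 hd) n0) one_ne_zero hd (by simp) ⟨n * d, by ring⟩

theorem aLoc2 : S_Loc2 := by
  intro n h4 d₂ d₃ h2 h3
  refine ⟨l2_fwd h4 h2 h3, fun ⟨a, e⟩ => ?_⟩
  have f : (5 : ℚ_[2]) ≠ 0 := by norm_num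
  have b := l2_1d h4 h3 e
  rcases a with a | a
  · exact b.congr one_ne_zero h3 h2 h3 (by simpa using a) (.mul_self _)
  · exact ((l2_51 h4).mul h4 f one_ne_zero one_ne_zero h3 b).congr (by norm_num) (by simpa using h3)
      h2 h3 (sq_cast a (by ring)) ⟨d₃, by ring⟩

end Pool.Agent.P.MP_9c97e9_nt.All
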