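import Pool.Agent.P.MP_9c97e9_nt.All.Defs2

/-! Local images at the real place and at the primes dividing `n`. -/

namespace Pool.Agent.P.MP_9c97e9_nt.All

theorem la_real {a : ℝ} (h : 0 ≤ a) : IsSquare a := ⟨√a, (Real.mul_self_sqrt h).symm⟩

theorem aLocR : S_LocR := by
  intro n hn d₂ d₃ h2 h3
  have hn' : (0 : ℝ) < n := by exact_mod_cast hn
  constructor
  · intro H
    refine lt_of_le_of_ne (not_lt.1 fun h => ?_) h3.symm
    rcases H.elim hn.ne' h2 h3 with ⟨-, t | t⟩ | ⟨x, x0, x1, x2, a, b, c⟩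
    · exact absurd t.nonneg (not_le.2 h)
    · exact absurd t.nonneg (not_le.2 (mul_neg_of_pos_of_neg hn' h))
    · have e1 : x + 4 * n ≤ 0 := by
        by_contra e
        exact absurd c.nonneg (not_le.2 (mul_neg_of_neg_of_pos h (not_le.1 e)))
      have e2 : x < 0 := by linarith
      have e3 : x - 9 * n / 4 < 0 := by linarith
      have e4 : d₂ < 0 := by
        refine lt_of_le_of_ne (not_lt.1 fun e => ?_) h2
        exact absurd b.nonneg (not_le.2 (mul_neg_of_pos_of_neg e e3))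
      exact absurd a.nonneg (not_le.2 (mul_neg_of_pos_of_neg (mul_pos_of_neg_of_neg e4 h) e2))
  · intro h
    refine Lc.of_tor h2 h3 ⟨?_, .inl (la_real h.le)⟩
    rcases le_total 0 d₂ with e | e
    · exact .inl (la_real e)
    · exact .inr (la_real (by nlinarith))

section

variable {p : ℕ} [hp : Fact p.Prime]

theorem la_half (h2 : p ≠ 2) {a b c x : ℚ_[p]} (hab : ‖x - c‖ ≤ ‖b - a‖)
    (h : ‖x - b‖ < ‖x - c‖) :
    IsSquare ((x - a) * (b - a)) ∧ IsSquare ((x - c) * (b - c)) := by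
  refine ⟨sq_of_close h2 ?_, sq_of_close h2 ?_⟩
  · rw [show x - a - (b - a) = x - b by ring]
    exact h.trans_le hab
  · rw [show x - c - (b - c) = x - b by ring]
    refine h.trans_eq (Padic.norm_eq_of_norm_sub_lt_right ?_).symm
    rwa [show b - c - (x - c) = -(x - b) by ring, norm_neg]

theorem la_gen (h2 : p ≠ 2) {a b c x : ℚ_[p]} (hb : ‖a - b‖ = (p : ℝ) ^ (-1 : ℤ))
    (hc : ‖a - c‖ = (p : ℝ) ^ (-1 : ℤ)) (xa : x - a ≠ 0) (xb : x - b ≠ 0) (xc : x - c ≠ 0)
    (h : IsSquare ((x - a) * (x - b) * (x - c))) :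
    (IsSquare (x - b) ∧ IsSquare (x - c)) ∨
      (IsSquare ((x - b) * (a - b)) ∧ IsSquare ((x - c) * (a - c))) ∨
      (IsSquare ((x - a) * (b - a)) ∧ IsSquare ((x - c) * (b - c))) ∨
      (IsSquare ((x - a) * (c - a)) ∧ IsSquare ((x - b) * (c - b))) := by
  rcases lt_trichotomy ‖x - a‖ ((p : ℝ) ^ (-1 : ℤ)) with e | e | e
  · refine .inr (.inl ⟨sq_of_close h2 ?_, sq_of_close h2 ?_⟩)
    · rwa [show x - b - (a - b) = x - a by ring, hb]
    · rwa [show x - c - (a - c) = x - a by ring, hc]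
  · have e1 : ‖x - b‖ ≤ ‖c - a‖ := by
      rw [show x - b = (x - a) + (a - b) by ring, norm_sub_rev c, hc]
      exact (Padic.nonarchimedean _ _).trans (by rw [e, hb, max_self])
    have e2 : ‖x - c‖ ≤ ‖b - a‖ := by
      rw [show x - c = (x - a) + (a - c) by ring, norm_sub_rev b, hb]
      exact (Padic.nonarchimedean _ _).trans (by rw [e, hc, max_self])
    rcases lt_trichotomy ‖x - b‖ ‖x - c‖ with f | f | f
    · exact .inr (.inr (.inl (la_half h2 e2 f)))
    · exfalso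
      have e3 := even_val h
      rw [Padic.valuation_mul (mul_ne_zero xa xb) xc, Padic.valuation_mul xa xb,
        val_of_norm (k := 1) e, val_eq_of_norm xc f, Int.even_iff] at e3
      omega
    · exact .inr (.inr (.inr (la_half h2 e1 f)))
  · have e1 : IsSquare ((x - b) * (x - a)) := sq_of_close h2 (by
      rwa [show x - b - (x - a) = a - b by ring, hb])
    have e2 : IsSquare ((x - c) * (x - a)) := sq_of_close h2 (by
      rwa [show x - c - (x - a) = a - c by ring, hc])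
    exact .inl ⟨sq_of_mul_left (mul_ne_zero xc xa) e2 (sq_cast h (by ring)),
      sq_of_mul_left (mul_ne_zero xb xa) e1 (sq_cast h (by ring))⟩

theorem la_norm {n : ℕ} (hn : Squarefree n) (h : p ∣ n) :
    ‖(n : ℚ_[p])‖ = (p : ℝ) ^ (-1 : ℤ) := by
  obtain ⟨m, rfl⟩ := h
  have hm : ¬p ∣ m := fun e => hp.1.one_lt.ne'
    (Nat.isUnit_iff.1 (hn p (Nat.mul_dvd_mul_left p e)))
  rw [Nat.cast_mul, norm_mul, norm_nat hm, mul_one, Padic.norm_p, zpow_neg_one]

end

section

variable {K : Type} [Field K] {s t u d : K}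

theorem la_sc (r : K) (hr : r ≠ 0) (h : IsSquare (u * s)) (e : s = r * r * t) :
    IsSquare (u * t) :=
  sq_of_mul_left (mul_ne_zero hr hr) (.mul_self r) (sq_cast h (by rw [e]; ring))

theorem la_cl (hu : u ≠ 0) (h : IsSquare (d * u)) (h' : IsSquare (u * t)) : IsSquare (t * d) :=
  sq_cast (sq_trans hu h h') (mul_comm _ _)

end

theorem aLocA : S_LocA := by
  intro n hn h4 p hp hpn d₂ d₃ h2 h3
  refine ⟨fun H => ?_, Lc.of_tor h2 h3⟩
  have p2 : p ≠ 2 := by rintro rfl; omega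
  have n0 : (n : ℚ_[p]) ≠ 0 := by exact_mod_cast hn.ne_zero
  rcases H.elim hn.ne_zero h2 h3 with t | ⟨x, x0, x1, x2, a, b, c⟩
  · exact t
  have hs : IsSquare (x * (x - 9 * n / 4) * (x + 4 * n)) :=
    sq_of_mul_left (mul_ne_zero (mul_ne_zero h2 h3) (mul_ne_zero h2 h3)) (.mul_self _)
      (sq_cast ((a.mul b).mul c) (by ring))
  have n4 := norm_four p2
  have nn := la_norm hn hpn
  have k1 : IsSquare (x - 9 * n / 4) → IsSquare d₂ := fun h =>
    sq_of_mul_left x1 h (sq_cast b (mul_comm _ _))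
  have k2 : IsSquare ((x - 9 * n / 4) * -n) → IsSquare (-n * d₂) := la_cl x1 b
  have k3 : IsSquare ((x + 4 * n) * n) → IsSquare (n * d₃) := la_cl x2 c
  have T3 : IsSquare (x * n) → IsSquare ((x + 4 * n) * n) → Tor n d₂ d₃ := fun h h' =>
    ⟨.inl (sq_of_mul_left (mul_ne_zero n0 h3) (k3 h') (sq_cast (la_cl x0 a h) (by ring))),
      .inr (k3 h')⟩
  have T4 : IsSquare (x * -n) → IsSquare ((x - 9 * n / 4) * -n) → Tor n d₂ d₃ := fun h h' =>
    ⟨.inr (k2 h'), .inl (sq_of_mul_left (mul_ne_zero (neg_ne_zero.2 n0) h2) (k2 h')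
      (sq_cast (la_cl x0 a h) (by ring)))⟩
  by_cases p3 : p = 3
  · have n25 : ‖(25 : ℚ_[p])‖ = 1 := norm_nat (k := 25) (by rw [p3]; norm_num)
    rcases la_gen p2 (a := -4 * n) (b := 0) (c := 9 * n / 4) (x := x)
      (by rw [sub_zero, neg_mul, norm_neg, norm_mul, n4, one_mul, nn])
      (by rw [show (-4 * n - 9 * n / 4 : ℚ_[p]) = -(25 * n / 4) by ring, norm_neg, norm_div,
        norm_mul, n4, n25, nn, one_mul, div_one])
      (by rwa [neg_mul, sub_neg_eq_add]) (by rwa [sub_zero]) x1 (sq_cast hs (by ring)) with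
      ⟨u, v⟩ | ⟨u, v⟩ | ⟨u, v⟩ | ⟨u, v⟩
    · rw [sub_zero] at u
      exact ⟨.inl (k1 v), .inl (sq_of_mul_left h2 (k1 v)
        (sq_of_mul_left x0 u (sq_cast a (mul_comm _ _))))⟩
    · rw [sub_zero] at u
      exact T4 (la_sc 2 two_ne_zero u (by ring)) (la_sc (5 / 2) (by norm_num) v (by ring))
    · rw [neg_mul, sub_neg_eq_add] at u
      exact ⟨.inr (k2 (la_sc (3 / 2) (by norm_num) v (by ring))),
        .inr (k3 (la_sc 2 two_ne_zero u (by ring)))⟩
    · rw [neg_mul, sub_neg_eq_add] at u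
      rw [sub_zero] at v
      exact T3 (la_sc (3 / 2) (by norm_num) v (by ring)) (la_sc (5 / 2) (by norm_num) u (by ring))
  · have n9 : ‖(9 : ℚ_[p])‖ = 1 := norm_nat (k := 9) fun e =>
      p3 ((Nat.prime_dvd_prime_iff_eq hp.1 Nat.prime_three).1 (hp.1.dvd_of_dvd_pow (n := 2) e))
    rcases la_gen p2 (a := 0) (b := 9 * n / 4) (c := -4 * n) (x := x)
      (by rw [zero_sub, norm_neg, norm_div, norm_mul, n4, n9, nn, one_mul, div_one])
      (by rw [zero_sub, neg_mul, neg_neg, norm_mul, n4, one_mul, nn])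
      (by rwa [sub_zero]) x1 (by rwa [neg_mul, sub_neg_eq_add]) (sq_cast hs (by ring)) with
      ⟨u, v⟩ | ⟨u, v⟩ | ⟨u, v⟩ | ⟨u, v⟩
    · rw [neg_mul, sub_neg_eq_add] at v
      exact ⟨.inl (k1 u), .inl (sq_of_mul_left x2 v (sq_cast c (mul_comm _ _)))⟩
    · rw [neg_mul, sub_neg_eq_add] at v
      exact ⟨.inr (k2 (la_sc (3 / 2) (by norm_num) u (by ring))),
        .inr (k3 (la_sc 2 two_ne_zero v (by ring)))⟩
    · rw [neg_mul, sub_neg_eq_add] at v
      rw [sub_zero] at u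
      exact T3 (la_sc (3 / 2) (by norm_num) u (by ring)) (la_sc (5 / 2) (by norm_num) v (by ring))
    · rw [sub_zero] at u
      exact T4 (la_sc 2 two_ne_zero u (by ring)) (la_sc (5 / 2) (by norm_num) v (by ring))

end Pool.Agent.P.MP_9c97e9_nt.All
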