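import Pool.Agent.P.MP_9c97e9_nt.All.Defs2

/-! The local image of the descent map at the primes of good reduction. -/

namespace Pool.Agent.P.MP_9c97e9_nt.All

open PadicInt Classical

variable {W : WeierstrassCurve ℤ}

section Field

variable {F : Type} [Field F] {e₁ e₂ e₃ : F}

theorem lg_half (h : Split W e₁ e₂ e₃) {Q : Pt W F} {x η : F} (hQ : Is Q x η)
    (s1 : IsSquare (x - e₁)) (s2 : IsSquare (x - e₂)) (s3 : IsSquare (x - e₃)) :
    ∃ R, R + R = Q := by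
  obtain ⟨u, hu⟩ := s1
  obtain ⟨v, hv⟩ := s2
  obtain ⟨w, hw⟩ := s3
  have n1 : u + v ≠ 0 := fun e => h.n12 (by linear_combination hv - hu - (u - v) * e)
  have n2 : u + w ≠ 0 := fun e => h.n13 (by linear_combination hw - hu - (u - w) * e)
  have n3 : v + w ≠ 0 := fun e => h.n23 (by linear_combination hw - hv - (v - w) * e)
  have a1 : x + u * v + u * w + v * w - e₁ = (u + v) * (u + w) := by linear_combination hu
  have a2 : x + u * v + u * w + v * w - e₂ = (u + v) * (v + w) := by linear_combination hv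
  have a3 : x + u * v + u * w + v * w - e₃ = (u + w) * (v + w) := by linear_combination hw
  obtain ⟨R, hR⟩ := h.exists_is (x := x + u * v + u * w + v * w)
    (η := 2 * ((u + v) * (u + w) * (v + w))) (by rw [a1, a2, a3]; ring)
  have h2 := h.two
  obtain ⟨x', η', h3⟩ := (zero_or_is _).resolve_left ((hR.two_ne h).2 (by positivity))
  have h4 : UU e₁ e₂ e₃ R = u := by
    rw [hR.UU_eq, a1, show e₁ - e₂ = v ^ 2 - u ^ 2 by linear_combination hv - hu,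
      show e₁ - e₃ = w ^ 2 - u ^ 2 by linear_combination hw - hu]
    field_simp
    ring
  obtain rfl : x' = x := by linear_combination UU_sq h h3 + (UU e₁ e₂ e₃ R + u) * h4 - hu
  rcases sq_eq_sq_iff_eq_or_eq_neg.1 ((hQ.eq h).trans (h3.eq h).symm) with rfl | rfl
  · exact ⟨R, h3.unique h hQ⟩
  · exact ⟨-R, by rw [← neg_add]; exact h3.neg.unique h hQ⟩

theorem lg_dl_sq (h : Split W e₁ e₂ e₃) {Q : Pt W F} {x η : F} (hQ : Is Q x η) :
    IsSquare (dl e₁ e₂ e₃ Q * ((x - e₂) * (x - e₃))) := by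
  by_cases hx : x = e₁
  · subst hx
    rw [hQ.dl_eq]
    exact .mul_self _
  · have := h.two
    rw [hQ.dl_ne (sub_ne_zero.2 hx)]
    exact ⟨η / 2, by field_simp; linear_combination -hQ.eq h⟩

theorem lg_half' (h : Split W e₁ e₂ e₃) (Q : Pt W F) (s1 : IsSquare (dl e₁ e₂ e₃ Q))
    (s2 : IsSquare (dl e₂ e₁ e₃ Q)) : ∃ R, R + R = Q := by
  rcases zero_or_is Q with rfl | ⟨x, η, hQ⟩
  · exact ⟨0, add_zero _⟩
  have t1 := sq_of_mul_left (dl_ne_zero h Q) s1 (lg_dl_sq h hQ)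
  have t2 := sq_of_mul_left (dl_ne_zero h.swap Q) s2 (lg_dl_sq h.swap hQ)
  by_cases hy : x = e₂
  · subst hy
    rw [hQ.dl_ne h.swap.n12] at s1
    exact lg_half h hQ s1 (by simp) (sq_of_mul_left h.swap.n12 s1 t2)
  rw [hQ.dl_ne (sub_ne_zero.2 hy)] at s2
  refine lg_half h hQ ?_ s2 (sq_of_mul_left (sub_ne_zero.2 hy) s2 t1)
  by_cases hx : x = e₁
  · simp [hx]
  · rwa [hQ.dl_ne (sub_ne_zero.2 hx)] at s1

theorem lg_card_ker (h : Split W e₁ e₂ e₃) :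
    Nat.card (AddMonoidHom.id (Pt W F) + AddMonoidHom.id (Pt W F)).ker = 4 := by
  obtain ⟨A, hA⟩ := h.exists_is (x := e₁) (η := 0) (by simp)
  obtain ⟨B, hB⟩ := h.exists_is (x := e₂) (η := 0) (by simp)
  obtain ⟨C, hC⟩ := h.exists_is (x := e₃) (η := 0) (by simp)
  have hk : ((AddMonoidHom.id (Pt W F) + AddMonoidHom.id (Pt W F)).ker : Set (Pt W F)) =
      {0, A, B, C} := by
    ext T
    refine ⟨fun hT => ?_, ?_⟩
    · rcases two_torsion h (T := T) hT with e | e | e | e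
      exacts [.inl e, .inr (.inl (e.unique h hA)), .inr (.inr (.inl (e.unique h hB))),
        .inr (.inr (.inr (e.unique h hC)))]
    · rintro (rfl | rfl | rfl | rfl)
      exacts [zero_mem _, hA.add_eq_zero h (by simpa using hA),
        hB.add_eq_zero h (by simpa using hB), hC.add_eq_zero h (by simpa using hC)]
  have n1 : A ≠ B := fun e => h.n12 (sub_eq_zero.2 (hA.inj (e ▸ hB)).1)
  have n2 : A ≠ C := fun e => h.n13 (sub_eq_zero.2 (hA.inj (e ▸ hC)).1)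
  have n3 : B ≠ C := fun e => h.n23 (sub_eq_zero.2 (hB.inj (e ▸ hC)).1)
  rw [← SetLike.coe_sort_coe, Nat.card_coe_set_eq, hk, Set.ncard_insert_of_notMem (by
    simp [hA.ne_zero.symm, hB.ne_zero.symm, hC.ne_zero.symm]),
    Set.ncard_insert_of_notMem (by simp [n1, n2]), Set.ncard_pair n3]

theorem lg_finite [Finite F] (h : Split W e₁ e₂ e₃) : Finite (Pt W F) :=
  Set.finite_univ_iff.1 (((Set.finite_univ (α := F × F)).biUnion (t := fun q => {P | Is P q.1 q.2})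
    fun _ _ => Set.Subsingleton.finite fun _ hP _ hQ => Is.unique h hP hQ).insert 0 |>.subset
      fun P _ => (zero_or_is P).imp_right fun ⟨x, η, hP⟩ =>
        Set.mem_iUnion₂.2 ⟨(x, η), trivial, hP⟩)

/-- over a finite field every 2-covering has a point -/
theorem lg_loc_finite [Finite F] (h : Split W e₁ e₂ e₃) {d₁ d₂ : F} (h1 : d₁ ≠ 0) (h2 : d₂ ≠ 0) :
    Loc F e₁ e₂ e₃ d₁ d₂ := by
  have := Fintype.ofFinite F
  have := lg_finite h
  have hf : Chr fun x : F => if quadraticChar F x = 1 then (0 : ZMod 2) else 1 :=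
    fun x y hx hy => by
      simp only [map_mul]
      rcases quadraticChar_dichotomy hx with h | h <;>
        rcases quadraticChar_dichotomy hy with h' | h' <;> simp [h, h']
      rfl
  have hs : ∀ x : F, x ≠ 0 → (if quadraticChar F x = 1 then (0 : ZMod 2) else 1) = 0 →
      IsSquare x := fun x hx e => (quadraticChar_one_iff_isSquare hx).1 (by
        by_contra h0
        rw [if_neg h0] at e
        exact one_ne_zero e)
  set D := AddMonoidHom.id (Pt W F) + AddMonoidHom.id (Pt W F) with hD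
  set φ := (dh h hf).prod (dh h.swap hf) with hφ
  have hle : φ.ker ≤ D.range := fun P hP => by
    rw [AddMonoidHom.mem_ker, hφ, AddMonoidHom.prod_apply, Prod.mk_eq_zero] at hP
    exact lg_half' h P (hs _ (dl_ne_zero h P) hP.1) (hs _ (dl_ne_zero h.swap P) hP.2)
  have c1 : Nat.card D.ker * Nat.card D.range = Nat.card (Pt W F) := by
    rw [← AddSubgroup.index_ker, AddSubgroup.card_mul_index]
  have c2 : Nat.card φ.ker * Nat.card φ.range = Nat.card (Pt W F) := by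
    rw [← AddSubgroup.index_ker, AddSubgroup.card_mul_index]
  have c3 : Nat.card φ.ker ≤ Nat.card D.range := AddSubgroup.card_le_of_le hle
  have c4 : 0 < Nat.card D.range := Nat.card_pos
  rw [lg_card_ker h] at c1
  have c5 : φ.range = ⊤ := by
    refine AddSubgroup.eq_top_of_le_card _ ?_
    have : Nat.card (ZMod 2 × ZMod 2) = 4 := by simp
    rw [this]
    by_contra h0
    have : Nat.card φ.ker * Nat.card φ.range ≤ Nat.card D.range * 3 :=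
      Nat.mul_le_mul c3 (by omega)
    omega
  obtain ⟨P, hP⟩ := AddMonoidHom.range_eq_top.1 c5
    (if quadraticChar F d₁ = 1 then (0 : ZMod 2) else 1,
      if quadraticChar F d₂ = 1 then (0 : ZMod 2) else 1)
  rw [hφ, AddMonoidHom.prod_apply, Prod.mk.injEq] at hP
  refine (loc_iff h h1 h2).2 ⟨P, hs _ (mul_ne_zero h1 (dl_ne_zero h P)) ?_,
    hs _ (mul_ne_zero h2 (dl_ne_zero h.swap P)) ?_⟩
  · exact (hf _ _ h1 (dl_ne_zero h P)).trans
      ((congrArg (_ + ·) hP.1).trans (CharTwo.add_self_eq_zero _))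
  · exact (hf _ _ h2 (dl_ne_zero h.swap P)).trans
      ((congrArg (_ + ·) hP.2).trans (CharTwo.add_self_eq_zero _))

end Field

section Padic

variable {p : ℕ} [hp : Fact p.Prime]

theorem lg_even {e₁ e₂ e₃ : ℚ_[p]} (h : Split W e₁ e₂ e₃) (n12 : ‖e₁ - e₂‖ = 1)
    (n13 : ‖e₁ - e₃‖ = 1) (P : Pt W ℚ_[p]) : Even (dl e₁ e₂ e₃ P).valuation := by
  rcases zero_or_is P with rfl | ⟨x, η, hP⟩
  · simp [dl_zero]
  have key : x - e₂ ≠ 0 → ‖x - e₃‖ = ‖x - e₂‖ → Even (dl e₁ e₂ e₃ P).valuation := fun h0 e => by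
    have h1 : x - e₃ ≠ 0 := norm_ne_zero_iff.1 (e ▸ norm_ne_zero_iff.2 h0)
    rw [even_val_iff (dl_ne_zero h P) (mul_ne_zero h0 h1) (lg_dl_sq h hP),
      Padic.valuation_mul h0 h1, val_eq_of_norm h0 e]
    exact ⟨_, rfl⟩
  rcases lt_trichotomy ‖x - e₁‖ 1 with hx | hx | hx
  · have h2 : ‖x - e₂‖ = 1 := (Padic.norm_eq_of_norm_sub_lt_right (z2 := e₁ - e₂)
      (by rwa [sub_sub_sub_cancel_right, n12])).trans n12
    have h3 : ‖x - e₃‖ = 1 := (Padic.norm_eq_of_norm_sub_lt_right (z2 := e₁ - e₃)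
      (by rwa [sub_sub_sub_cancel_right, n13])).trans n13
    exact key (norm_ne_zero_iff.1 (by simp [h2])) (h3.trans h2.symm)
  · rw [hP.dl_ne (norm_ne_zero_iff.1 (by simp [hx])),
      val_eq_of_norm one_ne_zero (hx.trans norm_one.symm)]
    simp
  · have h2 := norm_sub_eq (n12.trans_lt hx)
    have h3 := norm_sub_eq (n13.trans_lt hx)
    exact key (norm_pos_iff.1 (by linarith)) (h3.trans h2.symm)

theorem lg_unit {u : ℤ_[p]} : toZMod u ≠ 0 ↔ ‖u‖ = 1 := by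
  rw [Ne, toZMod_eq_zero, not_lt]
  exact ⟨fun h => le_antisymm u.2 h, fun h => h.ge⟩

theorem lg_lift (h2 : p ≠ 2) {d u : ℤ_[p]} (hd : toZMod d ≠ 0) (hu : u = 0 ∨ toZMod u ≠ 0)
    (h : IsSquare (toZMod d * toZMod u)) : IsSquare ((d : ℚ_[p]) * u) := by
  rcases hu with rfl | hu
  · simp
  · rw [← coe_mul, sq_unit_iff h2 (lg_unit.1 (by rw [map_mul]; exact mul_ne_zero hd hu)), map_mul]
    exact h

theorem lg_red (h2 : p ≠ 2) {e₁ e₂ e₃ : ℤ_[p]} (h : Split W (e₁ : ℚ_[p]) e₂ e₃)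
    (n12 : ‖e₁ - e₂‖ = 1) (n13 : ‖e₁ - e₃‖ = 1) (n23 : ‖e₂ - e₃‖ = 1) :
    Split W (toZMod e₁) (toZMod e₂) (toZMod e₃) := by
  have r2 : (W.a₁ : ℤ_[p]) ^ 2 + 4 * W.a₂ = -4 * (e₁ + e₂ + e₃) := PadicInt.ext h.h2
  have r4 : (2 : ℤ_[p]) * W.a₄ + W.a₁ * W.a₃ = 2 * (e₁ * e₂ + e₁ * e₃ + e₂ * e₃) :=
    PadicInt.ext h.h4
  have r6 : (W.a₃ : ℤ_[p]) ^ 2 + 4 * W.a₆ = -4 * (e₁ * e₂ * e₃) := PadicInt.ext h.h6
  refine ⟨fun e => h2 ((Nat.prime_dvd_prime_iff_eq hp.1 Nat.prime_two).1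
      ((ZMod.natCast_eq_zero_iff 2 p).1 (by exact_mod_cast e))),
    map_sub toZMod e₁ e₂ ▸ lg_unit.2 n12, map_sub toZMod e₁ e₃ ▸ lg_unit.2 n13,
    map_sub toZMod e₂ e₃ ▸ lg_unit.2 n23, by simpa [map_ofNat] using congrArg toZMod r2,
    by simpa [map_ofNat] using congrArg toZMod r4, by simpa [map_ofNat] using congrArg toZMod r6⟩

theorem lg_loc_unit (h2 : p ≠ 2) {e₁ e₂ e₃ : ℤ_[p]}
    (h : Split W (toZMod e₁) (toZMod e₂) (toZMod e₃)) {k₁ k₂ : ℤ_[p]} (h1 : toZMod k₁ ≠ 0)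
    (h3 : toZMod k₂ ≠ 0) : Loc ℚ_[p] e₁ e₂ e₃ k₁ k₂ := by
  have n0 : ∀ k : ℤ_[p], toZMod k ≠ 0 → (k : ℚ_[p]) ≠ 0 := fun k hk e =>
    hk (by rw [show k = 0 from PadicInt.ext e, map_zero])
  rw [loc_iff_sq (n0 _ h1) (n0 _ h3)]
  rcases (loc_iff_sq h1 h3).1 (lg_loc_finite h h1 h3) with ⟨a, b⟩ | ⟨y, a, b, c⟩
  · exact .inl ⟨(sq_unit_iff h2 (lg_unit.1 h1)).2 a, (sq_unit_iff h2 (lg_unit.1 h3)).2 b⟩
  obtain ⟨x, rfl, x1, x2, x3⟩ : ∃ x : ℤ_[p], toZMod x = y ∧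
      (x - e₁ = 0 ∨ toZMod (x - e₁) ≠ 0) ∧ (x - e₂ = 0 ∨ toZMod (x - e₂) ≠ 0) ∧
      (x - e₃ = 0 ∨ toZMod (x - e₃) ≠ 0) := by
    simp only [map_sub]
    by_cases y1 : y = toZMod e₁
    · exact ⟨e₁, y1.symm, .inl (sub_self _), .inr h.n12, .inr h.n13⟩
    by_cases y2 : y = toZMod e₂
    · exact ⟨e₂, y2.symm, .inr h.swap.n12, .inl (sub_self _), .inr h.n23⟩
    by_cases y3 : y = toZMod e₃
    · exact ⟨e₃, y3.symm, .inr h.swap'.swap.n12, .inr h.swap'.n23, .inl (sub_self _)⟩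
    obtain ⟨x, rfl⟩ := ZMod.ringHom_surjective toZMod y
    exact ⟨x, rfl, .inr (sub_ne_zero.2 y1), .inr (sub_ne_zero.2 y2), .inr (sub_ne_zero.2 y3)⟩
  rw [← map_sub] at a b c
  rw [← map_mul] at c
  exact .inr ⟨x, lg_lift h2 h1 x1 a, lg_lift h2 h3 x2 b,
    lg_lift h2 (by rw [map_mul]; exact mul_ne_zero h1 h3) x3 c⟩

theorem lg_main (h2 : p ≠ 2) {e₁ e₂ e₃ : ℤ_[p]} (h : Split W (e₁ : ℚ_[p]) e₂ e₃)
    (n12 : ‖e₁ - e₂‖ = 1) (n13 : ‖e₁ - e₃‖ = 1) (n23 : ‖e₂ - e₃‖ = 1) {d₁ d₂ : ℚ_[p]}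
    (h1 : d₁ ≠ 0) (h3 : d₂ ≠ 0) :
    Loc ℚ_[p] e₁ e₂ e₃ d₁ d₂ ↔ Even d₁.valuation ∧ Even d₂.valuation := by
  rw [loc_iff h h1 h3]
  constructor
  · rintro ⟨P, a, b⟩
    exact ⟨(even_val_iff h1 (dl_ne_zero h P) a).2 (lg_even h n12 n13 P),
      (even_val_iff h3 (dl_ne_zero h.swap P) b).2
        (lg_even h.swap ((norm_sub_rev _ _).trans n12) n23 P)⟩
  · rintro ⟨a, b⟩
    obtain ⟨k, hk, sk⟩ := exists_int_rep h1 a
    obtain ⟨l, hl, sl⟩ := exists_int_rep h3 b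
    have k0 : (k : ℚ_[p]) ≠ 0 := norm_ne_zero_iff.1 (by simp [norm_int hk])
    have l0 : (l : ℚ_[p]) ≠ 0 := norm_ne_zero_iff.1 (by simp [norm_int hl])
    obtain ⟨P, u, v⟩ := (loc_iff h k0 l0).1 (lg_loc_unit h2 (lg_red h2 h n12 n13 n23)
      (k₁ := k) (k₂ := l) (lg_unit.2 (norm_int hk)) (lg_unit.2 (norm_int hl)))
    exact ⟨P, sq_trans k0 (mul_comm (k : ℚ_[p]) d₁ ▸ sk) u,
      sq_trans l0 (mul_comm (l : ℚ_[p]) d₂ ▸ sl) v⟩

end Padic

theorem aLocG : S_LocG := by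
  intro n h4 p hp hd d₂ d₃ h2 h3
  have hn : ‖(n : ℚ_[p])‖ = 1 := norm_nat fun e => hd (e.mul_left 30)
  have hq : ∀ q : ℕ, q ∣ 30 → ‖(q : ℚ_[p])‖ = 1 := fun q hq =>
    norm_nat fun e => hd ((e.trans hq).mul_right n)
  have p2 : p ≠ 2 := by
    rintro rfl
    exact hd ⟨15 * n, by ring⟩
  have n4 := norm_four (p := p) p2
  have n3 : ‖(3 : ℚ_[p])‖ = 1 := hq 3 (by norm_num)
  have n5 : ‖(5 : ℚ_[p])‖ = 1 := hq 5 (by norm_num)
  have e2 : ‖(9 * n / 4 : ℚ_[p])‖ = 1 := by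
    rw [show (9 * n / 4 : ℚ_[p]) = 3 * 3 * n / 4 by ring, norm_div, norm_mul, norm_mul, n3, hn, n4]
    norm_num
  have key := lg_main p2 (W := tw n) (e₁ := 0) (e₂ := ⟨9 * n / 4, e2.le⟩) (e₃ := -4 * n)
    (split_tw h4 ℚ_[p])
    (by
      show ‖(0 - 9 * n / 4 : ℚ_[p])‖ = 1
      rw [zero_sub, norm_neg, e2])
    (by
      show ‖(0 - -4 * n : ℚ_[p])‖ = 1
      rw [show (0 - -4 * n : ℚ_[p]) = 4 * n by ring, norm_mul, n4, hn, one_mul])
    (by
      show ‖(9 * n / 4 - -4 * n : ℚ_[p])‖ = 1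
      rw [show (9 * n / 4 - -4 * n : ℚ_[p]) = 5 * 5 * n / 4 by ring, norm_div, norm_mul, norm_mul,
        n5, hn, n4]
      norm_num) (mul_ne_zero h2 h3) h2
  refine key.trans ?_
  rw [Padic.valuation_mul h2 h3, Int.even_add]
  tauto

end Pool.Agent.P.MP_9c97e9_nt.All
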