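import Pool.Agent.P.MP_9c97e9_nt.All.Defs2

/-! The local images at the primes of multiplicative reduction. -/

namespace Pool.Agent.P.MP_9c97e9_nt.All

section Node

variable {p : ℕ} [hp : Fact p.Prime]

theorem lm_val_one {a : ℚ_[p]} (h : ‖a‖ = 1) : Even a.valuation := by
  rw [val_of_norm (k := 0) (by simpa using h)]
  exact Even.zero

theorem lm_ne {a : ℚ_[p]} (h : ‖a‖ = 1) : a ≠ 0 := norm_ne_zero_iff.1 (h.trans_ne one_ne_zero)

theorem lm_lt : (p : ℝ) ^ (-2 : ℤ) < (p : ℝ) ^ (-1 : ℤ) ∧ (p : ℝ) ^ (-1 : ℤ) < 1 := by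
  have hp1 : (1 : ℝ) < p := by exact_mod_cast hp.1.one_lt
  exact ⟨zpow_lt_zpow_right₀ hp1 (by norm_num), zpow_lt_one_of_neg₀ hp1 (by norm_num)⟩

/-- necessary conditions at a node -/
theorem lm_nec (h2 : p ≠ 2) {a b c x da db dc : ℚ_[p]} (hab : ‖a - b‖ = (p : ℝ) ^ (-2 : ℤ))
    (hac : ‖a - c‖ = 1) (xa : x - a ≠ 0) (xb : x - b ≠ 0) (xc : x - c ≠ 0) (na : da ≠ 0)
    (nb : db ≠ 0) (nc : dc ≠ 0) (sa : IsSquare (da * (x - a))) (sb : IsSquare (db * (x - b)))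
    (sc : IsSquare (dc * (x - c))) (sd : IsSquare (da * db * dc)) :
    (IsSquare (a - c) → IsSquare dc) ∧
      (¬IsSquare (a - c) → Even da.valuation ∧ Even db.valuation ∧ Even dc.valuation) := by
  have hprod : IsSquare ((x - a) * (x - b) * (x - c)) :=
    sq_of_mul_left (mul_ne_zero (mul_ne_zero na nb) nc) sd
      (sq_cast ((sa.mul sb).mul sc) (by ring))
  have hsmall : ‖x - a‖ < 1 → IsSquare ((x - c) * (a - c)) := fun h =>
    sq_of_close h2 (by rw [hac, show x - c - (a - c) = x - a by ring]; exact h)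
  rw [even_val_iff na xa sa, even_val_iff nb xb sb, even_val_iff nc xc sc, sq_iff_of_mul nc xc sc]
  rcases lt_or_ge ((p : ℝ) ^ (-2 : ℤ)) ‖x - a‖ with h | h
  · have e1 : IsSquare ((x - b) * (x - a)) :=
      sq_of_close h2 (by rw [show x - b - (x - a) = a - b by ring, hab]; exact h)
    have e2 : IsSquare (x - c) :=
      sq_of_mul_left (mul_ne_zero xa xb) (sq_cast e1 (mul_comm _ _)) hprod
    refine ⟨fun _ => e2, fun hu => ?_⟩
    have e3 : Even (x - a).valuation := by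
      rcases lt_trichotomy ‖x - a‖ 1 with h1 | h1 | h1
      · exact absurd (sq_of_mul_left xc e2 (hsmall h1)) hu
      · exact lm_val_one h1
      · have : IsSquare ((x - c) * (x - a)) :=
          sq_of_close h2 (by rw [show x - c - (x - a) = a - c by ring, hac]; exact h1)
        exact even_val (sq_of_mul_left xc e2 this)
    exact ⟨e3, (even_val_iff xb xa e1).2 e3, even_val e2⟩
  · have e1 := hsmall (h.trans_lt (lm_lt.1.trans lm_lt.2))
    refine ⟨fun hu => (sq_iff_of_mul xc (lm_ne hac) e1).2 hu, fun _ => ?_⟩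
    have e2 : Even (x - c).valuation := (even_val_iff xc (lm_ne hac) e1).2 (lm_val_one hac)
    have e3 : Even (x - a).valuation ↔ Even (x - b).valuation := by
      have := (even_val_iff (mul_ne_zero xa xb) xc hprod).2 e2
      rwa [Padic.valuation_mul xa xb, Int.even_add] at this
    have e4 : Even (x - a).valuation := by
      rcases h.eq_or_lt with h1 | h1
      · rw [val_of_norm (k := 2) h1]; exact even_two
      · rw [e3, val_of_norm (k := 2) (a := x - b) ?_]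
        · exact even_two
        · rw [← hab]
          exact Padic.norm_eq_of_norm_sub_lt_right
            (by rw [show x - b - (a - b) = x - a by ring, hab]; exact h1)
    exact ⟨e4, e3.1 e4, e2⟩

/-- points near a split node -/
theorem lm_suf (h2 : p ≠ 2) {a b c t : ℚ_[p]} (hab : ‖a - b‖ = (p : ℝ) ^ (-2 : ℤ))
    (hac : ‖a - c‖ = 1) (hu : IsSquare (a - c)) (ht : ‖t‖ = (p : ℝ) ^ (-1 : ℤ)) :
    IsSquare (t * (a + t - b)) ∧ IsSquare (a + t - c) := by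
  refine ⟨sq_cast (sq_of_close h2 (a := a + t - b) (b := t) ?_) (mul_comm _ _),
    sq_of_mul_left (lm_ne hac) hu (sq_cast (sq_of_close h2 (a := a + t - c) (b := a - c) ?_)
      (mul_comm _ _))⟩
  · rw [show a + t - b - t = a - b by ring, hab, ht]; exact lm_lt.1
  · rw [show a + t - c - (a - c) = t by ring, hac, ht]; exact lm_lt.2

/-- the elements of valuation one generate all square classes -/
theorem lm_all (P : ℚ_[p] → Prop) (hm : ∀ d d', d ≠ 0 → d' ≠ 0 → P d → P d' → P (d * d'))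
    (hc : ∀ d d', d ≠ 0 → d' ≠ 0 → IsSquare (d' * d) → P d → P d')
    (h1 : ∀ t, ‖t‖ = (p : ℝ) ^ (-1 : ℤ) → P t) (d : ℚ_[p]) (hd : d ≠ 0) : P d := by
  have h0 : (p : ℚ_[p]) ≠ 0 := by exact_mod_cast hp.1.ne_zero
  have hv : ∀ d : ℚ_[p], d ≠ 0 → ((p : ℚ_[p]) * d).valuation = 1 + d.valuation := fun d hd => by
    rw [Padic.valuation_mul h0 hd]; simp
  have ho : ∀ d : ℚ_[p], d ≠ 0 → Odd d.valuation → P d := fun d hd h => by
    obtain ⟨k, hk, sk⟩ := exists_int_rep (mul_ne_zero h0 hd) (by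
      rw [hv d hd]; exact odd_one.add_odd h)
    have hn := norm_int hk
    refine hc (p * k) d (mul_ne_zero h0 (lm_ne hn)) hd (sq_cast sk (by ring)) (h1 _ ?_)
    rw [norm_mul, hn, Padic.norm_p]; simp
  rcases Int.even_or_odd d.valuation with h | h
  · refine hc (p * (p * d)) d (mul_ne_zero h0 (mul_ne_zero h0 hd)) hd ⟨p * d, by ring⟩
      (hm _ _ h0 (mul_ne_zero h0 hd) (h1 _ ?_) (ho _ (mul_ne_zero h0 hd) ?_))
    · rw [Padic.norm_p]; simp
    · rw [hv d hd]; exact odd_one.add_even h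
  · exact ho d hd h

theorem lm_tor_even {n : ℕ} (hn : ‖(n : ℚ_[p])‖ = 1) {d₂ d₃ : ℚ_[p]} (h2 : d₂ ≠ 0) (h3 : d₃ ≠ 0)
    (h : Tor n d₂ d₃) : Even d₂.valuation ∧ Even d₃.valuation := by
  have hn' : ‖-(n : ℚ_[p])‖ = 1 := by rwa [norm_neg]
  exact ⟨h.1.elim even_val fun s => (even_val_iff (lm_ne hn') h2 s).1 (lm_val_one hn'),
    h.2.elim even_val fun s => (even_val_iff (lm_ne hn) h3 s).1 (lm_val_one hn)⟩

theorem lm_or (h2 : p ≠ 2) {u d : ℚ_[p]} (hu : ‖u‖ = 1) (nu : ¬IsSquare u) (hd : d ≠ 0)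
    (e : Even d.valuation) : IsSquare d ∨ IsSquare (u * d) :=
  (em _).imp_right fun h => sq_mul_of_not h2 (lm_ne hu) hd (lm_val_one hu) e nu h

theorem lm_sq_four {u : ℚ_[p]} : IsSquare (4 * u) ↔ IsSquare u :=
  ⟨sq_of_mul_left (by norm_num) ⟨2, by norm_num⟩, IsSquare.mul ⟨2, by norm_num⟩⟩

end Node

theorem lm_three (n : ℕ) (h4 : n % 4 = 3) (d₂ d₃ : ℚ_[3]) (h2 : d₂ ≠ 0) (h3 : d₃ ≠ 0) :
    (n % 3 = 1 → (Lc ℚ_[3] n d₂ d₃ ↔ IsSquare d₃)) ∧
    (n % 3 = 2 → (Lc ℚ_[3] n d₂ d₃ ↔ Even d₂.valuation ∧ Even d₃.valuation)) := by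
  by_cases h0 : 3 ∣ n
  · exact ⟨fun h => by omega, fun h => by omega⟩
  have p2 : (3 : ℕ) ≠ 2 := by norm_num
  have hn : ‖(n : ℚ_[3])‖ = 1 := norm_nat h0
  have n4 : ‖(4 : ℚ_[3])‖ = 1 := norm_four p2
  have n9 : ‖(9 : ℚ_[3])‖ = ((3 : ℕ) : ℝ) ^ (-2 : ℤ) := by
    have := Padic.norm_p_pow (p := 3) 2
    norm_num at this ⊢
    exact this
  have hab : ‖(0 : ℚ_[3]) - 9 * n / 4‖ = ((3 : ℕ) : ℝ) ^ (-2 : ℤ) := by
    rw [zero_sub, norm_neg, norm_div, norm_mul, n9, hn, n4, mul_one, div_one]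
  have eac : (0 : ℚ_[3]) - -4 * n = 4 * n := by ring
  have hac : ‖(0 : ℚ_[3]) - -4 * n‖ = 1 := by rw [eac, norm_mul, hn, n4, mul_one]
  have hsq : IsSquare (n : ℚ_[3]) ↔ jacobiSym ((n % 3 : ℕ) : ℤ) 3 = 1 := by
    have := sq_int_iff (p := 3) p2 (k := n) (by exact_mod_cast h0)
    rw [jacobiSym.mod_left] at this
    exact_mod_cast this
  have nec : Lc ℚ_[3] n d₂ d₃ → Tor n d₂ d₃ ∨ ((IsSquare (n : ℚ_[3]) → IsSquare d₃) ∧
      (¬IsSquare (n : ℚ_[3]) → Even d₂.valuation ∧ Even d₃.valuation)) := fun H => by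
    refine (H.elim (by omega) h2 h3).imp_right fun ⟨x, x0, x2, x3, s0, s2, s3⟩ => ?_
    have := lm_nec p2 hab hac (x := x) (da := d₂ * d₃) (db := d₂) (dc := d₃) (by simpa using x0) x2
      (by simpa using x3) (mul_ne_zero h2 h3) h2 h3 (by simpa using s0) s2 (by simpa using s3)
      ⟨d₂ * d₃, by ring⟩
    rw [eac, lm_sq_four] at this
    exact ⟨this.1, fun h => (this.2 h).2⟩
  refine ⟨fun h => ?_, fun h => ?_⟩
  · have hs : IsSquare (n : ℚ_[3]) := hsq.2 (by rw [h]; norm_num)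
    refine ⟨fun H => (nec H).elim (fun t => t.2.elim id (sq_of_mul_left (lm_ne hn) hs))
      fun t => t.1 hs, fun s => ?_⟩
    refine Lc.congr h2 one_ne_zero h2 h3 (.mul_self _) (by simpa using s) ?_
    refine lm_all (fun d => Lc ℚ_[3] n d 1) (fun d d' a b H H' => ?_)
      (fun d d' a b e H => H.congr a one_ne_zero b one_ne_zero e (.mul_self _))
      (fun t ht => ?_) d₂ h2
    · simpa using H.mul h4 a one_ne_zero b one_ne_zero H'
    · have t0 : t ≠ 0 := norm_ne_zero_iff.1 (by rw [ht]; positivity)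
      obtain ⟨u, v⟩ := lm_suf p2 hab hac (by rw [eac, lm_sq_four]; exact hs) ht
      exact .of_point t0 one_ne_zero t ⟨t, by ring⟩ (sq_cast u (by ring)) (sq_cast v (by ring))
  · have hs : ¬IsSquare (n : ℚ_[3]) := fun e => by
      have := hsq.1 e
      rw [h] at this
      norm_num at this
    refine ⟨fun H => (nec H).elim (lm_tor_even hn h2 h3) fun t => t.2 hs, fun ⟨e2, e3⟩ => ?_⟩
    have o3 := lm_or p2 hn hs h3 e3
    rcases lm_or p2 hn hs h2 e2 with s | s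
    · exact .of_tor h2 h3 ⟨.inl s, o3⟩
    have n0 := lm_ne hn
    have n2 : ‖(2 : ℚ_[3])‖ = 1 := norm_nat (k := 2) (by norm_num)
    have s2 : ¬IsSquare (2 : ℚ_[3]) := fun e => by
      have := (sq_int_iff (p := 3) p2 (k := 2) (by norm_num)).1 (by exact_mod_cast e)
      norm_num at this
    have H1 : Lc ℚ_[3] n n 1 := by
      refine .of_point n0 one_ne_zero (4 * n) ⟨2 * n, by ring⟩ ?_ ?_
      · have := sq_of_close p2 (a := (4 * n - 9 * n / 4 : ℚ_[3])) (b := 4 * n) (by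
          rw [show (4 * n - 9 * n / 4 - 4 * n : ℚ_[3]) = 0 - 9 * n / 4 by ring, hab, ← eac, hac]
          exact lm_lt.1.trans lm_lt.2)
        exact lm_sq_four.1 (sq_cast this (by ring))
      · have := sq_mul_of_not p2 (lm_ne n2) n0 (lm_val_one n2) (lm_val_one hn) s2 hs
        exact sq_cast (lm_sq_four.2 this) (by ring)
    have H2 : Lc ℚ_[3] n 1 d₃ := .of_tor one_ne_zero h3 ⟨.inl IsSquare.one, o3⟩
    exact (H1.mul h4 n0 one_ne_zero one_ne_zero h3 H2).congr (by simpa using n0)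
      (by simpa using h3) h2 h3 (sq_cast s (by ring)) ⟨d₃, by ring⟩

theorem lm_five [Fact (Nat.Prime 5)] (n : ℕ) (h4 : n % 4 = 3) (d₂ d₃ : ℚ_[5]) (h2 : d₂ ≠ 0)
    (h3 : d₃ ≠ 0) :
    (n % 5 = 1 ∨ n % 5 = 4 → (Lc ℚ_[5] n d₂ d₃ ↔ IsSquare (d₂ * d₃))) ∧
    (n % 5 = 2 ∨ n % 5 = 3 → (Lc ℚ_[5] n d₂ d₃ ↔ Even d₂.valuation ∧ Even d₃.valuation)) := by
  by_cases h0 : 5 ∣ n
  · exact ⟨fun h => by omega, fun h => by omega⟩
  have p2 : (5 : ℕ) ≠ 2 := by norm_num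
  have hn : ‖(n : ℚ_[5])‖ = 1 := norm_nat h0
  have hn' : ‖-(n : ℚ_[5])‖ = 1 := by rwa [norm_neg]
  have n4 : ‖(4 : ℚ_[5])‖ = 1 := norm_four p2
  have n25 : ‖(25 : ℚ_[5])‖ = ((5 : ℕ) : ℝ) ^ (-2 : ℤ) := by
    have := Padic.norm_p_pow (p := 5) 2
    norm_num at this ⊢
    exact this
  have hab : ‖(-4 * n : ℚ_[5]) - 9 * n / 4‖ = ((5 : ℕ) : ℝ) ^ (-2 : ℤ) := by
    rw [show (-4 * n : ℚ_[5]) - 9 * n / 4 = -(25 * n / 4) by ring, norm_neg, norm_div, norm_mul,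
      n25, hn, n4, mul_one, div_one]
  have eac : (-4 * n : ℚ_[5]) - 0 = 4 * -n := by ring
  have hac : ‖(-4 * n : ℚ_[5]) - 0‖ = 1 := by rw [eac, norm_mul, hn', n4, mul_one]
  have hsq : IsSquare (n : ℚ_[5]) ↔ jacobiSym ((n % 5 : ℕ) : ℤ) 5 = 1 := by
    have := sq_int_iff (p := 5) p2 (k := n) (by exact_mod_cast h0)
    rw [jacobiSym.mod_left] at this
    exact_mod_cast this
  have hm : IsSquare (-1 : ℚ_[5]) := by
    have := (sq_int_iff (p := 5) p2 (k := -1) (by norm_num)).2 (by norm_num)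
    exact_mod_cast this
  have hneg : IsSquare (-(n : ℚ_[5])) ↔ IsSquare (n : ℚ_[5]) :=
    ⟨fun s => sq_cast (hm.mul s) (by ring), fun s => sq_cast (hm.mul s) (by ring)⟩
  have nec : Lc ℚ_[5] n d₂ d₃ → Tor n d₂ d₃ ∨ ((IsSquare (n : ℚ_[5]) → IsSquare (d₂ * d₃)) ∧
      (¬IsSquare (n : ℚ_[5]) → Even d₂.valuation ∧ Even d₃.valuation)) := fun H => by
    refine (H.elim (by omega) h2 h3).imp_right fun ⟨x, x0, x2, x3, s0, s2, s3⟩ => ?_
    have := lm_nec p2 hab hac (x := x) (da := d₃) (db := d₂) (dc := d₂ * d₃) (by simpa using x3) x2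
      (by simpa using x0) h3 h2 (mul_ne_zero h2 h3) (by simpa using s3) s2 (by simpa using s0)
      ⟨d₂ * d₃, by ring⟩
    rw [eac, lm_sq_four, hneg] at this
    exact ⟨this.1, fun h => ⟨(this.2 h).2.1, (this.2 h).1⟩⟩
  refine ⟨fun h => ?_, fun h => ?_⟩
  · have hs : IsSquare (n : ℚ_[5]) := hsq.2 (by rcases h with h | h <;> rw [h] <;> norm_num)
    refine ⟨fun H => (nec H).elim (fun t =>
      (t.1.elim id (sq_of_mul_left (lm_ne hn') (hneg.2 hs))).mul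
        (t.2.elim id (sq_of_mul_left (lm_ne hn) hs))) fun t => t.1 hs, fun s => ?_⟩
    refine Lc.congr h2 h2 h2 h3 (.mul_self _) (sq_cast s (mul_comm _ _)) ?_
    refine lm_all (fun d => Lc ℚ_[5] n d d) (fun d d' a b H H' => H.mul h4 a a b b H')
      (fun d d' a b e H => H.congr a a b b e e) (fun t ht => ?_) d₂ h2
    have t0 : t ≠ 0 := norm_ne_zero_iff.1 (by rw [ht]; positivity)
    obtain ⟨u, v⟩ := lm_suf p2 hab hac (by rw [eac, lm_sq_four, hneg]; exact hs) ht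
    exact .of_point t0 t0 (-4 * n + t) (sq_cast ((IsSquare.mul_self t).mul v) (by ring)) u
      ⟨t, by ring⟩
  · have hs : ¬IsSquare (n : ℚ_[5]) := fun e => by
      have := hsq.1 e
      rcases h with h | h <;> rw [h] at this <;> norm_num at this
    exact ⟨fun H => (nec H).elim (lm_tor_even hn h2 h3) fun t => t.2 hs, fun ⟨e2, e3⟩ =>
      .of_tor h2 h3 ⟨lm_or p2 hn' (mt hneg.1 hs) h2 e2, lm_or p2 hn hs h3 e3⟩⟩

theorem aLocM : S_LocM := fun n h4 => ⟨lm_three n h4, lm_five n h4⟩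

end Pool.Agent.P.MP_9c97e9_nt.All
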