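import Pool.Agent.P.MP_9c97e9_nt.All.Defs2

/-! Local images at the primes 3 and 5 of multiplicative reduction. -/

namespace Pool.Agent.P.MP_9c97e9_nt.All

section

variable {p : ℕ} [hp : Fact p.Prime] {a b c x d : ℚ_[p]}

theorem ln_lt : (p : ℝ) ^ (-2 : ℤ) < (p : ℝ) ^ (-1 : ℤ) ∧ (p : ℝ) ^ (-1 : ℤ) < 1 := by
  have h : (1 : ℝ) < p := by exact_mod_cast hp.1.one_lt
  exact ⟨zpow_lt_zpow_right₀ h (by norm_num), zpow_lt_one_of_neg₀ h (by norm_num)⟩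

theorem ln_unit (h : ‖a‖ = 1) : Even a.valuation := by
  rw [val_of_norm (k := 0) (by simpa using h)]
  simp

theorem ln_nec (h2 : p ≠ 2) (hb : ‖a - b‖ = (p : ℝ) ^ (-2 : ℤ)) (hc : ‖a - c‖ = 1)
    (xa : x - a ≠ 0) (xb : x - b ≠ 0) (xc : x - c ≠ 0)
    (h : IsSquare ((x - a) * (x - b) * (x - c))) : (IsSquare (a - c) → IsSquare (x - c)) ∧
      (¬IsSquare (a - c) → Even (x - a).valuation ∧ Even (x - b).valuation ∧
        Even (x - c).valuation) := by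
  have u0 : a - c ≠ 0 := norm_ne_zero_iff.1 (by rw [hc]; norm_num)
  have e3 := even_val h
  rw [Padic.valuation_mul (mul_ne_zero xa xb) xc, Padic.valuation_mul xa xb] at e3
  have cl : ‖x - a‖ < 1 → IsSquare ((x - c) * (a - c)) := fun e => sq_of_close h2 (by
    rwa [show x - c - (a - c) = x - a by ring, hc])
  rcases lt_or_ge ((p : ℝ) ^ (-2 : ℤ)) ‖x - a‖ with e | e
  · have e1 : IsSquare ((x - b) * (x - a)) := sq_of_close h2 (by
      rwa [show x - b - (x - a) = a - b by ring, hb])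
    have e2 : IsSquare (x - c) := sq_of_mul_left (mul_ne_zero xb xa) e1 (sq_cast h (by ring))
    refine ⟨fun _ => e2, fun hu => ?_⟩
    have e4 : Even (x - a).valuation := by
      rcases lt_trichotomy ‖x - a‖ 1 with f | f | f
      · exact absurd (sq_of_mul_left xc e2 (cl f)) hu
      · exact ln_unit f
      · exact even_val (sq_of_mul_left xc e2 (sq_of_close h2 (by
          rwa [show x - c - (x - a) = a - c by ring, hc])))
    exact ⟨e4, (even_val_iff xb xa e1).2 e4, even_val e2⟩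
  · have e1 := cl (e.trans_lt (ln_lt.1.trans ln_lt.2))
    refine ⟨fun hu => (sq_iff_of_mul xc u0 e1).2 hu, fun _ => ?_⟩
    have e4 := (even_val_iff xc u0 e1).2 (ln_unit hc)
    simp only [Int.even_iff] at *
    rcases e.eq_or_lt with f | f
    · have := val_of_norm (k := 2) f
      omega
    · have : (x - b).valuation = 2 := val_of_norm (by
        rw [← hb]
        refine Padic.norm_eq_of_norm_sub_lt_right ?_
        rwa [show x - b - (a - b) = x - a by ring, hb])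
      omega

theorem ln_suf (h2 : p ≠ 2) (hb : ‖a - b‖ = (p : ℝ) ^ (-2 : ℤ)) (hc : ‖a - c‖ = 1)
    (hu : IsSquare (a - c)) (h0 : d ≠ 0) (hd : ¬Even d.valuation) :
    ∃ x, IsSquare (d * (x - a)) ∧ IsSquare (d * (x - b)) ∧ IsSquare (x - c) := by
  obtain ⟨k, hk⟩ := Int.not_even_iff_odd.1 hd
  have p0 : (p : ℝ) ≠ 0 := by exact_mod_cast hp.1.ne_zero
  have u0 : a - c ≠ 0 := norm_ne_zero_iff.1 (by rw [hc]; norm_num)
  have e : ‖d * ((p : ℚ_[p]) ^ (-k)) ^ 2‖ = (p : ℝ) ^ (-1 : ℤ) := by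
    rw [norm_mul, norm_pow, Padic.norm_p_zpow, Padic.norm_eq_zpow_neg_valuation h0, hk,
      ← zpow_natCast, ← zpow_mul, ← zpow_add₀ p0]
    congr 1
    push_cast
    ring
  have e0 : d * ((p : ℚ_[p]) ^ (-k)) ^ 2 ≠ 0 := norm_ne_zero_iff.1 (by rw [e]; positivity)
  have e1 := sq_of_eq (b := d) (r := (p : ℚ_[p]) ^ (-k)) rfl
  generalize d * ((p : ℚ_[p]) ^ (-k)) ^ 2 = t at e e0 e1
  refine ⟨a + t, sq_cast e1 (by ring), sq_trans e0 e1 (sq_cast (sq_of_close h2 (a := a + t - b)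
    (b := t) ?_) (mul_comm _ _)), sq_of_mul_left u0 hu (sq_cast (sq_of_close h2 (a := a + t - c)
    (b := a - c) ?_) (mul_comm _ _))⟩
  · rw [show a + t - b - t = a - b by ring, hb, e]
    exact ln_lt.1
  · rw [show a + t - c - (a - c) = t by ring, hc, e]
    exact ln_lt.2

theorem ln_odd (h0 : d ≠ 0) (hd : Even d.valuation) :
    ¬Even (d * p).valuation ∧ ¬Even (p : ℚ_[p]).valuation := by
  rw [Padic.valuation_mul h0 (by exact_mod_cast hp.1.ne_zero), Padic.valuation_p]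
  simp only [Int.even_iff] at *
  omega

theorem ln_tor {n : ℕ} (hn : ¬p ∣ n) {d₂ d₃ : ℚ_[p]} (h2 : d₂ ≠ 0) (h3 : d₃ ≠ 0)
    (h : Tor n d₂ d₃) : Even d₂.valuation ∧ Even d₃.valuation := by
  have n1 := norm_nat hn
  have n0 : (n : ℚ_[p]) ≠ 0 := norm_ne_zero_iff.1 (by rw [n1]; norm_num)
  refine ⟨h.1.elim even_val fun e => (even_val_iff (neg_ne_zero.2 n0) h2 e).1 (ln_unit ?_),
    h.2.elim even_val fun e => (even_val_iff n0 h3 e).1 (ln_unit n1)⟩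
  rwa [norm_neg]

theorem ln_or (h2 : p ≠ 2) (ha : ‖a‖ = 1) (hn : ¬IsSquare a) (h0 : d ≠ 0)
    (hd : Even d.valuation) : IsSquare d ∨ IsSquare (a * d) :=
  (em _).imp_right fun e => sq_mul_of_not h2 (norm_ne_zero_iff.1 (by rw [ha]; norm_num)) h0
    (ln_unit ha) hd hn e

theorem ln_int (h2 : p ≠ 2) {k r : ℤ} (h : k % p = r) (hr : ¬(p : ℤ) ∣ r) :
    IsSquare (k : ℚ_[p]) ↔ jacobiSym r p = 1 := by
  rw [sq_int_iff h2 fun e => hr (by rw [← h, Int.emod_eq_zero_of_dvd e]; simp),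
    jacobiSym.mod_left, h]

end

theorem ln_prod {K : Type} [Field K] {d₂ d₃ x y z : K} (h2 : d₂ ≠ 0) (h3 : d₃ ≠ 0)
    (a : IsSquare (d₂ * d₃ * x)) (b : IsSquare (d₂ * y)) (c : IsSquare (d₃ * z)) :
    IsSquare (x * y * z) :=
  sq_of_mul_left (mul_ne_zero (mul_ne_zero h2 h3) (mul_ne_zero h2 h3)) (.mul_self _)
    (sq_cast ((a.mul b).mul c) (by ring))

theorem ln_three {n : ℕ} (h4 : n % 4 = 3) (h3 : ¬3 ∣ n) :
    (n % 3 = 1 → ∀ d₂ d₃ : ℚ_[3], d₂ ≠ 0 → d₃ ≠ 0 → (Lc ℚ_[3] n d₂ d₃ ↔ IsSquare d₃)) ∧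
    (n % 3 = 2 → ∀ d₂ d₃ : ℚ_[3], d₂ ≠ 0 → d₃ ≠ 0 →
      (Lc ℚ_[3] n d₂ d₃ ↔ Even d₂.valuation ∧ Even d₃.valuation)) := by
  have p2 : (3 : ℕ) ≠ 2 := by norm_num
  have n1 := norm_nat (p := 3) h3
  have n0 : (n : ℚ_[3]) ≠ 0 := norm_ne_zero_iff.1 (by rw [n1]; norm_num)
  have n4 := norm_four p2
  have hb : ‖(0 - 9 * n / 4 : ℚ_[3])‖ = ((3 : ℕ) : ℝ) ^ (-2 : ℤ) := by
    rw [zero_sub, norm_neg, norm_div, norm_mul, n1, n4,
      show (9 : ℚ_[3]) = ((3 : ℕ) : ℚ_[3]) ^ (2 : ℤ) by norm_num, Padic.norm_p_zpow]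
    simp
  have hc : ‖(0 - -4 * n : ℚ_[3])‖ = 1 := by
    rw [neg_mul, zero_sub, neg_neg, norm_mul, n1, n4, mul_one]
  have hu : IsSquare (0 - -4 * n : ℚ_[3]) ↔ IsSquare (n : ℚ_[3]) :=
    sq_iff_of_mul (by simpa using n0) n0 ⟨2 * n, by ring⟩
  have nec := fun (x : ℚ_[3]) (x0 : x ≠ 0) x1 (x2 : x + 4 * n ≠ 0)
    (h : IsSquare (x * (x - 9 * n / 4) * (x + 4 * n))) => ln_nec p2 hb hc (x := x)
      (by rwa [sub_zero]) x1 (by rwa [neg_mul, sub_neg_eq_add]) (sq_cast h (by ring))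
  simp only [hu] at nec
  simp only [sub_zero, neg_mul, sub_neg_eq_add] at nec
  refine ⟨fun h d₂ d₃ h2 h3 => ?_, fun h d₂ d₃ h2 h3 => ?_⟩
  · have hs : IsSquare (n : ℚ_[3]) := by
      simpa using (ln_int p2 (k := n) (r := 1) (by omega) (by norm_num)).2 (by simp)
    refine ⟨fun H => ?_, fun H => ?_⟩
    · rcases H.elim (by omega) h2 h3 with t | ⟨x, x0, x1, x2, a, b, c⟩
      · exact t.2.elim id (sq_of_mul_left n0 hs)
      · exact (sq_iff_of_mul h3 x2 c).2 ((nec x x0 x1 x2 (ln_prod h2 h3 a b c)).1 hs)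
    have key : ∀ d e : ℚ_[3], d ≠ 0 → e ≠ 0 → IsSquare e → ¬Even d.valuation → Lc ℚ_[3] n d e :=
      fun d e d0 e0 he hd => by
        obtain ⟨x, a, b, c⟩ := ln_suf p2 hb hc (hu.2 hs) d0 hd
        exact Lc.of_point d0 e0 x (sq_cast (a.mul he) (by ring)) b (sq_cast (c.mul he) (by ring))
    by_cases hd : Even d₂.valuation
    · have p0 : ((3 : ℕ) : ℚ_[3]) ≠ 0 := by norm_num
      exact Lc.congr (mul_ne_zero (mul_ne_zero h2 p0) p0) (mul_ne_zero h3 one_ne_zero) h2 h3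
        ⟨d₂ * (3 : ℕ), by ring⟩ ⟨d₃, by ring⟩ (Lc.mul h4 (mul_ne_zero h2 p0) h3 p0 one_ne_zero
        (key _ _ (mul_ne_zero h2 p0) h3 H (ln_odd h2 hd).1)
        (key _ _ p0 one_ne_zero IsSquare.one (ln_odd h2 hd).2))
    · exact key _ _ h2 h3 H hd
  · have hs : ¬IsSquare (n : ℚ_[3]) := fun e => by
      have := (ln_int p2 (k := n) (r := 2) (by omega) (by norm_num)).1 (by simpa using e)
      norm_num at this
    refine ⟨fun H => ?_, fun H => ?_⟩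
    · rcases H.elim (by omega) h2 h3 with t | ⟨x, x0, x1, x2, a, b, c⟩
      · exact ln_tor (by omega) h2 h3 t
      · obtain ⟨-, u, v⟩ := (nec x x0 x1 x2 (ln_prod h2 h3 a b c)).2 hs
        exact ⟨(even_val_iff h2 x1 b).2 u, (even_val_iff h3 x2 c).2 v⟩
    have h5 := ln_or p2 n1 hs h3 H.2
    rcases ln_or p2 n1 hs h2 H.1 with e | e
    · exact Lc.of_tor h2 h3 ⟨.inl e, h5⟩
    have s7 : IsSquare (7 : ℚ_[3]) := by
      simpa using (ln_int p2 (k := 7) (r := 1) (by omega) (by norm_num)).2 (by simp)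
    have s2 : IsSquare (2 * n : ℚ_[3]) := by
      simpa using (ln_int p2 (k := 2 * n) (r := 1) (by omega) (by norm_num)).2 (by simp)
    exact Lc.congr (mul_ne_zero (mul_ne_zero n0 h2) n0) (mul_ne_zero h3 one_ne_zero) h2 h3
      ⟨d₂ * n, by ring⟩ ⟨d₃, by ring⟩ (Lc.mul h4 (mul_ne_zero n0 h2) h3 n0 one_ne_zero
      (Lc.of_tor (mul_ne_zero n0 h2) h3 ⟨.inl e, h5⟩)
      (Lc.of_point n0 one_ne_zero (4 * n) ⟨2 * n, by ring⟩
        (sq_cast (s7.mul (.mul_self (n / 2 : ℚ_[3]))) (by ring))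
        (sq_cast (s2.mul (.mul_self 2)) (by ring))))

theorem ln_five [Fact (Nat.Prime 5)] {n : ℕ} (h4 : n % 4 = 3) (h5 : ¬5 ∣ n) :
    (n % 5 = 1 ∨ n % 5 = 4 → ∀ d₂ d₃ : ℚ_[5], d₂ ≠ 0 → d₃ ≠ 0 →
      (Lc ℚ_[5] n d₂ d₃ ↔ IsSquare (d₂ * d₃))) ∧
    (n % 5 = 2 ∨ n % 5 = 3 → ∀ d₂ d₃ : ℚ_[5], d₂ ≠ 0 → d₃ ≠ 0 →
      (Lc ℚ_[5] n d₂ d₃ ↔ Even d₂.valuation ∧ Even d₃.valuation)) := by
  have p2 : (5 : ℕ) ≠ 2 := by norm_num
  have n1 := norm_nat (p := 5) h5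
  have n0 : (n : ℚ_[5]) ≠ 0 := norm_ne_zero_iff.1 (by rw [n1]; norm_num)
  have n4 := norm_four p2
  have hb : ‖(-4 * n - 9 * n / 4 : ℚ_[5])‖ = ((5 : ℕ) : ℝ) ^ (-2 : ℤ) := by
    rw [show (-4 * n - 9 * n / 4 : ℚ_[5]) = -(((5 : ℕ) : ℚ_[5]) ^ (2 : ℤ) * n / 4) by
      norm_num; ring, norm_neg, norm_div, norm_mul, n1, n4, Padic.norm_p_zpow]
    simp
  have hc : ‖(-4 * n - 0 : ℚ_[5])‖ = 1 := by
    rw [neg_mul, sub_zero, norm_neg, norm_mul, n1, n4, mul_one]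
  have m1 : IsSquare (-1 : ℚ_[5]) := by
    simpa using (ln_int p2 (k := -1) (r := 4) (by norm_num) (by norm_num)).2 (by norm_num)
  have hu : IsSquare (-4 * n - 0 : ℚ_[5]) ↔ IsSquare (n : ℚ_[5]) :=
    sq_iff_of_mul (by simpa using n0) n0 (sq_cast (m1.mul (.mul_self (2 * n : ℚ_[5]))) (by ring))
  have hm : IsSquare (-n : ℚ_[5]) ↔ IsSquare (n : ℚ_[5]) :=
    sq_iff_of_mul (by simpa using n0) n0 (sq_cast (m1.mul (.mul_self (n : ℚ_[5]))) (by ring))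
  have nec := fun (x : ℚ_[5]) (x0 : x ≠ 0) x1 (x2 : x + 4 * n ≠ 0)
    (h : IsSquare (x * (x - 9 * n / 4) * (x + 4 * n))) => ln_nec p2 hb hc (x := x)
      (by rwa [neg_mul, sub_neg_eq_add]) x1 (by rwa [sub_zero]) (sq_cast h (by ring))
  simp only [hu] at nec
  simp only [sub_zero, neg_mul, sub_neg_eq_add] at nec
  refine ⟨fun h d₂ d₃ h2 h3 => ?_, fun h d₂ d₃ h2 h3 => ?_⟩
  · have hs : IsSquare (n : ℚ_[5]) := by
      rcases h with h | h
      · simpa using (ln_int p2 (k := n) (r := 1) (by omega) (by norm_num)).2 (by simp)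
      · simpa using (ln_int p2 (k := n) (r := 4) (by omega) (by norm_num)).2 (by norm_num)
    refine ⟨fun H => ?_, fun H => ?_⟩
    · rcases H.elim (by omega) h2 h3 with t | ⟨x, x0, x1, x2, a, b, c⟩
      · exact (t.1.elim id (sq_of_mul_left (neg_ne_zero.2 n0) (hm.2 hs))).mul
          (t.2.elim id (sq_of_mul_left n0 hs))
      · exact (sq_iff_of_mul (mul_ne_zero h2 h3) x0 a).2
          ((nec x x0 x1 x2 (ln_prod h2 h3 a b c)).1 hs)
    have key : ∀ d e : ℚ_[5], d ≠ 0 → e ≠ 0 → IsSquare (d * e) → ¬Even d.valuation →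
        Lc ℚ_[5] n d e := fun d e d0 e0 he hd => by
      obtain ⟨x, a, b, c⟩ := ln_suf p2 hb hc (hu.2 hs) d0 hd
      exact Lc.of_point d0 e0 x (sq_cast (he.mul c) (by ring)) b
        (sq_cast (sq_trans d0 (sq_cast he (mul_comm _ _)) a) (by ring))
    by_cases hd : Even d₂.valuation
    · have p0 : ((5 : ℕ) : ℚ_[5]) ≠ 0 := by norm_num
      exact Lc.congr (mul_ne_zero (mul_ne_zero h2 p0) p0) (mul_ne_zero (mul_ne_zero h3 p0) p0)
        h2 h3 ⟨d₂ * (5 : ℕ), by ring⟩ ⟨d₃ * (5 : ℕ), by ring⟩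
        (Lc.mul h4 (mul_ne_zero h2 p0) (mul_ne_zero h3 p0) p0 p0
        (key _ _ (mul_ne_zero h2 p0) (mul_ne_zero h3 p0)
          (sq_cast (H.mul (.mul_self ((5 : ℕ) : ℚ_[5]))) (by ring)) (ln_odd h2 hd).1)
        (key _ _ p0 p0 (.mul_self _) (ln_odd h2 hd).2))
    · exact key _ _ h2 h3 H hd
  · have hs : ¬IsSquare (n : ℚ_[5]) := fun e => by
      rcases h with h | h
      · have := (ln_int p2 (k := n) (r := 2) (by omega) (by norm_num)).1 (by simpa using e)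
        norm_num at this
      · have := (ln_int p2 (k := n) (r := 3) (by omega) (by norm_num)).1 (by simpa using e)
        norm_num at this
    refine ⟨fun H => ?_, fun H => Lc.of_tor h2 h3
      ⟨ln_or p2 (by rwa [norm_neg]) (mt hm.1 hs) h2 H.1, ln_or p2 n1 hs h3 H.2⟩⟩
    rcases H.elim (by omega) h2 h3 with t | ⟨x, x0, x1, x2, a, b, c⟩
    · exact ln_tor (by omega) h2 h3 t
    · obtain ⟨v, u, -⟩ := (nec x x0 x1 x2 (ln_prod h2 h3 a b c)).2 hs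
      exact ⟨(even_val_iff h2 x1 b).2 u, (even_val_iff h3 x2 c).2 v⟩

theorem aLocN : S_LocM := fun _ h4 =>
  ⟨fun d₂ d₃ h2 h3 => ⟨fun h => (ln_three h4 (by omega)).1 h d₂ d₃ h2 h3,
    fun h => (ln_three h4 (by omega)).2 h d₂ d₃ h2 h3⟩,
  fun d₂ d₃ h2 h3 => ⟨fun h => (ln_five h4 (by omega)).1 h d₂ d₃ h2 h3,
    fun h => (ln_five h4 (by omega)).2 h d₂ d₃ h2 h3⟩⟩

end Pool.Agent.P.MP_9c97e9_nt.All
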