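import Pool.Agent.P.MP_9c97e9_nt.All.Defs

/-! The twisted modular symbols for all odd squarefree `n`. -/

namespace Pool.Agent.P.MP_9c97e9_nt.All

open Finset Pool.Agent.P.MP_8b7eba_nt Pool.Agent.P.MP_8b7eba_nt.BSD15

theorem m1_ms_sum {n : ℕ} (hn : 1 < n) (hodd : Odd n) (hsq : Squarefree n) :
    ∃ U W : ℤ, ∀ ψ : BSD15.V → ℂ, IsMS ψ →
    ∑ a ∈ Finset.range n, (jacobiSym a n : ℂ) * ψ ((a : ℤ), (n : ℤ)) = U * msA ψ + W * msB ψ := by
  have key : ∀ a : ℕ, ∃ u v : ℤ, ∀ ψ : BSD15.V → ℂ, IsMS ψ →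
      (jacobiSym a n : ℂ) * ψ ((a : ℤ), (n : ℤ)) =
      (jacobiSym a n : ℂ) * ψ (ms_base n) + u * msA ψ + v * msB ψ := by
    intro a
    by_cases hc : a.Coprime n
    · obtain ⟨u, v, huv⟩ := ms_R_all _ ((a : ℤ), (n : ℤ)) rfl (Nat.isCoprime_iff_coprime.2 hc)
      refine ⟨jacobiSym a n * u, jacobiSym a n * v, fun ψ hψ => ?_⟩
      rw [huv ψ hψ]
      push_cast
      ring
    · have : jacobiSym a n = 0 :=
        jacobiSym.eq_zero_iff.2 ⟨by omega, by rwa [Int.gcd_natCast_natCast]⟩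
      exact ⟨0, 0, fun ψ _ => by simp [this]⟩
  choose u v huv using key
  refine ⟨∑ a ∈ Finset.range n, u a, ∑ a ∈ Finset.range n, v a, fun ψ hψ => ?_⟩
  have h0 : ∑ a ∈ Finset.range n, (jacobiSym a n : ℂ) = 0 := by
    exact_mod_cast sum_jacobi_eq_zero hn hodd hsq
  simp only [huv _ ψ hψ, Finset.sum_add_distrib, ← Finset.sum_mul, h0]
  push_cast
  ring

theorem mLS : S_LS := by
  intro n hn hodd hsq
  refine Classical.epsilon_spec (p := LamSpec n) ?_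
  obtain ⟨U, W, hUW⟩ := m1_ms_sum hn hodd hsq
  have key : ∀ ψ : BSD15.V → ℂ, IsMS ψ →
      U * msA ψ + W * msB ψ = (jacobiSym (-1) n : ℂ) * (U * msA ψ - W * msB ψ) := by
    intro ψ hψ
    have h1 := hUW _ hψ.refl
    have hA : msA (fun x => ψ (-x.1, x.2)) = msA ψ := by
      simp only [msA, neg_zero, ms_neg_one_two ψ hψ]
    have hB : msB (fun x => ψ (-x.1, x.2)) = -msB ψ := by
      have := ms_one_four ψ hψ
      simp only [msB, neg_zero, neg_neg] at this ⊢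
      linear_combination -this
    rw [hA, hB] at h1
    rw [← hUW ψ hψ, ms_sum_refl hn hψ, h1]
    ring
  by_cases h4 : n % 4 = 1
  · refine ⟨U, fun ψ hψ => ?_⟩
    have h1 := key ψ hψ
    rw [jacobiSym.at_neg_one hodd, ZMod.χ₄_nat_one_mod_four h4] at h1
    rw [if_pos h4, hUW ψ hψ]
    push_cast at h1
    linear_combination (1 / 2 : ℂ) * h1
  · refine ⟨W, fun ψ hψ => ?_⟩
    have h1 := key ψ hψ
    have h3 : n % 4 = 3 := by
      obtain ⟨k, hk⟩ := hodd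
      omega
    rw [jacobiSym.at_neg_one hodd, ZMod.χ₄_nat_three_mod_four h3] at h1
    rw [if_neg h4, hUW ψ hψ]
    push_cast at h1
    linear_combination (1 / 2 : ℂ) * h1

theorem m1_fam {n : ℕ} (hodd : Odd n) (hsq : Squarefree n) (h1 : 1 < n) :
    PairlamFam (Finset.range n) (fun b => (jacobiSym b n : ℚ)) (fun b => ((b : ℤ), (n : ℤ)))
      (fun _ => (1, 0)) where
  prim b _ hb := ⟨pairlam_prim_b h1 hb, pairlam_inf, by simp only [dt]; omega⟩
  closed x₁ x₂ x₃ h₁ h₂ h₃ := by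
    rw [pairlam_congr (g := fun _ => dfct x₁ x₂ x₃ (1, (n : ℤ)) - dfct x₁ x₂ x₃ (1, 0)),
      ← Finset.sum_mul]
    · have := sum_jacobi_eq_zero h1 hodd hsq
      rw [← Int.cast_sum, this, Int.cast_zero, zero_mul]
    · intro b _ hb
      rw [pairlam_dfct h₁ h₂ h₃ (pairlam_prim_b h1 hb)
        (y' := (1, (n : ℤ))) isCoprime_one_left rfl]

theorem m1_odd {n : ℕ} (h : n % 4 = 1 ∨ n % 4 = 3) : Odd n := Nat.odd_iff.2 (by omega)

theorem m1_triv (h : S_LS) {n : ℕ} (hn : Squarefree n) (h4 : n % 4 = 3) :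
    ∑ b ∈ Finset.range n, (jacobiSym b n : ℚ) *
      (BSD15.II (1, 2) (1, 0) ((b : ℤ), (n : ℤ)) (1, 0) -
        BSD15.II (0, 1) (1, 0) ((b : ℤ), (n : ℤ)) (1, 0)) = -lam n := by
  have h1 : 1 < n := by omega
  have hodd : Odd n := m1_odd (Or.inr h4)
  have p12 : Prim (1, 2) := pairlam_prim (by decide)
  have p01 : Prim (0, 1) := pairlam_prim (by decide)
  have p14 : Prim (-1, 4) := pairlam_prim (by decide)
  have e1 := (m1_fam hodd hn h1).sub p12 p01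
  have e2 := h n h1 hodd hn _ pairlam_fam'.isMS
  have e3 := pairlam_fam'.sub p01 p14
  rw [if_neg (by omega), msB, ← Rat.cast_sub, e3] at e2
  simp only [Finset.univ_unique, Finset.sum_singleton, one_mul, II_AB, Rat.cast_one, mul_one] at e2
  have e4 : ∑ b ∈ Finset.range n, (jacobiSym b n : ℚ) *
      BSD15.II ((b : ℤ), (n : ℤ)) (1, 0) (1, 2) (0, 1) = lam n := by exact_mod_cast e2
  simp only [mul_sub, Finset.sum_sub_distrib]
  rw [e1, ← e4, ← Finset.sum_neg_distrib]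
  simp only [← mul_neg]
  refine pairlam_congr fun b _ hb => ?_
  exact II_antisymm p12 p01 (pairlam_prim_b h1 hb) pairlam_inf

theorem mPL (h : S_LS) : S_PL := by
  refine ⟨fun n₁ n₂ h₁ h₂ hn₁ h41 h42 => ?_, fun n hn h4 => m1_triv h hn h4⟩
  have e1 := h n₁ hn₁ (m1_odd (Or.inl h41)) h₁ _
    (m1_fam (m1_odd (Or.inr h42)) h₂ (by omega)).isMS
  have e2 := m1_triv h h₂ h42
  simp only [mul_sub, Finset.sum_sub_distrib] at e2
  rw [if_pos h41, msA, ← Rat.cast_sub, e2] at e1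
  have e3 : ∑ a ∈ Finset.range n₁, (jacobiSym a n₁ : ℚ) * ∑ b ∈ Finset.range n₂,
      (jacobiSym b n₂ : ℚ) * BSD15.II ((a : ℤ), (n₁ : ℤ)) (1, 0) ((b : ℤ), (n₂ : ℤ)) (1, 0) =
      lam n₁ * -lam n₂ := by exact_mod_cast e1
  simp only [Finset.mul_sum, ← mul_assoc] at e3
  rw [e3]
  ring

end Pool.Agent.P.MP_9c97e9_nt.All
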