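import Pool.Agent.P.MP_9c97e9_nt.All.Defs

/-! Vanishing of `lam` by Atkin-Lehner involutions when `3` or `5` divides the conductor of the
twist. -/

namespace Pool.Agent.P.MP_9c97e9_nt.All

open Finset Pool.Agent.P.MP_8b7eba_nt Pool.Agent.P.MP_8b7eba_nt.BSD15

theorem m2_lv {e a y n ε : ℤ} (he : e ≠ 0) (hn : n ≠ 0) (h15 : 15 ∣ e * n)
    (hAL : ∀ w : Mod.M2, Mod.AL e w → ∀ a c : ℤ, a ≠ 0 ∨ c ≠ 0 →
      Mod.lv (w.a * a + w.b * c) (w.c * a + w.d * c) = ε * Mod.lv a c + Mod.lv w.a w.c)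
    (h : n ∣ e * a * y + 1) : Mod.lv a n = -ε * Mod.lv y n := by
  obtain ⟨x, hx⟩ := h
  have hw : Mod.AL e ⟨e * a, -x, e * n, -(e * y)⟩ :=
    ⟨by simp only [Mod.M2.det]; linear_combination (-e) * hx, h15, dvd_mul_right _ _,
      (dvd_mul_right _ _).neg_right⟩
  have h1 := hAL _ hw y n (Or.inr hn)
  simp only at h1
  rw [show e * n * y + -(e * y) * n = 0 by ring, Mod.lv_zero, Mod.lv_mul he] at h1
  linear_combination -h1

theorem m2_van {n e : ℕ} {ε : ℤ} (hn : 1 < n) (hs : LamSpec n (lam n)) (he : e.Coprime n)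
    (hlv : ∀ a y : ℤ, (n : ℤ) ∣ e * a * y + 1 → Mod.lv a n = -ε * Mod.lv y n)
    (hJ : jacobiSym (-e) n = ε) : lam n = 0 := by
  have : NeZero n := ⟨by omega⟩
  have h1 := hs _ euler_isMS
  have key : ∀ x y : ZMod n, -e * x * y = 1 → (jacobiSym x.val n : ℂ) * Mod.lv x.val n +
      (jacobiSym y.val n : ℂ) * Mod.lv y.val n = 0 := fun x y hxy => by
    have h2 : (n : ℤ) ∣ e * x.val * y.val + 1 := by
      rw [← ZMod.intCast_zmod_eq_zero_iff_dvd]
      push_cast
      rw [ZMod.natCast_zmod_val, ZMod.natCast_zmod_val]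
      linear_combination -hxy
    have h3 : jacobiSym (-e * x.val * y.val) n = jacobiSym 1 n :=
      jacobiSym.mod_left' (Int.modEq_iff_dvd.2 (h2.trans (dvd_of_eq (by ring))))
    rw [jacobiSym.mul_left, jacobiSym.mul_left, hJ, jacobiSym.one_left] at h3
    have h4 : jacobiSym y.val n = ε * jacobiSym x.val n := by
      rcases Int.eq_one_or_neg_one_of_mul_eq_one' h3 with h | h <;> omega
    rw [hlv _ _ h2, h4]
    push_cast
    ring
  have hu : IsUnit (-e : ZMod n) := ((ZMod.isUnit_iff_coprime e n).2 he).neg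
  have h5 : ∑ x : ZMod n, (jacobiSym x.val n : ℂ) * Mod.lv x.val n = 0 := by
    have h6 : ∀ x : ZMod n, IsUnit x → -e * x * (-e * x)⁻¹ = 1 := fun x hx =>
      ZMod.mul_inv_of_unit _ (hu.mul hx)
    have h8 : ∀ x : ZMod n, ¬ IsUnit x → (jacobiSym x.val n : ℂ) * Mod.lv x.val n = 0 :=
      fun x hx => by
        rw [jacobiSym.eq_zero_iff.2 ⟨by omega, fun h => hx (by
          rw [← ZMod.natCast_zmod_val x, ZMod.isUnit_iff_coprime]
          rwa [Int.gcd_natCast_natCast] at h)⟩, Int.cast_zero, zero_mul]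
    classical
    refine sum_involution (fun x _ => if IsUnit x then (-e * x)⁻¹ else x) (fun x _ => ?_)
      (fun x _ h0 hx => h0 ?_) (fun _ _ => mem_univ _) fun x _ => ?_
    · split_ifs with hx
      · exact key _ _ (h6 x hx)
      · rw [h8 x hx, add_zero]
    · by_cases hx' : IsUnit x
      · rw [if_pos hx'] at hx
        have := key _ _ (h6 x hx')
        rw [hx] at this
        linear_combination this / 2
      · exact h8 x hx'
    · by_cases hx : IsUnit x
      · rw [if_pos hx, if_pos (IsUnit.of_mul_eq_one_right _ (h6 x hx))]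
        exact ZMod.inv_eq_of_mul_eq_one _ _ _ (by linear_combination h6 x hx)
      · simp [hx]
  have h7 : ∑ a ∈ range n, (jacobiSym a n : ℂ) * Mod.lv a n =
      ∑ x : ZMod n, (jacobiSym x.val n : ℂ) * Mod.lv x.val n :=
    sum_nbij' (fun a => (a : ZMod n)) ZMod.val (fun _ _ => mem_univ _)
      (fun x _ => mem_range.2 x.val_lt) (fun a ha => ZMod.val_cast_of_lt (mem_range.1 ha))
      (fun x _ => ZMod.natCast_zmod_val x) fun a ha => by rw [ZMod.val_cast_of_lt (mem_range.1 ha)]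
  rw [h7, h5] at h1
  exact_mod_cast (mul_eq_zero.1 h1.symm).resolve_right (euler_unit_ne n)

theorem m2_jac5 {m : ℕ} (ho : Odd m)
    (h : (m % 4 = 1 ∧ (m % 5 = 2 ∨ m % 5 = 3)) ∨ (m % 4 = 3 ∧ (m % 5 = 1 ∨ m % 5 = 4))) :
    jacobiSym (-5) m = -1 := by
  rw [jacobiSym.mod_right (-5) ho, show 4 * (-5 : ℤ).natAbs = 20 from rfl]
  have : m % 20 = 17 ∨ m % 20 = 13 ∨ m % 20 = 11 ∨ m % 20 = 19 := by omega
  rcases this with h | h | h | h <;> rw [h] <;> norm_num

theorem m2_jac3 {m : ℕ} (ho : Odd m) (h : m % 3 = 1) : jacobiSym (-3) m = 1 := by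
  rw [jacobiSym.mod_right (-3) ho, show 4 * (-3 : ℤ).natAbs = 12 from rfl]
  have := Nat.odd_iff.1 ho
  have : m % 12 = 1 ∨ m % 12 = 7 := by omega
  rcases this with h | h <;> rw [h] <;> norm_num

theorem m2_jac1 {m : ℕ} (ho : Odd m) (h : m % 4 = 1) : jacobiSym (-1) m = 1 := by
  rw [jacobiSym.mod_right (-1) ho, show 4 * (-1 : ℤ).natAbs = 4 from rfl, h]
  norm_num

theorem m2_three (h : LamSpec 3 (lam 3)) : lam 3 = 1 := by
  have h1 := h _ euler_isMS
  rw [if_neg (by norm_num), euler_msB] at h1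
  simp only [sum_range_succ, sum_range_zero, Mod.lv_eq, Nat.cast_ofNat, Nat.cast_zero,
    Nat.cast_one, show jacobiSym 0 3 = 0 by norm_num, show jacobiSym 1 3 = 1 by norm_num,
    show jacobiSym 2 3 = -1 by norm_num] at h1
  have e1 : Mod.nP 1 3 = Mod.nP 2 3 := by decide +kernel
  have e2 : Mod.nM 1 3 = Mod.nM 2 3 + 2 := by decide +kernel
  rw [e1, e2] at h1
  have h2 : ((lam 3 : ℂ) - 1) * (2 * Mod.om * Complex.I) = 0 := by
    push_cast at h1
    linear_combination -h1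
  have h3 : (2 * Mod.om * Complex.I : ℂ) ≠ 0 := by simp [Mod.om_ne]
  exact_mod_cast sub_eq_zero.1 ((mul_eq_zero.1 h2).resolve_right h3)

theorem mVan (h : S_LS) : S_Van := by
  refine ⟨m2_three (h 3 (by norm_num) (by decide) Nat.prime_three.squarefree), ?_⟩
  intro m ho hsq hv
  have hm : 1 < m := by
    have := Nat.odd_iff.1 ho
    unfold VanC at hv
    omega
  have hs := h m hm ho hsq
  have hm0 : (m : ℤ) ≠ 0 := by omega
  have five : 3 ∣ m → ¬5 ∣ m → jacobiSym (-5) m = -1 → lam m = 0 := fun h3 h5 hJ =>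
    m2_van (e := 5) (ε := -1) hm hs ((Nat.Prime.coprime_iff_not_dvd Nat.prime_five).2 h5)
      (fun a y hd => m2_lv (by norm_num) hm0 (by push_cast; omega)
        (fun w hw a c hac => by simpa using Mod.lv_AL5 hw hac) hd) hJ
  rcases hv with ⟨h3, h4, h5⟩ | ⟨h3, h4, h5⟩ | ⟨h5, h3⟩ | ⟨h15, h4⟩
  · exact five h3 (by omega) (m2_jac5 ho (Or.inl ⟨h4, h5⟩))
  · exact five h3 (by omega) (m2_jac5 ho (Or.inr ⟨h4, h5⟩))
  · exact m2_van (e := 3) (ε := 1) hm hs
      ((Nat.Prime.coprime_iff_not_dvd Nat.prime_three).2 (by omega))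
      (fun a y hd => m2_lv (by norm_num) hm0 (by push_cast; omega)
        (fun w hw a c hac => by simpa using Mod.lv_AL3 hw hac) hd) (m2_jac3 ho h3)
  · exact m2_van (e := 1) (ε := 1) hm hs (Nat.coprime_one_left _)
      (fun a y hd => m2_lv (by norm_num) hm0 (by push_cast; omega)
        (fun w hw a c hac => by simpa using Mod.lv_G0 ⟨hw.1, hw.2.1⟩ hac) hd) (m2_jac1 ho h4)

end Pool.Agent.P.MP_9c97e9_nt.All
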