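import Pool.Agent.P.MP_9c97e9_nt.All.Defs

/-! The crossing part of the pairing without coprimality to 15. -/

namespace Pool.Agent.P.MP_9c97e9_nt.All

open Finset Pool.Agent.P.MP_8b7eba_nt Pool.Agent.P.MP_8b7eba_nt.BSD15

theorem m3_range {p q r y n : ℤ} (hp : 0 < p) (hr : 0 < r) (hn : 0 < n)
    (h15 : IsCoprime (15 : ℤ) p) (hc : IsCoprime n (p * r)) (a b c d : ℤ) :
    (a, b, c, d) ∈ Set.range (evalcross_phi p q r y n) ↔ a * d - b * c = p * r * n ∧ 15 ∣ c ∧
      evalcross_Ca p q r (a, b, c, d) ∧ evalcross_Cb y n (a, b, c, d) := by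
  have hpr := (mul_pos hp hr).ne'
  constructor
  · rintro ⟨γ, h⟩
    simp only [evalcross_phi, Prod.mk.injEq] at h
    obtain ⟨rfl, rfl, rfl, rfl⟩ := h
    refine ⟨?_, γ.dvd_c.mul_left _, ⟨⟨γ.a, by ring⟩, ⟨γ.a * y + γ.b * n, by ring⟩,
      ⟨γ.c, by ring⟩, ⟨γ.c * y + γ.d * n, by ring⟩⟩, ⟨r * γ.b - q * γ.d, by ring⟩,
      ⟨p * γ.d, by ring⟩⟩
    linear_combination p * r * n * γ.det_eq
  · rintro ⟨hdet, h15c, ⟨⟨h11, e11⟩, ⟨h12, e12⟩, ⟨h21, e21⟩, ⟨h22, e22⟩⟩, ⟨u, eu⟩, ⟨v, ev⟩⟩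
    simp only at e11 e12 e21 e22 eu ev
    obtain ⟨gb, hgb⟩ : n ∣ h12 - y * h11 := hc.dvd_of_dvd_mul_left
      ⟨p * u + q * v, by linear_combination -e12 + y * e11 + p * eu + q * ev⟩
    obtain ⟨gd, hgd⟩ : n ∣ h22 - y * h21 := hc.dvd_of_dvd_mul_left
      ⟨r * v, by linear_combination -e22 + y * e21 + r * ev⟩
    have e21' : c = p * h21 := mul_left_cancel₀ hr.ne' (by linear_combination e21)
    have h15' : 15 ∣ h21 := h15.dvd_of_dvd_mul_left (e21' ▸ h15c)
    have hdet' : h11 * gd - gb * h21 = 1 := by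
      have : (p * r) * ((p * r) * (n * (h11 * gd - gb * h21))) = (p * r) * ((p * r) * (n * 1)) := by
        have e : (p * r * h11) * (p * r * h22) - (p * r * h12) * (p * r * h21) =
            p * r * (a * d - b * c) := by rw [← e11, ← e12, ← e21, ← e22]; ring
        rw [hdet] at e
        linear_combination e - (p * r) ^ 2 * h11 * hgd + (p * r) ^ 2 * h21 * hgb
      exact mul_left_cancel₀ hn.ne' (mul_left_cancel₀ hpr (mul_left_cancel₀ hpr this))
    refine ⟨⟨h11, gb, h21, gd, hdet', h15'⟩, ?_⟩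
    simp only [evalcross_phi, Prod.mk.injEq]
    refine ⟨mul_left_cancel₀ hpr ?_, mul_left_cancel₀ hpr ?_, mul_left_cancel₀ hr.ne' ?_,
      mul_left_cancel₀ hr.ne' ?_⟩
    · linear_combination -r * e11 + q * e21
    · linear_combination -r * e12 + q * e22 - p * r * r * hgb + p * r * q * hgd
    · linear_combination -e21
    · linear_combination -e22 - p * r * hgd

open Classical in
theorem m3_sum {p q r y n : ℤ} {N : ℕ} (hp : 0 < p) (hr : 0 < r) (hn : 0 < n)
    (h15 : IsCoprime (15 : ℤ) p) (hc : IsCoprime n (p * r)) (hN : p * r * n = N) :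
    crossSum (q, r) (p, 0) (y, n) (1, 0) = ∑ g ∈ evalcross_box N,
      (if evalcross_Ca p q r g then 1 else 0) * (if evalcross_Cb y n g then 1 else 0) *
        evalcross_c0 g := by
  unfold crossSum
  simp only [evalcross_cross_eq hp hr hn]
  rw [← finsum_mem_range (evalcross_phi_inj hp hr hn),
    finsum_mem_eq_sum_of_inter_support_eq
      (t := (evalcross_box N).filter fun g => evalcross_Ca p q r g ∧ evalcross_Cb y n g),
    Finset.sum_filter]
  · refine Finset.sum_congr rfl fun g _ => ?_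
    by_cases h1 : evalcross_Ca p q r g <;> by_cases h2 : evalcross_Cb y n g <;> simp [h1, h2]
  · ext ⟨a, b, c, d⟩
    simp only [Set.mem_inter_iff, m3_range hp hr hn h15 hc, Finset.coe_filter,
      Set.mem_ofPred_eq, evalcross_mem_box, hN, Function.mem_support]
    constructor
    · rintro ⟨⟨h1, h2, h3⟩, h4⟩
      refine ⟨⟨⟨h1, h2, ?_⟩, h3⟩, h4⟩
      by_contra h5
      exact h4 (if_neg h5)
    · rintro ⟨⟨⟨h1, h2, -⟩, h3⟩, h4⟩
      exact ⟨⟨h1, h2, h3⟩, h4⟩

theorem m3_cross {n₁ n₂ : ℕ} (h : Squarefree (n₁ * n₂)) (h41 : n₁ % 4 = 1) (h42 : n₂ % 4 = 3) :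
    ∑ a ∈ Finset.range n₁, ∑ b ∈ Finset.range n₂, jacobiSym a n₁ * jacobiSym b n₂ *
      crossSum ((a : ℤ), (n₁ : ℤ)) (1, 0) ((b : ℤ), (n₂ : ℤ)) (1, 0) =
      -4 * ∑ m ∈ mRange (n₁ * n₂), MW n₁ n₂ (n₁ * n₂ - 15 * m) m := by
  classical
  have h1 : (0 : ℤ) < n₁ := by omega
  have h2 : (0 : ℤ) < n₂ := by omega
  have hc : IsCoprime (n₂ : ℤ) (1 * n₁) := by
    rw [one_mul]
    exact Nat.isCoprime_iff_coprime.2 (Nat.coprime_of_squarefree_mul h).symm
  simp only [m3_sum (N := n₁ * n₂) one_pos h1 h2 isCoprime_one_right hc (by push_cast; ring), MW]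
  rw [← evalcross_reduce (n₁ * n₂)
    (fun g => W1 n₁ g.1 g.2.1 g.2.2.1 g.2.2.2 * W2 n₂ g.1 g.2.1 g.2.2.1 g.2.2.2)
    (fun a b c d => by simp only [evalcross_W1_neg, evalcross_W2_neg])
    (fun a b c d => by simp only [evalcross_W1_flip h41, evalcross_W2_flip h42, mul_neg])]
  simp only [← evalcross_W1_eq, ← evalcross_W2_eq, Finset.sum_mul_sum]
  simp only [Finset.sum_mul, Finset.mul_sum]
  rw [Finset.sum_comm (s := evalcross_box _)]
  refine Finset.sum_congr rfl fun a _ => ?_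
  rw [Finset.sum_comm (s := evalcross_box _)]
  refine Finset.sum_congr rfl fun b _ => Finset.sum_congr rfl fun g _ => ?_
  ring

theorem m3_cross_two {n : ℕ} (h4 : n % 4 = 3) :
    ∑ b ∈ Finset.range n, jacobiSym b n *
      (crossSum (1, 2) (1, 0) ((b : ℤ), (n : ℤ)) (1, 0) +
        2 * crossSum (0, 1) (1, 0) ((b : ℤ), (n : ℤ)) (1, 0)) =
      -4 * ∑ m ∈ mRange (2 * n), MW 1 n (2 * n - 15 * m) m := by
  classical
  have h2 : (0 : ℤ) < n := by omega
  have h15 : IsCoprime (15 : ℤ) 2 := Int.isCoprime_iff_gcd_eq_one.2 (by norm_num)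
  have hc : IsCoprime (n : ℤ) 2 :=
    Nat.isCoprime_iff_coprime.2 (Nat.coprime_two_right.2 (Nat.odd_iff.2 (by omega)))
  have hW : ∀ a b c d, W1 1 a b c d = 1 := fun a b c d => by simp [W1]
  have key : ∀ b : ℤ, crossSum (1, 2) (1, 0) (b, (n : ℤ)) (1, 0) +
      2 * crossSum (0, 1) (1, 0) (b, (n : ℤ)) (1, 0) = ∑ g ∈ evalcross_box (2 * n),
        (if evalcross_Cb b n g then 1 else 0) * evalcross_c0 g := fun b => by
    rw [two_mul]
    nth_rw 1 [← evalcross_scale1]
    rw [← evalcross_scale2,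
      m3_sum (N := 2 * n) (q := 1) one_pos two_pos h2 isCoprime_one_right
        (by simpa using hc) (by push_cast; ring),
      m3_sum (N := 2 * n) (q := 0) one_pos two_pos h2 isCoprime_one_right
        (by simpa using hc) (by push_cast; ring),
      m3_sum (N := 2 * n) (q := 0) two_pos one_pos h2 h15
        (by simpa using hc) (by push_cast; ring), ← Finset.sum_add_distrib,
      ← Finset.sum_add_distrib]
    refine Finset.sum_congr rfl fun g hg => ?_
    linear_combination (if evalcross_Cb b n g then 1 else 0) * evalcross_c0 g *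
      evalcross_one h4 hg
  simp only [key, MW, hW, one_mul]
  rw [← evalcross_reduce (2 * n) (fun g => W2 n g.1 g.2.1 g.2.2.1 g.2.2.2)
    (fun a b c d => by simp only [evalcross_W2_neg])
    (fun a b c d => by simp only [evalcross_W2_flip h4])]
  simp only [← evalcross_W2_eq, Finset.sum_mul, Finset.mul_sum]
  rw [Finset.sum_comm (s := evalcross_box _)]
  refine Finset.sum_congr rfl fun b _ => Finset.sum_congr rfl fun g _ => ?_
  ring

theorem mCross : S_Cross :=
  ⟨fun _ _ h h41 h42 => m3_cross h h41 h42, fun _ _ h4 => m3_cross_two h4⟩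

end Pool.Agent.P.MP_9c97e9_nt.All
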