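import Pool.Agent.P.MP_9c97e9_nt.All.Defs

/-! The matrix count in closed form, without coprimality to 15. -/

namespace Pool.Agent.P.MP_9c97e9_nt.All

open Finset Pool.Agent.P.MP_8b7eba_nt Pool.Agent.P.MP_8b7eba_nt.BSD15

section m4loc
variable {n p a c d e : ℕ} (hn : Squarefree n) (hp : p ∈ n.primeFactors)
  (ha : a ≠ 0) (hc : c ≠ 0) (hd : d ≠ 0) (he : e ≠ 0) (h1 : p ∣ a * d + 15 * (c * e))
  (h2 : ¬p * p ∣ a * d + 15 * (c * e))
include hn hp ha hc hd he h1 h2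

theorem m4_loc1 : W1 p a (-(e : ℤ)) (15 * c) d = Xp n p (a * d) * (Xp n p a * Xp n p e *
    if p ∣ 15 * (c * e) then cfid_eta n (a * d) (c * e) p * cfid_I p a * cfid_I p c +
      cfid_I p d * cfid_I p e else 1) := by
  have hp' := Nat.prime_of_mem_primeFactors hp
  have e1 : (a : ℤ) * d - -(e : ℤ) * (15 * c) = ((a * d + 15 * (c * e) : ℕ) : ℤ) := by
    push_cast; ring
  have e2 : (p : ℤ) ∣ -(e : ℤ) * (15 * c) ↔ p ∣ 15 * (c * e) := by
    rw [show -(e : ℤ) * (15 * c) = -((15 * (c * e) : ℕ) : ℤ) by push_cast; ring, dvd_neg,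
      Int.natCast_dvd_natCast]
  rw [cfid_W1_loc hp' (by rw [e1]; exact_mod_cast h1) (by rw [e1]; exact_mod_cast h2),
    show -((a : ℤ) * (15 * c)) = -15 * a * c by ring, show -(-(e : ℤ) * d) = e * d by ring]
  simp only [jacobiSym.mul_left, cfid_jac_eq n hp', e2, cfid_eta, (cfid_Xp_CM n p).2 _ _ ha hd,
    (cfid_Xp_CM n p).2 _ _ hc he]
  have s1 := cfid_Xp_sq hn hp ha
  have s2 := cfid_Xp_sq hn hp hd
  have s3 := cfid_Xp_sq hn hp he
  split_ifs with h
  · generalize Xp n p a = xa at *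
    generalize Xp n p d = xd at *
    generalize Xp n p e = xe at *
    have : xa * xd * (xa * xe * (xa * xd * (Xp n p c * xe) * jacobiSym (-15) p * cfid_I p a *
        cfid_I p c + cfid_I p d * cfid_I p e)) = (xa * xa) * ((xd * xd) * (xe * xe) *
          (xa * Xp n p c * jacobiSym (-15) p * cfid_I p a * cfid_I p c) +
          xd * xe * cfid_I p d * cfid_I p e) := by ring
    rw [this, s1, s2, s3]
    ring
  · have h3 : ¬p ∣ d := fun h3 => h ((Nat.dvd_add_right (h3.mul_left a)).1 h1)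
    rw [cfid_I_of h3, cfid_I_of fun h4 => h ((h4.mul_left c).mul_left 15)]
    linear_combination -(Xp n p d * Xp n p e) * s1

theorem m4_loc2 : W2 p a (-(e : ℤ)) (15 * c) d = jacobiSym (-1) p * (Xp n p a * Xp n p e *
    if p ∣ 15 * (c * e) then cfid_eta n (a * d) (c * e) p * cfid_I p d * cfid_I p c +
      cfid_I p a * cfid_I p e else 1) := by
  have hp' := Nat.prime_of_mem_primeFactors hp
  have e1 : (d : ℤ) * -a - -(e : ℤ) * -(15 * c) = -((a * d + 15 * (c * e) : ℕ) : ℤ) := by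
    push_cast; ring
  have e2 : (p : ℤ) ∣ -(e : ℤ) * -(15 * c) ↔ p ∣ 15 * (c * e) := by
    rw [show -(e : ℤ) * -(15 * c) = ((15 * (c * e) : ℕ) : ℤ) by push_cast; ring,
      Int.natCast_dvd_natCast]
  rw [cfid_W2_eq, cfid_W1_symm,
    cfid_W1_loc hp' (by rw [e1, dvd_neg]; exact_mod_cast h1)
      (by rw [e1, dvd_neg]; exact_mod_cast h2),
    show -((d : ℤ) * -(15 * c)) = -1 * -15 * d * c by ring,
    show -(-(e : ℤ) * -a) = -1 * e * a by ring]
  simp only [jacobiSym.mul_left, cfid_jac_eq n hp', e2, cfid_eta, (cfid_Xp_CM n p).2 _ _ ha hd,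
    (cfid_Xp_CM n p).2 _ _ hc he]
  have s1 := cfid_Xp_sq hn hp ha
  have s3 := cfid_Xp_sq hn hp he
  split_ifs with h
  · generalize Xp n p a = xa at *
    generalize Xp n p e = xe at *
    have : jacobiSym (-1) p * (xa * xe * (xa * Xp n p d * (Xp n p c * xe) * jacobiSym (-15) p *
        cfid_I p d * cfid_I p c + cfid_I p a * cfid_I p e)) = jacobiSym (-1) p *
          ((xa * xa) * (xe * xe) * (Xp n p d * Xp n p c * jacobiSym (-15) p * cfid_I p d *
            cfid_I p c) + xa * xe * cfid_I p a * cfid_I p e) := by ring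
    rw [this, s1, s3]
    ring
  · have h3 : ¬p ∣ a := fun h3 => h ((Nat.dvd_add_right (h3.mul_right d)).1 h1)
    rw [cfid_I_of h3, cfid_I_of fun h4 => h ((h4.mul_left c).mul_left 15)]
    ring

end m4loc

theorem m4_term {n₁ n₂ ν a c d e : ℕ} (hn : Squarefree (n₁ * n₂)) (h41 : n₁ % 4 = 1) (h42 : n₂ % 4 = 3)
    (hν : ν = 1 ∨ ν = 2) (ha : a ≠ 0) (hc : c ≠ 0) (hd : d ≠ 0) (he : e ≠ 0)
    (hsum : a * d + 15 * (c * e) = ν * (n₁ * n₂)) :
    W1 n₁ a (-(e : ℤ)) (15 * c) d * W2 n₂ a (-(e : ℤ)) (15 * c) d =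
      -XJ (n₁ * n₂) n₁.primeFactors (a * d) *
        ∑ S ∈ (Nat.gcd (15 * (c * e)) (n₁ * n₂)).primeFactors.powerset,
          (∏ p ∈ (Nat.gcd (15 * (c * e)) (n₁ * n₂)).primeFactors,
            if p ∈ S then cfid_eta (n₁ * n₂) (a * d) (c * e) p else 1) *
          ((XJ (n₁ * n₂) (n₁ * n₂).primeFactors a *
            ∏ p ∈ (Nat.gcd (15 * (c * e)) (n₁ * n₂)).primeFactors,
              if (p ∈ S ↔ p ∣ n₁) then cfid_I p a else cfid_I p d) *
          (XJ (n₁ * n₂) (n₁ * n₂).primeFactors e *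
            ∏ p ∈ (Nat.gcd (15 * (c * e)) (n₁ * n₂)).primeFactors,
              if p ∉ S then cfid_I p e else cfid_I p c)) := by
  have hco : n₁.Coprime n₂ := Nat.coprime_of_squarefree_mul hn
  have hn1 : Squarefree n₁ := hn.squarefree_of_dvd (dvd_mul_right _ _)
  have hn2 : Squarefree n₂ := hn.squarefree_of_dvd (dvd_mul_left _ _)
  have hU := hco.primeFactors_mul
  have hodd : (n₁ * n₂).Coprime 2 := by
    rw [Nat.coprime_two_right, Nat.odd_mul]
    exact ⟨Nat.odd_iff.2 (by omega), Nat.odd_iff.2 (by omega)⟩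
  have H1 : ∀ p ∈ (n₁ * n₂).primeFactors, p ∣ a * d + 15 * (c * e) := fun p hp => by
    rw [hsum]; exact (Nat.dvd_of_mem_primeFactors hp).mul_left _
  have H2 : ∀ p ∈ (n₁ * n₂).primeFactors, ¬p * p ∣ a * d + 15 * (c * e) := fun p hp h1 => by
    have hp' := Nat.prime_of_mem_primeFactors hp
    have h2 : p.Coprime ν := by
      rcases hν with rfl | rfl
      · simp
      · exact hodd.coprime_dvd_left (Nat.dvd_of_mem_primeFactors hp)
    rw [hsum, (h2.mul_left h2).dvd_mul_left] at h1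
    exact hp'.one_lt.ne' (Nat.isUnit_iff.1 (hn p h1))
  let K : ℕ → ℤ := fun p => Xp (n₁ * n₂) p a * Xp (n₁ * n₂) p e *
    if p ∣ 15 * (c * e) then cfid_eta (n₁ * n₂) (a * d) (c * e) p *
      (if p ∣ n₁ then cfid_I p a else cfid_I p d) * cfid_I p c +
      (if p ∣ n₁ then cfid_I p d else cfid_I p a) * cfid_I p e else 1
  have e1 : W1 n₁ a (-(e : ℤ)) (15 * c) d =
      XJ (n₁ * n₂) n₁.primeFactors (a * d) * ∏ p ∈ n₁.primeFactors, K p := by
    rw [cfid_W1_sqf hn1, XJ, ← prod_mul_distrib]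
    refine prod_congr rfl fun p hp => ?_
    have hp' : p ∈ (n₁ * n₂).primeFactors := hU ▸ mem_union_left _ hp
    rw [m4_loc1 hn hp' ha hc hd he (H1 p hp') (H2 p hp')]
    simp only [K, if_pos (Nat.dvd_of_mem_primeFactors hp)]
  have e2 : W2 n₂ a (-(e : ℤ)) (15 * c) d = -∏ p ∈ n₂.primeFactors, K p := by
    have : jacobiSym (-1) n₂ = -1 := by
      rw [jacobiSym.at_neg_one (Nat.odd_iff.2 (by omega)), ZMod.χ₄_nat_three_mod_four h42]
    rw [← neg_one_mul (∏ p ∈ n₂.primeFactors, K p), ← this, cfid_jac_sqf _ hn2, cfid_W2_eq,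
      cfid_W1_sqf hn2, ← prod_mul_distrib]
    refine prod_congr rfl fun p hp => ?_
    have hp' : p ∈ (n₁ * n₂).primeFactors := hU ▸ mem_union_right _ hp
    have h1 : ¬p ∣ n₁ := fun h1 => (Nat.prime_of_mem_primeFactors hp).one_lt.ne'
      (Nat.eq_one_of_dvd_coprimes hco h1 (Nat.dvd_of_mem_primeFactors hp))
    rw [← cfid_W2_eq, m4_loc2 hn hp' ha hc hd he (H1 p hp') (H2 p hp')]
    simp only [K, if_neg h1]
  have e3 : (Nat.gcd (15 * (c * e)) (n₁ * n₂)).primeFactors =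
      (n₁ * n₂).primeFactors.filter fun p => p ∣ 15 * (c * e) := by
    ext p
    simp only [Nat.mem_primeFactors, mem_filter, Nat.dvd_gcd_iff, ne_eq, Nat.gcd_eq_zero_iff,
      hn.ne_zero, and_false, not_false_eq_true, and_true]
    tauto
  rw [e1, e2, mul_neg, neg_mul, mul_assoc, ← prod_union hco.disjoint_primeFactors, ← hU]
  congr 2
  simp only [K]
  rw [prod_mul_distrib, prod_mul_distrib, ← prod_filter, ← e3, cfid_prod_add, mul_sum]
  refine sum_congr rfl fun S _ => ?_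
  generalize (Nat.gcd (15 * (c * e)) (n₁ * n₂)).primeFactors = G
  rw [mul_mul_mul_comm (XJ _ _ a), mul_left_comm, ← prod_mul_distrib (s := G),
    ← prod_mul_distrib (s := G)]
  refine congrArg₂ _ rfl (prod_congr rfl fun p _ => ?_)
  by_cases h1 : p ∈ S <;> by_cases h2 : p ∣ n₁ <;> simp [h1, h2, mul_assoc]

theorem m4_MW_eq {n₁ n₂ ν A m : ℕ} (hn : Squarefree (n₁ * n₂)) (h41 : n₁ % 4 = 1)
    (h42 : n₂ % 4 = 3) (hν : ν = 1 ∨ ν = 2) (hA : 0 < A) (hm : 0 < m)
    (hsum : A + 15 * m = ν * (n₁ * n₂)) :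
    MW n₁ n₂ A m = -CF (n₁ * n₂) n₁.primeFactors A m := by
  have hG : (Nat.gcd (15 * m) (n₁ * n₂)).primeFactors ⊆ (n₁ * n₂).primeFactors :=
    Nat.primeFactors_mono (Nat.gcd_dvd_right _ _) hn.ne_zero
  have hGm : ∀ q ∈ (n₁ * n₂).primeFactors, q ∣ m → q ∈ (Nat.gcd (15 * m) (n₁ * n₂)).primeFactors :=
    fun q hq hqm => Nat.mem_primeFactors.2 ⟨Nat.prime_of_mem_primeFactors hq,
      Nat.dvd_gcd (hqm.mul_left 15) (Nat.dvd_of_mem_primeFactors hq),
      Nat.gcd_ne_zero_right hn.ne_zero⟩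
  have hGA : ∀ q ∈ (n₁ * n₂).primeFactors, q ∣ A → q ∈ (Nat.gcd (15 * m) (n₁ * n₂)).primeFactors :=
    fun q hq hqA => by
      have h1 : q ∣ A + 15 * m := hsum ▸ (Nat.dvd_of_mem_primeFactors hq).mul_left _
      exact Nat.mem_primeFactors.2 ⟨Nat.prime_of_mem_primeFactors hq,
        Nat.dvd_gcd ((Nat.dvd_add_right hqA).1 h1) (Nat.dvd_of_mem_primeFactors hq),
        Nat.gcd_ne_zero_right hn.ne_zero⟩
  have hext : ∏ p ∈ (Nat.gcd (15 * m) (n₁ * n₂)).primeFactors, (cfid_eta (n₁ * n₂) A m p + 1) =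
      ∏ p ∈ (Nat.gcd m (n₁ * n₂)).primeFactors, (cfid_eta (n₁ * n₂) A m p + 1) := by
    symm
    refine prod_subset (Nat.primeFactors_mono (Nat.gcd_dvd_gcd_of_dvd_left _ (dvd_mul_left m 15))
      (Nat.gcd_ne_zero_right hn.ne_zero)) fun p hp hp' => ?_
    have hpp := Nat.prime_of_mem_primeFactors hp
    have h1 := Nat.dvd_gcd_iff.1 (Nat.dvd_of_mem_primeFactors hp)
    have h2 : p ∣ 15 := (hpp.dvd_mul.1 h1.1).resolve_right fun h3 => hp'
      (Nat.mem_primeFactors.2 ⟨hpp, Nat.dvd_gcd h3 h1.2, Nat.gcd_ne_zero_right hn.ne_zero⟩)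
    have h3 : jacobiSym (-15) p = 0 :=
      cfid_jac_zero hpp (dvd_neg.2 (by exact_mod_cast h2))
    simp [cfid_eta, h3]
  have key : MW n₁ n₂ A m = ∑ a ∈ A.divisors, ∑ e ∈ m.divisors,
      -XJ (n₁ * n₂) n₁.primeFactors A *
        ∑ S ∈ (Nat.gcd (15 * m) (n₁ * n₂)).primeFactors.powerset,
          (∏ p ∈ (Nat.gcd (15 * m) (n₁ * n₂)).primeFactors,
            if p ∈ S then cfid_eta (n₁ * n₂) A m p else 1) *
          ((XJ (n₁ * n₂) (n₁ * n₂).primeFactors a *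
            ∏ p ∈ (Nat.gcd (15 * m) (n₁ * n₂)).primeFactors,
              if (p ∈ S ↔ p ∣ n₁) then cfid_I p a else cfid_I p (A / a)) *
          (XJ (n₁ * n₂) (n₁ * n₂).primeFactors e *
            ∏ p ∈ (Nat.gcd (15 * m) (n₁ * n₂)).primeFactors,
              if p ∉ S then cfid_I p e else cfid_I p (m / e))) := by
    refine sum_congr rfl fun a ha => ?_
    rw [← Nat.sum_div_divisors]
    refine sum_congr rfl fun e he => ?_
    have h1 := Nat.mul_div_cancel' (Nat.dvd_of_mem_divisors ha)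
    have h2 := Nat.div_mul_cancel (Nat.dvd_of_mem_divisors he)
    have := m4_term (a := a) (c := m / e) (d := A / a) (e := e) hn h41 h42 hν
      (Nat.pos_of_mem_divisors ha).ne' (fun h0 => by rw [h0] at h2; omega)
      (fun h0 => by rw [h0] at h1; omega) (Nat.pos_of_mem_divisors he).ne' (by rw [h1, h2, hsum])
    rw [h1, h2] at this
    rw [Nat.div_div_self (Nat.dvd_of_mem_divisors he) hm.ne', this]
  rw [key]
  simp only [← mul_sum]
  rw [CF, neg_mul, mul_assoc, mul_assoc]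
  congr 2
  simp only [sum_comm (s := m.divisors)]
  rw [sum_comm]
  simp only [← mul_sum, ← sum_mul]
  simp only [cfid_key hn hA.ne' hG hGA, cfid_key hn hm.ne' hG hGm]
  rw [← sum_mul, ← cfid_prod_add, hext]
  simp only [cfid_eta, add_comm]
  ring

theorem mMW : S_MW := fun _ _ _ _ _ hn h41 h42 _ hν hA hm hsum =>
  m4_MW_eq hn h41 h42 hν hA hm hsum

end Pool.Agent.P.MP_9c97e9_nt.All
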