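import Pool.Agent.P.MP_9c97e9_nt.All.Defs

/-! The modular side of the Gross formula when `n` is not prime to 15. -/

namespace Pool.Agent.P.MP_9c97e9_nt.All

open Finset Pool.Agent.P.MP_8b7eba_nt Pool.Agent.P.MP_8b7eba_nt.BSD15

theorem m5_sum (hW : S_MW) {n₁ n₂ ν : ℕ} (h : Squarefree (n₁ * n₂)) (h41 : n₁ % 4 = 1)
    (h42 : n₂ % 4 = 3) (h15 : ¬(n₁ * n₂).Coprime 15) (hν : ν = 1 ∨ ν = 2) :
    ∑ m ∈ mRange (ν * (n₁ * n₂)), MW n₁ n₂ (ν * (n₁ * n₂) - 15 * m) m =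
      -CFsum (n₁ * n₂) n₁.primeFactors ν := by
  rw [CFsum, ← sum_neg_distrib]
  refine sum_congr rfl fun m hm => ?_
  simp only [mRange, mem_filter, mem_range] at hm
  exact hW _ _ ν _ _ h h41 h42 h15 hν (by omega) hm.2.1 (by omega)

theorem m5_pair (hC : S_Cross) (hE : S_Ends) (hW : S_MW) {n₁ n₂ : ℕ} (h : Squarefree (n₁ * n₂))
    (h41 : n₁ % 4 = 1) (h42 : n₂ % 4 = 3) (h15 : ¬(n₁ * n₂).Coprime 15) :
    ∑ a ∈ range n₁, ∑ b ∈ range n₂, (jacobiSym a n₁ : ℚ) * (jacobiSym b n₂ : ℚ) *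
      BSD15.II ((a : ℤ), (n₁ : ℤ)) (1, 0) ((b : ℤ), (n₂ : ℤ)) (1, 0) =
    ee n₁ n₂ * Bn (n₁ * n₂) + 2 * (CFsum (n₁ * n₂) n₁.primeFactors 1 : ℚ) := by
  have h1 := hC.1 _ _ h h41 h42
  have h2 := hE.1 _ _ h h41 h42 h15
  have h3 := m5_sum hW h h41 h42 h15 (Or.inl rfl)
  rw [one_mul] at h3
  rw [h3] at h1
  have h1' := congrArg (Int.cast : ℤ → ℚ) h1
  push_cast at h1'
  simp only [BSD15.II, mul_add, sum_add_distrib]
  rw [h2]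
  have : ∑ a ∈ range n₁, ∑ b ∈ range n₂, (jacobiSym a n₁ : ℚ) * (jacobiSym b n₂ : ℚ) *
        ((crossSum ((a : ℤ), (n₁ : ℤ)) (1, 0) ((b : ℤ), (n₂ : ℤ)) (1, 0) : ℚ) / 2) =
      (∑ a ∈ range n₁, ∑ b ∈ range n₂, (jacobiSym a n₁ : ℚ) * (jacobiSym b n₂ : ℚ) *
        (crossSum ((a : ℤ), (n₁ : ℤ)) (1, 0) ((b : ℤ), (n₂ : ℤ)) (1, 0) : ℚ)) / 2 := by
    simp only [sum_div, mul_div_assoc]
  rw [this, h1']
  ring

theorem mMod (hP : S_PL) (hC : S_Cross) (hE : S_Ends) (hW : S_MW) : S_Mod := by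
  refine ⟨fun n₁ n₂ h hn h41 h42 h15 => ?_, fun n h h4 h15 => ?_⟩
  · rw [← m5_pair hC hE hW h h41 h42 h15, hP.1 _ _ h.of_mul_left h.of_mul_right hn h41 h42]
  have h' : Squarefree (1 * n) := by rwa [one_mul]
  have h15' : ¬(1 * n).Coprime 15 := by rwa [one_mul]
  have e1 := m5_pair hC hE hW h' rfl h4 h15'
  have e2 := hE.1 _ _ h' rfl h4 h15'
  have e3 := hE.2 _ h h4 h15
  have e4 := hC.2 _ h h4
  have e5 := m5_sum hW h' rfl h4 h15' (Or.inr rfl)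
  simp only [one_mul, Nat.primeFactors_one, range_one, sum_singleton,
    jacobiSym.one_right, Int.cast_one, Nat.cast_zero, Nat.cast_one] at e1 e2 e5
  rw [e5] at e4
  have e4' := congrArg (Int.cast : ℤ → ℚ) e4
  push_cast at e4'
  rw [← hP.2 _ h h4]
  have : ∑ b ∈ range n, (jacobiSym b n : ℚ) *
      (BSD15.II (1, 2) (1, 0) ((b : ℤ), (n : ℤ)) (1, 0) -
        BSD15.II (0, 1) (1, 0) ((b : ℤ), (n : ℤ)) (1, 0)) =
      (∑ b ∈ range n, (jacobiSym b n : ℚ) *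
        ((crossSum (1, 2) (1, 0) ((b : ℤ), (n : ℤ)) (1, 0) : ℚ) +
          2 * crossSum (0, 1) (1, 0) ((b : ℤ), (n : ℤ)) (1, 0))) / 2 +
      ∑ b ∈ range n, (jacobiSym b n : ℚ) * endSum (1, 2) (1, 0) ((b : ℤ), (n : ℤ)) (1, 0) +
      2 * ∑ b ∈ range n, (jacobiSym b n : ℚ) * endSum (0, 1) (1, 0) ((b : ℤ), (n : ℤ)) (1, 0) -
      3 * ∑ b ∈ range n, (jacobiSym b n : ℚ) *
        BSD15.II (0, 1) (1, 0) ((b : ℤ), (n : ℤ)) (1, 0) := by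
    simp only [sum_div, mul_sum, ← sum_add_distrib, ← sum_sub_distrib]
    refine sum_congr rfl fun b _ => ?_
    simp only [BSD15.II]
    ring
  rw [this, e4', e3, e2, e1]
  ring

end Pool.Agent.P.MP_9c97e9_nt.All
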