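import Pool.Agent.P.MP_9c97e9_nt.All.Defs

/-! The cusp contributions to the pairing when `gcd (n, 15) > 1`. -/

namespace Pool.Agent.P.MP_9c97e9_nt.All

open Finset Pool.Agent.P.MP_8b7eba_nt Pool.Agent.P.MP_8b7eba_nt.BSD15

theorem me_core {n₁ n₂ : ℕ} (h : Squarefree (n₁ * n₂)) (h41 : n₁ % 4 = 1) (h42 : n₂ % 4 = 3) :
    ∑ a ∈ Finset.range n₁, (jacobiSym a n₁ : ℚ) * ∑ b ∈ Finset.range n₂, (jacobiSym b n₂ : ℚ) *
      saw ((((b : ℤ) * n₁ - a * n₂ : ℤ) : ℚ) / ((n₁ * n₂ : ℕ) : ℚ)) = -Bn (n₁ * n₂) := by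
  have p1 : 0 < n₁ := by omega
  have p2 : 0 < n₂ := by omega
  have hn : 1 < n₁ * n₂ := by nlinarith [show 3 ≤ n₂ by omega]
  have hc : IsCoprime (n₁ : ℤ) n₂ :=
    Nat.isCoprime_iff_coprime.2 (Nat.coprime_of_squarefree_mul h)
  have o1 : Odd n₁ := Nat.odd_iff.2 (by omega)
  have o2 : Odd n₂ := Nat.odd_iff.2 (by omega)
  have hJ : ∀ a b : ℤ, jacobiSym (b * n₁ - a * n₂) (n₁ * n₂) =
      jacobiSym a n₁ * jacobiSym b n₂ := by
    intro a b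
    rw [jacobiSym.mul_right' _ p1.ne' p2.ne',
      evalends_J (m := n₁) (a := b * n₁ - a * n₂) (b := -1 * a * n₂) ⟨b, by ring⟩,
      evalends_J (m := n₂) (a := b * n₁ - a * n₂) (b := b * n₁) ⟨-a, by ring⟩,
      jacobiSym.mul_left, jacobiSym.mul_left, jacobiSym.mul_left, jacobiSym.at_neg_one o1,
      ZMod.χ₄_nat_one_mod_four h41, jacobiSym.quadratic_reciprocity_one_mod_four h41 o2]
    linear_combination (jacobiSym a n₁ * jacobiSym b n₂) * evalends_sq hc.symm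
  rw [← sum_jacobi_saw hn (o1.mul o2) h]
  simp only [Finset.mul_sum]
  rw [← Finset.sum_product']
  have hm1 : IsCoprime (-1 : ℤ) ((n₁ * n₂ : ℕ) : ℤ) := isCoprime_one_left.neg_left
  refine evalends_rel _ _
    (fun (x : ℕ × ℕ) (c : ℕ) => ((n₁ * n₂ : ℕ) : ℤ) ∣ -1 * c + ((x.2 : ℤ) * n₁ - x.1 * n₂))
    _ _ ?_ ?_ ?_ ?_ ?_
  · intro x _ _
    exact evalends_ex (by omega) hm1 _
  · intro x _ c hc' c' hc'' h1 h2
    exact evalends_uniq hm1 hc' hc'' h1 h2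
  · intro c _ _
    obtain ⟨a, ha, hda⟩ := evalends_ex p1 hc.symm.neg_left (-c)
    obtain ⟨b, hb, hdb⟩ := evalends_ex p2 hc (-c)
    refine ⟨(a, b), Finset.mem_product.2 ⟨ha, hb⟩, ?_⟩
    push_cast
    refine hc.mul_dvd ?_ ?_
    · convert dvd_add hda (dvd_mul_left (n₁ : ℤ) b) using 1; ring
    · convert dvd_sub hdb (dvd_mul_left (n₂ : ℤ) a) using 1; ring
  · rintro c _ ⟨a, b⟩ hx ⟨a', b'⟩ hx' h1 h2
    obtain ⟨ha, hb⟩ := Finset.mem_product.1 hx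
    obtain ⟨ha', hb'⟩ := Finset.mem_product.1 hx'
    push_cast at h1 h2
    have k1 : ∀ a b : ℕ, (n₁ : ℤ) * n₂ ∣ -1 * c + ((b : ℤ) * n₁ - a * n₂) →
        (n₁ : ℤ) ∣ -n₂ * a + -c := fun a b h => by
      have h' := dvd_sub ((dvd_mul_right (n₁ : ℤ) n₂).trans h) (dvd_mul_left (n₁ : ℤ) b)
      rwa [show -1 * (c : ℤ) + ((b : ℤ) * n₁ - a * n₂) - b * n₁ = -n₂ * a + -c by ring] at h'
    have k2 : ∀ a b : ℕ, (n₁ : ℤ) * n₂ ∣ -1 * c + ((b : ℤ) * n₁ - a * n₂) →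
        (n₂ : ℤ) ∣ n₁ * b + -c := fun a b h => by
      have h' := dvd_add ((dvd_mul_left (n₂ : ℤ) n₁).trans h) (dvd_mul_left (n₂ : ℤ) a)
      rwa [show -1 * (c : ℤ) + ((b : ℤ) * n₁ - a * n₂) + a * n₂ = n₁ * b + -c by ring] at h'
    exact Prod.ext (evalends_uniq hc.symm.neg_left ha ha' (k1 a b h1) (k1 a' b' h2))
      (evalends_uniq hc hb hb' (k2 a b h1) (k2 a' b' h2))
  · rintro ⟨a, b⟩ _ c _ hR
    have hR' : ((n₁ * n₂ : ℕ) : ℤ) ∣ ((b : ℤ) * n₁ - a * n₂) - c := by convert hR using 1; ring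
    have h1 := evalends_saw (by omega) hR' 0
    rw [add_zero, add_zero] at h1
    rw [← evalends_J hR', hJ, h1]
    push_cast
    ring

theorem me_half {n : ℕ} (h : Squarefree n) (h4 : n % 4 = 3) :
    ∑ b ∈ Finset.range n, (jacobiSym b n : ℚ) * saw (((b : ℤ) : ℚ) / n + -(1 / 2)) =
      -(((jacobiSym 2 n : ℚ) - 1) * Bn n) := by
  have hn : 1 < n := by omega
  have ho : Odd n := Nat.odd_iff.2 (by omega)
  have c2 : IsCoprime (2 : ℤ) n := by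
    exact_mod_cast Nat.isCoprime_iff_coprime.2 (Nat.coprime_two_left.2 ho)
  have hB := sum_jacobi_saw hn ho h
  have h2 : ∑ b ∈ Finset.range n, (jacobiSym b n : ℚ) * saw (((2 * b : ℤ) : ℚ) / n + 0) =
      ∑ c ∈ Finset.range n, (jacobiSym 2 n : ℚ) * ((jacobiSym c n : ℚ) * saw ((c : ℚ) / n)) := by
    have hm1 : IsCoprime (-1 : ℤ) (n : ℤ) := isCoprime_one_left.neg_left
    refine evalends_rel _ _ (fun b c : ℕ => (n : ℤ) ∣ 2 * b + -c) _ _ ?_ ?_ ?_ ?_ ?_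
    · intro b _ _
      obtain ⟨c, hc, hd⟩ := evalends_ex (by omega) hm1 (2 * b)
      exact ⟨c, hc, by convert hd using 1; ring⟩
    · intro b _ c hc c' hc' h1 h2
      exact evalends_uniq hm1 (v := 2 * b) hc hc' (by convert h1 using 1; ring)
        (by convert h2 using 1; ring)
    · intro c _ _
      exact evalends_ex (by omega) c2 _
    · intro c _ b hb b' hb' h1 h2
      exact evalends_uniq c2 hb hb' h1 h2
    · intro b _ c _ hR
      have hR' : (n : ℤ) ∣ 2 * b - c := hR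
      have hJ := evalends_J hR'
      rw [jacobiSym.mul_left] at hJ
      have h3 : jacobiSym b n = jacobiSym 2 n * jacobiSym c n := by
        linear_combination (jacobiSym 2 n) * hJ - jacobiSym b n * evalends_sq c2
      rw [evalends_saw (by omega) hR' 0, h3]
      push_cast
      rw [add_zero]
      ring
  rw [← Finset.mul_sum, hB] at h2
  have h3 : ∀ b : ℕ, saw (((b : ℤ) : ℚ) / n + -(1 / 2)) =
      saw (((2 * b : ℤ) : ℚ) / n + 0) - saw ((b : ℚ) / n) := by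
    intro b
    have e1 := saw_add_half ((b : ℚ) / n)
    have e2 := saw_add_int (((b : ℤ) : ℚ) / n + -(1 / 2)) 1
    rw [show ((b : ℤ) : ℚ) / n + -(1 / 2) + ((1 : ℤ) : ℚ) = (b : ℚ) / n + 1 / 2 by
      push_cast; ring] at e2
    rw [show ((2 * b : ℤ) : ℚ) / n + 0 = 2 * ((b : ℚ) / n) by push_cast; ring, ← e1, e2]
    ring
  simp only [h3, mul_sub, Finset.sum_sub_distrib]
  rw [h2, hB]
  ring

/-- reindexing by `a ↦ -a⁻¹` -/
theorem me_inv {m : ℕ} (hm : 0 < m) (φ ψ : ℕ → ℚ)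
    (h : ∀ a a' : ℕ, (m : ℤ) ∣ a * a' + 1 → φ a = ψ a') :
    ∑ a ∈ range m, (jacobiSym a m : ℚ) * φ a =
      (jacobiSym (-1) m : ℚ) * ∑ a ∈ range m, (jacobiSym a m : ℚ) * ψ a := by
  rw [Finset.mul_sum]
  have cop : ∀ a a' : ℕ, (m : ℤ) ∣ a * a' + 1 → IsCoprime (a : ℤ) m := by
    rintro a a' ⟨k, hk⟩
    exact ⟨-a', k, by linear_combination -hk⟩
  refine evalends_rel _ _ (fun a a' : ℕ => (m : ℤ) ∣ a * a' + 1) _ _ ?_ ?_ ?_ ?_ ?_
  · intro a _ hf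
    have ha : jacobiSym a m ≠ 0 := fun h0 => hf (by rw [h0]; simp)
    exact evalends_ex hm (evalends_cop hm ha) 1
  · intro a _ c hc c' hc' h1 h2
    exact evalends_uniq (cop a c h1) hc hc' h1 h2
  · intro c _ hg
    have hc : jacobiSym c m ≠ 0 := fun h0 => hg (by rw [h0]; simp)
    obtain ⟨a, ha, hd⟩ := evalends_ex hm (evalends_cop hm hc) 1
    exact ⟨a, ha, by rwa [mul_comm] at hd⟩
  · intro c _ a ha a' ha' h1 h2
    rw [mul_comm] at h1 h2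
    exact evalends_uniq (cop c a h1) ha ha' h1 h2
  · intro a _ c _ hR
    have h1 := evalends_J (a := (a : ℤ) * c) (b := -1) (by rwa [sub_neg_eq_add])
    rw [jacobiSym.mul_left] at h1
    have h2 := evalends_sq (cop c a (by rwa [mul_comm]))
    have h3 : jacobiSym a m = jacobiSym (-1) m * jacobiSym c m := by
      linear_combination (jacobiSym c m) * h1 - (jacobiSym a m) * h2
    rw [h a c hR, h3]
    push_cast
    ring

/-- the basic sawtooth value -/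
def me_s (n₁ n₂ a b : ℤ) : ℚ := saw (((b * n₁ - a * n₂ : ℤ) : ℚ) / (n₁ * n₂))

theorem me_E1 {a b n₁ n₂ : ℤ} (ha : IsCoprime a n₁) (hb : IsCoprime b n₂)
    (h : Int.gcd n₁ 15 ≠ Int.gcd n₂ 15) : endT (a, n₁) (1, 0) (b, n₂) (1, 0) = 0 :=
  endT_of_not _ _ fun hg => h ((equiv_iff (x := (a, n₁)) (y := (b, n₂)) ha hb).1 hg)

theorem me_gcd {n : ℤ} (h : Int.gcd n 15 = Int.gcd 0 15) : 15 ∣ n := by
  have h1 : ((Int.gcd n 15 : ℕ) : ℤ) ∣ n := Int.gcd_dvd_left _ _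
  rw [h] at h1
  simpa using h1

theorem me_E2z {a n₁ : ℤ} (y : V) (ha : IsCoprime a n₁) (h : ¬15 ∣ n₁) :
    endT (a, n₁) (1, 0) (1, 0) y = 0 :=
  endT_of_not _ _ fun hg => h (me_gcd ((equiv_iff (x := (a, n₁)) ha evalends_prim_inf).1 hg))

theorem me_E3z {b n₂ : ℤ} (x : V) (hb : IsCoprime b n₂) (h : ¬15 ∣ n₂) :
    endT (1, 0) x (b, n₂) (1, 0) = 0 :=
  endT_of_not _ _ fun hg =>
    h (me_gcd ((equiv_iff (y := (b, n₂)) evalends_prim_inf hb).1 hg).symm)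

theorem me_E2 {a a' n₁ : ℤ} (b n₂ : ℤ) (ha : n₁ ∣ a * a' + 1) (h : 15 ∣ n₁) :
    endT (a, n₁) (1, 0) (1, 0) (b, n₂) = me_s n₁ n₂ a' b := by
  obtain ⟨k, hk⟩ := ha
  have pa : Prim (a, n₁) := ⟨-a', k, by linear_combination -hk⟩
  let g : Gam := ⟨a, -k, n₁, -a', by linear_combination -hk, h⟩
  have d1 : dt (a, n₁) (g.act (b, n₂)) = n₂ := by
    simp only [dt, Gam.act, g]; linear_combination (-n₂) * hk
  have d2 : dt (g.act (b, n₂)) (1, 0) = -(b * n₁ - a' * n₂) := by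
    simp only [dt, Gam.act, g]; ring
  have d3 : dt (a, n₁) (1, 0) = -n₁ := by simp [dt]
  have d4 : width (a, n₁) = 1 := by
    obtain ⟨c, rfl⟩ := h
    simp [width]
  rw [endT_eq (1, 0) (b, n₂) pa g (by simp [Gam.act, g]), BSD15.dl, d1, d2, d3, d4, me_s]
  congr 1
  push_cast
  ring

theorem me_E3 {b b' n₂ : ℤ} (a n₁ : ℤ) (hb : n₂ ∣ b * b' + 1) (h : 15 ∣ n₂) :
    endT (1, 0) (a, n₁) (b, n₂) (1, 0) = me_s n₁ n₂ a b' := by
  obtain ⟨k, hk⟩ := hb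
  let g : Gam := ⟨-b', k, -n₂, b, by linear_combination -hk, h.neg_right⟩
  have hg : g.act (b, n₂) = (1, 0) := by
    refine Prod.ext ?_ ?_ <;> simp only [Gam.act, g]
    · linear_combination -hk
    · ring
  rw [endT_eq (a, n₁) (1, 0) evalends_prim_inf g hg, me_s]
  congr 1
  simp only [BSD15.dl, dt, Gam.act, width, g]
  norm_num
  ring

theorem me_E4 (a b n₁ n₂ : ℤ) : endT (1, 0) (a, n₁) (1, 0) (b, n₂) = me_s n₁ n₂ a b := by
  rw [endT_eq (x := (1, 0)) (y := (1, 0)) (a, n₁) (b, n₂) evalends_prim_inf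
      ⟨1, 0, 0, 1, by norm_num, dvd_zero _⟩ (by simp [Gam.act]), me_s]
  congr 1
  simp only [BSD15.dl, dt, Gam.act, width]
  norm_num
  ring

theorem me_zero {m : ℕ} (hm : 0 < m) (φ : ℕ → ℚ) (h : ∀ a : ℕ, IsCoprime (a : ℤ) m → φ a = 0) :
    ∑ a ∈ range m, (jacobiSym a m : ℚ) * φ a = 0 := by
  refine Finset.sum_eq_zero fun a _ => ?_
  by_cases ha : jacobiSym a m = 0
  · rw [ha]; simp
  · rw [h a (evalends_cop hm ha), mul_zero]

/-- the third term summed over `b` -/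
theorem me_sum3 (a n₁ : ℤ) {n₂ : ℕ} (h4 : n₂ % 4 = 3) :
    ∑ b ∈ range n₂, (jacobiSym b n₂ : ℚ) * endT (1, 0) (a, n₁) ((b : ℤ), (n₂ : ℤ)) (1, 0) =
      (if 15 ∣ n₂ then -1 else 0) * ∑ b ∈ range n₂, (jacobiSym b n₂ : ℚ) * me_s n₁ n₂ a b := by
  have p2 : 0 < n₂ := by omega
  split_ifs with h
  · rw [me_inv p2 _ (fun b => me_s n₁ n₂ a b)
      fun b b' hb => me_E3 a n₁ hb (by exact_mod_cast h),
      jacobiSym.at_neg_one (Nat.odd_iff.2 (by omega)), ZMod.χ₄_nat_three_mod_four h4]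
    push_cast
    rfl
  · rw [zero_mul]
    exact me_zero p2 _ fun b hb => me_E3z _ hb (by exact_mod_cast h)

theorem me_gcd_ne {n₁ n₂ : ℕ} (hc : n₁.Coprime n₂) (h : ¬(n₁ * n₂).Coprime 15) :
    Int.gcd (n₁ : ℤ) 15 ≠ Int.gcd (n₂ : ℤ) 15 := by
  intro e
  have e' : Nat.gcd n₁ 15 = Nat.gcd n₂ 15 := by simpa [Int.gcd] using e
  have h1 : Nat.gcd n₁ 15 = 1 :=
    Nat.eq_one_of_dvd_coprimes hc (Nat.gcd_dvd_left _ _) (e' ▸ Nat.gcd_dvd_left _ _)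
  exact h (Nat.Coprime.mul_left h1 (e'.symm.trans h1))

theorem me_first {n₁ n₂ : ℕ} (h : Squarefree (n₁ * n₂)) (h41 : n₁ % 4 = 1) (h42 : n₂ % 4 = 3)
    (h15 : ¬(n₁ * n₂).Coprime 15) :
    ∑ a ∈ range n₁, ∑ b ∈ range n₂, (jacobiSym a n₁ : ℚ) * (jacobiSym b n₂ : ℚ) *
      endSum ((a : ℤ), (n₁ : ℤ)) (1, 0) ((b : ℤ), (n₂ : ℤ)) (1, 0) = ee n₁ n₂ * Bn (n₁ * n₂) := by
  have p1 : 0 < n₁ := by omega
  have p2 : 0 < n₂ := by omega
  have hc := Nat.coprime_of_squarefree_mul h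
  have core : ∑ a ∈ range n₁, (jacobiSym a n₁ : ℚ) * ∑ b ∈ range n₂, (jacobiSym b n₂ : ℚ) *
      me_s n₁ n₂ a b = -Bn (n₁ * n₂) := by
    simpa only [me_s, Nat.cast_mul, Int.cast_natCast] using me_core h h41 h42
  have t1 : ∑ a ∈ range n₁, (jacobiSym a n₁ : ℚ) * ∑ b ∈ range n₂, (jacobiSym b n₂ : ℚ) *
      endT ((a : ℤ), (n₁ : ℤ)) (1, 0) ((b : ℤ), (n₂ : ℤ)) (1, 0) = 0 :=
    me_zero p1 _ fun a ha => me_zero p2 _ fun b hb => me_E1 ha hb (me_gcd_ne hc h15)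
  have t2 : ∑ a ∈ range n₁, (jacobiSym a n₁ : ℚ) * ∑ b ∈ range n₂, (jacobiSym b n₂ : ℚ) *
      endT ((a : ℤ), (n₁ : ℤ)) (1, 0) (1, 0) ((b : ℤ), (n₂ : ℤ)) =
      (if 15 ∣ n₁ then -1 else 0) * Bn (n₁ * n₂) := by
    split_ifs with h1
    · rw [me_inv p1 _ (fun a => ∑ b ∈ range n₂, (jacobiSym b n₂ : ℚ) * me_s n₁ n₂ a b)
        fun a a' ha => Finset.sum_congr rfl fun b _ => by
          rw [me_E2 _ _ ha (by exact_mod_cast h1)],
        core, jacobiSym.at_neg_one (Nat.odd_iff.2 (by omega)), ZMod.χ₄_nat_one_mod_four h41]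
      push_cast
      ring
    · rw [zero_mul]
      refine me_zero p1 _ fun a ha => Finset.sum_eq_zero fun b _ => ?_
      rw [me_E2z _ ha (by exact_mod_cast h1), mul_zero]
  have t3 : ∑ a ∈ range n₁, (jacobiSym a n₁ : ℚ) * ∑ b ∈ range n₂, (jacobiSym b n₂ : ℚ) *
      endT (1, 0) ((a : ℤ), (n₁ : ℤ)) ((b : ℤ), (n₂ : ℤ)) (1, 0) =
      (if 15 ∣ n₂ then 1 else 0) * Bn (n₁ * n₂) := by
    simp only [me_sum3 _ _ h42, mul_left_comm _ (ite _ _ _ : ℚ)]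
    rw [← Finset.mul_sum, core]
    split_ifs <;> ring
  have t4 : ∑ a ∈ range n₁, (jacobiSym a n₁ : ℚ) * ∑ b ∈ range n₂, (jacobiSym b n₂ : ℚ) *
      endT (1, 0) ((a : ℤ), (n₁ : ℤ)) (1, 0) ((b : ℤ), (n₂ : ℤ)) = -Bn (n₁ * n₂) := by
    simpa only [me_E4] using core
  have he : ee n₁ n₂ = (if 15 ∣ n₁ then -1 else 0) + (if 15 ∣ n₂ then 1 else 0) + 1 := by
    unfold ee
    by_cases h1 : 15 ∣ n₁ <;> by_cases h2 : 15 ∣ n₂
    · have := Nat.eq_one_of_dvd_coprimes hc h1 h2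
      omega
    all_goals simp [h1, h2]
    norm_num
  rw [he]
  simp only [Finset.mul_sum] at t1 t2 t3 t4
  simp only [endSum, mul_add, mul_sub, mul_neg, Finset.sum_add_distrib, Finset.sum_sub_distrib,
    Finset.sum_neg_distrib, mul_assoc]
  rw [t1, t2, t3, t4]
  ring

theorem me_second {n : ℕ} (h : Squarefree n) (h4 : n % 4 = 3) (h15 : ¬n.Coprime 15) :
    ∑ b ∈ range n, (jacobiSym b n : ℚ) * endSum (1, 2) (1, 0) ((b : ℤ), (n : ℤ)) (1, 0) =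
      ee 1 n * ((jacobiSym 2 n : ℚ) - 1) * Bn n := by
  have p : 0 < n := by omega
  have hq : (n : ℚ) ≠ 0 := by exact_mod_cast p.ne'
  have half : ∑ b ∈ range n, (jacobiSym b n : ℚ) * me_s 2 n 1 b =
      -(((jacobiSym 2 n : ℚ) - 1) * Bn n) := by
    rw [← me_half h h4]
    refine Finset.sum_congr rfl fun b _ => ?_
    unfold me_s
    congr 2
    push_cast
    field_simp
    ring
  have t1 : ∑ b ∈ range n, (jacobiSym b n : ℚ) * endT (1, 2) (1, 0) ((b : ℤ), (n : ℤ)) (1, 0) = 0 :=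
    me_zero p _ fun b hb => me_E1 isCoprime_one_left hb fun e => h15 (by
      have e' : Nat.gcd n 15 = 1 := by simpa [Int.gcd] using e.symm
      exact e')
  have t2 : ∀ y : V, endT (1, 2) (1, 0) (1, 0) y = 0 := fun y =>
    me_E2z y isCoprime_one_left (by norm_num)
  have t3 := me_sum3 1 2 h4
  have he : ee 1 n = (if 15 ∣ n then 1 else 0) + 1 := by
    unfold ee
    split_ifs <;> first | omega | norm_num
  simp only [endSum, t2, me_E4, mul_add, mul_sub, mul_neg, add_zero,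
    Finset.sum_add_distrib, Finset.sum_sub_distrib, Finset.sum_neg_distrib]
  rw [t1, t3, half, he]
  split_ifs <;> ring

theorem mEnds : S_Ends :=
  ⟨fun _ _ h h41 h42 h15 => me_first h h41 h42 h15, fun _ h h4 h15 => me_second h h4 h15⟩

end Pool.Agent.P.MP_9c97e9_nt.All
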