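import Pool.Agent.P.MP_9c97e9_nt.All.Defs

/-! Auxiliary ideals and Hadamard sums. -/

namespace Pool.Agent.P.MP_9c97e9_nt.All

open Finset Pool.Agent.P.MP_8b7eba_nt Pool.Agent.P.MP_8b7eba_nt.BSD15

section
variable {n : ℕ} [Good n]

theorem q0_ram {d : ℕ} (hd : d ∣ n) :
    ∃ D : Ideal (OO n), nm D = d ∧ cj D = D ∧ (∀ z ∈ D, (d : ℤ) ∣ 2 * z.re + z.im) ∧
      del n ∈ D := by
  have h0 : (n : ZMod d) = 0 := (ZMod.natCast_eq_zero_iff _ _).2 hd
  have h4 := qcount_four_k' (n := n) d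
  rw [h0, zero_add] at h4
  set k : ZMod d := (((n + 1) / 4 : ℕ) : ZMod d) with hk
  have ht : (2 * k) * (2 * k) = 2 * k - k := by linear_combination k * h4
  refine ⟨RingHom.ker (qcount_phi n (2 * k) ht), qcount_nm_ker ht, ?_, fun z hz => ?_, ?_⟩
  · ext z
    rw [mem_cj, qcount_mem_ker, qcount_mem_ker]
    simp only [QuadraticAlgebra.re_star, QuadraticAlgebra.im_star]
    push_cast
    constructor
    · intro h; linear_combination h + (z.im : ZMod d) * h4
    · intro h; linear_combination h - (z.im : ZMod d) * h4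
  · rw [qcount_mem_ker] at hz
    rw [← ZMod.intCast_zmod_eq_zero_iff_dvd]
    push_cast
    linear_combination 2 * hz - (z.im : ZMod d) * h4
  · rw [qcount_mem_ker]
    simp only [del]
    push_cast
    linear_combination h4

theorem q0_crt {g m e : ℕ} (hn : g * m = n) (hg : n.gcd 15 = g) (he : g * e = 15) (s : ℤ)
    (hJ : jacobiSym s g * jacobiSym (-(e : ℤ)) m = 1) :
    ∃ G F : Ideal (OO n), Aux G F ∧ ((nm F : ℕ) : ℤ) ≡ s [ZMOD g] := by
  have hn0 : n ≠ 0 := genus_ne_zero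
  have hg0 : g ≠ 0 := by rintro rfl; simp at he
  have hm0 : m ≠ 0 := by rintro rfl; exact hn0 (by simpa using hn.symm)
  have hcop : g.Coprime m := Nat.coprime_of_squarefree_mul (hn ▸ Good.sq (n := n))
  obtain ⟨u, v, huv⟩ := Nat.isCoprime_iff_coprime.2 hcop
  have hn' : (n : ℤ) = g * m := by exact_mod_cast hn.symm
  have he' : (g : ℤ) * e = 15 := by exact_mod_cast he
  set r : ℤ := s * v * m + -(e : ℤ) * u * g with hr
  have r1 : r ≡ s [ZMOD g] :=
    (Int.modEq_iff_dvd.2 ⟨-(e : ℤ) * u - s * u, by rw [hr]; linear_combination s * huv⟩).symm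
  have r2 : r ≡ -(e : ℤ) [ZMOD m] :=
    (Int.modEq_iff_dvd.2 ⟨s * v + e * v, by rw [hr]; linear_combination (-(e : ℤ)) * huv⟩).symm
  have h : jacobiSym r n = 1 := by
    rw [← hn, jacobiSym.mul_right' r hg0 hm0, jacobiSym.mod_left' r1, jacobiSym.mod_left' r2, hJ]
  have hc : IsCoprime r n := by
    rw [Int.isCoprime_iff_gcd_eq_one]
    by_contra hc
    rw [jacobiSym.eq_zero_iff.2 ⟨hn0, hc⟩] at h
    norm_num at h
  obtain ⟨p, -, hp, hpr⟩ := Nat.forall_exists_prime_gt_and_zmodEq 0 hn0 hc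
  have hpJ : jacobiSym p n = 1 := by rw [jacobiSym.mod_left' hpr, h]
  obtain ⟨P, hP, -⟩ := qcount_split (n := n) hp hpJ
  obtain ⟨G, g1, g2, g3, g4⟩ := q0_ram (n := n) (d := g) ⟨m, hn.symm⟩
  refine ⟨G, P, ⟨by rw [g1, hg], g2, by rw [hg]; exact g3, g4, ?_, ?_⟩, ?_⟩
  · rw [hP]
    by_contra hc
    rw [jacobiSym.eq_zero_iff.2 ⟨hn0, by exact_mod_cast hc⟩] at hpJ
    norm_num at hpJ
  · rw [nm_mul, g1, hP]
    have h1 : ((g * p : ℕ) : ℤ) ≡ -15 [ZMOD n] := by
      have h2 : (p : ℤ) ≡ -(e : ℤ) [ZMOD m] := (hpr.of_dvd ⟨g, by rw [hn', mul_comm]⟩).trans r2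
      have h3 := h2.mul_left' (c := (g : ℤ))
      rw [← hn', mul_neg, he'] at h3
      exact_mod_cast h3
    have := (ZMod.intCast_eq_intCast_iff _ _ _).2 h1
    exact_mod_cast this
  · rw [hP]
    exact (hpr.of_dvd ⟨m, hn'⟩).trans r1

theorem q0_one {g e : ℕ} (hg : n.gcd 15 = g) (he : g * e = 15) (hc : e.Coprime n)
    (h2 : jacobiSym 2 g = -1) : ∃ G F : Ideal (OO n), Aux G F := by
  obtain ⟨m, hm⟩ : g ∣ n := hg ▸ Nat.gcd_dvd_left n 15
  have h1 : jacobiSym (-(e : ℤ)) m ^ 2 = 1 := by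
    refine jacobiSym.sq_one ?_
    rw [Int.neg_gcd]
    exact_mod_cast Nat.Coprime.coprime_dvd_right ⟨g, by rw [hm, mul_comm]⟩ hc
  rcases sq_eq_one_iff.1 h1 with h | h
  · obtain ⟨G, F, h3, -⟩ := q0_crt hm.symm hg he 1 (by rw [h]; simp)
    exact ⟨G, F, h3⟩
  · obtain ⟨G, F, h3, -⟩ := q0_crt hm.symm hg he 2 (by rw [h, h2]; simp)
    exact ⟨G, F, h3⟩

theorem q0_no4_iff : No4 n ↔ Desc.RedeiL n := by
  refine ⟨fun h => ?_, Dens.no4_of_redeiL⟩
  obtain ⟨e⟩ := qring_equiv n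
  refine Desc.redeiL_of_classGroup (K := qringK n) (θ := qringHom n (del n)) Good.sq ?_ ?_ Good.h4
    fun c hc => ?_
  · convert QuadraticAlgebra.finrank_eq_two (R := ℚ) (-(((n + 1) / 4 : ℕ) : ℚ)) 1
  · rw [sq, ← map_mul, del_mul_del, map_neg, map_natCast]
  · have h0 : c ^ 4 = 1 := orderOf_dvd_iff_pow_eq_one.1 hc.dvd
    have h1 := h (ClassGroup.mulEquiv e c) (by rw [← map_pow, h0, map_one])
    rw [← map_pow, MulEquiv.map_eq_one_iff] at h1
    have := orderOf_dvd_of_pow_eq_one h1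
    rw [hc] at this
    omega

theorem q0_odd_iff {l : ℕ} (hl : l ∈ n.primeFactors) :
    Odd (univ.filter fun g : ClassGroup (OO n) =>
      ∀ p ∈ n.primeFactors.erase l \ ∅, gch p g = 1).card ↔ Desc.RedeiL n := by
  rw [← q0_no4_iff]
  refine ⟨fun h _ c hc => ?_, fun h => odd_card_squares h hl⟩
  by_contra h2
  refine (Nat.not_even_iff_odd.2 h) (even_card_of_invol _ (fun g => g * c ^ 2) (fun a ha => ?_)
    (fun a _ => by rw [mul_assoc, ← pow_add, hc, mul_one]) fun a _ h => h2 (by simpa using h))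
  simp only [mem_filter, mem_univ, true_and, sdiff_empty] at ha ⊢
  intro p hp
  have hp' := mem_of_mem_erase hp
  rw [gch_mul hp', ha p hp, sq, gch_mul hp', ← sq, gch_sq hp', mul_one]

end

theorem qAux : S_Aux := by
  intro n _
  refine ⟨fun h15 hc => ?_, fun h15 ε hε => ?_⟩
  · have h1 : n.gcd 15 ∣ 15 := Nat.gcd_dvd_right n 15
    have h2 : n.gcd 15 ∣ n := Nat.gcd_dvd_left n 15
    have h3 : n.gcd 15 ≠ 1 := hc
    have h4 : n.gcd 15 ≠ 15 := fun h => h15 (h ▸ h2)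
    have h5 : n.gcd 15 = 3 ∨ n.gcd 15 = 5 := by
      have h6 := Nat.le_of_dvd (by norm_num) h1
      generalize n.gcd 15 = g at h1 h3 h4 h6
      interval_cases g <;> omega
    rcases h5 with h | h
    · rw [h] at h2
      exact q0_one (e := 5) h rfl ((Nat.Prime.coprime_iff_not_dvd Nat.prime_five).2 (by omega))
        (by norm_num)
    · rw [h] at h2
      exact q0_one (e := 3) h rfl ((Nat.Prime.coprime_iff_not_dvd Nat.prime_three).2 (by omega))
        (by norm_num)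
  · have hg : n.gcd 15 = 15 := Nat.gcd_eq_right h15
    obtain ⟨m, hm⟩ := h15
    have h4 := Good.h4 (n := n)
    have h1 : jacobiSym (-((1 : ℕ) : ℤ)) m = 1 := by
      rw [Nat.cast_one, jacobiSym.at_neg_one (Nat.odd_iff.2 (by omega)),
        ZMod.χ₄_nat_one_mod_four (by omega)]
    rcases hε with rfl | rfl
    · obtain ⟨G, F, h3, h5⟩ := q0_crt (e := 1) hm.symm hg rfl 1 (by rw [h1]; simp)
      refine ⟨G, F, h3, ?_, ?_⟩
      · rw [jacobiSym.mod_left' (b := 3) (h5.of_dvd (by norm_num))]; simp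
      · rw [jacobiSym.mod_left' (b := 5) (h5.of_dvd (by norm_num))]; simp
    · obtain ⟨G, F, h3, h5⟩ := q0_crt (e := 1) hm.symm hg rfl 2 (by rw [h1]; norm_num)
      refine ⟨G, F, h3, ?_, ?_⟩
      · rw [jacobiSym.mod_left' (b := 3) (h5.of_dvd (by norm_num))]; norm_num
      · rw [jacobiSym.mod_left' (b := 5) (h5.of_dvd (by norm_num))]; norm_num

theorem qHad : S_Had := by
  classical
  intro n _ k t
  have hP : ∀ (S : Finset (ClassGroup (OO n))) (χ : ClassGroup (OO n) → ℤ),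
      ∑ g ∈ S, χ g * (1 - 2 ^ (k + 1) * t g) =
        ∑ g ∈ S, χ g - 2 ^ (k + 1) * ∑ g ∈ S, χ g * t g := by
    intro S χ
    rw [mul_sum, ← sum_sub_distrib]
    exact sum_congr rfl fun g _ => by ring
  refine ⟨fun l hl => ?_, fun l hl q hq hql => ?_⟩
  · have e := had_gJ (fun g => 1 - 2 ^ (k + 1) * t g) hl (empty_subset _)
    simp only [empty_subset, filter_true, card_empty, tsub_zero] at e
    refine ⟨_, e, ?_⟩
    rw [hP, ← q0_odd_iff hl]
    simp only [gJ, prod_empty, sum_const, nsmul_eq_mul, mul_one]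
    rw [Int.odd_sub, Int.odd_coe_nat]
    have : ∀ w : ℤ, Even (2 ^ (k + 1) * w) := fun w => ⟨2 ^ k * w, by ring⟩
    simp only [this, iff_true]
  · have hT : {q} ⊆ n.primeFactors.erase l := by simp [hql, hq]
    have e := had_gJ (fun g => 1 - 2 ^ (k + 1) * t g) hl hT
    simp only [singleton_subset_iff, card_singleton] at e
    beta_reduce
    rw [e, hP, sum_gJ_sub hl hT (mem_singleton_self q)]
    have h2 : 1 < n.primeFactors.card := one_lt_card.2 ⟨q, hq, l, hl, hql⟩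
    obtain ⟨j, hj⟩ : ∃ j, n.primeFactors.card = j + 2 := ⟨n.primeFactors.card - 2, by omega⟩
    rw [hj]
    generalize (∑ g with (∀ p ∈ n.primeFactors.erase l \ {q}, gch p g = 1), gJ {q} g * t g) = w
    exact ⟨-w, by simp only [Nat.add_succ_sub_one, add_tsub_cancel_right]; ring⟩

end Pool.Agent.P.MP_9c97e9_nt.All
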