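import Pool.Agent.P.MP_9c97e9_nt.All.Defs

/-! The quaternionic side of the Gross formula, with a ramified auxiliary ideal. -/

namespace Pool.Agent.P.MP_9c97e9_nt.All

open Finset Pool.Agent.P.MP_8b7eba_nt Pool.Agent.P.MP_8b7eba_nt.BSD15

variable {n : ℕ} [Good n]

open Classical in
theorem q1_point {F : Ideal (OO n)} (hF : ((nm F : ℕ) : ZMod n) = -15)
    {N : ℕ} (hN : N.Coprime n) {a b : OO n} {m A0 ν : ℕ} (hA0 : A0 + 15 * m = ν * n)
    (ha : a.norm = A0 * N) (hb : b.norm = m * (N * nm F : ℕ)) :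
    ∑ S ∈ n.primeFactors.powerset,
      (if ∀ p ∈ n.primeFactors, grossRp p a = grossSg S p * grossRp p b then (1 : ℤ) else 0) =
      grossW n (15 * m) := by
  have h1 : grossW n (15 * m) = ∏ p ∈ n.primeFactors,
      ((if grossRp p a = -grossRp p b then (1 : ℤ) else 0) +
        if grossRp p a = grossRp p b then (1 : ℤ) else 0) := by
    unfold grossW
    refine Finset.prod_congr rfl fun p hp => ?_
    have hpn := Nat.dvd_of_mem_primeFactors hp
    have hpp := Nat.prime_of_mem_primeFactors hp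
    have : Fact p.Prime := ⟨hpp⟩
    have ea := gross_rp_sq hpn a
    have eb := gross_rp_sq hpn b
    have hf : ((nm F : ℕ) : ZMod p) = -15 := by
      have := congrArg (ZMod.castHom hpn (ZMod p)) hF
      rwa [map_natCast, map_neg, map_ofNat] at this
    have hn0 : ((n : ℕ) : ZMod p) = 0 := (ZMod.natCast_eq_zero_iff _ _).2 hpn
    have hA : ((A0 : ℕ) : ZMod p) = -15 * m := by
      have := congrArg (Nat.cast : ℕ → ZMod p) hA0
      push_cast at this
      rw [hn0] at this
      linear_combination this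
    rw [ha] at ea
    rw [hb] at eb
    push_cast at ea eb
    rw [hA] at ea
    rw [hf] at eb
    have hNp : ((N : ℕ) : ZMod p) ≠ 0 := fun h =>
      hpp.one_lt.ne' (Nat.eq_one_of_dvd_coprimes hN ((ZMod.natCast_eq_zero_iff _ _).1 h) hpn)
    have h2p : (2 : ZMod p) ≠ 0 := fun h =>
      gross_p_odd hp ((Nat.prime_dvd_prime_iff_eq hpp Nat.prime_two).1
        ((ZMod.natCast_eq_zero_iff 2 p).1 (by exact_mod_cast h)))
    by_cases hm : p ∣ 15 * m
    · have hm0 : (15 : ZMod p) * m = 0 := by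
        exact_mod_cast (ZMod.natCast_eq_zero_iff _ _).2 hm
      have ea' : grossRp p a = 0 :=
        pow_eq_zero_iff two_ne_zero |>.1 (by rw [ea]; linear_combination (-(N : ZMod p)) * hm0)
      have eb' : grossRp p b = 0 :=
        pow_eq_zero_iff two_ne_zero |>.1 (by rw [eb]; linear_combination (-(N : ZMod p)) * hm0)
      simp [hm, ea', eb']
    · have hm0 : (15 : ZMod p) * m ≠ 0 := fun h =>
        hm ((ZMod.natCast_eq_zero_iff _ _).1 (by exact_mod_cast h))
      have hb0 : grossRp p b ≠ 0 := by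
        intro h
        rw [h] at eb
        have : (15 : ZMod p) * m * N = 0 := by linear_combination eb
        exact mul_ne_zero hm0 hNp this
      have hne : grossRp p b ≠ -grossRp p b := by
        intro h
        have : 2 * grossRp p b = 0 := by linear_combination h
        exact mul_ne_zero h2p hb0 this
      have hsq : grossRp p a ^ 2 = grossRp p b ^ 2 := by rw [ea, eb]; ring
      rcases sq_eq_sq_iff_eq_or_eq_neg.1 hsq with h | h
      · rw [h]; simp [hm, hne]
      · rw [h]; simp [hm, hne.symm]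
  rw [h1, Finset.prod_add]
  refine Finset.sum_congr rfl fun S hS => ?_
  rw [Finset.prod_boole, Finset.prod_boole, ite_zero_mul_ite_zero, mul_one]
  refine if_congr ?_ rfl rfl
  have hS' := Finset.mem_powerset.1 hS
  constructor
  · intro h
    refine ⟨fun p hp => ?_, fun p hp => ?_⟩
    · have := h p (hS' hp)
      simpa [grossSg, hp] using this
    · have h2 := Finset.mem_sdiff.1 hp
      have := h p h2.1
      simpa [grossSg, h2.2] using this
  · rintro ⟨h2, h3⟩ p hp
    by_cases hpS : p ∈ S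
    · simpa [grossSg, hpS] using h2 p hpS
    · simpa [grossSg, hpS] using h3 p (Finset.mem_sdiff.2 ⟨hp, hpS⟩)

theorem q1_sum_S {F A B : Ideal (OO n)} (hF : ((nm F : ℕ) : ZMod n) = -15) (hF0 : F ≠ ⊥)
    (hA : (nm A).Coprime n) (hB : (nm B).Coprime n) (ν : ℕ) :
    ∑ S ∈ n.primeFactors.powerset, ((grossL (grossSg S) F A B ν).ncard : ℤ) =
      ∑ m ∈ (Finset.range (ν * n + 1)).filter (fun m => 15 * m ≤ ν * n),
        grossW n (15 * m) * (((grossE (A * cj B) (ν * n - 15 * m)).ncard : ℤ) *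
          ((grossE (A * B * F) m).ncard : ℤ)) := by
  classical
  have hT := gross_T_finite hF0 A B ν
  have hNA : nm A ≠ 0 := fun h => ne_bot_of_coprime hA (nm_eq_zero.1 h)
  have hNB : nm B ≠ 0 := fun h => ne_bot_of_coprime hB (nm_eq_zero.1 h)
  have hNF : nm F ≠ 0 := fun h => hF0 (nm_eq_zero.1 h)
  have e1 : nm (A * cj B) = nm A * nm B := by rw [nm_mul, nm_cj]
  have e2 : nm (A * B * F) = nm A * nm B * nm F := by rw [nm_mul, nm_mul]
  have hpos : (0 : ℤ) < (nm A : ℤ) * nm B * nm F := by positivity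
  have h1 : ∀ S, ((grossL (grossSg S) F A B ν).ncard : ℤ) = ∑ x ∈ hT.toFinset,
      (if ∀ p ∈ n.primeFactors, grossRp p x.1 = grossSg S p * grossRp p x.2 then (1 : ℤ) else 0) := by
    intro S
    rw [Finset.sum_boole, ← Set.ncard_coe_finset]
    congr 2
    ext x
    simp [grossL]
  simp only [h1]
  rw [Finset.sum_comm]
  -- decompose along m
  have h2 : hT.toFinset = ((Finset.range (ν * n + 1)).filter (fun m => 15 * m ≤ ν * n)).biUnion
      fun m => (gross_E_finite (A * cj B) (ν * n - 15 * m)).toFinset ×ˢ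
        (gross_E_finite (A * B * F) m).toFinset := by
    ext ⟨a, b⟩
    simp only [Set.Finite.mem_toFinset, Finset.mem_biUnion, Finset.mem_filter, Finset.mem_range,
      Finset.mem_product, grossT, grossE, Set.mem_ofPred_eq, e1, e2]
    constructor
    · rintro ⟨ha, hb, hn⟩
      obtain ⟨k, hk⟩ := nm_dvd_norm hb
      rw [e2] at hk
      push_cast at hk
      have hk0 : 0 ≤ k := by
        have := norm_nonneg' b
        rw [hk] at this
        exact nonneg_of_mul_nonneg_right this hpos |> fun h => by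
          by_contra h2
          push Not at h2
          nlinarith
      obtain ⟨m, rfl⟩ := Int.eq_ofNat_of_zero_le hk0
      have han : a.norm = ((ν * n : ℤ) - 15 * m) * (nm A * nm B) := by
        have hf : (nm F : ℤ) ≠ 0 := by exact_mod_cast hNF
        apply mul_left_cancel₀ hf
        rw [hk] at hn
        linear_combination hn
      have hle : 15 * m ≤ ν * n := by
        have h3 := norm_nonneg' a
        rw [han] at h3
        have h4 : (0 : ℤ) < (nm A : ℤ) * nm B := by positivity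
        have h5 : (0 : ℤ) ≤ (ν * n : ℤ) - 15 * m := by
          by_contra h6
          push Not at h6
          nlinarith
        have : ((15 * m : ℕ) : ℤ) ≤ ((ν * n : ℕ) : ℤ) := by push_cast; linarith
        exact_mod_cast this
      refine ⟨m, ⟨by omega, hle⟩, ⟨ha, ?_⟩, hb, ?_⟩
      · rw [han]; push_cast [Nat.cast_sub hle]; ring
      · rw [hk]; push_cast; ring
    · rintro ⟨m, ⟨_, hlt⟩, ⟨ha, han⟩, hb, hbn⟩
      refine ⟨ha, hb, ?_⟩
      rw [han, hbn]
      push_cast [Nat.cast_sub hlt]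
      ring
  rw [h2, Finset.sum_biUnion]
  · refine Finset.sum_congr rfl fun m hm => ?_
    have hlt := (Finset.mem_filter.1 hm).2
    rw [Finset.sum_congr rfl (g := fun _ => grossW n (15 * m))]
    · rw [Finset.sum_const, Finset.card_product, Set.ncard_eq_toFinset_card _ (gross_E_finite _ _),
        Set.ncard_eq_toFinset_card _ (gross_E_finite _ _), nsmul_eq_mul]
      push_cast; ring
    · rintro ⟨a, b⟩ hx
      simp only [Finset.mem_product, Set.Finite.mem_toFinset, grossE, Set.mem_ofPred_eq, e1,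
        e2] at hx
      exact q1_point hF (Nat.Coprime.mul_left hA hB) (A0 := ν * n - 15 * m) (ν := ν)
        (by omega) hx.1.2 hx.2.2
  · intro m _ m' _ hne
    rw [Function.onFun, Finset.disjoint_left]
    rintro ⟨a, b⟩ hx hy
    simp only [Finset.mem_product, Set.Finite.mem_toFinset, grossE, Set.mem_ofPred_eq, e1,
        e2] at hx hy
    have h3 := hx.2.2.symm.trans hy.2.2
    push_cast at h3
    have := mul_right_cancel₀ hpos.ne' h3
    exact hne (by exact_mod_cast this)

open Classical in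
theorem q1_eta {F : Ideal (OO n)} (hF : ((nm F : ℕ) : ZMod n) = -15) (hF0 : F ≠ ⊥)
    {m A0 ν : ℕ} (hm : m ≠ 0) (hA : A0 ≠ 0) (hA0 : A0 + 15 * m = ν * n) :
    grossW n (15 * m) * (if ∀ p ∈ n.primeFactors, Xp n p A0 * Xp n p m * Xp n p (nm F) = 1
      then (1 : ℤ) else 0) =
    ∏ p ∈ (Nat.gcd (15 * m) n).primeFactors, (1 + Xp n p A0 * Xp n p m * Xp n p (nm F)) := by
  have hn0 := gross_n_pos (n := n)
  rw [← Finset.prod_boole, grossW, ← Finset.prod_mul_distrib]
  have hm' : 15 * m ≠ 0 := by omega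
  have h1 : (Nat.gcd (15 * m) n).primeFactors = n.primeFactors.filter (fun p => p ∣ 15 * m) := by
    rw [Nat.primeFactors_gcd hm' hn0.ne']
    ext p
    simp only [Finset.mem_inter, Nat.mem_primeFactors, Finset.mem_filter]
    tauto
  rw [h1, Finset.prod_filter]
  refine Finset.prod_congr rfl fun p hp => ?_
  have hpn := Nat.dvd_of_mem_primeFactors hp
  have hpp := Nat.prime_of_mem_primeFactors hp
  have : Fact p.Prime := ⟨hpp⟩
  have hf : ((nm F : ℕ) : ZMod p) = -15 := by
    have := congrArg (ZMod.castHom hpn (ZMod p)) hF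
    rwa [map_natCast, map_neg, map_ofNat] at this
  have hj : ∀ a b : ℤ, (a : ZMod p) = b → jacobiSym a p = jacobiSym b p := fun a b h =>
    jacobiSym.mod_left' ((ZMod.intCast_eq_intCast_iff' a b p).1 h)
  have s1 := Xp_sq hp hA
  have s2 := Xp_sq hp hm
  have s3 := Xp_sq hp (A := nm F) fun h => hF0 (nm_eq_zero.1 h)
  by_cases hpm : p ∣ 15 * m
  · simp only [hpm, if_true]
    have h2 : (Xp n p A0 * Xp n p m * Xp n p (nm F)) ^ 2 = 1 := by
      rw [mul_pow, mul_pow, s1, s2, s3]; norm_num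
    rcases sq_eq_sq_iff_eq_or_eq_neg.1 (h2.trans (one_pow 2).symm) with h | h <;> rw [h] <;> norm_num
  · simp only [hpm, if_false]
    have hm0 : (15 : ZMod p) * m ≠ 0 := fun h =>
      hpm ((ZMod.natCast_eq_zero_iff _ _).1 (by exact_mod_cast h))
    have hXF : Xp n p (nm F) = jacobiSym (-15) p := by
      rw [Xp_of_not_dvd n]
      · exact hj _ _ (by push_cast; exact hf)
      · intro h
        rw [(ZMod.natCast_eq_zero_iff _ _).2 h] at hf
        exact left_ne_zero_of_mul hm0 (by linear_combination hf)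
    rw [hXF] at s3 ⊢
    have hn1 : ((n : ℕ) : ZMod p) = 0 := (ZMod.natCast_eq_zero_iff _ _).2 hpn
    have hA1 : ((A0 : ℕ) : ZMod p) = -15 * m := by
      have := congrArg (Nat.cast : ℕ → ZMod p) hA0
      push_cast at this
      rw [hn1] at this
      linear_combination this
    have hpA : ¬ p ∣ A0 := by
      intro h
      rw [(ZMod.natCast_eq_zero_iff _ _).2 h] at hA1
      exact hm0 (by linear_combination hA1)
    have h3 : Xp n p A0 = jacobiSym (-15) p * Xp n p m := by
      rw [Xp_of_not_dvd n hpA, Xp_of_not_dvd n fun h => hpm (Dvd.dvd.mul_left h 15),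
        ← jacobiSym.mul_left]
      exact hj _ _ (by push_cast; exact hA1)
    rw [if_pos]
    · norm_num
    · rw [h3]
      linear_combination (Xp n p m ^ 2) * s3 + s2

theorem q1_term_pos {F : Ideal (OO n)} (hF : ((nm F : ℕ) : ZMod n) = -15) (hF0 : F ≠ ⊥)
    {J : Finset ℕ} (hJ : J ⊆ n.primeFactors) {m A0 ν : ℕ} (hm : m ≠ 0) (hA : A0 ≠ 0)
    (hA0 : A0 + 15 * m = ν * n) :
    grossW n (15 * m) * ∑ s : ClassGroup (OO n), ∑ t : ClassGroup (OO n), gJ J s * gJ J t *
      (((grossE (rep s * cj (rep t)) A0).ncard : ℤ) *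
        ((grossE (rep s * rep t * F) m).ncard : ℤ)) =
      4 * 2 ^ (n.primeFactors.card - 1) * CG n J (nm F) A0 m := by
  classical
  have hk : 0 < A0 := Nat.pos_of_ne_zero hA
  have hk' : 0 < m := Nat.pos_of_ne_zero hm
  have h1 : ∀ s t : ClassGroup (OO n), gJ J s * gJ J t *
      (((grossE (rep s * cj (rep t)) A0).ncard : ℤ) *
        ((grossE (rep s * rep t * F) m).ncard : ℤ)) =
      ∑ A ∈ grossI n A0, gJ J s * gJ J t *
        ((if cls A * (s * t⁻¹) = 1 then (1 : ℤ) else 0) *
          (4 * ∑ B ∈ grossI n m, if cls B * (s * t * cls F) = 1 then (1 : ℤ) else 0)) := by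
    intro s t
    rw [gross_E_card (gross_ne1 s t) hk, gross_E_card (mul_ne_zero (gross_ne2 s t) hF0) hk',
      gross_cls1, gross_cls2 hF0, ← Finset.mul_sum, ← Finset.sum_mul]
    ring
  simp only [h1]
  rw [Finset.sum_congr rfl fun s _ => Finset.sum_comm, Finset.sum_comm]
  rw [Finset.sum_congr rfl (g := fun _ => XJ n J A0 * (4 * (Rn n m *
    (2 ^ (n.primeFactors.card - 1) *
      (if ∀ p ∈ n.primeFactors, Xp n p A0 * Xp n p m * Xp n p (nm F) = 1
      then (1 : ℤ) else 0)))))]
  · rw [Finset.sum_const, nsmul_eq_mul, gross_card_I hk, CG, ← q1_eta hF hF0 hm hA hA0]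
    ring
  · intro A hA'
    have hA1 := (gross_mem_I hk).1 hA'
    have hA0 : A ≠ ⊥ := fun h => hA (hA1 ▸ nm_eq_zero.2 h)
    rw [gross_pair0 hJ (cls A) (fun s t =>
      4 * ∑ B ∈ grossI n m, if cls B * (s * t * cls F) = 1 then (1 : ℤ) else 0),
      gross_gJ_cls hJ hA0, hA1, ← Finset.mul_sum, Finset.sum_comm, ← gross_card_I hk',
      ← nsmul_eq_mul, ← Finset.sum_const]
    congr 2
    refine Finset.sum_congr rfl fun B hB => ?_
    have hB1 := (gross_mem_I hk').1 hB
    have hB0 : B ≠ ⊥ := fun h => hm (hB1 ▸ nm_eq_zero.2 h)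
    have h2 : ∀ s : ClassGroup (OO n),
        cls B * (s * (cls A * s) * cls F) = cls A * cls B * cls F * s ^ 2 := by
      intro s
      rw [sq]
      simp only [mul_comm, mul_left_comm, mul_assoc]
    simp only [h2]
    rw [gross_sq_count, mul_ite, mul_one, mul_zero]
    refine if_congr (forall₂_congr fun p hp => ?_) rfl rfl
    rw [gch_mul hp, gch_mul hp, gch_cls hp hA0, gch_cls hp hB0, gch_cls hp hF0, hA1, hB1]

theorem q1_Rn_mul {d : ℕ} (hd : d ∣ n) (ν : ℕ) (hν : ν ≠ 0) : Rn n (ν * d) = Rn n ν := by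
  unfold Rn
  symm
  have hn0 := gross_n_pos (n := n)
  have hd0 : d ≠ 0 := fun h => hn0.ne' (Nat.eq_zero_of_zero_dvd (h ▸ hd))
  refine Finset.sum_subset (Nat.divisors_subset_of_dvd (mul_ne_zero hν hd0)
    (Dvd.intro _ rfl)) ?_
  intro e he he'
  have : NeZero n := ⟨hn0.ne'⟩
  rw [jacobiSym.eq_zero_iff_not_coprime]
  intro h
  apply he'
  have h1 : e.Coprime n := by simpa [Int.gcd_natCast_natCast] using h
  exact Nat.mem_divisors.2 ⟨(Nat.Coprime.dvd_mul_right (h1.coprime_dvd_right hd)).1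
    (Nat.dvd_of_mem_divisors he), hν⟩

omit [Good n] in
theorem q1_XJ_mul {J : Finset ℕ} (hJ : J ⊆ n.primeFactors) {A B : ℕ} (hA : A ≠ 0) (hB : B ≠ 0) :
    XJ n J (A * B) = XJ n J A * XJ n J B := by
  unfold XJ
  rw [← Finset.prod_mul_distrib]
  exact Finset.prod_congr rfl fun p hp =>
    Xp_mul n (Nat.prime_of_mem_primeFactors (hJ hp)) hA hB

theorem q1_gJ_inv {J : Finset ℕ} (hJ : J ⊆ n.primeFactors) (c : ClassGroup (OO n)) :
    gJ J c⁻¹ = gJ J c :=
  Finset.prod_congr rfl fun _ hp => gross_gch_inv (hJ hp) c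

open Classical in
theorem q1_pair {J : Finset ℕ} (hJ : J ⊆ n.primeFactors) (α β : ClassGroup (OO n)) :
    ∑ s : ClassGroup (OO n), ∑ t : ClassGroup (OO n),
      gJ J s * gJ J t * (if α * (s * t * β) = 1 then (1 : ℤ) else 0) =
      Fintype.card (ClassGroup (OO n)) * (gJ J α * gJ J β) := by
  rw [← Finset.card_univ, ← nsmul_eq_mul, ← Finset.sum_const]
  refine Finset.sum_congr rfl fun s _ => ?_
  have key : ∀ t, α * (s * t * β) = α * s * β * t := fun t => by
    simp only [mul_comm, mul_left_comm]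
  rw [Finset.sum_eq_single (α * s * β)⁻¹]
  · rw [if_pos (by rw [key, mul_inv_cancel]), q1_gJ_inv hJ, gross_gJ_mul hJ, gross_gJ_mul hJ]
    linear_combination (gJ J α * gJ J β) * gross_gJ_sq hJ s
  · intro t _ ht
    rw [if_neg, mul_zero]
    intro h
    rw [key] at h
    exact ht (eq_inv_of_mul_eq_one_right h)
  · simp

theorem q1_term_top {F : Ideal (OO n)} (hF0 : F ≠ ⊥) {J : Finset ℕ} (hJ : J ⊆ n.primeFactors)
    {m : ℕ} (hm : m ≠ 0) :
    ∑ s : ClassGroup (OO n), ∑ t : ClassGroup (OO n), gJ J s * gJ J t *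
      (((grossE (rep s * cj (rep t)) 0).ncard : ℤ) *
        ((grossE (rep s * rep t * F) m).ncard : ℤ)) =
      2 * Fintype.card (ClassGroup (OO n)) * (XJ n J m * XJ n J (nm F) * Rn n m) := by
  classical
  have hk : 0 < m := Nat.pos_of_ne_zero hm
  have h1 : ∀ s t : ClassGroup (OO n), gJ J s * gJ J t *
      (((grossE (rep s * cj (rep t)) 0).ncard : ℤ) *
        ((grossE (rep s * rep t * F) m).ncard : ℤ)) =
      ∑ B ∈ grossI n m, 2 * (gJ J s * gJ J t *
        (if cls B * (s * t * cls F) = 1 then (1 : ℤ) else 0)) := by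
    intro s t
    rw [gross_E_zero, gross_E_card (mul_ne_zero (gross_ne2 s t) hF0) hk, gross_cls2 hF0,
      ← Finset.mul_sum, ← Finset.mul_sum]
    push_cast; ring
  simp only [h1]
  rw [Finset.sum_congr rfl fun s _ => Finset.sum_comm, Finset.sum_comm]
  rw [Finset.sum_congr rfl
    (g := fun _ => 2 * (Fintype.card (ClassGroup (OO n)) * (XJ n J m * XJ n J (nm F))))]
  · rw [Finset.sum_const, nsmul_eq_mul, gross_card_I hk]; ring
  · intro B hB
    have hB1 := (gross_mem_I hk).1 hB
    have hB0 : B ≠ ⊥ := fun h => hm (hB1 ▸ nm_eq_zero.2 h)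
    simp only [← Finset.mul_sum (a := (2 : ℤ))]
    rw [q1_pair hJ, gross_gJ_cls hJ hB0, gross_gJ_cls hJ hF0, hB1]

theorem q1_main {F : Ideal (OO n)} (hF : ((nm F : ℕ) : ZMod n) = -15) (hF0 : F ≠ ⊥)
    {J : Finset ℕ} (hJ : J ⊆ n.primeFactors) (ν : ℕ) :
    (2 : ℤ) ^ n.primeFactors.card * SS F J ν =
      ∑ m ∈ (Finset.range (ν * n + 1)).filter (fun m => 15 * m ≤ ν * n),
        grossW n (15 * m) * ∑ s : ClassGroup (OO n), ∑ t : ClassGroup (OO n), gJ J s * gJ J t *
          (((grossE (rep s * cj (rep t)) (ν * n - 15 * m)).ncard : ℤ) *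
            ((grossE (rep s * rep t * F) m).ncard : ℤ)) := by
  have h1 : (2 : ℤ) ^ n.primeFactors.card * SS F J ν =
      ∑ S ∈ n.primeFactors.powerset, ∑ s : ClassGroup (OO n), ∑ t : ClassGroup (OO n),
        gJ J s * gJ J t * ((grossL (grossSg S) F (rep s) (rep t) ν).ncard : ℤ) := by
    rw [Finset.sum_congr rfl fun S hS => gross_sum_flip hF0 (Finset.mem_powerset.1 hS) hJ ν,
      Finset.sum_const, Finset.card_powerset, nsmul_eq_mul]
    push_cast; rfl
  rw [h1, Finset.sum_comm]
  rw [Finset.sum_congr rfl fun s _ => Finset.sum_comm]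
  simp only [← Finset.mul_sum, q1_sum_S hF hF0 (rep_coprime _) (rep_coprime _) ν]
  simp only [Finset.mul_sum]
  rw [Finset.sum_congr rfl fun s _ => Finset.sum_comm, Finset.sum_comm]
  exact Finset.sum_congr rfl fun m _ => Finset.sum_congr rfl fun s _ =>
    Finset.sum_congr rfl fun t _ => by ring

omit [Good n] in
theorem q1_W_of_dvd {k : ℕ} (h : n ∣ k) : grossW n k = 2 ^ n.primeFactors.card := by
  rw [grossW, Finset.prod_congr rfl (g := fun _ => 2), Finset.prod_const]
  intro p hp
  rw [if_pos ((Nat.dvd_of_mem_primeFactors hp).trans h)]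
  norm_num

theorem qGr : S_Gr := by
  intro n _ G F hX J hJ ν hν
  have hν0 : ν ≠ 0 := by omega
  have hn0 := gross_n_pos (n := n)
  have hk : 0 < ν * n := Nat.pos_of_ne_zero (mul_ne_zero hν0 hn0.ne')
  have hG0 : G ≠ ⊥ := fun h => by
    have h1 := hX.nmG
    rw [nm_eq_zero.2 h] at h1
    exact (Nat.gcd_pos_of_pos_left 15 hn0).ne h1
  have hF1 : F ≠ ⊥ := ne_bot_of_coprime hX.cop
  have hF0 : G * F ≠ ⊥ := mul_ne_zero hG0 hF1
  have hr : n.primeFactors.card = n.primeFactors.card - 1 + 1 := by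
    have h1 : n.primeFactors.Nonempty :=
      Nat.nonempty_primeFactors.2 (lt_trans (by norm_num) (Good.gt (n := n)))
    have := h1.card_pos
    omega
  apply mul_left_cancel₀ (pow_ne_zero n.primeFactors.card (two_ne_zero (α := ℤ)))
  rw [q1_main hX.md hF0 hJ ν]
  have h3 : 0 ∉ mRange (ν * n) := by simp [mRange]
  have hmid : ∑ m ∈ mRange (ν * n), grossW n (15 * m) *
      ∑ s : ClassGroup (OO n), ∑ t : ClassGroup (OO n), gJ J s * gJ J t *
        (((grossE (rep s * cj (rep t)) (ν * n - 15 * m)).ncard : ℤ) *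
          ((grossE (rep s * rep t * (G * F)) m).ncard : ℤ)) =
      2 ^ n.primeFactors.card *
        (2 * ∑ m ∈ mRange (ν * n), CG n J (nm (G * F)) (ν * n - 15 * m) m) := by
    rw [Finset.mul_sum, Finset.mul_sum]
    refine Finset.sum_congr rfl fun m hm => ?_
    simp only [mRange, Finset.mem_filter, Finset.mem_range] at hm
    rw [q1_term_pos hX.md hF0 hJ (ν := ν) (by omega) (by omega) (by omega)]
    conv_rhs => rw [hr, pow_succ]
    ring
  by_cases h15 : 15 ∣ n
  · obtain ⟨d, hd⟩ := h15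
    have e : 15 * (ν * d) = ν * n := by rw [hd]; ring
    have hd0 : ν * d ≠ 0 := by omega
    have h2 : (Finset.range (ν * n + 1)).filter (fun m => 15 * m ≤ ν * n) =
        insert (ν * d) (insert 0 (mRange (ν * n))) := by
      ext m
      simp only [mRange, Finset.mem_filter, Finset.mem_range, Finset.mem_insert]
      omega
    have h4 : ν * d ∉ insert 0 (mRange (ν * n)) := by
      simp only [mRange, Finset.mem_filter, Finset.mem_range, Finset.mem_insert]
      omega
    have hnF : nm F ≠ 0 := fun h => hF1 (nm_eq_zero.1 h)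
    have h5 : nm (G * F) = 15 * nm F := by
      rw [nm_mul, hX.nmG, Nat.gcd_eq_right ⟨d, hd⟩]
    have h6 : XJ n J (ν * d) * XJ n J (nm (G * F)) = XJ n J ν * XJ n J (nm F) := by
      rw [h5, q1_XJ_mul hJ (by norm_num) hnF, ← mul_assoc, mul_comm (XJ n J (ν * d)),
        ← q1_XJ_mul hJ (by norm_num) hd0, e, gross_XJ_mul hJ ν hν0]
    rw [h2, Finset.sum_insert h4, Finset.sum_insert h3, hmid, e, Nat.sub_self, mul_zero,
      Nat.sub_zero, gross_term_zero _ hJ hν0, q1_term_top hF0 hJ hd0, h6,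
      q1_Rn_mul ⟨15, by rw [hd, mul_comm]⟩ ν hν0, q1_W_of_dvd (dvd_zero n),
      q1_W_of_dvd (Dvd.intro_left ν rfl), if_pos ⟨d, hd⟩]
    ring
  · have h2 : (Finset.range (ν * n + 1)).filter (fun m => 15 * m ≤ ν * n) =
        insert 0 (mRange (ν * n)) := by
      ext m
      simp only [mRange, Finset.mem_filter, Finset.mem_range, Finset.mem_insert]
      rcases hν with rfl | rfl <;> omega
    rw [h2, Finset.sum_insert h3, hmid, mul_zero, Nat.sub_zero, gross_term_zero _ hJ hν0,
      q1_W_of_dvd (dvd_zero n), if_neg h15]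
    ring

end Pool.Agent.P.MP_9c97e9_nt.All
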