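import Pool.Agent.P.MP_9c97e9_nt.All.Defs

/-! The Brandt groupoid for a ramified auxiliary ideal. -/

namespace Pool.Agent.P.MP_9c97e9_nt.All

open Finset Pool.Agent.P.MP_8b7eba_nt Pool.Agent.P.MP_8b7eba_nt.BSD15
open scoped Quaternion

variable {n : ℕ} [Good n]

omit [Good n] in
theorem q2_cancel {I : Ideal (OO n)} {k g : ℕ} (h : k.Coprime g) (hg : (g : OO n) ∈ I) {z : OO n}
    (hz : (k : OO n) * z ∈ I) : z ∈ I := by
  obtain ⟨u, v, huv⟩ := Nat.isCoprime_iff_coprime.2 h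
  have h1 : (u : OO n) * k + (v : OO n) * g = 1 := by
    exact_mod_cast congrArg (Int.cast : ℤ → OO n) huv
  have h2 : z = u * (k * z) + (v * z) * g := by linear_combination (-z) * h1
  rw [h2]
  exact I.add_mem (I.mul_mem_left _ hz) (I.mul_mem_left _ hg)

theorem q2_split : ∃ m : ℕ, n = n.gcd 15 * m ∧ m.Coprime (n.gcd 15) := by
  obtain ⟨m, hm⟩ := Nat.gcd_dvd_left n 15
  refine ⟨m, hm, ?_⟩
  have := Good.sq (n := n)
  rw [hm] at this
  exact (Nat.coprime_of_squarefree_mul this).symm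

omit [Good n] in
theorem q2_cop {k : ℕ} (h : k.Coprime n) : k.Coprime (n.gcd 15) :=
  h.coprime_dvd_right (Nat.gcd_dvd_left n 15)

theorem q2_two_rho (z : OO n) : 2 * rho z = ((2 * z.re + z.im : ℤ) : ZMod n) := by
  have h := qbasic_four_zmod (n := n)
  simp only [rho]
  push_cast
  linear_combination (z.im : ZMod n) * h

theorem q2_two_cop : (2 : ℕ).Coprime n := by
  have := Good.h4 (n := n)
  rw [Nat.coprime_two_left, Nat.odd_iff]
  omega

section

variable {G F : Ideal (OO n)} (h : Aux G F)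
include h

theorem q2_g_mem : ((n.gcd 15 : ℕ) : OO n) ∈ G := by
  rw [← h.nmG]; exact latt_nm_mem G

theorem q2_GG : G * G = Ideal.span {((n.gcd 15 : ℕ) : OO n)} := by
  have := mul_cj G
  rwa [h.cjG, h.nmG] at this

theorem q2_of_tr {z : OO n} (hz : ((n.gcd 15 : ℕ) : ℤ) ∣ 2 * z.re + z.im) : z ∈ G := by
  obtain ⟨k, hk⟩ := hz
  refine q2_cancel (q2_cop q2_two_cop) (q2_g_mem h) ?_
  have e : ((2 : ℕ) : OO n) * z = (k : OO n) * ((n.gcd 15 : ℕ) : OO n) + (z.im : OO n) * del n := by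
    refine QuadraticAlgebra.ext ?_ ?_
    · simp only [del, QuadraticAlgebra.re_mul, QuadraticAlgebra.re_add, QuadraticAlgebra.re_natCast,
        QuadraticAlgebra.im_natCast, QuadraticAlgebra.re_intCast, QuadraticAlgebra.im_intCast,
        Int.cast_id]
      push_cast at hk ⊢
      linear_combination hk
    · simp only [del, QuadraticAlgebra.im_mul, QuadraticAlgebra.im_add, QuadraticAlgebra.re_natCast,
        QuadraticAlgebra.im_natCast, QuadraticAlgebra.re_intCast, QuadraticAlgebra.im_intCast,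
        Int.cast_id]
      push_cast
      ring
  rw [e]
  exact G.add_mem (G.mul_mem_left _ (q2_g_mem h)) (G.mul_mem_left _ h.delG)

theorem q2_of_rho {a b : OO n} (hb : b ∈ G) (r : rho a = rho b) : a ∈ G := by
  obtain ⟨w, hw⟩ := rho_eq_zero_iff.1 (show rho (a - b) = 0 by rw [rho_sub, r, sub_self])
  have : a = del n * w + b := by rw [← hw]; ring
  rw [this]
  exact G.add_mem (G.mul_mem_right _ h.delG) hb

theorem q2_del {z : OO n} (hz : del n * z ∈ Ideal.span {((n.gcd 15 : ℕ) : OO n)}) : z ∈ G := by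
  obtain ⟨m, hm, hc⟩ := q2_split (n := n)
  obtain ⟨w, hw⟩ := Ideal.mem_span_singleton'.1 hz
  refine q2_cancel hc (q2_g_mem h) ?_
  have hg : ((n.gcd 15 : ℕ) : OO n) ≠ 0 := latt_cast_ne (Nat.gcd_pos_of_pos_right n (by norm_num)).ne'
  have hn : (n : OO n) = ((n.gcd 15 : ℕ) : OO n) * m := by
    rw [← Nat.cast_mul, ← hm]
  have e : (m : OO n) * z = del n * (-w) := by
    apply mul_left_cancel₀ hg
    have hd := del_mul_del (n := n)
    linear_combination (-z) * hn + del n * hw + z * hd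
  rw [e]
  exact G.mul_mem_right _ h.delG

theorem q2_int {X : ℤ} (h1 : ((n.gcd 15 : ℕ) : ℤ) ∣ X)
    (h2 : ((nm (G * F) : ℕ) : ZMod n) * X = 0) : (X : ZMod n) = 0 := by
  obtain ⟨m, hm, hc⟩ := q2_split (n := n)
  have h3 : (n : ℤ) ∣ (nm (G * F) : ℕ) * X := by
    rw [← ZMod.intCast_zmod_eq_zero_iff_dvd]
    push_cast
    exact h2
  rw [nm_mul, h.nmG] at h3
  rw [ZMod.intCast_zmod_eq_zero_iff_dvd]
  have hn : (n : ℤ) = ((n.gcd 15 : ℕ) : ℤ) * m := by rw [← Nat.cast_mul, ← hm]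
  have hg : ((n.gcd 15 : ℕ) : ℤ) ≠ 0 := by
    exact_mod_cast (Nat.gcd_pos_of_pos_right n (by norm_num : 0 < 15)).ne'
  have hmF : m.Coprime (nm F) := (h.cop.coprime_dvd_right (Dvd.intro_left _ hm.symm)).symm
  generalize n.gcd 15 = g at h1 h3 hn hg hc
  rw [hn] at h3 ⊢
  have h4 : (m : ℤ) ∣ (nm F : ℕ) * X := by
    rw [Nat.cast_mul, mul_assoc] at h3
    exact (mul_dvd_mul_iff_left hg).1 h3
  have h5 : (m : ℤ) ∣ X := (Nat.isCoprime_iff_coprime.2 hmF).dvd_of_dvd_mul_left h4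
  exact (Nat.isCoprime_iff_coprime.2 hc.symm).mul_dvd h1 h5

theorem q2_rho {z : OO n} (hz : z ∈ G) (h2 : ((nm (G * F) : ℕ) : ZMod n) * rho z = 0) :
    rho z = 0 := by
  apply latt_cancel q2_two_cop
  rw [Nat.cast_ofNat, q2_two_rho]
  refine q2_int h (h.memG z hz) ?_
  rw [← q2_two_rho]
  linear_combination 2 * h2

theorem q2_nm_ne : nm (G * F) ≠ 0 := by
  rw [nm_mul, h.nmG]
  exact mul_ne_zero (Nat.gcd_pos_of_pos_right n (by norm_num)).ne' (latt_ne_of_coprime h.cop)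

end

omit [Good n] in
theorem q2_le (I G F : Ideal (OO n)) : I * (G * F) ≤ G :=
  Ideal.mul_le_right.trans Ideal.mul_le_left

theorem q2_mul_mem {G F₀ F s t u : Ideal (OO n)} (hA₀ : Aux G F₀) (hGF : F = G * F₀)
    (hs : (nm s).Coprime n) (ht : (nm t).Coprime n)
    (hu : (nm u).Coprime n) {x y : OO n × OO n} (hx : x ∈ latt_lam (s * cj t) (s * t * F))
    (hy : y ∈ latt_lam (t * cj u) (t * u * F)) :
    ∃ z ∈ latt_lam (s * cj u) (s * u * F),
      (nm F : OO n) * (x.1 * y.1) + 15 * (x.2 * star y.2) = nm F * nm t * (del n * z.1) ∧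
      x.1 * y.2 - x.2 * star y.1 = nm t * (del n * z.2) := by
  obtain ⟨a₁, b₁⟩ := x
  obtain ⟨a₂, b₂⟩ := y
  obtain ⟨ha₁, hb₁, r₁⟩ := hx
  obtain ⟨ha₂, hb₂, r₂⟩ := hy
  simp only at ha₁ hb₁ r₁ ha₂ hb₂ r₂ ⊢
  have hF : ((nm F : ℕ) : ZMod n) = -15 := hGF ▸ hA₀.md
  have hC : ∀ z ∈ G, ((nm F : ℕ) : ZMod n) * rho z = 0 → rho z = 0 := fun z hz h2 =>
    q2_rho hA₀ hz (hGF ▸ h2)
  have gb₁ : b₁ ∈ G := q2_le _ G F₀ (hGF ▸ hb₁)
  have gb₂ : b₂ ∈ G := q2_le _ G F₀ (hGF ▸ hb₂)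
  have ga₁ : a₁ ∈ G := q2_of_rho hA₀ gb₁ r₁
  have ga₂ : a₂ ∈ G := q2_of_rho hA₀ gb₂ r₂
  have gs₂ : star a₂ ∈ G := hA₀.cjG ▸ latt_star_mem ga₂
  have hgg := Ideal.mem_span_singleton_self ((n.gcd 15 : ℕ) : OO n)
  have m1 : a₁ * a₂ ∈ Ideal.span {(nm t : OO n)} * (s * cj u) := by
    have := Ideal.mul_mem_mul ha₁ ha₂
    rwa [show s * cj t * (t * cj u) = (t * cj t) * (s * cj u) by ring, mul_cj] at this
  have m2 : b₁ * star b₂ ∈ Ideal.span {(nm F : OO n) * nm t} * (s * cj u) := by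
    have := Ideal.mul_mem_mul hb₁ (latt_star_mem hb₂)
    rwa [cj_mul, cj_mul, show s * t * F * (cj t * cj u * cj F) =
      (F * cj F) * (t * cj t) * (s * cj u) by ring, mul_cj, mul_cj,
      Ideal.span_singleton_mul_span_singleton] at this
  have m3 : a₁ * b₂ - b₁ * star a₂ ∈ Ideal.span {(nm t : OO n)} * (s * u * F) := by
    refine Ideal.sub_mem _ ?_ ?_
    · have := Ideal.mul_mem_mul ha₁ hb₂
      rwa [show s * cj t * (t * u * F) = (t * cj t) * (s * u * F) by ring, mul_cj] at this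
    · have := Ideal.mul_mem_mul hb₁ (latt_star_mem ha₂)
      rwa [cj_mul, cj_cj, show s * t * F * (cj t * u) = (t * cj t) * (s * u * F) by ring,
        mul_cj] at this
  obtain ⟨h, hh, e1⟩ := Ideal.mem_span_singleton_mul.1 m1
  obtain ⟨g, hg, e2⟩ := Ideal.mem_span_singleton_mul.1 m2
  obtain ⟨B, hB, e3⟩ := Ideal.mem_span_singleton_mul.1 m3
  have h15 : rho (15 : OO n) = 15 := by simpa using rho_natCast (n := n) 15
  have hA : h + 15 * g ∈ s * cj u := Ideal.add_mem _ hh (Ideal.mul_mem_left _ _ hg)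
  have eA : (nm F : OO n) * (a₁ * a₂) + 15 * (b₁ * star b₂) = nm F * nm t * (h + 15 * g) := by
    rw [← e1, ← e2]; ring
  have sA : h + 15 * g ∈ Ideal.span {((n.gcd 15 : ℕ) : OO n)} := by
    refine Ideal.add_mem _ (q2_cancel (q2_cop ht) hgg ?_) (Ideal.mul_mem_right _ _ ?_)
    · rw [e1, ← q2_GG hA₀]
      exact Ideal.mul_mem_mul ga₁ ga₂
    · rw [Ideal.mem_span_singleton]
      exact_mod_cast Nat.cast_dvd_cast (α := OO n) (Nat.gcd_dvd_right n 15)
  have sB : B ∈ Ideal.span {((n.gcd 15 : ℕ) : OO n)} := by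
    refine q2_cancel (q2_cop ht) hgg ?_
    rw [e3, ← q2_GG hA₀]
    exact Ideal.sub_mem _ (Ideal.mul_mem_mul ga₁ gb₂) (Ideal.mul_mem_mul gb₁ gs₂)
  have rA : rho (h + 15 * g) = 0 := by
    apply hC _ ((Ideal.span_singleton_le_iff_mem _).2 (q2_g_mem hA₀) sA)
    apply latt_cancel ht
    have := congrArg rho eA
    simp only [rho_add, rho_mul, rho_natCast, rho_star, h15] at this ⊢
    rw [← r₁, ← r₂] at this
    linear_combination -this + (rho a₁ * rho a₂) * hF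
  have rB : rho B = 0 := by
    apply latt_cancel ht
    have := congrArg rho e3
    simp only [rho_sub, rho_mul, rho_natCast, rho_star] at this
    rw [this, r₁, r₂]
    ring
  obtain ⟨a₃, ha₃, e4⟩ := latt_div (by rw [nm_mul, nm_cj]; exact hs.mul_left hu) hA rA
  have hc₀ : (nm (s * u * F₀)).Coprime n := by
    rw [nm_mul, nm_mul]; exact (hs.mul_left hu).mul_left hA₀.cop
  obtain ⟨b₃, hb₃', e5⟩ := latt_div hc₀
    (Ideal.mul_mono_right (hGF ▸ Ideal.mul_le_right : F ≤ F₀) hB) rB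
  have ga₃ : a₃ ∈ G := q2_del hA₀ (e4 ▸ sA)
  have gb₃ : b₃ ∈ G := q2_del hA₀ (e5 ▸ sB)
  have hb₃ : b₃ ∈ s * u * F := by
    rw [hGF, show s * u * (G * F₀) = G * (s * u * F₀) by ring]
    obtain ⟨p, q, hpq⟩ := Nat.isCoprime_iff_coprime.2 (q2_cop hc₀)
    have h1 : (p : OO n) * (nm (s * u * F₀) : ℕ) + (q : OO n) * ((n.gcd 15 : ℕ) : OO n) = 1 := by
      exact_mod_cast congrArg (Int.cast : ℤ → OO n) hpq
    have h2 : b₃ = p * (b₃ * (nm (s * u * F₀) : ℕ)) + q * (((n.gcd 15 : ℕ) : OO n) * b₃) := by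
      linear_combination (-b₃) * h1
    rw [h2]
    exact Ideal.add_mem _ (Ideal.mul_mem_left _ _ (Ideal.mul_mem_mul gb₃ (latt_nm_mem _)))
      (Ideal.mul_mem_left _ _ (Ideal.mul_mem_mul (q2_g_mem hA₀) hb₃'))
  rw [e4] at eA
  rw [e5] at e3
  refine ⟨(a₃, b₃), ⟨ha₃, hb₃, ?_⟩, eA, e3.symm⟩
  obtain ⟨w, hw⟩ := rho_eq_zero_iff.1 (show rho (a₂ - b₂) = 0 by rw [rho_sub, r₂, sub_self])
  have hw' : star a₂ - star b₂ = -(del n * star w) := by
    rw [← star_sub, hw, star_mul', star_del]; ring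
  obtain ⟨e, he⟩ : (n : ℤ) ∣ (nm F : ℤ) + 15 := by
    rw [← ZMod.intCast_zmod_eq_zero_iff_dvd]
    push_cast
    rw [hF]; ring
  have he' : (nm F : OO n) + 15 = n * e := by exact_mod_cast congrArg (Int.cast : ℤ → OO n) he
  have key : (nm F : OO n) * nm t * (a₃ - b₃) =
      nm F * (a₁ * w - b₁ * star w) - del n * (e * (b₁ * star b₂)) := by
    apply mul_left_cancel₀ (latt_del_ne (n := n))
    have hd := del_mul_del (n := n)
    linear_combination -eA - (nm F : OO n) * e3 + (nm F * a₁) * hw + (nm F * b₁) * hw' +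
      (b₁ * star b₂) * he' + (e * (b₁ * star b₂)) * hd
  have := congrArg rho key
  rw [rho_sub _ (del n * _), latt_rho_del] at this
  simp only [rho_sub, rho_mul, rho_natCast, rho_star, r₁] at this
  apply sub_eq_zero.1
  rw [← rho_sub]
  apply hC _ (G.sub_mem ga₃ gb₃)
  apply latt_cancel ht
  rw [rho_sub]
  linear_combination this

theorem q2_brandt {G F₀ F : Ideal (OO n)} (hA₀ : Aux G F₀) (hGF : F = G * F₀) :
    ∃ B : Brandt (-(n : ℚ)) (-15 / (nm F : ℚ)) {A : Ideal (OO n) // (nm A).Coprime n},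
      (∀ s, B.N s = nm s.1) ∧
      (∀ s t, B.L s t = (latt_lam (s.1 * cj t.1) (s.1 * t.1 * F)).map
        (latt_io n (-15 / (nm F : ℚ)))) ∧
      ∀ ν s t, B.r ν s t = rr F s.1 t.1 ν := by
  have hF : ((nm F : ℕ) : ZMod n) = -15 := hGF ▸ hA₀.md
  have hf : nm F ≠ 0 := hGF ▸ q2_nm_ne hA₀
  have hf' : (nm F : ℚ) ≠ 0 := by exact_mod_cast hf
  have hn := latt_n_ne (n := n)
  have hN : ∀ s : {A : Ideal (OO n) // (nm A).Coprime n}, (nm s.1 : ℚ) ≠ 0 := fun s => by
    exact_mod_cast latt_ne_of_coprime s.2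
  have hself : ∀ (s : Ideal (OO n)) (z : OO n),
      (del n * (z * nm s), (0 : OO n)) ∈ latt_lam (s * cj s) (s * s * F) := by
    intro s z
    refine ⟨?_, Ideal.zero_mem _, ?_⟩
    · rw [mul_cj]
      exact Ideal.mul_mem_left _ _ (Ideal.mul_mem_left _ _ (Ideal.mem_span_singleton_self _))
    · exact (latt_rho_del _).trans latt_rho_zero.symm
  refine ⟨{ N := fun s => nm s.1
            L := fun s t => (latt_lam (s.1 * cj t.1) (s.1 * t.1 * F)).map
              (latt_io n (-15 / (nm F : ℚ)))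
            N_pos := fun s => lt_of_le_of_ne (Nat.cast_nonneg _) (hN s).symm
            mul_mem := ?_
            star_mem := ?_
            N_mem := ?_
            integral := ?_
            gram := ?_ }, fun _ => rfl, fun _ _ => rfl, ?_⟩
  · rintro s t u _ _ ⟨x, hx, rfl⟩ ⟨y, hy, rfl⟩
    obtain ⟨z, hz, e1, e2⟩ := q2_mul_mem hA₀ hGF s.2 t.2 u.2 hx hy
    refine ⟨z, hz, ?_⟩
    have h1 := latt_mul hf x.1 x.2 y.1 y.2
    rw [e1, e2] at h1
    have hd := del_mul_del (n := n)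
    have h2 : (-(del n * (nm F * nm t.1 * (del n * z.1))),
        -(del n * (nm F * (nm t.1 * (del n * z.2))))) = ((nm F * n * nm t.1 : ℕ) : ℤ) • z := by
      ext1
      · rw [Prod.smul_fst, zsmul_eq_mul]
        push_cast
        linear_combination (-(nm F : OO n) * nm t.1 * z.1) * hd
      · rw [Prod.smul_snd, zsmul_eq_mul]
        push_cast
        linear_combination (-(nm F : OO n) * nm t.1 * z.2) * hd
    rw [h2, map_zsmul, ← Int.cast_smul_eq_zsmul ℚ] at h1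
    have h3 := congrArg (fun q => (((nm F : ℚ) * n * nm t.1)⁻¹) • q) h1
    simp only [smul_smul] at h3
    have hNt := hN t
    rw [show ((nm F : ℚ) * n * nm t.1)⁻¹ * (((nm F * n * nm t.1 : ℕ) : ℤ) : ℚ) = 1 by
      push_cast; field_simp, one_smul,
      show ((nm F : ℚ) * n * nm t.1)⁻¹ * ((nm F : ℚ) * n) = (nm t.1 : ℚ)⁻¹ by field_simp] at h3
    exact h3.symm
  · rintro s t _ ⟨⟨a, b⟩, ⟨ha, hb, r⟩, rfl⟩
    refine ⟨(-star a, -b), ⟨neg_mem ?_, neg_mem ?_, ?_⟩, (latt_star _ a b).symm⟩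
    · have := latt_star_mem ha
      rwa [cj_mul, cj_cj, mul_comm] at this
    · rwa [mul_comm t.1]
    · simp only at r ⊢
      rw [rho_neg, rho_neg, rho_star, r]
  · intro s
    refine ⟨_, hself s.1 1, ?_⟩
    ext <;> simp [latt_io_re, latt_io_I, latt_io_J, latt_io_K, del]
  · rintro s t _ ⟨⟨a, b⟩, ⟨ha, hb, r⟩, rfl⟩
    simp only at ha hb r
    obtain ⟨α, hα⟩ := nm_dvd_norm ha
    obtain ⟨β, hβ⟩ := nm_dvd_norm hb
    rw [nm_mul, nm_cj] at hα
    rw [nm_mul, nm_mul] at hβ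
    have ga : a ∈ G := q2_of_rho hA₀ (q2_le _ G F₀ (hGF ▸ hb)) r
    have h0 : ((n.gcd 15 : ℕ) : ℤ) ∣ α + 15 * β := by
      refine dvd_add ?_ (Dvd.dvd.mul_right (by exact_mod_cast Nat.gcd_dvd_right n 15) _)
      have := nm_dvd_norm ga
      rw [hA₀.nmG, hα] at this
      exact (Nat.isCoprime_iff_coprime.2 (q2_cop (s.2.mul_left t.2)).symm).dvd_of_dvd_mul_left this
    have h1 : ((α + 15 * β : ℤ) : ZMod n) = 0 := by
      apply q2_int hA₀ h0
      rw [← hGF]
      apply latt_cancel s.2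
      apply latt_cancel t.2
      have e1 := rho_sq a
      have e2 := rho_sq b
      rw [hα] at e1
      rw [hβ, ← r] at e2
      push_cast at e1 e2 ⊢
      linear_combination -(nm F : ZMod n) * e1 - 15 * e2 + rho a ^ 2 * hF
    obtain ⟨k, hk⟩ := (ZMod.intCast_zmod_eq_zero_iff_dvd _ _).1 h1
    refine ⟨k, ?_⟩
    have hk' : (α : ℚ) + 15 * β = n * k := by exact_mod_cast hk
    rw [latt_norm, hα, hβ]
    push_cast
    field_simp
    linear_combination ((nm s.1 : ℚ) * nm t.1) * hk'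
  · intro s t
    obtain ⟨b, hb1, hb2⟩ := latt_gram (-15 / (nm F : ℚ)) (I := s.1 * cj t.1) (J := s.1 * t.1 * F)
      (by rw [nm_mul, nm_cj]; exact s.2.mul_left t.2)
      (by
        rw [nm_mul, nm_mul]
        exact mul_ne_zero (latt_ne_of_coprime (s.2.mul_left t.2)) hf)
    refine ⟨b, hb1, ?_⟩
    rw [hb2]
    simp only [nm_mul, nm_cj]
    push_cast
    field_simp
    ring
  · intro ν s t
    unfold Brandt.r rr
    rw [← Set.ncard_image_of_injective (LL F s.1 t.1 ν) (latt_io_inj (-15 / (nm F : ℚ)))]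
    congr 1
    have key : ∀ a b : OO n,
        (latt_io n (-15 / (nm F : ℚ)) (a, b) * star (latt_io n (-15 / (nm F : ℚ)) (a, b))).re =
          ν * ((nm s.1 : ℚ) * nm t.1) ↔
        (nm F : ℤ) * a.norm + 15 * b.norm = ν * n * nm F * nm s.1 * nm t.1 := by
      intro a b
      rw [latt_norm, ← Int.cast_inj (α := ℚ)]
      push_cast
      constructor
      · intro h
        field_simp at h
        linear_combination h
      · intro h
        field_simp
        linear_combination h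
    ext x
    constructor
    · rintro ⟨⟨⟨a, b⟩, ⟨ha, hb, r⟩, rfl⟩, h⟩
      exact ⟨(a, b), ⟨ha, hb, r, (key a b).1 h⟩, rfl⟩
    · rintro ⟨⟨a, b⟩, ⟨ha, hb, r, h⟩, rfl⟩
      exact ⟨⟨(a, b), ⟨ha, hb, r⟩, rfl⟩, (key a b).2 h⟩

theorem qBr : S_Br := fun _ _ _ _ h => q2_brandt h rfl

end Pool.Agent.P.MP_9c97e9_nt.All
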