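import Pool.Agent.P.MP_9c97e9_nt.All.Defs

/-! The types of the quaternion orders attached to a ramified auxiliary ideal. -/

namespace Pool.Agent.P.MP_9c97e9_nt.All

open Finset Pool.Agent.P.MP_8b7eba_nt Pool.Agent.P.MP_8b7eba_nt.BSD15
open Pool.Agent.P.MP_8b7eba_nt.BSD15.QN
open scoped Quaternion

/-- values of `4 N - tr ^ 2` that do not occur in the first order -/
def q3_notA (E : ℤ) : Prop := E % 3 = 2 ∨ E % 5 = 2 ∨ E % 5 = 3

/-- values of `4 N - tr ^ 2` that do not occur in the other two orders -/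
def q3_notB (E : ℤ) : Prop := E % 3 = 1 ∨ E % 5 = 1 ∨ E % 5 = 4

theorem q3_sq3 (m : ℤ) : m * m % 3 = 0 ∨ m * m % 3 = 1 := by
  have : m % 3 = 0 ∨ m % 3 = 1 ∨ m % 3 = 2 := by omega
  rcases this with h | h | h <;> simp [Int.mul_emod, h]

theorem q3_sq5 (m : ℤ) : m * m % 5 = 0 ∨ m * m % 5 = 1 ∨ m * m % 5 = 4 := by
  have : m % 5 = 0 ∨ m % 5 = 1 ∨ m % 5 = 2 ∨ m % 5 = 3 ∨ m % 5 = 4 := by omega
  rcases this with h | h | h | h | h <;> simp [Int.mul_emod, h]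

theorem q3_discA (x : QN.V) : ¬q3_notA (4 * qN pA x - qtr pA x ^ 2) := by
  obtain ⟨a, b, c, d⟩ := x
  have e : 4 * qN pA (a, b, c, d) - qtr pA (a, b, c, d) ^ 2 =
      (c - 2 * d) * (c - 2 * d) + 15 * (b * b + c * c) := by
    simp only [qN, qtr, pA]; ring
  have h1 := q3_sq3 (c - 2 * d)
  have h2 := q3_sq5 (c - 2 * d)
  rw [e, q3_notA]
  omega

theorem q3_discB (x : QN.V) : ¬q3_notB (4 * qN pB x - qtr pB x ^ 2) := by
  obtain ⟨a, b, c, d⟩ := x
  have e : 4 * qN pB (a, b, c, d) - qtr pB (a, b, c, d) ^ 2 =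
      3 * ((c + d) * (c + d)) + 5 * ((c - d) * (c - d)) + 15 * (b * b) := by
    simp only [qN, qtr, pB]; ring
  have h1 := q3_sq3 (c - d)
  have h2 := q3_sq5 (c + d)
  rw [e, q3_notB]
  omega

theorem q3_discC (x : QN.V) : ¬q3_notB (4 * qN pC x - qtr pC x ^ 2) := by
  obtain ⟨a, b, c, d⟩ := x
  have e : 4 * qN pC (a, b, c, d) - qtr pC (a, b, c, d) ^ 2 =
      3 * (d * d) + 5 * ((2 * b - c) * (2 * b - c)) + 15 * (c * c) := by
    simp only [qN, qtr, pC]; ring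
  have h1 := q3_sq3 (2 * b - c)
  have h2 := q3_sq5 d
  rw [e, q3_notB]
  omega

theorem q3_cntA3 : cnt pA (fun _ => True) 3 = 0 := by
  have h : ∀ x ∈ box, qN pA x ≠ 3 := by decide +kernel
  rw [cnt, ← Set.ncard_empty QN.V]
  congr 1
  ext y
  simp only [Set.mem_ofPred_eq, Set.mem_empty_iff_false, iff_false, true_and]
  exact fun hy => h y (mem_box stdA (by omega)) hy

section Abstract

variable {c₁ c₃ : ℚ} {S : Type}

/-- the order at `s` has an element with `4 N - tr ^ 2 = E` -/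
def q3_Has (B : Brandt c₁ c₃ S) (s : S) (E : ℤ) : Prop :=
  ∃ a k : ℤ, E = 4 * k - a ^ 2 ∧ ∃ x ∈ B.L s s, 2 * x.re = a * B.N s ∧ nr x = k * B.N s ^ 2

theorem q3_coord (h₁ : c₁ < 0) (h₃ : c₃ < 0) (B : Brandt c₁ c₃ S) {s : S} {E : ℤ}
    (h : q3_Has B s E) : ∃ p e y, Coord p B s e ∧ E = 4 * qN p y - qtr p y ^ 2 := by
  obtain ⟨p, e, hc⟩ := exists_coord h₁ h₃ B s
  obtain ⟨a, k, rfl, x, hx, h1, h2⟩ := h
  obtain ⟨y, rfl⟩ := omega_coord hc hx
  obtain ⟨a1, a2⟩ := tr_nr hc h1 h2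
  exact ⟨p, e, y, hc, by rw [a1, a2]⟩

theorem q3_coord5 (h₁ : c₁ < 0) (h₃ : c₃ < 0) (B : Brandt c₁ c₃ S) {s : S} {E : ℤ}
    (h : q3_Has B s E) (hE : q3_notA E) : ∃ e, Coord pB B s e ∨ Coord pC B s e := by
  obtain ⟨p, e, y, hc, rfl⟩ := q3_coord h₁ h₃ B h
  rcases hc.std with rfl | rfl | rfl
  · exact absurd hE (q3_discA y)
  · exact ⟨e, Or.inl hc⟩
  · exact ⟨e, Or.inr hc⟩

theorem q3_coord3 (h₁ : c₁ < 0) (h₃ : c₃ < 0) (B : Brandt c₁ c₃ S) {s : S} {E : ℤ}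
    (h : q3_Has B s E) (hE : q3_notB E) : ∃ e, Coord pA B s e := by
  obtain ⟨p, e, y, hc, rfl⟩ := q3_coord h₁ h₃ B h
  rcases hc.std with rfl | rfl | rfl
  · exact ⟨e, hc⟩
  · exact absurd hE (q3_discB y)
  · exact absurd hE (q3_discC y)

theorem q3_brandt5 (h₁ : c₁ < 0) (h₃ : c₃ < 0) (B : Brandt c₁ c₃ S)
    (hc : ∀ s, ∃ e, Coord pB B s e ∨ Coord pC B s e) (s t : S) :
    (B.r 1 s s = 2 ∨ B.r 1 s s = 6) ∧
    B.r 1 s t = (if B.r 1 s s = B.r 1 t t then B.r 1 s s else 0) ∧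
    B.r 2 s t = (if B.r 1 s s = B.r 1 t t then (if B.r 1 s s = 2 then 4 else 0) else 6) := by
  obtain ⟨e, he⟩ := hc s
  obtain ⟨f, hf⟩ := hc t
  have rB : ∀ {s e}, Coord pB B s e → B.r 1 s s = 2 ∧ B.r 2 s s = 4 := fun h =>
    ⟨by rw [r_self h]; exact cntB1, by rw [r_self h]; exact cntB2⟩
  have rC : ∀ {s e}, Coord pC B s e → B.r 1 s s = 6 ∧ B.r 2 s s = 0 := fun h =>
    ⟨by rw [r_self h]; exact cntC1, by rw [r_self h]; exact cntC2⟩
  refine ⟨he.imp (fun h => (rB h).1) (fun h => (rC h).1), ?_⟩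
  by_cases hr : QN.Rel B s t
  · have e1 : B.r 1 s s = B.r 1 t t := by
      rw [← hr.r_eq h₁ h₃, r_symm, hr.symm.r_eq h₁ h₃]
    rw [if_pos e1, if_pos e1, hr.r_eq h₁ h₃, hr.r_eq h₁ h₃]
    refine ⟨rfl, ?_⟩
    rcases he with h | h
    · rw [(rB h).1, (rB h).2]; rfl
    · rw [(rC h).1, (rC h).2]; rfl
  · obtain ⟨x, hx, hn⟩ := short2 h₁ h₃ hr
    have key : B.r 2 s t = 6 ∧ B.r 1 s s ≠ B.r 1 t t := by
      rcases he with h | h
      · obtain ⟨a1, a2⟩ := idlB (jj_idl h hx hn) (jj_ne h hn hr)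
        refine ⟨by rw [r_two h hx hn, a1], ?_⟩
        rcases hf with h' | h'
        · exfalso
          obtain ⟨y, b1, b2, b3, b4⟩ := jj_rgt h hx hn ((h'.mem _).2 ⟨(0, 0, 1, 0), rfl⟩)
          have t1 := h'.tr (0, 0, 1, 0)
          rw [h'.nr] at b2
          have n1 : qN pB (0, 0, 1, 0) = 2 := by decide
          have n2 : qtr pB (0, 0, 1, 0) = 0 := by decide
          rw [n1] at b2
          rw [n2] at t1
          refine a2 y b1 (by exact_mod_cast (by rw [b2]; norm_num : (qN pB y : ℚ) = 8)) ?_ b4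
          have : (qtr pB y : ℚ) = 0 := by push_cast at t1; linarith
          exact_mod_cast this
        · rw [(rB h).1, (rC h').1]; decide
      · obtain ⟨a1, a2⟩ := idlC (jj_idl h hx hn)
        refine ⟨by rw [r_two h hx hn, a1], ?_⟩
        rcases hf with h' | h'
        · rw [(rC h).1, (rB h').1]; decide
        · exfalso
          obtain ⟨y, b1, b2, b3, b4⟩ := jj_rgt h hx hn ((h'.mem _).2 ⟨(0, 0, 0, 1), rfl⟩)
          have t1 := h'.tr (0, 0, 0, 1)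
          rw [h'.nr] at b2
          have n1 : qN pC (0, 0, 0, 1) = 1 := by decide
          have n2 : qtr pC (0, 0, 0, 1) = 1 := by decide
          rw [n1] at b2
          rw [n2] at t1
          refine a2 y b1 (by exact_mod_cast (by rw [b2]; norm_num : (qN pC y : ℚ) = 4)) ?_ b4
          have : (qtr pC y : ℚ) = 2 := by push_cast at t1; linarith
          exact_mod_cast this
    rw [if_neg key.2, if_neg key.2]
    exact ⟨r_zero hr, key.1⟩

theorem q3_brandt3 (h₁ : c₁ < 0) (h₃ : c₃ < 0) (B : Brandt c₁ c₃ S)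
    (hc : ∀ s, ∃ e, Coord pA B s e) :
    ∃ τ : S → Bool, ∀ s t, B.r 1 s t = (if τ s = τ t then 4 else 0) ∧
      B.r 2 s t = (if τ s = τ t then 4 else 8) ∧ (τ s = τ t → B.r 3 s t = 0) := by
  classical
  rcases isEmpty_or_nonempty S with hS | ⟨⟨s₀⟩⟩
  · exact ⟨fun _ => true, fun s => hS.elim s⟩
  refine ⟨fun s => decide (QN.Rel B s₀ s), fun s t => ?_⟩
  obtain ⟨e, h⟩ := hc s
  have hiff : decide (QN.Rel B s₀ s) = decide (QN.Rel B s₀ t) ↔ QN.Rel B s t := by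
    rw [decide_eq_decide]
    constructor
    · intro hh
      by_cases h0 : QN.Rel B s₀ s
      · exact h0.symm.trans (hh.1 h0)
      · have h0' : ¬ QN.Rel B s₀ t := fun h' => h0 (hh.2 h')
        obtain ⟨e₀, g⟩ := hc s₀
        obtain ⟨x, hx, hn⟩ := short2 h₁ h₃ h0
        obtain ⟨x', hx', hn'⟩ := short2 h₁ h₃ h0'
        obtain ⟨y₁, y₂, z₁, z₂, a₁, a₂, b₁, b₂, hN⟩ :=
          pairA (idlA (jj_idl g hx hn) (jj_ne g hn h0)).2
            (idlA (jj_idl g hx' hn') (jj_ne g hn' h0')).2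
        exact jj_pair g hn hn' a₁ a₂ b₁ b₂ hN
    · intro hr
      exact ⟨fun h' => h'.trans hr, fun h' => h'.trans hr.symm⟩
  by_cases hr : QN.Rel B s t
  · rw [if_pos (hiff.2 hr), if_pos (hiff.2 hr), hr.r_eq h₁ h₃, hr.r_eq h₁ h₃, hr.r_eq h₁ h₃,
      r_self h, r_self h, r_self h]
    exact ⟨cntA1, cntA2, fun _ => q3_cntA3⟩
  · have hn := mt hiff.1 hr
    rw [if_neg hn, if_neg hn]
    obtain ⟨x, hx, hx2⟩ := short2 h₁ h₃ hr
    exact ⟨r_zero hr, by rw [r_two h hx hx2, (idlA (jj_idl h hx hx2) (jj_ne h hx2 hr)).1],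
      fun h => absurd h hn⟩

end Abstract

section Elements

variable {n : ℕ} [Good n] {G F : Ideal (OO n)}

theorem q3_nm_ne (h : Aux G F) : nm (G * F) ≠ 0 := by
  rw [nm_mul, h.nmG]
  exact mul_ne_zero (Nat.gcd_ne_zero_right (by norm_num)) (latt_ne_of_coprime h.cop)

theorem q3_neg (h : Aux G F) : (-(n : ℚ)) < 0 ∧ (-15 / (nm (G * F) : ℚ)) < 0 := by
  have h1 := Good.gt (n := n)
  have h3 : (0 : ℚ) < nm (G * F) := by exact_mod_cast Nat.pos_of_ne_zero (q3_nm_ne h)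
  have h4 : (0 : ℚ) < n := by exact_mod_cast (by omega : 0 < n)
  exact ⟨by linarith, div_neg_of_neg_of_pos (by norm_num) h3⟩

variable {B : Brandt (-(n : ℚ)) (-15 / (nm (G * F) : ℚ)) {A : Ideal (OO n) // (nm A).Coprime n}}

theorem q3_omega (hN : ∀ s, B.N s = nm s.1)
    (hL : ∀ s t, B.L s t = (latt_lam (s.1 * cj t.1) (s.1 * t.1 * (G * F))).map
      (latt_io n (-15 / (nm (G * F) : ℚ)))) (s) : q3_Has B s n := by
  have hn := latt_n_ne (n := n)
  refine ⟨1, (((n + 1) / 4 : ℕ) : ℤ), by rw [one_pow, four_k],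
    latt_io n _ (del n * (QuadraticAlgebra.omega * ((nm s.1 : ℕ) : OO n)), 0), ?_, ?_, ?_⟩
  · rw [hL]
    refine ⟨_, ⟨?_, Ideal.zero_mem _, (latt_rho_del _).trans latt_rho_zero.symm⟩, rfl⟩
    rw [mul_cj]
    exact Ideal.mul_mem_left _ _ (Ideal.mul_mem_left _ _ (Ideal.mem_span_singleton_self _))
  · rw [hN]
    simp [latt_io_re, del]
    ring
  · rw [hN, nr, latt_norm, map_mul, map_mul, norm_del, QuadraticAlgebra.norm_natCast,
      QuadraticAlgebra.norm_zero, QuadraticAlgebra.norm_def]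
    simp only [QuadraticAlgebra.omega_re, QuadraticAlgebra.omega_im, Int.cast_add, Int.cast_mul,
      Int.cast_neg, Int.cast_sub, Int.cast_one, Int.cast_zero, Int.cast_pow]
    generalize ((((n + 1) / 4 : ℕ) : ℤ) : ℚ) = m
    simp only [Int.cast_natCast]
    field_simp
    ring

theorem q3_pure (h : Aux G F) (h15 : 15 ∣ n) (hN : ∀ s, B.N s = nm s.1)
    (hL : ∀ s t, B.L s t = (latt_lam (s.1 * cj t.1) (s.1 * t.1 * (G * F))).map
      (latt_io n (-15 / (nm (G * F) : ℚ)))) (s) :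
    ∃ k : ℕ, jacobiSym k 3 = jacobiSym (nm F) 3 ∧ q3_Has B s (4 * k) := by
  have hn := latt_n_ne (n := n)
  have hn0 : n ≠ 0 := genus_ne_zero
  have hs := ne_bot_of_coprime s.2
  have hF := ne_bot_of_coprime h.cop
  have hss : s.1 * s.1 ≠ ⊥ := mul_ne_zero hs hs
  have hssF : s.1 * s.1 * F ≠ ⊥ := mul_ne_zero hss hF
  obtain ⟨c, hc0, hc1, hc2⟩ := exists_cls_coprime (cls (s.1 * s.1 * F))⁻¹ hn0
  have hcl : cls (c * (s.1 * s.1 * F)) = 1 := by rw [cls_mul hc0 hssF, hc1, inv_mul_cancel]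
  obtain ⟨b, hb⟩ := (cls_eq_one_iff (mul_ne_zero hc0 hssF)).1 hcl
  have h3 : 3 ∣ n := (by norm_num : 3 ∣ 15).trans h15
  have hp : 3 ∈ n.primeFactors := Nat.mem_primeFactors.2 ⟨Nat.prime_three, h3, hn0⟩
  have hX : ∀ {A : Ideal (OO n)}, (nm A).Coprime n → gch 3 (cls A) = jacobiSym (nm A) 3 :=
    fun hA => by
      rw [gch_cls hp (ne_bot_of_coprime hA), Xp_of_not_dvd n fun h' =>
        absurd (Nat.eq_one_of_dvd_coprimes hA h' h3) (by norm_num)]
  refine ⟨nm c, ?_, 0, nm c, by ring, latt_io n _ (0, del n * b), ?_, ?_, ?_⟩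
  · rw [← hX hc2, ← hX h.cop, hc1, gch_inv hp, cls_mul hss hF, cls_mul hs hs, gch_mul hp,
      gch_mul hp, ← sq, gch_sq hp, one_mul]
  · rw [hL]
    refine ⟨_, ⟨Ideal.zero_mem _, ?_, latt_rho_zero.trans (latt_rho_del _).symm⟩, rfl⟩
    have hb' : b ∈ s.1 * s.1 * F :=
      Ideal.mul_le_right (I := c) (hb ▸ Ideal.mem_span_singleton_self b)
    have := Ideal.mul_mem_mul h.delG hb'
    rwa [show G * (s.1 * s.1 * F) = s.1 * s.1 * (G * F) by ring] at this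
  · simp [latt_io_re]
  · have h1 := nm_span b
    have hf' : (nm F : ℚ) ≠ 0 := by exact_mod_cast latt_ne_of_coprime h.cop
    rw [← hb, nm_mul, nm_mul, nm_mul] at h1
    rw [hN, nr, latt_norm, map_mul, norm_del, ← h1, QuadraticAlgebra.norm_zero, nm_mul, h.nmG,
      Nat.gcd_eq_right h15]
    push_cast
    field_simp
    ring

theorem q3_rr3 {H A C D : Ideal (OO n)} (hH : nm H ≠ 0) (hA : A ≠ ⊥) (hC : C ≠ ⊥)
    (hD : nm D = 3) (h : cls C = cls A * cls D) : 0 < rr H A C 3 := by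
  have hC' := genus_cj_ne_bot hC
  have hD' : D ≠ ⊥ := by rw [Ne, ← nm_eq_zero, hD]; norm_num
  have hAC : A * cj C ≠ ⊥ := mul_ne_zero hA hC'
  obtain ⟨γ, hγ⟩ := (cls_eq_one_iff (mul_ne_zero hD' hAC)).1 (by
    rw [cls_mul hD' hAC, cls_mul hA hC', cls_cj, h, ← mul_assoc, mul_comm (cls D), mul_inv_cancel])
  have hf : (1 : ℤ) ≤ nm H := by omega
  have hfin : (LL H A C 3).Finite := by
    set M : ℤ := ((3 : ℕ) : ℤ) * n * nm H * nm A * nm C with hM
    refine ((finite_norm_le (n := n) M).prod (finite_norm_le (n := n) M)).subset ?_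
    rintro ⟨a, b⟩ ⟨-, -, -, h4⟩
    have h1 := norm_nonneg' a
    have h2 := norm_nonneg' b
    simp only at h4
    rw [← hM] at h4
    constructor
    · change a.norm ≤ M
      nlinarith
    · change b.norm ≤ M
      nlinarith
  refine (Set.ncard_pos hfin).2 ⟨(del n * γ, 0), ?_, Ideal.zero_mem _,
    (latt_rho_del _).trans latt_rho_zero.symm, ?_⟩
  · exact Ideal.mul_mem_left _ _
      (Ideal.mul_le_right (I := D) (hγ ▸ Ideal.mem_span_singleton_self γ))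
  · have h1 := nm_span γ
    rw [← hγ, nm_mul, nm_mul, nm_cj, hD] at h1
    simp only [map_mul, norm_del, ← h1, QuadraticAlgebra.norm_zero]
    push_cast
    ring

end Elements

theorem q3_jac (k : ℕ) : (jacobiSym k 3 = 1 → k % 3 = 1) ∧ (jacobiSym k 3 = -1 → k % 3 = 2) := by
  rw [jacobiSym.mod_left]
  have : k % 3 = 0 ∨ k % 3 = 1 ∨ k % 3 = 2 := by omega
  rcases this with h | h | h
  · rw [show (k : ℤ) % (3 : ℕ) = 0 by omega, h]; norm_num
  · rw [show (k : ℤ) % (3 : ℕ) = 1 by omega, h]; norm_num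
  · rw [show (k : ℤ) % (3 : ℕ) = 2 by omega, h]; norm_num

theorem qTy (h : S_Br) : S_Ty := by
  intro n _ G F hx
  obtain ⟨B, hN, hL, hr⟩ := h n G F hx
  obtain ⟨c1, c2⟩ := q3_neg hx
  refine ⟨fun hc => ?_, fun hc => ?_⟩
  · obtain ⟨τ, hτ⟩ := q3_brandt3 c1 c2 B fun s => by
      rcases hc with hc | ⟨h15, hj⟩
      · exact q3_coord3 c1 c2 B (q3_omega hN hL s) (by rw [C4] at hc; rw [q3_notB]; omega)
      · obtain ⟨k, k1, k2⟩ := q3_pure hx h15 hN hL s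
        have := (q3_jac k).1 (k1.trans hj)
        exact q3_coord3 c1 c2 B k2 (by rw [q3_notB]; omega)
    refine ⟨fun s => τ ⟨rep s, rep_coprime s⟩, fun s t => ?_, fun h3 =>
      ⟨cls (genusD n 3), fun s e => ?_⟩⟩
    · obtain ⟨a, b, -⟩ := hτ ⟨rep s, rep_coprime s⟩ ⟨rep t, rep_coprime t⟩
      rw [hr] at a b
      exact ⟨a, b⟩
    · have a := (hτ ⟨rep s, rep_coprime s⟩ ⟨_, rep_coprime _⟩).2.2 e.symm
      rw [hr] at a
      exact (q3_rr3 (q3_nm_ne hx) (genus_rep_ne_bot _) (genus_rep_ne_bot _) (genusD_nm h3)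
        (by rw [cls_rep, cls_rep])).ne' a
  · have key := q3_brandt5 c1 c2 B fun s => by
      rcases hc with hc | ⟨h15, hj⟩
      · exact q3_coord5 c1 c2 B (q3_omega hN hL s) (by rw [C3] at hc; rw [q3_notA]; omega)
      · obtain ⟨k, k1, k2⟩ := q3_pure hx h15 hN hL s
        have := (q3_jac k).2 (k1.trans hj)
        exact q3_coord5 c1 c2 B k2 (by rw [q3_notA]; omega)
    refine ⟨fun s => decide (rr (G * F) (rep s) (rep s) 1 = 6), fun s t => ?_⟩
    obtain ⟨a, b, c⟩ := key ⟨rep s, rep_coprime s⟩ ⟨rep t, rep_coprime t⟩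
    obtain ⟨d, -⟩ := key ⟨rep t, rep_coprime t⟩ ⟨rep t, rep_coprime t⟩
    simp only [hr] at a b c d
    rw [b, c]
    rcases a with a | a <;> rcases d with d | d <;> simp [a, d]

end Pool.Agent.P.MP_9c97e9_nt.All
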