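import Pool.Agent.P.MP_9c97e9_nt.All.Defs

/-! The Gross formula versus `lam` when `n` is not prime to 15. -/

namespace Pool.Agent.P.MP_9c97e9_nt.All

open Finset Pool.Agent.P.MP_8b7eba_nt Pool.Agent.P.MP_8b7eba_nt.BSD15

/-- the contribution of the primes not dividing 15 -/
def q4_Pi (n A m : ℕ) : ℤ := ∏ p ∈ n.primeFactors with ¬p ∣ 15,
  if p ∣ m then 1 + Xp n p A * Xp n p m * jacobiSym (-15) p else 1

theorem q4_gcd {n m : ℕ} (hn : n ≠ 0) (hm : m ≠ 0) :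
    (Nat.gcd m n).primeFactors = n.primeFactors.filter (fun p => p ∣ m) := by
  rw [Nat.primeFactors_gcd hm hn]
  ext p
  simp only [mem_inter, Nat.mem_primeFactors, mem_filter]
  tauto

theorem q4_jac0 {p : ℕ} (hp : p.Prime) (h : p ∣ 15) : jacobiSym (-15) p = 0 := by
  have h1 : p ≤ 15 := Nat.le_of_dvd (by norm_num) h
  interval_cases p <;> first | (exfalso; revert h; decide) | (exfalso; revert hp; decide) | norm_num

theorem q4_CF {n : ℕ} (hn : n ≠ 0) (J : Finset ℕ) (A : ℕ) {m : ℕ} (hm : m ≠ 0) :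
    CF n J A m = XJ n J A * Rn n A * Rn n m * q4_Pi n A m := by
  rw [CF, q4_gcd hn hm, prod_filter, q4_Pi, prod_filter]
  congr 1
  refine prod_congr rfl fun p hp => ?_
  by_cases h : p ∣ 15
  · rw [if_neg (not_not.2 h), q4_jac0 (Nat.prime_of_mem_primeFactors hp) h]
    simp
  · rw [if_pos h]

theorem q4_hj {p : ℕ} (a b : ℤ) (h : (a : ZMod p) = b) : jacobiSym a p = jacobiSym b p :=
  jacobiSym.mod_left' ((ZMod.intCast_eq_intCast_iff' a b p).1 h)

theorem q4_Xk {n k p : ℕ} (hk : (k : ZMod n) = -15) (hp : p ∈ n.primeFactors) (h : ¬p ∣ 15) :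
    Xp n p k = jacobiSym (-15) p := by
  have hpn := Nat.dvd_of_mem_primeFactors hp
  have hf : (k : ZMod p) = -15 := by
    have := congrArg (ZMod.castHom hpn (ZMod p)) hk
    rwa [map_natCast, map_neg, map_ofNat] at this
  rw [Xp_of_not_dvd n]
  · exact q4_hj _ _ (by push_cast; exact hf)
  · intro h1
    rw [(ZMod.natCast_eq_zero_iff _ _).2 h1] at hf
    exact h ((ZMod.natCast_eq_zero_iff 15 p).1 (by push_cast; linear_combination hf))

theorem q4_CG {n k : ℕ} (hn : n ≠ 0) (hk : (k : ZMod n) = -15) (J : Finset ℕ) (A : ℕ) {m : ℕ}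
    (hm : m ≠ 0) :
    CG n J k A m = XJ n J A * Rn n A * Rn n m * q4_Pi n A m *
      ∏ p ∈ n.primeFactors with p ∣ 15, (1 + Xp n p A * Xp n p m * Xp n p k) := by
  rw [CG, q4_gcd hn (by omega), prod_filter, q4_Pi, prod_filter, prod_filter,
    mul_assoc (XJ n J A * Rn n A * Rn n m), ← prod_mul_distrib]
  congr 1
  refine prod_congr rfl fun p hp => ?_
  have hpp := Nat.prime_of_mem_primeFactors hp
  by_cases h : p ∣ 15
  · rw [if_neg (not_not.2 h), if_pos h, if_pos (h.mul_right m), one_mul]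
  · rw [if_pos h, if_neg h, mul_one, q4_Xk hk hp h]
    refine if_congr ?_ rfl rfl
    rw [hpp.dvd_mul]
    tauto

variable {n : ℕ} [Good n]

theorem q4_ne : n ≠ 0 := by
  have := Good.gt (n := n)
  omega

theorem q4_prod {A : ℕ} (hA : A ≠ 0) (h : Rn n A ≠ 0) : ∏ p ∈ n.primeFactors, Xp n p A = 1 := by
  rw [← ncard_nm_eq (Nat.pos_of_ne_zero hA)] at h
  obtain ⟨I, hI⟩ := Set.nonempty_of_ncard_ne_zero (s := {I : Ideal (OO n) | nm I = A})
    (by exact_mod_cast h)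
  have hI' : nm I = A := hI
  have h0 : I ≠ ⊥ := fun h => hA (hI' ▸ nm_eq_zero.2 h)
  rw [← prod_gch (cls I)]
  exact prod_congr rfl fun p hp => by rw [gch_cls hp h0, hI']

theorem q4_key {K : Ideal (OO n)} (hK : K ≠ ⊥) (hk : ((nm K : ℕ) : ZMod n) = -15) {A m ν : ℕ}
    (hA : A ≠ 0) (hm : m ≠ 0) (e : A + 15 * m = ν * n)
    (h : Rn n A * Rn n m * q4_Pi n A m ≠ 0) :
    ∏ p ∈ n.primeFactors with p ∣ 15, Xp n p A * Xp n p m * Xp n p (nm K) = 1 := by
  have h1 := q4_prod hA (left_ne_zero_of_mul (left_ne_zero_of_mul h))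
  have h2 := q4_prod hm (right_ne_zero_of_mul (left_ne_zero_of_mul h))
  have h3 : ∏ p ∈ n.primeFactors, Xp n p (nm K) = 1 := by
    rw [← prod_gch (cls K)]
    exact prod_congr rfl fun p hp => by rw [gch_cls hp hK]
  have h4 : ∏ p ∈ n.primeFactors, Xp n p A * Xp n p m * Xp n p (nm K) = 1 := by
    rw [prod_mul_distrib, prod_mul_distrib, h1, h2, h3]; norm_num
  have h5 := prod_ne_zero_iff.1 (right_ne_zero_of_mul h)
  rw [← prod_filter_mul_prod_filter_not _ (fun p => p ∣ 15),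
    prod_eq_one (s := n.primeFactors.filter fun p => ¬p ∣ 15), mul_one] at h4
  · exact h4
  intro p hp'
  have h6 := h5 p hp'
  obtain ⟨hp, h15⟩ := mem_filter.1 hp'
  have hpn := Nat.dvd_of_mem_primeFactors hp
  have hpp := Nat.prime_of_mem_primeFactors hp
  have : Fact p.Prime := ⟨hpp⟩
  have s1 := Xp_sq hp hA
  have s2 := Xp_sq hp hm
  have s3 := Xp_sq hp (fun h => hK (nm_eq_zero.1 h))
  rw [q4_Xk hk hp h15] at s3 ⊢
  by_cases hpm : p ∣ m
  · rw [if_pos hpm] at h6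
    have h7 : (Xp n p A * Xp n p m * jacobiSym (-15) p) ^ 2 = 1 := by
      rw [mul_pow, mul_pow, s1, s2, s3]; norm_num
    rcases sq_eq_sq_iff_eq_or_eq_neg.1 (h7.trans (one_pow 2).symm) with h | h
    · exact h
    · rw [h] at h6; norm_num at h6
  · have h15p : (15 : ZMod p) ≠ 0 := fun h =>
      h15 ((ZMod.natCast_eq_zero_iff 15 p).1 (by exact_mod_cast h))
    have hn1 : ((n : ℕ) : ZMod p) = 0 := (ZMod.natCast_eq_zero_iff _ _).2 hpn
    have hA1 : ((A : ℕ) : ZMod p) = -15 * m := by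
      have := congrArg (Nat.cast : ℕ → ZMod p) e
      push_cast at this
      rw [hn1] at this
      linear_combination this
    have hm0 : ((m : ℕ) : ZMod p) ≠ 0 := fun h => hpm ((ZMod.natCast_eq_zero_iff _ _).1 h)
    have hpA : ¬p ∣ A := by
      intro h
      rw [(ZMod.natCast_eq_zero_iff _ _).2 h] at hA1
      exact mul_ne_zero h15p hm0 (by linear_combination hA1)
    have h3 : Xp n p A = jacobiSym (-15) p * Xp n p m := by
      rw [Xp_of_not_dvd n hpA, Xp_of_not_dvd n hpm, ← jacobiSym.mul_left]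
      exact q4_hj _ _ (by push_cast; exact hA1)
    rw [h3]
    linear_combination (Xp n p m ^ 2) * s3 + s2

theorem q4_F_ne {G F : Ideal (OO n)} (h : Aux G F) : nm F ≠ 0 := by
  intro h0
  have h1 := h.cop
  rw [h0, Nat.coprime_zero_left] at h1
  have := Good.gt (n := n)
  omega

theorem q4_GF_ne {G F : Ideal (OO n)} (h : Aux G F) : G * F ≠ ⊥ := by
  intro h0
  have h1 := nm_eq_zero.2 h0
  rw [nm_mul, h.nmG] at h1
  rcases mul_eq_zero.1 h1 with h2 | h2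
  · exact absurd (Nat.eq_zero_of_gcd_eq_zero_right h2) (by norm_num)
  · exact q4_F_ne h h2

omit [Good n] in
theorem q4_mem {p : ℕ} (hn : n ≠ 0) : p ∈ n.primeFactors.filter (fun p => p ∣ 15) ↔
    (p = 3 ∧ 3 ∣ n) ∨ (p = 5 ∧ 5 ∣ n) := by
  rw [mem_filter, Nat.mem_primeFactors]
  constructor
  · rintro ⟨⟨hp, h1, -⟩, h2⟩
    rcases (hp.dvd_mul (m := 3) (n := 5)).1 h2 with h | h
    · obtain rfl := (Nat.prime_dvd_prime_iff_eq hp Nat.prime_three).1 h
      exact Or.inl ⟨rfl, h1⟩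
    · obtain rfl := (Nat.prime_dvd_prime_iff_eq hp Nat.prime_five).1 h
      exact Or.inr ⟨rfl, h1⟩
  · rintro (⟨rfl, h⟩ | ⟨rfl, h⟩)
    · exact ⟨⟨Nat.prime_three, h, hn⟩, by norm_num⟩
    · exact ⟨⟨Nat.prime_five, h, hn⟩, by norm_num⟩

omit [Good n] in
theorem q4_single (hn : n ≠ 0) (h1 : ¬15 ∣ n) (h2 : ¬n.Coprime 15) :
    ∃ q, n.primeFactors.filter (fun p => p ∣ 15) = {q} := by
  by_cases h3 : 3 ∣ n
  · refine ⟨3, ?_⟩
    ext p
    rw [q4_mem hn, mem_singleton]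
    omega
  · have h5 : 5 ∣ n := by
      by_contra h5
      refine h2 (Nat.Coprime.mul_right (m := 3) (n := 5) ?_ ?_)
      · exact ((Nat.prime_three.coprime_iff_not_dvd).2 h3).symm
      · exact ((Nat.prime_five.coprime_iff_not_dvd).2 h5).symm
    refine ⟨5, ?_⟩
    ext p
    rw [q4_mem hn, mem_singleton]
    omega

omit [Good n] in
theorem q4_range {ν m : ℕ} (h : m ∈ mRange (ν * n)) :
    ν * n - 15 * m ≠ 0 ∧ m ≠ 0 ∧ ν * n - 15 * m + 15 * m = ν * n := by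
  simp only [mRange, mem_filter, mem_range] at h
  omega

theorem q4_sum1 (h1 : ¬15 ∣ n) (h2 : ¬n.Coprime 15) {G F : Ideal (OO n)} (h : Aux G F)
    (J : Finset ℕ) (ν : ℕ) :
    ∑ m ∈ mRange (ν * n), CG n J (nm (G * F)) (ν * n - 15 * m) m = 2 * CFsum n J ν := by
  rw [CFsum, mul_sum]
  refine sum_congr rfl fun m hm => ?_
  obtain ⟨hA, hm0, e⟩ := q4_range hm
  obtain ⟨q, hq⟩ := q4_single q4_ne h1 h2
  rw [q4_CG q4_ne h.md J _ hm0, q4_CF q4_ne J _ hm0]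
  by_cases h0 : Rn n (ν * n - 15 * m) * Rn n m * q4_Pi n (ν * n - 15 * m) m = 0
  · linear_combination (XJ n J (ν * n - 15 * m) * (∏ p ∈ n.primeFactors with p ∣ 15,
      (1 + Xp n p (ν * n - 15 * m) * Xp n p m * Xp n p (nm (G * F))) - 2)) * h0
  · have h3 := q4_key (q4_GF_ne h) h.md hA hm0 e h0
    rw [hq, prod_singleton] at h3 ⊢
    rw [h3]
    ring

theorem q4_X15 (h1 : 15 ∣ n) {G F : Ideal (OO n)} (h : Aux G F) {p : ℕ} (hp : p.Prime)
    (hpn : p ∣ n) : Xp n p (nm (G * F)) = Xp n p 15 * jacobiSym (nm F) p := by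
  rw [nm_mul, h.nmG, Nat.gcd_eq_right h1, Xp_mul n hp (by norm_num) (q4_F_ne h),
    Xp_of_not_dvd n (A := nm F)
      fun h2 => hp.one_lt.ne' (Nat.eq_one_of_dvd_coprimes h.cop h2 hpn)]

theorem q4_sum2 (h1 : 15 ∣ n) {G F G' F' : Ideal (OO n)} (h : Aux G F) (h' : Aux G' F')
    (a3 : jacobiSym (nm F) 3 = 1) (a5 : jacobiSym (nm F) 5 = 1)
    (b3 : jacobiSym (nm F') 3 = -1) (b5 : jacobiSym (nm F') 5 = -1) (J : Finset ℕ) (ν : ℕ) :
    ∑ m ∈ mRange (ν * n), CG n J (nm (G * F)) (ν * n - 15 * m) m +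
      ∑ m ∈ mRange (ν * n), CG n J (nm (G' * F')) (ν * n - 15 * m) m = 4 * CFsum n J ν := by
  rw [CFsum, mul_sum, ← sum_add_distrib]
  refine sum_congr rfl fun m hm => ?_
  obtain ⟨hA, hm0, e⟩ := q4_range hm
  have h3 : 3 ∣ n := dvd_trans (by norm_num) h1
  have h5 : 5 ∣ n := dvd_trans (by norm_num) h1
  have hq : n.primeFactors.filter (fun p => p ∣ 15) = {3, 5} := by
    ext p
    rw [q4_mem q4_ne, mem_insert, mem_singleton]
    tauto
  rw [q4_CG q4_ne h.md J _ hm0, q4_CG q4_ne h'.md J _ hm0, q4_CF q4_ne J _ hm0]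
  by_cases h0 : Rn n (ν * n - 15 * m) * Rn n m * q4_Pi n (ν * n - 15 * m) m = 0
  · linear_combination (XJ n J (ν * n - 15 * m) * (∏ p ∈ n.primeFactors with p ∣ 15,
      (1 + Xp n p (ν * n - 15 * m) * Xp n p m * Xp n p (nm (G * F))) +
      ∏ p ∈ n.primeFactors with p ∣ 15,
      (1 + Xp n p (ν * n - 15 * m) * Xp n p m * Xp n p (nm (G' * F'))) - 4)) * h0
  · have h4 := q4_key (q4_GF_ne h) h.md hA hm0 e h0
    rw [hq, prod_pair (by norm_num)] at h4
    rw [hq, prod_pair (by norm_num), prod_pair (by norm_num)]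
    rw [q4_X15 h1 h Nat.prime_three h3, q4_X15 h1 h Nat.prime_five h5, a3, a5] at h4 ⊢
    rw [q4_X15 h1 h' Nat.prime_three h3, q4_X15 h1 h' Nat.prime_five h5, b3, b5]
    linear_combination (2 * XJ n J (ν * n - 15 * m) * Rn n (ν * n - 15 * m) * Rn n m *
      q4_Pi n (ν * n - 15 * m) m) * h4

theorem q4_XJ (h1 : 15 ∣ n) {G F : Ideal (OO n)} (h : Aux G F) {ε : ℤ}
    (a3 : jacobiSym (nm F) 3 = ε) (a5 : jacobiSym (nm F) 5 = ε) {J : Finset ℕ}
    (hJ : J ⊆ n.primeFactors) (h4 : (∏ p ∈ J, p) % 4 = 1) :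
    XJ n J (nm F) = (if 3 ∈ J then -ε else 1) * (if 5 ∈ J then ε else 1) := by
  have e1 : ∏ p ∈ J, ZMod.χ₄ (p : ZMod 4) = 1 := by
    rw [← map_prod, ← Nat.cast_prod]
    exact ZMod.χ₄_nat_one_mod_four h4
  rw [← prod_ite_eq' J 3 fun _ => -ε, ← prod_ite_eq' J 5 fun _ => ε, ← prod_mul_distrib]
  refine Eq.trans ?_ ((congrArg (· * _) e1).trans (one_mul _))
  rw [← prod_mul_distrib, XJ]
  refine prod_congr rfl fun p hp => ?_
  have hp' := hJ hp
  have hpn := Nat.dvd_of_mem_primeFactors hp'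
  have hpp := Nat.prime_of_mem_primeFactors hp'
  rw [Xp_of_not_dvd n (A := nm F)
    fun h2 => hpp.one_lt.ne' (Nat.eq_one_of_dvd_coprimes h.cop h2 hpn)]
  by_cases p3 : p = 3
  · subst p3
    rw [a3, ZMod.χ₄_nat_three_mod_four (by norm_num)]
    simp
  by_cases p5 : p = 5
  · subst p5
    rw [a5, ZMod.χ₄_nat_one_mod_four (by norm_num)]
    simp
  rw [if_neg p3, if_neg p5, mul_one, mul_one,
    ← jacobiSym.at_neg_one (hpp.odd_of_ne_two (gross_p_odd hp'))]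
  have : Fact p.Prime := ⟨hpp⟩
  have h15 : ¬p ∣ 15 := fun h2 => by
    have := (q4_mem (p := p) (q4_ne (n := n))).1 (mem_filter.2 ⟨hp', h2⟩)
    omega
  have h15p : (15 : ZMod p) ≠ 0 := fun h =>
    h15 ((ZMod.natCast_eq_zero_iff 15 p).1 (by exact_mod_cast h))
  have hf := congrArg (ZMod.castHom hpn (ZMod p)) h.md
  rw [map_natCast, map_neg, map_ofNat, nm_mul, h.nmG, Nat.gcd_eq_right h1] at hf
  push_cast at hf
  refine q4_hj _ _ ?_
  push_cast
  exact mul_left_cancel₀ h15p (by linear_combination hf)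

theorem q4_red (Φ : Finset ℕ → ℤ) (c : ℤ)
    (hΦ : ∀ J ⊆ n.primeFactors, Φ (n.primeFactors \ J) = Φ J)
    (h : ∀ J ⊆ n.primeFactors, J ≠ ∅ → (∏ p ∈ J, p) % 4 = 1 → Φ J = c * LM n J) :
    ∀ J ⊆ n.primeFactors, J ≠ ∅ → J ≠ n.primeFactors → Φ J = c * LM n J := by
  intro J hJ h0 h1
  have hprod : (∏ p ∈ n.primeFactors \ J, p) * ∏ p ∈ J, p = n := by
    rw [prod_sdiff hJ, Nat.prod_primeFactors_of_squarefree Good.sq]
  have h4 : n % 4 = 3 := Good.h4
  have hpos : 0 < n := by omega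
  by_cases h2 : (∏ p ∈ J, p) % 4 = 1
  · exact h J hJ h0 h2
  · have h' : (∏ p ∈ n.primeFactors \ J, p) % 4 = 1 := by
      rw [← hprod, Nat.mul_mod] at h4
      have := Nat.mod_lt (∏ p ∈ n.primeFactors \ J, p) (show 0 < 4 by norm_num)
      have := Nat.mod_lt (∏ p ∈ J, p) (show 0 < 4 by norm_num)
      generalize (∏ p ∈ n.primeFactors \ J, p) % 4 = x at *
      generalize (∏ p ∈ J, p) % 4 = y at *
      interval_cases x <;> interval_cases y <;> simp_all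
    have e := h (n.primeFactors \ J) sdiff_subset
      (fun h2 => h1 (subset_antisymm hJ (sdiff_eq_empty_iff_subset.1 h2))) h'
    have d1 : n / ∏ p ∈ n.primeFactors \ J, p = ∏ p ∈ J, p :=
      Nat.div_eq_of_eq_mul_right (Nat.pos_of_mul_pos_right (hprod ▸ hpos)) hprod.symm
    have d2 : n / ∏ p ∈ J, p = ∏ p ∈ n.primeFactors \ J, p :=
      Nat.div_eq_of_eq_mul_left (Nat.pos_of_mul_pos_left (hprod ▸ hpos)) hprod.symm
    rw [hΦ J hJ] at e
    rw [e, LM, LM, d1, d2, mul_comm (lam _)]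

theorem q4_compl (F : Ideal (OO n)) {J : Finset ℕ} (hJ : J ⊆ n.primeFactors) (ν : ℕ) :
    SS F (n.primeFactors \ J) ν = SS F J ν := by
  simp only [SS, gJ_compl hJ]

theorem q4_mod (hM : S_Mod) (h2 : ¬n.Coprime 15) {J : Finset ℕ} (hJ : J ⊆ n.primeFactors)
    (h0 : J ≠ ∅) (h1 : (∏ p ∈ J, p) % 4 = 1) :
    ∃ n₂, n = (∏ p ∈ J, p) * n₂ ∧ ee (∏ p ∈ J, p) n₂ * Fintype.card (ClassGroup (OO n)) +
      2 * (CFsum n J 1 : ℚ) = -(LM n J : ℚ) := by
  have hd : (∏ p ∈ J, p) ∣ n :=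
    (prod_dvd_prod_of_subset _ _ _ hJ).trans (Nat.prod_primeFactors_dvd n)
  have hp : ∀ p ∈ J, p.Prime := fun p hp => Nat.prime_of_mem_primeFactors (hJ hp)
  obtain ⟨n₂, hn⟩ := hd
  have hpf : (∏ p ∈ J, p).primeFactors = J := Nat.primeFactors_prod hp
  have hpos : 1 < ∏ p ∈ J, p := by
    by_contra hlt
    have : (∏ p ∈ J, p) = 1 := by omega
    rw [this, Nat.primeFactors_one] at hpf
    exact h0 hpf.symm
  have h4 : n % 4 = 3 := Good.h4
  have h42 : n₂ % 4 = 3 := by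
    rw [hn, Nat.mul_mod, h1, one_mul, Nat.mod_mod] at h4; exact h4
  have e := hM.1 _ n₂ (hn ▸ Good.sq) hpos h1 h42 (hn ▸ h2)
  rw [← hn, hpf, ← class_number_formula n] at e
  have hdiv : n / ∏ p ∈ J, p = n₂ := by
    rw [hn, Nat.mul_div_cancel_left _ (by omega)]
  refine ⟨n₂, hn, ?_⟩
  rw [e, LM, hdiv]
  push_cast
  rfl

theorem q4_ee (h1 : 15 ∣ n) {J : Finset ℕ} (hJ : J ⊆ n.primeFactors) {n₂ : ℕ}
    (hn : n = (∏ p ∈ J, p) * n₂) :
    ee (∏ p ∈ J, p) n₂ = if 3 ∈ J then (if 5 ∈ J then 0 else 1) else if 5 ∈ J then 1 else 2 := by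
  have hp : ∀ p ∈ J, p.Prime := fun p hp => Nat.prime_of_mem_primeFactors (hJ hp)
  have hpf : (∏ p ∈ J, p).primeFactors = J := Nat.primeFactors_prod hp
  have hne : (∏ p ∈ J, p) ≠ 0 := prod_ne_zero_iff.2 fun p h => (hp p h).ne_zero
  have hco : (∏ p ∈ J, p).Coprime n₂ := Nat.coprime_of_squarefree_mul (hn ▸ Good.sq)
  have key : ∀ q : ℕ, q.Prime → q ∣ n → (q ∈ J ↔ q ∣ ∏ p ∈ J, p) ∧ (q ∈ J ↔ ¬q ∣ n₂) := by
    intro q hq hqn
    have a1 : q ∈ J ↔ q ∣ ∏ p ∈ J, p := by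
      conv_lhs => rw [← hpf, Nat.mem_primeFactors]
      tauto
    refine ⟨a1, a1.trans ⟨fun h h' => hq.one_lt.ne' (Nat.eq_one_of_dvd_coprimes hco h h'),
      fun h => ?_⟩⟩
    rw [hn, hq.dvd_mul] at hqn
    tauto
  obtain ⟨a1, a2⟩ := key 3 Nat.prime_three (dvd_trans (by norm_num) h1)
  obtain ⟨b1, b2⟩ := key 5 Nat.prime_five (dvd_trans (by norm_num) h1)
  have c1 : 15 ∣ ∏ p ∈ J, p ↔ 3 ∈ J ∧ 5 ∈ J := by rw [a1, b1]; omega
  have c2 : 15 ∣ n₂ ↔ 3 ∉ J ∧ 5 ∉ J := by rw [a2, b2]; omega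
  rw [ee]
  by_cases h3 : 3 ∈ J <;> by_cases h5 : 5 ∈ J <;> simp [c1, c2, h3, h5]

theorem qGL (hG : S_Gr) (hM : S_Mod) : S_GL := by
  intro n _
  refine ⟨fun h1 h2 G F h => ⟨?_, ?_⟩, fun h1 G F G' F' h h' a3 a5 b3 b5 => ⟨?_, ?_⟩⟩
  · refine q4_red (fun J => SS (G * F) J 1) (-2) (fun J hJ => q4_compl _ hJ 1) fun J hJ h0 h4 => ?_
    obtain ⟨n₂, hn, e⟩ := q4_mod hM h2 hJ h0 h4
    have e1 : ee (∏ p ∈ J, p) n₂ = 1 := by
      rw [ee, if_neg fun h => h1 (hn ▸ h.mul_right _), if_neg fun h => h1 (hn ▸ h.mul_left _)]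
    have e2 := hG n G F h J hJ 1 (Or.inl rfl)
    rw [if_neg h1, q4_sum1 h1 h2 h, XJ_one, Rn_one] at e2
    rw [e1] at e
    have e' : (Fintype.card (ClassGroup (OO n)) : ℤ) + 2 * CFsum n J 1 = -LM n J := by
      rw [one_mul] at e
      exact_mod_cast e
    linear_combination e2 + 2 * e'
  · have e1 := hG n G F h ∅ (empty_subset _) 1 (Or.inl rfl)
    have e2 := hG n G F h ∅ (empty_subset _) 2 (Or.inr rfl)
    rw [if_neg h1, q4_sum1 h1 h2 h] at e1 e2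
    simp only [XJ, prod_empty, Rn_one, Rn_two] at e1 e2
    have e := hM.2 n Good.sq Good.h4 h2
    rw [← class_number_formula n, ee, if_neg (by norm_num), if_neg h1] at e
    have e' : ((1 + jacobiSym 2 n) * (Fintype.card (ClassGroup (OO n)) : ℤ) + 2 * CFsum n ∅ 2) -
        3 * ((Fintype.card (ClassGroup (OO n)) : ℤ) + 2 * CFsum n ∅ 1) = -lam n := by
      rw [one_mul, one_mul] at e
      exact_mod_cast e
    linear_combination e2 - 3 * e1 + 2 * e'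
  · have h2 : ¬n.Coprime 15 := fun hc => by
      have := Nat.eq_one_of_dvd_coprimes hc h1 dvd_rfl
      omega
    refine q4_red (fun J => SS (G * F) J 1 + SS (G' * F') J 1) (-4)
      (fun J hJ => by simp only [q4_compl _ hJ 1]) fun J hJ h0 h4 => ?_
    obtain ⟨n₂, hn, e⟩ := q4_mod hM h2 hJ h0 h4
    have e1 := hG n G F h J hJ 1 (Or.inl rfl)
    have e2 := hG n G' F' h' J hJ 1 (Or.inl rfl)
    have e3 := q4_sum2 h1 h h' a3 a5 b3 b5 J 1
    rw [if_pos h1, XJ_one, Rn_one] at e1 e2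
    rw [q4_XJ h1 h a3 a5 hJ h4] at e1
    rw [q4_XJ h1 h' b3 b5 hJ h4] at e2
    rw [q4_ee h1 hJ hn] at e
    have e' : (if 3 ∈ J then (if 5 ∈ J then 0 else 1) else if 5 ∈ J then 1 else 2 : ℤ) *
        (Fintype.card (ClassGroup (OO n)) : ℤ) + 2 * CFsum n J 1 = -LM n J := by
      exact_mod_cast e
    by_cases h3 : 3 ∈ J <;> by_cases h5 : 5 ∈ J <;>
      simp only [h3, h5, if_true, if_false] at e1 e2 e' <;>
      linear_combination e1 + e2 + 2 * e3 + 4 * e'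
  · have h2 : ¬n.Coprime 15 := fun hc => by
      have := Nat.eq_one_of_dvd_coprimes hc h1 dvd_rfl
      omega
    have e1 := hG n G F h ∅ (empty_subset _) 1 (Or.inl rfl)
    have e2 := hG n G F h ∅ (empty_subset _) 2 (Or.inr rfl)
    have f1 := hG n G' F' h' ∅ (empty_subset _) 1 (Or.inl rfl)
    have f2 := hG n G' F' h' ∅ (empty_subset _) 2 (Or.inr rfl)
    have g1 := q4_sum2 h1 h h' a3 a5 b3 b5 ∅ 1
    have g2 := q4_sum2 h1 h h' a3 a5 b3 b5 ∅ 2
    rw [if_pos h1] at e1 e2 f1 f2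
    simp only [XJ, prod_empty, Rn_one, Rn_two] at e1 e2 f1 f2
    have e := hM.2 n Good.sq Good.h4 h2
    rw [← class_number_formula n, ee, if_neg (by norm_num), if_pos h1] at e
    have e' : (2 * (1 + jacobiSym 2 n) * (Fintype.card (ClassGroup (OO n)) : ℤ) + 2 * CFsum n ∅ 2) -
        3 * (2 * (Fintype.card (ClassGroup (OO n)) : ℤ) + 2 * CFsum n ∅ 1) = -lam n := by
      exact_mod_cast e
    linear_combination e2 - 3 * e1 + f2 - 3 * f1 + 2 * g2 - 6 * g1 + 4 * e'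

end Pool.Agent.P.MP_9c97e9_nt.All
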