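import Pool.Agent.P.MP_9c97e9_nt.All.Defs

/-! Interfaces for the induction on the number of prime factors. -/

namespace Pool.Agent.P.MP_9c97e9_nt.All

open Finset Pool.Agent.P.MP_8b7eba_nt Pool.Agent.P.MP_8b7eba_nt.BSD15

section
variable {n : ℕ} [Good n]

theorem q5_split (χ t : ClassGroup (OO n) → ℤ) (c : ℤ) :
    ∑ g, χ g * (1 - c * t g) = ∑ g, χ g - c * ∑ g, χ g * t g := by
  rw [mul_sum, ← sum_sub_distrib]
  exact sum_congr rfl fun g _ => by ring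

theorem q5_B (hH : S_Had) {F : Ideal (OO n)} (h : TyB F) :
    ∃ P : Finset ℕ → ℤ, Had n 1 P ∧
      (∀ J ⊆ n.primeFactors, J ≠ ∅ → J ≠ n.primeFactors → P J ^ 2 = 2 * SS F J 1) ∧
      SS F ∅ 2 - 3 * SS F ∅ 1 = -2 * P ∅ ^ 2 := by
  obtain ⟨τ, hτ⟩ := h
  let t : ClassGroup (OO n) → ℤ := fun g => if τ g then 1 else 0
  have hr : ∀ x y, ((rr F (rep x) (rep y) 1 : ℤ) = 2 * ((1 - t x) * (1 - t y)) +
      0 * (t x * (1 - t y) + (1 - t x) * t y) + 6 * (t x * t y)) ∧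
      ((rr F (rep x) (rep y) 2 : ℤ) = 4 * ((1 - t x) * (1 - t y)) +
      6 * (t x * (1 - t y) + (1 - t x) * t y) + 0 * (t x * t y)) := by
    intro x y
    obtain ⟨b, c⟩ := hτ x y
    rw [b, c]
    cases a : τ x <;> cases d : τ y <;> simp [t, a, d]
  refine ⟨_, hH n 1 t, fun J hJ h0 h1 => ?_, ?_⟩
  · unfold SS
    rw [sum_kernel _ t _ _ _ _ fun x y => (hr x y).1, q5_split, sum_gJ_eq_zero hJ h0 h1]
    ring
  · unfold SS
    rw [sum_kernel _ t _ _ _ _ fun x y => (hr x y).1, sum_kernel _ t _ _ _ _ fun x y => (hr x y).2,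
      q5_split]
    ring

theorem q5_A (hH : S_Had) {F : Ideal (OO n)} (h : TyA F) :
    ∃ Q : Finset ℕ → ℤ, Had n 0 Q ∧
      (∀ J ⊆ n.primeFactors, J ≠ ∅ → J ≠ n.primeFactors → 2 * Q J ^ 2 = SS F J 1) ∧
      SS F ∅ 2 - 3 * SS F ∅ 1 = -8 * Q ∅ ^ 2 ∧ (3 ∣ n → Q ∅ = 0) := by
  obtain ⟨τ, hτ, hc⟩ := h
  let t : ClassGroup (OO n) → ℤ := fun g => if τ g then 1 else 0
  have hr : ∀ x y, ((rr F (rep x) (rep y) 1 : ℤ) = 4 * ((1 - t x) * (1 - t y)) +
      0 * (t x * (1 - t y) + (1 - t x) * t y) + 4 * (t x * t y)) ∧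
      ((rr F (rep x) (rep y) 2 : ℤ) = 4 * ((1 - t x) * (1 - t y)) +
      8 * (t x * (1 - t y) + (1 - t x) * t y) + 4 * (t x * t y)) := by
    intro x y
    obtain ⟨b, c⟩ := hτ x y
    rw [b, c]
    cases a : τ x <;> cases d : τ y <;> simp [t, a, d]
  refine ⟨_, hH n 0 t, fun J hJ h0 h1 => ?_, ?_, fun h3 => ?_⟩
  · unfold SS
    rw [sum_kernel _ t _ _ _ _ fun x y => (hr x y).1, q5_split, sum_gJ_eq_zero hJ h0 h1]
    ring
  · unfold SS
    rw [sum_kernel _ t _ _ _ _ fun x y => (hr x y).1, sum_kernel _ t _ _ _ _ fun x y => (hr x y).2,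
      q5_split]
    ring
  · obtain ⟨c, hc⟩ := hc h3
    refine sum_eq_zero_of_transl univ _ c (by simp) fun x => ?_
    have := hc x
    simp only [gJ, prod_empty, one_mul, t]
    cases a : τ x <;> cases d : τ (x * c) <;> simp_all

end

theorem q5_abs {x y c : ℤ} (hc : 0 < c) (hx : 0 ≤ x) (h : x = -c * y) : x = c * |y| := by
  have : y ≤ 0 := by
    by_contra h'
    have := mul_pos hc (not_le.1 h')
    linarith
  rw [abs_of_nonpos this, h]
  ring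

theorem q5_B5 (hH : S_Had) {n : ℕ} (h : B5 n) : Ifc n 1 1 2 2 := by
  classical
  obtain ⟨hsq, h4, h3, h5⟩ := h
  have : Good n := ⟨hsq, h4, by omega⟩
  have hA : Adm n := adm_of hsq h4 (by omega) (by omega)
  have hc : n.Coprime 15 := Nat.Coprime.coprime_dvd_right (by norm_num) hA.2
  have h15 := jac15_of h4 (Or.inl ⟨h3, h5⟩)
  obtain ⟨F, hF⟩ := exists_aux (jac_neg15_of h4 h15)
  have hB : TyB F := by
    refine ⟨fun s => decide (rr F (rep s) (rep s) 1 = 6), fun x y => ?_⟩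
    obtain ⟨a, b, c⟩ := types5 hF hc h3 (rep_coprime x) (rep_coprime y)
    obtain ⟨d, -⟩ := types5 hF hc h3 (rep_coprime y) (rep_coprime y)
    rw [b, c]
    rcases a with a | a <;> rcases d with d | d <;> simp [a, d]
  obtain ⟨P, h1, h2, h6⟩ := q5_B hH hB
  refine ⟨P, h1, fun J hJ h0 h1 => ?_, ?_⟩
  · have e : SS F J 1 = -LM n J := gross_nontriv hF hA h15 hJ h0 h1
    refine q5_abs (by norm_num) (by positivity) ?_
    rw [h2 J hJ h0 h1, e]
    ring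
  · have e := gross_triv hF hA h15
    simp only [SS, gJ, prod_empty, one_mul] at h6
    linear_combination h6 - e

theorem q5_B3 (hH : S_Had) {n : ℕ} (h : B3 n) : Ifc n 0 2 1 8 := by
  classical
  obtain ⟨hsq, h4, h3, h5⟩ := h
  have : Good n := ⟨hsq, h4, by omega⟩
  have hA : Adm n := adm_of hsq h4 (by omega) (by omega)
  have hc : n.Coprime 15 := Nat.Coprime.coprime_dvd_right (by norm_num) hA.2
  have h15 := jac15_of h4 (Or.inr ⟨h3, h5⟩)
  obtain ⟨F, hF⟩ := exists_aux (jac_neg15_of h4 h15)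
  have hB : TyA F := by
    obtain ⟨τ, hτ⟩ := types3 hF hc h5
    exact ⟨τ, hτ, fun h => absurd h (by omega)⟩
  obtain ⟨P, h1, h2, h6, -⟩ := q5_A hH hB
  refine ⟨P, h1, fun J hJ h0 h1 => ?_, ?_⟩
  · have e : SS F J 1 = -LM n J := gross_nontriv hF hA h15 hJ h0 h1
    refine q5_abs (by norm_num) (by positivity) ?_
    rw [h2 J hJ h0 h1, e]
    ring
  · have e := gross_triv hF hA h15
    simp only [SS, gJ, prod_empty, one_mul] at h6
    linear_combination h6 - e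

theorem q5_ncop {n : ℕ} (h : 3 ∣ n ∨ 5 ∣ n) : ¬n.Coprime 15 := by
  intro hc
  rcases h with h | h
  · have := Nat.eq_one_of_dvd_coprimes hc h (by norm_num)
    omega
  · have := Nat.eq_one_of_dvd_coprimes hc h (by norm_num)
    omega

theorem qI (hA : S_Aux) (hT : S_Ty) (hL : S_GL) (hH : S_Had) : S_I := by
  intro n hsq h4 hn
  have : Good n := ⟨hsq, h4, hn⟩
  refine ⟨q5_B5 hH, q5_B3 hH, fun h => ?_, fun h => ?_, fun h => ?_⟩
  · have h15 : ¬15 ∣ n := by unfold C3 at h; omega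
    have hc : ¬n.Coprime 15 := q5_ncop (by unfold C3 at h; tauto)
    obtain ⟨G, F, hx⟩ := (hA n).1 h15 hc
    obtain ⟨P, h1, h2, h6⟩ := q5_B hH ((hT n G F hx).2 (Or.inl h))
    obtain ⟨e1, e2⟩ := (hL n).1 h15 hc G F hx
    refine ⟨P, h1, fun J hJ h0 h1 => ?_, by linarith⟩
    refine q5_abs (by norm_num) (by positivity) ?_
    rw [h2 J hJ h0 h1, e1 J hJ h0 h1]
    ring
  · have h15 : ¬15 ∣ n := by unfold C4 at h; omega
    have hc : ¬n.Coprime 15 := q5_ncop (by unfold C4 at h; tauto)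
    obtain ⟨G, F, hx⟩ := (hA n).1 h15 hc
    obtain ⟨P, h1, h2, h6, -⟩ := q5_A hH ((hT n G F hx).1 (Or.inl h))
    obtain ⟨e1, e2⟩ := (hL n).1 h15 hc G F hx
    refine ⟨P, h1, fun J hJ h0 h1 => ?_, by linarith⟩
    refine q5_abs (by norm_num) (by positivity) ?_
    have := h2 J hJ h0 h1
    rw [e1 J hJ h0 h1] at this
    linarith
  · obtain ⟨G, F, hx, a3, a5⟩ := (hA n).2 h 1 (Or.inl rfl)
    obtain ⟨G', F', hx', b3, b5⟩ := (hA n).2 h (-1) (Or.inr rfl)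
    obtain ⟨Q, -, q2, q6, q7⟩ := q5_A hH ((hT n G F hx).1 (Or.inr ⟨h, a3⟩))
    obtain ⟨P, h1, h2, h6⟩ := q5_B hH ((hT n G' F' hx').2 (Or.inr ⟨h, b3⟩))
    obtain ⟨e1, e2⟩ := (hL n).2 h G F G' F' hx hx' a3 a5 b3 b5
    refine ⟨P, Q, h1, fun J hJ h0 h1 => ?_, ?_⟩
    · refine q5_abs (by norm_num) (by positivity) ?_
      linear_combination h2 J hJ h0 h1 + 2 * q2 J hJ h0 h1 + 2 * e1 J hJ h0 h1
    · rw [q7 (Dvd.dvd.trans (by norm_num) h)] at q6
      linarith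

end Pool.Agent.P.MP_9c97e9_nt.All
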