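import Pool.Agent.P.MP_9c97e9_nt.All.AX
import Pool.Agent.P.MP_9c97e9_nt.All.AZ
import Pool.Agent.P.MP_9c97e9_nt.All.CB
import Pool.Agent.P.MP_9c97e9_nt.All.CF
import Pool.Agent.P.MP_9c97e9_nt.All.CG
import Pool.Agent.P.MP_9c97e9_nt.All.CN
import Pool.Agent.P.MP_9c97e9_nt.All.CP
import Pool.Agent.P.MP_9c97e9_nt.All.CT
import Pool.Agent.P.MP_9c97e9_nt.All.CW
import Pool.Agent.P.MP_9c97e9_nt.All.G2
import Pool.Agent.P.MP_9c97e9_nt.All.G3
import Pool.Agent.P.MP_9c97e9_nt.All.Glue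
import Pool.Agent.P.MP_9c97e9_nt.All.I1
import Pool.Agent.P.MP_9c97e9_nt.All.I2
import Pool.Agent.P.MP_9c97e9_nt.All.I3
import Pool.Agent.P.MP_9c97e9_nt.All.L
import Pool.Agent.P.MP_9c97e9_nt.All.L2
import Pool.Agent.P.MP_9c97e9_nt.All.LA
import Pool.Agent.P.MP_9c97e9_nt.All.LG
import Pool.Agent.P.MP_9c97e9_nt.All.LN
import Pool.Agent.P.MP_9c97e9_nt.All.M1
import Pool.Agent.P.MP_9c97e9_nt.All.M2
import Pool.Agent.P.MP_9c97e9_nt.All.M3
import Pool.Agent.P.MP_9c97e9_nt.All.M4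
import Pool.Agent.P.MP_9c97e9_nt.All.M5
import Pool.Agent.P.MP_9c97e9_nt.All.ME
import Pool.Agent.P.MP_9c97e9_nt.All.Q0
import Pool.Agent.P.MP_9c97e9_nt.All.Q1
import Pool.Agent.P.MP_9c97e9_nt.All.Q2
import Pool.Agent.P.MP_9c97e9_nt.All.Q3
import Pool.Agent.P.MP_9c97e9_nt.All.Q4
import Pool.Agent.P.MP_9c97e9_nt.All.Q5
import Pool.Agent.P.MP_9c97e9_nt.All.Tam

/-! The analytic and the arithmetic statements, without hypotheses. -/

namespace Pool.Agent.P.MP_9c97e9_nt.All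

theorem sV : S_V :=
  have hI : S_I := qI qAux (qTy qBr) (qGL qGr (mMod (mPL mLS) mCross mEnds mMW)) qHad
  have hV : S_Van := mVan mLS
  have hE : S_Ex := iEx hI hV
  have hG : S_G := cG cT cKer
  have hK : S_K := cK cF cT
  iV hV hE (iB3 hI hE (iPm hI hV hE (cP (cW cF) cT hK) hG) hG) (cB cT cKer (cN cF cT hK)) hG

theorem sA : S_A := aA (aAX aLocR aLoc2 aLocA aLocG aLocN) aAY (aAZ aLocR aLoc2 aLocG aLocN)

theorem period_pos {n : ℕ} (h4 : n % 4 = 3) : 0 < period (tw n) := by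
  have h9 : (0 : ℝ) < n := by exact_mod_cast (show 0 < n by omega)
  have := per_II
  have := Real.pi_pos
  rw [period_tw h4]
  exact div_pos (by linarith) (Real.sqrt_pos.2 h9)

theorem TP_ne_zero (n : ℕ) : TP n ≠ 0 := by
  unfold TP
  split_ifs <;> positivity

end Pool.Agent.P.MP_9c97e9_nt.All
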